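import Pool.Agent.Lib.MP_cfacaa_ag.Fl.Defs

/-! Row fl-A1: block diagonal and lower triangular matrices; products of semi-invariants. -/

namespace Pool.Agent.MP_cfacaa_ag.Fl

open MvPolynomial

section

variable {I κ R : Type} [Fintype I] [LinearOrder I] [CommRing R] {blk : I → κ}

/-- `(A * B) x y = ∑ z, A x z * B z y`, `blk x ≠ blk z` or `blk z ≠ blk y`. -/
theorem BD.mul {A B : Matrix I I R} (hA : BD blk A) (hB : BD blk B) : BD blk (A * B) := by
  intro x y hxy
  rw [Matrix.mul_apply]
  refine Finset.sum_eq_zero fun z _ => ?_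
  by_cases h : blk x = blk z
  · have h1 : blk z ≠ blk y := fun h2 => hxy (h.trans h2)
    rw [hB z y h1, mul_zero]
  · rw [hA x z h, zero_mul]

theorem BD.one : BD blk (1 : Matrix I I R) := by
  intro x y hxy
  have h : x ≠ y := fun h => hxy (congrArg blk h)
  exact Matrix.one_apply_ne h

theorem Low.bd {b : Matrix I I R} (hb : Low blk b) : BD blk b := by
  intro x y hxy
  by_contra h
  exact hxy (hb x y h).1

theorem Low.one : Low blk (1 : Matrix I I R) := by
  intro x y hxy
  by_cases h : x = y
  · subst h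
    exact ⟨rfl, le_rfl⟩
  · exact absurd (Matrix.one_apply_ne h) hxy

/-- If `(b * c) x y ≠ 0` there is `z` with `b x z ≠ 0`, `c z y ≠ 0`. -/
theorem Low.mul {b c : Matrix I I R} (hb : Low blk b) (hc : Low blk c) : Low blk (b * c) := by
  intro x y hxy
  rw [Matrix.mul_apply] at hxy
  obtain ⟨z, -, hz⟩ := Finset.exists_ne_zero_of_sum_ne_zero hxy
  have h1 := hb x z (left_ne_zero_of_mul hz)
  have h2 := hc z y (right_ne_zero_of_mul hz)
  exact ⟨h1.1.trans h2.1, h2.2.trans h1.2⟩

theorem chi_zero (b : Matrix I I R) : chi blk 0 b = 1 := by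
  unfold chi
  simp only [Pi.zero_apply, pow_zero, Finset.prod_const_one]

theorem chi_add (e e' : Pos blk → ℕ) (b : Matrix I I R) : chi blk (e + e') b = chi blk e b * chi blk e' b := by
  unfold chi
  simp only [Pi.add_apply, pow_add, Finset.prod_mul_distrib]

theorem Semi.zero (e : Pos blk → ℕ) : Semi blk e (0 : MvPolynomial (I × I) R) := by
  intro b A _ _
  unfold ev
  rw [map_zero, map_zero, mul_zero]

theorem Semi.one : Semi blk 0 (1 : MvPolynomial (I × I) R) := by
  intro b A _ _
  unfold ev
  rw [map_one, map_one, chi_zero, mul_one]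

theorem Semi.mul {e e' : Pos blk → ℕ} {P Q : MvPolynomial (I × I) R} (hP : Semi blk e P) (hQ : Semi blk e' Q) :
    Semi blk (e + e') (P * Q) := by
  intro b A hb hA
  have h1 := hP b A hb hA
  have h2 := hQ b A hb hA
  unfold ev at h1 h2 ⊢
  rw [map_mul, map_mul, h1, h2, chi_add]
  ring

theorem Semi.add {e : Pos blk → ℕ} {P Q : MvPolynomial (I × I) R} (hP : Semi blk e P) (hQ : Semi blk e Q) :
    Semi blk e (P + Q) := by
  intro b A hb hA
  have h1 := hP b A hb hA
  have h2 := hQ b A hb hA
  unfold ev at h1 h2 ⊢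
  rw [map_add, map_add, h1, h2]
  ring

theorem Semi.C_mul {e : Pos blk → ℕ} {P : MvPolynomial (I × I) R} (hP : Semi blk e P) (c : R) :
    Semi blk e (C c * P) := by
  intro b A hb hA
  have h1 := hP b A hb hA
  unfold ev at h1 ⊢
  rw [map_mul, map_mul, h1, aeval_C, aeval_C]
  ring

theorem Semi.pow {e : Pos blk → ℕ} {P : MvPolynomial (I × I) R} (hP : Semi blk e P) (n : ℕ) :
    Semi blk (n • e) (P ^ n) := by
  induction n with
  | zero =>
    rw [zero_smul, pow_zero]
    exact Semi.one
  | succ n ih =>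
    rw [succ_nsmul, pow_succ]
    exact ih.mul hP

theorem Semi.prod {ι : Type} (s : Finset ι) (e : ι → Pos blk → ℕ) (P : ι → MvPolynomial (I × I) R)
    (h : ∀ a ∈ s, Semi blk (e a) (P a)) : Semi blk (∑ a ∈ s, e a) (∏ a ∈ s, P a) := by
  classical
  induction s using Finset.induction_on with
  | empty =>
    rw [Finset.sum_empty, Finset.prod_empty]
    exact Semi.one
  | insert a s ha ih =>
    rw [Finset.sum_insert ha, Finset.prod_insert ha]
    exact (h a (Finset.mem_insert_self a s)).mul (ih fun x hx => h x (Finset.mem_insert_of_mem hx))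

/-- every weight is a sum of fundamental weights -/
theorem sum_om (e : Pos blk → ℕ) : ∑ j, e j • om j = e := by
  classical
  funext l
  rw [Finset.sum_apply, Finset.sum_eq_single l]
  · simp only [Pi.smul_apply, om, if_true, smul_eq_mul, mul_one]
  · intro j _ hj
    have h : ¬ l = j := fun h => hj h.symm
    simp only [Pi.smul_apply, om, if_neg h, smul_zero]
  · intro h
    exact absurd (Finset.mem_univ l) h

end

end Pool.Agent.MP_cfacaa_ag.Fl
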