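import Pool.Agent.Lib.MP_cfacaa_ag.Fl.A1

/-! Row fl-A2: minors. -/

namespace Pool.Agent.MP_cfacaa_ag.Fl

open MvPolynomial

section

variable {I κ R : Type} [Fintype I] [LinearOrder I] [CommRing R] {blk : I → κ}

/-- `AlgHom.map_det`; the value of `∑ y, X (r, y) * C (M y c)` is `∑ y, A r y * algebraMap R S (M y c)`. -/
theorem ev_Dm {S : Type} [CommRing S] [Algebra R S] (j : I) (M : Matrix I I R) (A : Matrix I I S) :
    ev A (Dm blk j M) =
      (Matrix.of fun r c : {x // x ∈ seg blk j} => ∑ y, A r.1 y * algebraMap R S (M y c.1)).det := by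
  unfold ev Dm
  rw [AlgHom.map_det]
  congr 1
  ext r c
  simp [AlgHom.mapMatrix_apply, Matrix.map_apply, Matrix.of_apply, map_sum, map_mul]

/-- `pm f y c = 1` for `y = f c` and `0` otherwise. -/
theorem ev_Dm_pm {S : Type} [CommRing S] [Algebra R S] (j : I) (f : I → I) (A : Matrix I I S) :
    ev A (Dm blk j (pm f : Matrix I I R)) = (Matrix.of fun r c : {x // x ∈ seg blk j} => A r.1 (f c.1)).det := by
  rw [ev_Dm]
  congr 1
  ext r c
  rw [Matrix.of_apply, Matrix.of_apply, Finset.sum_eq_single (f c.1)]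
  · simp [pm]
  · intro y _ hy
    simp [pm, hy]
  · intro h
    exact absurd (Finset.mem_univ _) h

/-- For `r ∈ seg blk j` the row `r` of `b * A` is the sum of `b r l * (row l of A)` over `l ∈ seg blk j` (the others have `b r l = 0`:
`Low` gives `blk l = blk r`, `l ≤ r`). So the matrix of the minor of `b * A` is `b' * (matrix of the minor of A)`, with `b'` the restriction of `b` to
`seg blk j`, which is lower triangular: `Matrix.det_of_lowerTriangular` (`Matrix.BlockTriangular`), `det b' = ∏ x ∈ seg blk j, b x x`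
(`Finset.prod_coe_sort` / `Finset.prod_attach`). And `chi blk (om j) b` is this product: the other factors have the exponent `0`. -/
theorem semi_Dm (j : Pos blk) (M : Matrix I I R) : Semi blk (om j) (Dm blk j.1 M) := by
  intro b A hb _
  rw [ev_Dm, ev_Dm]
  have hchi : chi blk (om j) b = ∏ x : {x // x ∈ seg blk j.1}, b x.1 x.1 := by
    rw [Finset.prod_coe_sort (seg blk j.1) (fun x => b x x)]
    unfold chi
    rw [Finset.prod_eq_single j]
    · simp [om]
    · intro l _ hl
      simp [om, hl]
    · intro h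
      exact absurd (Finset.mem_univ _) h
  have hdet : (Matrix.of fun r c : {x // x ∈ seg blk j.1} => b r.1 c.1).det =
      ∏ x : {x // x ∈ seg blk j.1}, b x.1 x.1 := by
    rw [Matrix.det_of_isLowerTriangular]
    · rfl
    · intro r c hrc
      have h1 : r < c := hrc
      by_contra h2
      have h3 := (hb r.1 c.1 h2).2
      exact absurd h1 (not_lt.2 h3)
  rw [hchi, ← hdet, ← Matrix.det_mul]
  congr 1
  ext r c
  rw [Matrix.mul_apply, Matrix.of_apply]
  simp only [Matrix.of_apply, Algebra.algebraMap_self, RingHom.id_apply]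
  have hseg : ∀ l : I, l ∉ seg blk j.1 → b r.1 l = 0 := by
    intro l hl
    by_contra h2
    obtain ⟨h3, h4⟩ := hb r.1 l h2
    have h5 := r.2
    simp only [seg, Finset.mem_filter, Finset.mem_univ, true_and] at hl h5
    exact hl ⟨h3.symm.trans h5.1, h4.trans h5.2⟩
  have h6 : ∑ l : {x // x ∈ seg blk j.1}, b r.1 l.1 * ∑ y, A l.1 y * M y c.1 =
      ∑ l : I, b r.1 l * ∑ y, A l y * M y c.1 := by
    rw [Finset.sum_coe_sort (seg blk j.1) (fun l => b r.1 l * ∑ y, A l y * M y c.1)]
    refine Finset.sum_subset (Finset.subset_univ _) ?_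
    intro l _ hl
    rw [hseg l hl, zero_mul]
  rw [h6]
  simp only [Matrix.mul_apply, Finset.sum_mul, Finset.mul_sum]
  rw [Finset.sum_comm]
  refine Finset.sum_congr rfl fun l _ => Finset.sum_congr rfl fun y _ => ?_
  ring

end

/-- `∑ y, A r y * A⁻¹ y c` is the entry of the identity matrix, the minor of the identity matrix is `1`. -/
theorem ev_Dm_inv {I κ : Type} [Fintype I] [LinearOrder I] {blk : I → κ} (j : I) {A : Matrix I I ℂ} (hA : A.det ≠ 0) :
    ev A (Dm blk j A⁻¹) = 1 := by
  rw [ev_Dm]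
  have h1 : (Matrix.of fun r c : {x // x ∈ seg blk j} => ∑ y, A r.1 y * algebraMap ℂ ℂ (A⁻¹ y c.1)) =
      (1 : Matrix {x // x ∈ seg blk j} {x // x ∈ seg blk j} ℂ) := by
    ext r c
    have h2 : A * A⁻¹ = 1 := Matrix.mul_nonsing_inv A (isUnit_iff_ne_zero.2 hA)
    have h3 := congrFun (congrFun h2 r.1) c.1
    rw [Matrix.mul_apply] at h3
    rw [Matrix.of_apply]
    simp only [Algebra.algebraMap_self, RingHom.id_apply]
    rw [h3, Matrix.one_apply, Matrix.one_apply]
    simp only [Subtype.ext_iff]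
  rw [h1, Matrix.det_one]

end Pool.Agent.MP_cfacaa_ag.Fl
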