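import Pool.Agent.Lib.MP_cfacaa_ag.Fl.A1

/-! Row fl-A3: semi-invariants over an extension of the complex numbers. -/

namespace Pool.Agent.MP_cfacaa_ag.Fl

open MvPolynomial

section

variable {I κ : Type} [Fintype I] [LinearOrder I] {blk : I → κ}

theorem A3_ev_hom {R S T : Type} [CommRing R] [CommRing S] [CommRing T] [Algebra R S] [Algebra R T]
    (φ : S →ₐ[R] T) (A : Matrix I I S) (P : MvPolynomial (I × I) R) :
    φ (ev A P) = ev (A.map φ) P := by
  unfold ev
  rw [MvPolynomial.comp_aeval_apply]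
  rfl

theorem A3_chi_hom {S T : Type} [CommRing S] [CommRing T] (φ : S →+* T) (e : Pos blk → ℕ)
    (b : Matrix I I S) : φ (chi blk e b) = chi blk e (b.map φ) := by
  unfold chi
  rw [map_prod]
  refine Finset.prod_congr rfl fun j _ => ?_
  rw [map_pow, map_prod]
  rfl

/-- The identity `P (b A) = chi e b * P A` is a polynomial identity. Let `W = MvPolynomial ((I × I) ⊕ (I × I)) ℂ`, `b₀ : Matrix I I W` with
`b₀ x y = X (inl (x, y))` if `blk x = blk y ∧ y ≤ x`, and `0` otherwise, `A₀ x y = X (inr (x, y))` if `blk x = blk y` and `0` otherwise. Then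
`ev (b₀ * A₀) P = chi blk e b₀ * ev A₀ P` in `W` by `MvPolynomial.funext` (at every complex point both sides are the two sides of `hP` for
block diagonal matrices; `ev` commutes with ring homomorphisms: `comp_aeval_apply` or `map_aeval`; matrix products and `chi` too). Apply the
algebra homomorphism `aeval (Sum.elim (fun p => b p.1 p.2) (fun p => A p.1 p.2)) : W →ₐ[ℂ] L`, which maps `b₀` to `b` and `A₀` to `A`. -/
theorem Semi.ev_eq {e : Pos blk → ℕ} {P : MvPolynomial (I × I) ℂ} (hP : Semi blk e P) {L : Type} [CommRing L]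
    [Algebra ℂ L] {b A : Matrix I I L} (hb : Low blk b) (hA : BD blk A) :
    ev (b * A) P = chi blk e b * ev A P := by
  classical
  let b0 : Matrix I I (MvPolynomial ((I × I) ⊕ (I × I)) ℂ) := fun x y =>
    if blk x = blk y ∧ y ≤ x then X (Sum.inl (x, y)) else 0
  let A0 : Matrix I I (MvPolynomial ((I × I) ⊕ (I × I)) ℂ) := fun x y =>
    if blk x = blk y then X (Sum.inr (x, y)) else 0
  have hmul : ∀ {T : Type} [CommRing T] [Algebra ℂ T]
      (φ : MvPolynomial ((I × I) ⊕ (I × I)) ℂ →ₐ[ℂ] T),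
      (b0 * A0).map φ = b0.map φ * A0.map φ := by
    intro T _ _ φ
    exact Matrix.map_mul (f := (φ : MvPolynomial ((I × I) ⊕ (I × I)) ℂ →+* T))
  have hid : ev (b0 * A0) P = chi blk e b0 * ev A0 P := by
    apply MvPolynomial.funext
    intro v
    have hl : Low blk (b0.map (aeval v : MvPolynomial ((I × I) ⊕ (I × I)) ℂ →ₐ[ℂ] ℂ)) := by
      intro x y hxy
      by_contra hcon
      apply hxy
      show (aeval v : MvPolynomial ((I × I) ⊕ (I × I)) ℂ →ₐ[ℂ] ℂ) (b0 x y) = 0
      have : b0 x y = 0 := if_neg hcon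
      rw [this, map_zero]
    have hd : BD blk (A0.map (aeval v : MvPolynomial ((I × I) ⊕ (I × I)) ℂ →ₐ[ℂ] ℂ)) := by
      intro x y hxy
      show (aeval v : MvPolynomial ((I × I) ⊕ (I × I)) ℂ →ₐ[ℂ] ℂ) (A0 x y) = 0
      have : A0 x y = 0 := if_neg hxy
      rw [this, map_zero]
    have h1 := hP _ _ hl hd
    rw [← hmul, ← A3_ev_hom, ← A3_ev_hom] at h1
    have h2 := A3_chi_hom ((aeval v : MvPolynomial ((I × I) ⊕ (I × I)) ℂ →ₐ[ℂ] ℂ) :
      MvPolynomial ((I × I) ⊕ (I × I)) ℂ →+* ℂ) e b0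
    have h3 : chi blk e (b0.map (aeval v : MvPolynomial ((I × I) ⊕ (I × I)) ℂ →ₐ[ℂ] ℂ)) =
        (aeval v : MvPolynomial ((I × I) ⊕ (I × I)) ℂ →ₐ[ℂ] ℂ) (chi blk e b0) := h2.symm
    rw [h3, ← map_mul] at h1
    exact h1
  let ψ : MvPolynomial ((I × I) ⊕ (I × I)) ℂ →ₐ[ℂ] L :=
    aeval (Sum.elim (fun p : I × I => b p.1 p.2) (fun p : I × I => A p.1 p.2))
  have hb0 : b0.map ψ = b := by
    ext x y
    show ψ (b0 x y) = b x y
    by_cases hxy : blk x = blk y ∧ y ≤ x
    · have : b0 x y = X (Sum.inl (x, y)) := if_pos hxy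
      rw [this]
      show aeval (Sum.elim (fun p : I × I => b p.1 p.2) (fun p : I × I => A p.1 p.2))
        (X (Sum.inl (x, y)) : MvPolynomial ((I × I) ⊕ (I × I)) ℂ) = b x y
      rw [aeval_X]
      rfl
    · have : b0 x y = 0 := if_neg hxy
      rw [this, map_zero]
      by_contra hne
      exact hxy (hb x y fun h0 => hne h0.symm)
  have hA0 : A0.map ψ = A := by
    ext x y
    show ψ (A0 x y) = A x y
    by_cases hxy : blk x = blk y
    · have : A0 x y = X (Sum.inr (x, y)) := if_pos hxy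
      rw [this]
      show aeval (Sum.elim (fun p : I × I => b p.1 p.2) (fun p : I × I => A p.1 p.2))
        (X (Sum.inr (x, y)) : MvPolynomial ((I × I) ⊕ (I × I)) ℂ) = A x y
      rw [aeval_X]
      rfl
    · have : A0 x y = 0 := if_neg hxy
      rw [this, map_zero, hA x y hxy]
  have h4 := congrArg ψ hid
  rw [map_mul, A3_ev_hom, A3_ev_hom, hmul, hb0, hA0] at h4
  have h5 : ψ (chi blk e b0) = chi blk e b := by
    have h6 := A3_chi_hom (ψ : MvPolynomial ((I × I) ⊕ (I × I)) ℂ →+* L) e b0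
    have h7 : b0.map (ψ : MvPolynomial ((I × I) ⊕ (I × I)) ℂ →+* L) = b := hb0
    rw [h7] at h6
    exact h6
  rw [h5] at h4
  exact h4

theorem ev_map {L : Type} [CommRing L] [Algebra ℂ L] (A : Matrix I I L) (P : MvPolynomial (I × I) ℂ) :
    ev A (map (algebraMap ℂ L) P) = ev A P := by
  unfold ev
  exact aeval_map_algebraMap L _ P

/-- From `Semi.ev_eq` and `ev_map`. -/
theorem Semi.map_add {e : Pos blk → ℕ} {P Q : MvPolynomial (I × I) ℂ} (hP : Semi blk e P) (hQ : Semi blk e Q)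
    {L : Type} [CommRing L] [Algebra ℂ L] (lam : L) :
    Semi blk e (map (algebraMap ℂ L) P + C lam * map (algebraMap ℂ L) Q) := by
  intro b A hb hA
  have h1 : ∀ A : Matrix I I L, ev A (map (algebraMap ℂ L) P + C lam * map (algebraMap ℂ L) Q) =
      ev A P + lam * ev A Q := by
    intro A
    have h2 : ev A (map (algebraMap ℂ L) P + C lam * map (algebraMap ℂ L) Q) =
        ev A (map (algebraMap ℂ L) P) + lam * ev A (map (algebraMap ℂ L) Q) := by
      unfold ev
      rw [_root_.map_add, map_mul, aeval_C]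
      rfl
    rw [h2, ev_map, ev_map]
  rw [h1, h1, hP.ev_eq hb hA, hQ.ev_eq hb hA]
  ring

/-- the value of the polynomial of `Semi.map_add` -/
theorem ev_map_add {L : Type} [CommRing L] [Algebra ℂ L] (A : Matrix I I L) (P Q : MvPolynomial (I × I) ℂ) (lam : L) :
    ev A (map (algebraMap ℂ L) P + C lam * map (algebraMap ℂ L) Q) = ev A P + lam * ev A Q := by
  have h1 : ev A (map (algebraMap ℂ L) P + C lam * map (algebraMap ℂ L) Q) =
      ev A (map (algebraMap ℂ L) P) + lam * ev A (map (algebraMap ℂ L) Q) := by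
    unfold ev
    rw [_root_.map_add, map_mul, aeval_C]
    rfl
  rw [h1, ev_map, ev_map]

end

end Pool.Agent.MP_cfacaa_ag.Fl
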