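import Pool.Agent.Lib.MP_cfacaa_ag.Fl.Defs

/-! Row fl-A4: the matrices `up` and `wm`. -/

namespace Pool.Agent.MP_cfacaa_ag.Fl

section

variable {I κ R : Type} [Fintype I] [LinearOrder I] [CommRing R] {blk : I → κ}

omit [Fintype I] in
theorem up_zero (i k : I) (A : Matrix I I R) : up i k 0 A = A := by
  funext x y
  unfold up
  split_ifs with h
  · rw [h, zero_mul, add_zero]
  · rfl

omit [Fintype I] in
theorem Nx.ne {i k : I} (hk : Nx blk i k) : i ≠ k := hk.lt.ne

omit [Fintype I] in
theorem BD.up {i k : I} (hk : Nx blk i k) {A : Matrix I I R} (hA : BD blk A) (t : R) : BD blk (up i k t A) := by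
  intro x y hxy
  unfold Fl.up
  split_ifs with h
  · rw [h] at hxy
    rw [hA i y hxy, hA k y (fun h1 => hxy (hk.eq.symm.trans h1)), mul_zero, add_zero]
  · exact hA x y hxy

omit [Fintype I] in
theorem BD.wm {i k : I} (hk : Nx blk i k) {A : Matrix I I R} (hA : BD blk A) (s : R) : BD blk (wm i k s A) := by
  intro x y hxy
  unfold Fl.wm
  split_ifs with h h2
  · rw [h] at hxy
    rw [hA i y hxy, hA k y (fun h1 => hxy (hk.eq.symm.trans h1)), mul_zero, add_zero]
  · rw [h2] at hxy
    rw [hA i y (fun h1 => hxy (hk.eq.trans h1)), neg_zero]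
  · exact hA x y hxy

/-- `Matrix.det_updateRow_add_smul_self`. -/
theorem det_up {i k : I} (hik : i ≠ k) (A : Matrix I I R) (t : R) : (up i k t A).det = A.det := by
  have h : up i k t A = Matrix.updateRow A i (A i + t • A k) := by
    funext x y
    unfold up
    split_ifs with h
    · rw [h, Matrix.updateRow_self]
      rfl
    · rw [Matrix.updateRow_ne h]
  rw [h, Matrix.det_updateRow_add_smul_self A hik]

omit [Fintype I] in
theorem A4_wm_eq {i k : I} (hik : i ≠ k) (A : Matrix I I R) (s : R) :
    wm i k s A = up i k (1 - s) (up k i (-1) (up i k 1 A)) := by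
  funext x y
  unfold wm up
  by_cases h : x = i
  · simp only [h, if_true, if_neg hik, if_neg hik.symm]
    ring
  · by_cases h2 : x = k
    · simp only [h2, if_true, if_neg hik.symm, if_neg hik]
      ring
    · simp only [if_neg h, if_neg h2]

/-- Three steps of `det_up`. -/
theorem det_wm {i k : I} (hik : i ≠ k) (A : Matrix I I R) (s : R) : (wm i k s A).det = A.det := by
  rw [A4_wm_eq hik, det_up hik, det_up hik.symm, det_up hik]

/-- every index which is not the last one of its block has a successor in its block (`Finset.min'` of the larger indices of the block) -/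
theorem exists_nx (i : Pos blk) : ∃ k, Nx blk i.1 k := by
  classical
  obtain ⟨k0, hk0, hlt0⟩ := i.2
  have hne : (Finset.univ.filter fun x => blk x = blk i.1 ∧ i.1 < x).Nonempty :=
    ⟨k0, Finset.mem_filter.2 ⟨Finset.mem_univ _, hk0, hlt0⟩⟩
  have h1 := Finset.min'_mem _ hne
  rw [Finset.mem_filter] at h1
  refine ⟨Finset.min' _ hne, h1.2.1, h1.2.2, fun x hx hlt => ?_⟩
  exact Finset.min'_le _ _ (Finset.mem_filter.2 ⟨Finset.mem_univ _, hx, hlt⟩)

end

end Pool.Agent.MP_cfacaa_ag.Fl
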