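import Pool.Agent.Lib.MP_cfacaa_ag.Fl.A1
import Pool.Agent.Lib.MP_cfacaa_ag.Fl.A4

/-! Row fl-B1: the fibre at infinity. -/

namespace Pool.Agent.MP_cfacaa_ag.Fl

open MvPolynomial

section

variable {I κ : Type} [Fintype I] [LinearOrder I] {blk : I → κ}

/-- The lower triangular matrix: the identity matrix except `b i i = t`, `b k i = 1`, `b k k = t⁻¹`. -/
def B1_b {L : Type} [Field L] (i k : I) (t : L) : Matrix I I L :=
  fun x y => if x = i then (if y = i then t else 0) else
    if x = k then ((if y = i then 1 else 0) + if y = k then t⁻¹ else 0) else if y = x then 1 else 0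

theorem B1_mul {L : Type} [Field L] {i k : I} (hik : i ≠ k) (A : Matrix I I L) {t : L} (ht : t ≠ 0) :
    B1_b i k t * wm i k t⁻¹ A = up i k t A := by
  ext x y
  rw [Matrix.mul_apply]
  by_cases hxi : x = i
  · subst hxi
    have h1 : ∀ z, B1_b x k t x z * wm x k t⁻¹ A z y = if z = x then t * wm x k t⁻¹ A z y else 0 := by
      intro z
      unfold B1_b
      rw [if_pos rfl, ite_mul, zero_mul]
    rw [Finset.sum_congr rfl fun z _ => h1 z, Finset.sum_ite_eq', if_pos (Finset.mem_univ x)]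
    unfold wm up
    rw [if_pos rfl, if_pos rfl, mul_add, ← mul_assoc, mul_inv_cancel₀ ht, one_mul]
  · by_cases hxk : x = k
    · subst hxk
      have h1 : ∀ z, B1_b i x t x z * wm i x t⁻¹ A z y =
          (if z = i then wm i x t⁻¹ A z y else 0) + if z = x then t⁻¹ * wm i x t⁻¹ A z y else 0 := by
        intro z
        unfold B1_b
        rw [if_neg hxi, if_pos rfl, add_mul, ite_mul, ite_mul, zero_mul, one_mul]
      rw [Finset.sum_congr rfl fun z _ => h1 z, Finset.sum_add_distrib, Finset.sum_ite_eq', Finset.sum_ite_eq',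
        if_pos (Finset.mem_univ i), if_pos (Finset.mem_univ x)]
      unfold wm up
      rw [if_pos rfl, if_neg hxi, if_pos rfl, if_neg hxi]
      ring
    · have h1 : ∀ z, B1_b i k t x z * wm i k t⁻¹ A z y = if z = x then wm i k t⁻¹ A z y else 0 := by
        intro z
        unfold B1_b
        rw [if_neg hxi, if_neg hxk, ite_mul, zero_mul, one_mul]
      rw [Finset.sum_congr rfl fun z _ => h1 z, Finset.sum_ite_eq', if_pos (Finset.mem_univ x)]
      unfold wm up
      rw [if_neg hxi, if_neg hxk, if_neg hxi]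

omit [Fintype I] in
theorem B1_low {L : Type} [Field L] {i k : I} (hk : Nx blk i k) (t : L) : Low blk (B1_b i k t) := by
  intro x y hxy
  unfold B1_b at hxy
  by_cases hxi : x = i
  · rw [if_pos hxi] at hxy
    by_cases hyi : y = i
    · rw [hxi, hyi]
      exact ⟨rfl, le_refl _⟩
    · rw [if_neg hyi] at hxy
      exact absurd rfl hxy
  · rw [if_neg hxi] at hxy
    by_cases hxk : x = k
    · rw [if_pos hxk] at hxy
      by_cases hyi : y = i
      · rw [hxk, hyi]
        exact ⟨hk.eq, hk.lt.le⟩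
      · by_cases hyk : y = k
        · rw [hxk, hyk]
          exact ⟨rfl, le_refl _⟩
        · rw [if_neg hyi, if_neg hyk, add_zero] at hxy
          exact absurd rfl hxy
    · rw [if_neg hxk] at hxy
      by_cases hyx : y = x
      · rw [hyx]
        exact ⟨rfl, le_refl _⟩
      · rw [if_neg hyx] at hxy
        exact absurd rfl hxy

omit [Fintype I] in
theorem B1_diag {L : Type} [Field L] {i k : I} (hik : i ≠ k) (t : L) (s : Finset I) :
    ∏ x ∈ s, B1_b i k t x x = (if i ∈ s then t else 1) * if k ∈ s then t⁻¹ else 1 := by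
  have h1 : ∀ x, B1_b i k t x x = (if x = i then t else 1) * if x = k then t⁻¹ else 1 := by
    intro x
    unfold B1_b
    by_cases hxi : x = i
    · have hxk : ¬ x = k := fun h => hik (hxi.symm.trans h)
      rw [if_pos hxi, if_pos hxi, if_pos hxi, if_neg hxk, mul_one]
    · by_cases hxk : x = k
      · rw [if_neg hxi, if_neg hxi, if_neg hxi, if_pos hxk, if_pos hxk, if_pos hxk, zero_add, one_mul]
      · rw [if_neg hxi, if_neg hxk, if_pos rfl, if_neg hxi, if_neg hxk, mul_one]
  rw [Finset.prod_congr rfl fun x _ => h1 x, Finset.prod_mul_distrib, Finset.prod_ite_eq', Finset.prod_ite_eq']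

theorem B1_chi {L : Type} [Field L] {i : Pos blk} {k : I} (hk : Nx blk i.1 k) (e : Pos blk → ℕ) {t : L}
    (ht : t ≠ 0) : chi blk e (B1_b i.1 k t) = t ^ e i := by
  have hik : i.1 ≠ k := ne_of_lt hk.lt
  have hmem : ∀ j x : I, x ∈ seg blk j ↔ blk x = blk j ∧ x ≤ j := by
    intro j x
    simp only [seg, Finset.mem_filter, Finset.mem_univ, true_and]
  unfold chi
  rw [Finset.prod_eq_single i]
  · rw [B1_diag hik, if_pos ((hmem _ _).2 ⟨rfl, le_refl _⟩),
      if_neg (fun h => absurd ((hmem _ _).1 h).2 (not_le.2 hk.lt)), mul_one]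
  · intro j _ hj
    have hj' : j.1 ≠ i.1 := fun h => hj (Subtype.ext h)
    rw [B1_diag hik]
    by_cases h1 : i.1 ∈ seg blk j.1
    · have h2 := (hmem _ _).1 h1
      have h3 : i.1 < j.1 := lt_of_le_of_ne h2.2 (Ne.symm hj')
      have h4 : k ∈ seg blk j.1 := (hmem _ _).2 ⟨hk.eq.trans h2.1, hk.le _ h2.1.symm h3⟩
      rw [if_pos h1, if_pos h4, mul_inv_cancel₀ ht, one_pow]
    · have h4 : k ∉ seg blk j.1 := by
        intro h
        have h5 := (hmem _ _).1 h
        exact h1 ((hmem _ _).2 ⟨hk.eq.symm.trans h5.1, hk.lt.le.trans h5.2⟩)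
      rw [if_neg h1, if_neg h4, mul_one, one_pow]
  · intro h
    exact absurd (Finset.mem_univ i) h

/-- `up i k t A = b * wm i k t⁻¹ A` with `b` equal to the identity matrix except `b i i = t`, `b k i = 1`, `b k k = t⁻¹` (row `i`:
`t * (t⁻¹ * A i + A k) = A i + t * A k`; row `k`: `(t⁻¹ * A i + A k) - t⁻¹ * A i = A k`). `Low blk b` (`blk k = blk i`, `i < k`). `chi blk e b = t ^ e i`: the
factor of `j` is `(∏ x ∈ seg blk j, b x x) ^ e j`; for `j = i` the product is `t` (`i ∈ seg`, `k ∉ seg`), for every other `j` it is `1`: if `i ∉ seg blk j` then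
`k ∉ seg blk j` (`i < k`); if `i ∈ seg blk j`, `j ≠ i`, then `i < j`, `blk j = blk i`, so `k ≤ j` (`hk.le`) and `k ∈ seg blk j`: `t * t⁻¹ = 1`. -/
theorem ev_up {L : Type} [Field L] {i : Pos blk} {k : I} (hk : Nx blk i.1 k) {e : Pos blk → ℕ}
    {P : MvPolynomial (I × I) L} (hP : Semi blk e P) {A : Matrix I I L} (hA : BD blk A) {t : L} (ht : t ≠ 0) :
    ev (up i.1 k t A) P = t ^ e i * ev (wm i.1 k t⁻¹ A) P := by
  have h := hP (B1_b i.1 k t) (wm i.1 k t⁻¹ A) (B1_low hk t) (hA.wm hk t⁻¹)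
  rw [B1_mul (ne_of_lt hk.lt) A ht, B1_chi hk e ht] at h
  exact h

end

end Pool.Agent.MP_cfacaa_ag.Fl
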