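import Mathlib

/-! Row fl-B2a: a polynomial with a pole of bounded order at infinity. -/

namespace Pool.Agent.MP_cfacaa_ag.Fl

open MvPolynomial

/-- If `p t = t ^ n * q t⁻¹` for all `t ≠ 0` (infinite field) then `p` has degree at most `n` and the coefficient of `X ^ n` is `q 0`. (`N = q.natDegree`: `X ^ N * p = X ^ n * q.reflect N`
(`Polynomial.eval₂_reverse_mul_pow`, `Polynomial.reverse`; or write `q = ∑ q_m X^m` and compare), since both sides agree for all `t ≠ 0`. If `q = 0` then `p = 0`.) -/
theorem pol_inv {L : Type} [Field L] [Infinite L] (p q : Polynomial L) (n : ℕ)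
    (h : ∀ t : L, t ≠ 0 → p.eval t = t ^ n * q.eval t⁻¹) : p.natDegree ≤ n ∧ p.coeff n = q.eval 0 := by
  classical
  have key : Polynomial.X ^ q.natDegree * p = Polynomial.X ^ n * q.reverse := by
    apply Polynomial.eq_of_infinite_eval_eq
    refine ((Set.finite_singleton (0 : L)).infinite_compl).mono ?_
    intro t ht
    have ht0 : t ≠ 0 := ht
    have hr : q.reverse.eval t = t ^ q.natDegree * q.eval t⁻¹ := by
      have ht1 : t⁻¹ ≠ 0 := inv_ne_zero ht0
      have hi : Invertible t⁻¹ := invertibleOfNonzero ht1
      have h1 := Polynomial.eval₂_reverse_mul_pow (RingHom.id L) t⁻¹ q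
      rw [invOf_eq_inv, inv_inv] at h1
      have h2 : Polynomial.eval t q.reverse * t⁻¹ ^ q.natDegree = Polynomial.eval t⁻¹ q := h1
      rw [← h2, mul_comm (Polynomial.eval t q.reverse), ← mul_assoc, ← mul_pow, mul_inv_cancel₀ ht0,
        one_pow, one_mul]
    show Polynomial.eval t (Polynomial.X ^ q.natDegree * p) = Polynomial.eval t (Polynomial.X ^ n * q.reverse)
    rw [Polynomial.eval_mul, Polynomial.eval_mul, Polynomial.eval_pow, Polynomial.eval_pow, Polynomial.eval_X,
      h t ht0, hr]
    ring
  constructor
  · by_cases hp : p = 0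
    · rw [hp, Polynomial.natDegree_zero]
      exact Nat.zero_le n
    · have h1 : (Polynomial.X ^ q.natDegree * p).natDegree = q.natDegree + p.natDegree := by
        rw [Polynomial.natDegree_mul (pow_ne_zero _ Polynomial.X_ne_zero) hp, Polynomial.natDegree_X_pow]
      have h2 : (Polynomial.X ^ n * q.reverse : Polynomial L).natDegree ≤ n + q.natDegree := by
        refine Polynomial.natDegree_mul_le.trans ?_
        rw [Polynomial.natDegree_X_pow]
        exact Nat.add_le_add_left q.reverse_natDegree_le n
      rw [← key, h1] at h2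
      omega
  · have h1 : (Polynomial.X ^ q.natDegree * p).coeff (n + q.natDegree) = p.coeff n :=
      Polynomial.coeff_X_pow_mul p q.natDegree n
    have h2 : (Polynomial.X ^ n * q.reverse).coeff (q.natDegree + n) = q.reverse.coeff q.natDegree :=
      Polynomial.coeff_X_pow_mul q.reverse n q.natDegree
    have h3 : q.reverse.coeff q.natDegree = q.coeff 0 := by
      rw [Polynomial.coeff_reverse, Polynomial.revAt_le le_rfl, Nat.sub_self]
    rw [← h1, key, Nat.add_comm n q.natDegree, h2, h3, Polynomial.coeff_zero_eq_eval_zero]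

end Pool.Agent.MP_cfacaa_ag.Fl
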