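import Pool.Agent.Lib.MP_cfacaa_ag.Fl.B1
import Pool.Agent.Lib.MP_cfacaa_ag.Fl.B2a

/-! Row fl-B2b: the restriction of a semi-invariant to a fibre. -/

namespace Pool.Agent.MP_cfacaa_ag.Fl

open MvPolynomial

section

variable {I κ : Type} [Fintype I] [LinearOrder I] {blk : I → κ}

omit [Fintype I] [LinearOrder I] in
theorem B2b_ev_hom {L S T : Type} [CommRing L] [CommRing S] [CommRing T] [Algebra L S] [Algebra L T]
    (φ : S →ₐ[L] T) (A : Matrix I I S) (P : MvPolynomial (I × I) L) :
    φ (ev A P) = ev (A.map φ) P := by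
  unfold ev
  rw [MvPolynomial.comp_aeval_apply]
  rfl

/-- `p = ev (up i k X (A.map C)) P` in `L[X]`, `q = ev (wm i k X (A.map C)) P`; evaluation at `t` is a ring homomorphism, so `p.eval t = ev (up i k t A) P`,
`q.eval s = ev (wm i k s A) P`; `ev_up` and `pol_inv`. -/
theorem exists_pol {L : Type} [Field L] [Infinite L] {i : Pos blk} {k : I} (hk : Nx blk i.1 k) {e : Pos blk → ℕ}
    {P : MvPolynomial (I × I) L} (hP : Semi blk e P) {A : Matrix I I L} (hA : BD blk A) :
    ∃ p : Polynomial L, p.natDegree ≤ e i ∧ (∀ t, p.eval t = ev (up i.1 k t A) P) ∧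
      p.coeff (e i) = ev (wm i.1 k 0 A) P := by
  have hup : ∀ t : L, (ev (up i.1 k (Polynomial.X : Polynomial L) (A.map Polynomial.C)) P).eval t =
      ev (up i.1 k t A) P := by
    intro t
    have h1 := B2b_ev_hom (Polynomial.aeval t : Polynomial L →ₐ[L] L)
      (up i.1 k (Polynomial.X : Polynomial L) (A.map Polynomial.C)) P
    rw [Polynomial.coe_aeval_eq_eval] at h1
    rw [h1]
    congr 1
    ext x y
    simp only [up, Matrix.map_apply]
    split_ifs <;> simp <;> ring
  have hwm : ∀ t : L, (ev (wm i.1 k (Polynomial.X : Polynomial L) (A.map Polynomial.C)) P).eval t =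
      ev (wm i.1 k t A) P := by
    intro t
    have h1 := B2b_ev_hom (Polynomial.aeval t : Polynomial L →ₐ[L] L)
      (wm i.1 k (Polynomial.X : Polynomial L) (A.map Polynomial.C)) P
    rw [Polynomial.coe_aeval_eq_eval] at h1
    rw [h1]
    congr 1
    ext x y
    simp only [wm, Matrix.map_apply]
    split_ifs <;> simp <;> ring
  have h2 := pol_inv (ev (up i.1 k (Polynomial.X : Polynomial L) (A.map Polynomial.C)) P)
    (ev (wm i.1 k (Polynomial.X : Polynomial L) (A.map Polynomial.C)) P) (e i) (by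
      intro t ht
      rw [hup, hwm]
      exact ev_up hk hP hA ht)
  exact ⟨_, h2.1, hup, by rw [h2.2, hwm]⟩

/-- `p = 0` in `exists_pol` (`Polynomial.funext`). -/
theorem ev_wm_eq_zero {L : Type} [Field L] [Infinite L] {i : Pos blk} {k : I} (hk : Nx blk i.1 k) {e : Pos blk → ℕ}
    {P : MvPolynomial (I × I) L} (hP : Semi blk e P) {A : Matrix I I L} (hA : BD blk A)
    (h : ∀ t, ev (up i.1 k t A) P = 0) : ev (wm i.1 k 0 A) P = 0 := by
  obtain ⟨p, _, hp, hc⟩ := exists_pol hk hP hA
  have hp0 : p = 0 := Polynomial.funext fun t => by rw [hp, h, Polynomial.eval_zero]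
  rw [← hc, hp0, Polynomial.coeff_zero]

end

end Pool.Agent.MP_cfacaa_ag.Fl
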