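import Pool.Agent.Lib.MP_cfacaa_ag.Fl.B2b

/-! Row fl-B3: the fibre depends only on the flag. -/

namespace Pool.Agent.MP_cfacaa_ag.Fl

open MvPolynomial

section

variable {I κ : Type} [Fintype I] [LinearOrder I] {blk : I → κ}

omit [Fintype I] in
/-- entries of `up i k t b` right of the diagonal -/
theorem B3_up_low {L : Type} [Field L] {i k : I} (hk : Nx blk i k) {b : Matrix I I L} (hb : Low blk b) (t : L)
    {x y : I} (hy : y ≠ k) (h : up i k t b x y ≠ 0) : blk x = blk y ∧ y ≤ x := by
  unfold up at h
  by_cases hx : x = i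
  · rw [if_pos hx] at h
    subst hx
    by_cases h1 : b x y = 0
    · have h2 : b k y ≠ 0 := by
        intro h2
        exact h (by rw [h1, h2]; ring)
      obtain ⟨h3, h4⟩ := hb k y h2
      refine ⟨by rw [← h3, hk.eq], ?_⟩
      by_contra h5
      have h6 := hk.le y (by rw [← h3, hk.eq]) (not_le.mp h5)
      exact hy (le_antisymm h4 h6)
    · exact hb x y h1
  · rw [if_neg hx] at h
    exact hb x y h

/-- `up` of a product -/
theorem B3_up_mul {L : Type} [Field L] (i k : I) (t : L) (b A : Matrix I I L) :
    up i k t (b * A) = up i k t b * A := by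
  ext x y
  simp only [up, Matrix.mul_apply]
  by_cases hx : x = i
  · simp only [if_pos hx, add_mul, Finset.sum_add_distrib, Finset.mul_sum, mul_assoc]
  · simp only [if_neg hx]

theorem B3_col {L : Type} [Field L] {i k : I} (hik : i ≠ k) (c : L) (g A : Matrix I I L) :
    (Matrix.of fun x y => if y = k then g x k - c * g x i else g x y) * up i k c A = g * A := by
  ext x y
  simp only [Matrix.mul_apply, Matrix.of_apply]
  have h1 : ∀ z : I, (if z = k then g x k - c * g x i else g x z) * up i k c A z y =
      g x z * A z y + (if z = i then g x i * (c * A k y) else 0) + (if z = k then -(c * g x i * A k y) else 0) := by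
    intro z
    unfold up
    by_cases h2 : z = i
    · subst h2
      rw [if_neg hik, if_pos rfl, if_pos rfl, if_neg hik]
      ring
    · by_cases h3 : z = k
      · subst h3
        rw [if_pos rfl, if_neg h2, if_neg h2, if_pos rfl]
        ring
      · rw [if_neg h3, if_neg h2, if_neg h2, if_neg h3]
        ring
  rw [Finset.sum_congr rfl fun z _ => h1 z, Finset.sum_add_distrib, Finset.sum_add_distrib,
    Finset.sum_ite_eq' Finset.univ i, Finset.sum_ite_eq' Finset.univ k, if_pos (Finset.mem_univ _),
    if_pos (Finset.mem_univ _)]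
  ring

theorem B3_col' {L : Type} [Field L] {i k : I} (hik : i ≠ k) (g A : Matrix I I L) :
    (Matrix.of fun x y => if y = i then g x k else if y = k then - g x i else g x y) * wm i k 0 A = g * A := by
  ext x y
  simp only [Matrix.mul_apply, Matrix.of_apply]
  have h1 : ∀ z : I, (if z = i then g x k else if z = k then - g x i else g x z) * wm i k 0 A z y =
      g x z * A z y + (if z = i then g x k * A k y - g x i * A i y else 0) +
        (if z = k then g x i * A i y - g x k * A k y else 0) := by
    intro z
    unfold wm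
    by_cases h2 : z = i
    · subst h2
      rw [if_pos rfl, if_pos rfl, if_pos rfl, if_neg hik]
      ring
    · by_cases h3 : z = k
      · subst h3
        rw [if_neg h2, if_pos rfl, if_neg h2, if_pos rfl, if_neg h2, if_pos rfl]
        ring
      · rw [if_neg h2, if_neg h3, if_neg h2, if_neg h3, if_neg h2, if_neg h3]
        ring
  rw [Finset.sum_congr rfl fun z _ => h1 z, Finset.sum_add_distrib, Finset.sum_add_distrib,
    Finset.sum_ite_eq' Finset.univ i, Finset.sum_ite_eq' Finset.univ k, if_pos (Finset.mem_univ _),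
    if_pos (Finset.mem_univ _)]
  ring

/-- Let `g = up i k t b` (so `up i k t (b * A) = g * A`); `g x y = b x y` for `x ≠ i`, `g i y = b i y + t * b k y`; `g i k = t * b k k =: q` (as `b i k = 0`), `g i i = b i i + t * b k i =: p`.
If `p ≠ 0`: `g * A = b' * up i k (q / p) A` with `b' x y = g x y` for `y ≠ k` and `b' x k = g x k - (q / p) * g x i` (column operation: `g = b' * up i k (q / p) 1`); `b'` is `Low`: for `x < i` (or another block)
`g x i = g x k = 0`; `b' i k = q - (q / p) * p = 0`; there is no index of the block between `i` and `k` (`hk.le`), for `x ≥ k` nothing is to be shown. The row `i` of `g` is zero right of `i` except at `k`, because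
`b i y = 0` for `y > i` and `b k y = 0` for `y > k` or `i < y < k` in another block (same block: no such `y`). So `ev (g * A) P = chi b' * ev (up i k (q / p) A) P = 0`.
If `p = 0`: `g * A = b' * wm i k 0 A` with `b' x i = g x k`, `b' x k = - g x i`, `b' x y = g x y` otherwise (`wm i k 0 A`: row `i` is `A k`, row `k` is `- A i`; `b' x i * A k + b' x k * (- A i) = g x k * A k + g x i * A i`); `b'` is `Low`:
`b' i k = - g i i = 0`, `b' x i = g x k = 0` for `x < i`; use `ev_wm_eq_zero`. -/
theorem ev_up_mul {L : Type} [Field L] [Infinite L] {i : Pos blk} {k : I} (hk : Nx blk i.1 k) {e : Pos blk → ℕ}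
    {P : MvPolynomial (I × I) L} (hP : Semi blk e P) {A : Matrix I I L} (hA : BD blk A)
    (h : ∀ t, ev (up i.1 k t A) P = 0) {b : Matrix I I L} (hb : Low blk b) (t : L) :
    ev (up i.1 k t (b * A)) P = 0 := by
  have hik : i.1 ≠ k := hk.ne
  rw [B3_up_mul]
  obtain ⟨g, hg⟩ : ∃ g, g = up i.1 k t b := ⟨_, rfl⟩
  have hlow : ∀ x y, y ≠ k → g x y ≠ 0 → blk x = blk y ∧ y ≤ x := by
    intro x y hy h1
    rw [hg] at h1
    exact B3_up_low hk hb t hy h1
  have hgne : ∀ x y, x ≠ i.1 → g x y = b x y := by
    intro x y hx
    rw [hg]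
    unfold up
    rw [if_neg hx]
  rw [← hg]
  by_cases hp : g i.1 i.1 = 0
  · rw [← B3_col' hik g A, hP _ _ ?_ (BD.wm hk hA 0), ev_wm_eq_zero hk hP hA h, mul_zero]
    intro x y h1
    rw [Matrix.of_apply] at h1
    by_cases hy : y = i.1
    · rw [if_pos hy] at h1
      by_cases hx : x = i.1
      · rw [hx, hy]
        exact ⟨rfl, le_refl _⟩
      · rw [hgne x k hx] at h1
        obtain ⟨h2, h3⟩ := hb x k h1
        rw [hy]
        exact ⟨by rw [h2, hk.eq], le_trans hk.lt.le h3⟩
    · rw [if_neg hy] at h1
      by_cases hy2 : y = k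
      · rw [if_pos hy2] at h1
        by_cases hx : x = i.1
        · rw [hx, hp, neg_zero] at h1
          exact absurd rfl h1
        · have h4 : b x i.1 ≠ 0 := by
            intro h5
            apply h1
            rw [hgne x i.1 hx, h5, neg_zero]
          obtain ⟨h2, h3⟩ := hb x i.1 h4
          rw [hy2]
          exact ⟨by rw [h2, hk.eq], hk.le x h2 (lt_of_le_of_ne h3 (Ne.symm hx))⟩
      · rw [if_neg hy2] at h1
        exact hlow x y hy2 h1
  · obtain ⟨c, hc⟩ : ∃ c, c = g i.1 k / g i.1 i.1 := ⟨_, rfl⟩
    rw [← B3_col hik c g A, hP _ _ ?_ (BD.up hk hA c), h c, mul_zero]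
    intro x y h1
    rw [Matrix.of_apply] at h1
    by_cases hy : y = k
    · rw [if_pos hy] at h1
      by_cases hx : x = i.1
      · exfalso
        apply h1
        rw [hx, hc, div_mul_cancel₀ _ hp, sub_self]
      · rw [hgne x k hx, hgne x i.1 hx] at h1
        rw [hy]
        by_cases h2 : b x k = 0
        · have h3 : b x i.1 ≠ 0 := by
            intro h4
            apply h1
            rw [h2, h4]
            ring
          obtain ⟨h4, h5⟩ := hb x i.1 h3
          exact ⟨by rw [h4, hk.eq], hk.le x h4 (lt_of_le_of_ne h5 (Ne.symm hx))⟩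
        · exact hb x k h2
    · rw [if_neg hy] at h1
      exact hlow x y hy h1

end

end Pool.Agent.MP_cfacaa_ag.Fl
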