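import Mathlib

/-!
Complete intersections in products of partial flag varieties: points, line bundles, sections, nef classes, dimensions.
-/

namespace Pool.Agent.MP_cfacaa_ag.Fl

open MvPolynomial

section

variable {I κ R : Type} [Fintype I] [LinearOrder I] [CommRing R]

/-- The matrix `A`, with rows and columns indexed by `I`, is block diagonal: the index `x` belongs to the block `blk x`. It is a
family of square matrices `A_k`, one for every block `k`; the rows of `A_k` span a flag of the vector space with the coordinates of
this block, if `A_k` is invertible. -/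
def BD (blk : I → κ) (A : Matrix I I R) : Prop := ∀ x y, blk x ≠ blk y → A x y = 0

/-- The matrix `b` is block diagonal and lower triangular. -/
def Low (blk : I → κ) (b : Matrix I I R) : Prop := ∀ x y, b x y ≠ 0 → blk x = blk y ∧ y ≤ x

/-- The indices of the block of `j` up to `j`. -/
noncomputable def seg (blk : I → κ) (j : I) : Finset I :=
  @Finset.filter I (fun x => blk x = blk j ∧ x ≤ j) (Classical.decPred _) Finset.univ

/-- The indices `j` which are not the last one of their block: they correspond to the fundamental line bundles
(the Plücker line bundles of the Grassmannians of the spans of the first rows up to `j`) of the product of the flag varieties. -/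
def Pos (blk : I → κ) : Type := {j : I // ∃ k, blk k = blk j ∧ j < k}

noncomputable instance (blk : I → κ) : Fintype (Pos blk) :=
  @Fintype.ofFinite (Pos blk) (inferInstanceAs (Finite {j : I // ∃ k, blk k = blk j ∧ j < k}))

/-- The character with the weight `e`: `∏ j, (∏ x, b x x) ^ e j`, where `x` runs over the indices of the block of `j` up to `j`. -/
noncomputable def chi (blk : I → κ) (e : Pos blk → ℕ) (b : Matrix I I R) : R :=
  ∏ j : Pos blk, (∏ x ∈ seg blk j.1, b x x) ^ e j

/-- The value at the matrix `A` of a polynomial in the entries of a matrix. -/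
noncomputable def ev {S : Type} [CommRing S] [Algebra R S] (A : Matrix I I S) (P : MvPolynomial (I × I) R) : S :=
  aeval (fun p : I × I => A p.1 p.2) P

/-- `P` is semi-invariant of weight `e`: `P (b A) = chi e b * P A` for all lower triangular `b` and all `A` (both block diagonal). By
the theorem of Borel and Weil these polynomials are the sections of the line bundle `𝒪(e) = ⨂ j, 𝒪(ω_j) ^ e j` on the product of
the flag varieties. -/
def Semi (blk : I → κ) (e : Pos blk → ℕ) (P : MvPolynomial (I × I) R) : Prop :=
  ∀ b A : Matrix I I R, Low blk b → BD blk A → ev (b * A) P = chi blk e b * ev A P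

end

section

variable {I κ : Type} [Fintype I] [LinearOrder I]

/-- The pairs `(x, y)` in one block with `x ≤ j < y` for some `j ∈ J` (`j` in the same block): their number is the dimension of the product of the
partial flag varieties with the indices `J`. -/
noncomputable def roots (blk : I → κ) (J : Set (Pos blk)) : Finset (I × I) :=
  @Finset.filter (I × I) (fun s => ∃ j ∈ J, blk s.1 = blk j.1 ∧ blk s.2 = blk j.1 ∧ s.1 ≤ j.1 ∧ j.1 < s.2)
    (Classical.decPred _) Finset.univ

/-- The number of the indices `x` of the block of `j` with `a < x ≤ b`, where `a` is the largest element `< j` and `b` the smallest element `> j` of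
`J` in this block (no condition if there is none). The anticanonical class of the product of the partial flag varieties with the indices `J` is
`∑ j ∈ J, idx j • ω_j`. -/
noncomputable def idx (blk : I → κ) (J : Set (Pos blk)) (j : Pos blk) : ℕ :=
  (@Finset.filter I (fun x => blk x = blk j.1 ∧ (∀ l ∈ J, blk l.1 = blk j.1 → l.1 < j.1 → l.1 < x) ∧
    ∀ l ∈ J, blk l.1 = blk j.1 → j.1 < l.1 → x ≤ l.1) (Classical.decPred _) Finset.univ).card

/-- The block of `x`. -/
noncomputable def block (blk : I → κ) (x : I) : Finset I :=
  @Finset.filter I (fun y => blk y = blk x) (Classical.decPred _) Finset.univ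

/-- For every nonempty set `J ⊆ T` of classes the product of the partial flag varieties with the indices `J` has dimension at least
`3 + ∑ j ∈ J, idx j`, where `idx j` are the coefficients of the anticanonical class of the product of the partial flag varieties with the indices `T`. -/
def Big (blk : I → κ) (T : Set (Pos blk)) : Prop :=
  ∀ J : Finset (Pos blk), J.Nonempty → (∀ j ∈ J, j ∈ T) → ∑ j ∈ J, idx blk T j + 3 ≤ (roots blk J).card

/-- `k` is the successor of `i` in the block of `i`. -/
structure Nx (blk : I → κ) (i k : I) : Prop where
  eq : blk k = blk i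
  lt : i < k
  le : ∀ x, blk x = blk i → i < x → k ≤ x

/-- Add `t` times the row `k` to the row `i`. -/
def up {R : Type} [CommRing R] (i k : I) (t : R) (A : Matrix I I R) : Matrix I I R :=
  fun x y => if x = i then A i y + t * A k y else A x y

end

/-- A system of equations `F v = 0`, `v : V`, in a product `Y` of partial flag varieties, one for every block: its points are the families of the
spans of the first rows up to `j`, `j ∈ T`, of the matrices `A_k`. `F v` is a section of the nef line bundle `𝒪(e v) = ⨂ j ∈ T, 𝒪(ω_j) ^ e v j`. -/
structure FSys (V I κ : Type) [Fintype I] [LinearOrder I] where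
  /-- the block of an index -/
  blk : I → κ
  /-- the indices of the subspaces of the flags -/
  T : Set (Pos blk)
  /-- the weights -/
  e : V → Pos blk → ℕ
  /-- the equations -/
  F : V → MvPolynomial (I × I) ℂ
  supp : ∀ v j, e v j ≠ 0 → j ∈ T
  semi : ∀ v, Semi blk (e v) (F v)

namespace FSys

variable {V I κ : Type} [Fintype I] [LinearOrder I] (S : FSys V I κ)

/-- The cone over `X`: the families of invertible matrices whose flags are points of `X`. -/
def cone : Set (Matrix I I ℂ) := {A | BD S.blk A ∧ A.det ≠ 0 ∧ ∀ v, ev A (S.F v) = 0}

/-- `s` is a section of the line bundle `𝒪_X(d)`: locally on the cone `s` is `P / Q` with sections `P`, `Q` of the line bundles `𝒪(p)`, `𝒪(q)` on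
`Y`, `p - q = d`. -/
def IsSection (d : Pos S.blk → ℤ) (s : Matrix I I ℂ → ℂ) : Prop :=
  ∀ A ∈ S.cone, ∃ (p q : Pos S.blk → ℕ) (P Q : MvPolynomial (I × I) ℂ), (∀ j, j ∉ S.T → p j = 0 ∧ q j = 0) ∧
    Semi S.blk p P ∧ Semi S.blk q Q ∧ (∀ j, (p j : ℤ) - q j = d j) ∧ ev A Q ≠ 0 ∧
    ∀ B ∈ S.cone, ev B Q ≠ 0 → s B * ev B Q = ev B P

/-- The line bundle `𝒪_X(d)` is globally generated: at every point of `X` some section is not zero. -/
def GloballyGenerated (d : Pos S.blk → ℤ) : Prop :=
  ∀ A ∈ S.cone, ∃ s, S.IsSection d s ∧ s A ≠ 0

open Classical in
/-- The class `d` is nef on `X` (Kleiman's criterion): for every `m ≥ 1` a positive multiple of `m • d + h` is globally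
generated, where `h` is the ample class `∑ j ∈ T, ω_j`. -/
def Nef (d : Pos S.blk → ℤ) : Prop :=
  ∀ m : ℕ, 1 ≤ m → ∃ N : ℕ, 1 ≤ N ∧
    S.GloballyGenerated fun j => (N : ℤ) * ((m : ℤ) * d j + if j ∈ S.T then 1 else 0)

/-- The classes which occur in the equations `v ∈ W`. -/
def occ (W : Finset V) : Set (Pos S.blk) := {j | ∃ v ∈ W, S.e v j ≠ 0}

/-- Let `W` be a nonempty set of equations, `Y_W` the product of the partial flag varieties whose indices are the classes which occur in `W`, and `X_W`
the zero set of the `F v`, `v ∈ W`, in `Y_W`. Its expected dimension `dim Y_W - |W|`, and, if `i` occurs in `W`, the expected dimension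
`dim Y_W - |W| + (-K_(Y_W) - ∑ v ∈ W, e v) i - 3` of the family of the lines of class `i` on `X_W`, are not negative. -/
def Lines (i : Pos S.blk) : Prop :=
  ∀ W : Finset V, W.Nonempty → W.card ≤ (roots S.blk (S.occ W)).card ∧
    (i ∈ S.occ W → W.card + 3 + ∑ v ∈ W, S.e v i ≤ (roots S.blk (S.occ W)).card + idx S.blk (S.occ W) i)

/-- No `e v` is zero, `∑ v, e v ≤ -K_Y`, and `Y` is `Big` or a product of varieties of complete flags of spaces of dimension at least `6`. -/
def Wide [Fintype V] : Prop :=
  (∀ v, ∃ j, S.e v j ≠ 0) ∧ (∀ j ∈ S.T, ∑ v, S.e v j ≤ idx S.blk S.T j) ∧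
    (Big S.blk S.T ∨ (S.T = Set.univ ∧ ∀ x : I, 6 ≤ (block S.blk x).card))

open Classical in
/-- The number of the equations which involve the class `i` is smaller than the dimension of the fibres of the projection of `Y` which forgets the subspaces
with the index `i` (to the product of the partial flag varieties with the indices `T \ {i}`). -/
def Free [Fintype V] (i : Pos S.blk) : Prop :=
  (Finset.univ.filter fun v => S.e v i ≠ 0).card + (roots S.blk (S.T \ {i})).card < (roots S.blk S.T).card

/-- `X` contains a line of class `i`: the points of the line are the flags in which the subspace with the index `i` varies, between the spans of the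
first rows up to `i` without the row `i`, and up to `k`, `k` the successor of `i`; the other subspaces are fixed. The class `d` has the degree `d i` on
the line. -/
def HasLine (i : Pos S.blk) : Prop :=
  ∃ (A : Matrix I I ℂ) (k : I), Nx S.blk i.1 k ∧ ∀ t : ℂ, up i.1 k t A ∈ S.cone

end FSys

end Pool.Agent.MP_cfacaa_ag.Fl
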