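import Mathlib

/-! Row fl-C1a: divisibility of polynomials. -/

namespace Pool.Agent.MP_cfacaa_ag.Fl


/-- Polynomial part: `q ∣ p` because at every root `t` of `q` there are `p'`, `q'` with `p q' = p' q`, `q' t ≠ 0` (divide `p`, `q` by their gcd: a root of the cofactor of `q` is no root of the
cofactor of `p`); `ℂ` is algebraically closed; the degree of `q` is larger than the degree of `p`, so `p = 0`. -/
theorem pol_zero (p q : Polynomial ℂ) (n m : ℕ) (hp : p.natDegree ≤ n) (hq : q.coeff m ≠ 0) (hqm : q.natDegree ≤ m)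
    (hnm : n < m) (h : ∀ t : ℂ, ∃ p' q' : Polynomial ℂ, q'.eval t ≠ 0 ∧ p * q' = p' * q) : p = 0 := by
  classical
  by_contra hp0
  have hq0 : q ≠ 0 := by
    intro h0
    rw [h0, Polynomial.coeff_zero] at hq
    exact hq rfl
  have hle : q.roots ≤ p.roots := by
    rw [Multiset.le_iff_count]
    intro t
    rw [Polynomial.count_roots, Polynomial.count_roots]
    obtain ⟨p', q', h1, h2⟩ := h t
    have hq' : q' ≠ 0 := by
      intro h0
      rw [h0, Polynomial.eval_zero] at h1
      exact h1 rfl
    have h3 : p * q' ≠ 0 := mul_ne_zero hp0 hq'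
    have h4 : p' * q ≠ 0 := by rw [← h2]; exact h3
    have h5 := Polynomial.rootMultiplicity_mul (x := t) h3
    rw [h2, Polynomial.rootMultiplicity_mul h4, Polynomial.rootMultiplicity_eq_zero (p := q') h1] at h5
    omega
  have h6 := Multiset.card_le_card hle
  have h7 : q.roots.card = q.natDegree := Polynomial.splits_iff_card_roots.1 (IsAlgClosed.splits q)
  have h8 := p.card_roots'
  have h9 := Polynomial.le_natDegree_of_ne_zero hq
  omega

end Pool.Agent.MP_cfacaa_ag.Fl
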