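import Pool.Agent.Lib.MP_cfacaa_ag.Fl.B2b
import Pool.Agent.Lib.MP_cfacaa_ag.Fl.C1a

/-! Row fl-C1b: sections of negative degree vanish on the fibre. -/

namespace Pool.Agent.MP_cfacaa_ag.Fl

open MvPolynomial

/-- For every `t` let `(P_t, Q_t)` be the fraction of `s` near `up i k t A` (a point of the cone: `BD.up`, `det_up`), `p_t`, `q_t` the polynomials of `exists_pol` of `P_t`, `Q_t` and the matrix `A`; `q_t (t) ≠ 0`. Let `(P, Q)` be the
fraction near `wm i k 0 A` (in the cone: `BD.wm`, `det_wm`, `ev_wm_eq_zero`), `p`, `q` its polynomials; the coefficient of `q` at `q_i` is not zero, `p` has degree at most `p_i < q_i` (`d i < 0`). Both fractions are equal to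
`s (up i k u A)` for all `u` where the denominators are not zero, so `p * q_t = p_t * q` (`Polynomial.eq_of_infinite_eval_eq` or `Polynomial.funext` after multiplication by `q * q_t`: the polynomial
`(p * q_t - p_t * q) * q * q_t` vanishes everywhere). `pol_zero` gives `p = 0`; then `p_0 * q = 0`, `q ≠ 0`, `p_0 = 0`, `s A * q_0 (0) = p_0 (0) = 0`, `s A = 0` (`up_zero`). -/
theorem section_eq_zero {V I κ : Type} [Fintype I] [LinearOrder I] (S : Sys V I κ) {d : Pos S.blk → ℤ}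
    {s : Matrix I I ℂ → ℂ} (hs : IsSection S d s) (i : Pos S.blk) {k : I} (hk : Nx S.blk i.1 k) (hd : d i < 0)
    {A : Matrix I I ℂ} (hA : BD S.blk A) (hdet : A.det ≠ 0) (h : ∀ v t, ev (up i.1 k t A) (S.F v) = 0) :
    s A = 0 := by
  have hne : i.1 ≠ k := hk.ne
  have hcone : ∀ t : ℂ, up i.1 k t A ∈ S.cone := fun t =>
    ⟨BD.up hk hA t, by rw [det_up hne]; exact hdet, fun v => h v t⟩
  have hwm : wm i.1 k 0 A ∈ S.cone :=
    ⟨BD.wm hk hA 0, by rw [det_wm hne]; exact hdet, fun v => ev_wm_eq_zero hk (S.semi v) hA (h v)⟩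
  -- the local fraction near a point of the fibre
  have loc : ∀ t : ℂ, ∃ pt qt : Polynomial ℂ, qt.eval t ≠ 0 ∧
      ∀ u : ℂ, qt.eval u ≠ 0 → s (up i.1 k u A) * qt.eval u = pt.eval u := by
    intro t
    obtain ⟨p', q', P, Q, hP, hQ, hpq, hQ0, hPQ⟩ := hs _ (hcone t)
    obtain ⟨pt, -, hpt, -⟩ := exists_pol hk hP hA
    obtain ⟨qt, -, hqt, -⟩ := exists_pol hk hQ hA
    refine ⟨pt, qt, by rw [hqt]; exact hQ0, fun u hu => ?_⟩
    rw [hqt] at hu ⊢
    rw [hpt]
    exact hPQ _ (hcone u) hu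
  obtain ⟨p', q', P, Q, hP, hQ, hpq, hQ0, hPQ⟩ := hs _ hwm
  obtain ⟨p, hpd, hp, -⟩ := exists_pol hk hP hA
  obtain ⟨q, hqd, hq, hqc⟩ := exists_pol hk hQ hA
  have hqc0 : q.coeff (q' i) ≠ 0 := by rw [hqc]; exact hQ0
  have hq0 : q ≠ 0 := by
    rintro rfl
    exact hqc0 (Polynomial.coeff_zero _)
  have hfr : ∀ u : ℂ, q.eval u ≠ 0 → s (up i.1 k u A) * q.eval u = p.eval u := by
    intro u hu
    rw [hq] at hu ⊢
    rw [hp]
    exact hPQ _ (hcone u) hu
  have key : ∀ (t : ℂ) (pt qt : Polynomial ℂ), qt.eval t ≠ 0 →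
      (∀ u : ℂ, qt.eval u ≠ 0 → s (up i.1 k u A) * qt.eval u = pt.eval u) → p * qt = pt * q := by
    intro t pt qt hqt hfrt
    have hqt0 : qt ≠ 0 := by
      rintro rfl
      exact hqt Polynomial.eval_zero
    have h0 : (p * qt - pt * q) * (q * qt) = 0 := by
      apply Polynomial.funext
      intro u
      rw [Polynomial.eval_zero, Polynomial.eval_mul, Polynomial.eval_mul, Polynomial.eval_sub,
        Polynomial.eval_mul, Polynomial.eval_mul]
      by_cases h1 : q.eval u = 0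
      · rw [h1, zero_mul, mul_zero]
      · by_cases h2 : qt.eval u = 0
        · rw [h2, mul_zero, mul_zero, mul_zero]
        · rw [← hfr u h1, ← hfrt u h2]
          ring
    have h1 : p * qt - pt * q = 0 := by
      rcases mul_eq_zero.1 h0 with h1 | h1
      · exact h1
      · exact absurd h1 (mul_ne_zero hq0 hqt0)
    exact sub_eq_zero.1 h1
  have hlt : p' i < q' i := by
    have := hpq i
    omega
  have hp0 : p = 0 := pol_zero p q (p' i) (q' i) hpd hqc0 hqd hlt (fun t => by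
    obtain ⟨pt, qt, h1, h2⟩ := loc t
    exact ⟨pt, qt, h1, key t pt qt h1 h2⟩)
  obtain ⟨pt, qt, h1, h2⟩ := loc 0
  have h3 := key 0 pt qt h1 h2
  rw [hp0, zero_mul] at h3
  have h4 : pt = 0 := by
    rcases mul_eq_zero.1 h3.symm with h5 | h5
    · exact h5
    · exact absurd h5 hq0
  have h5 := h2 0 h1
  rw [h4, Polynomial.eval_zero, up_zero] at h5
  rcases mul_eq_zero.1 h5 with h6 | h6
  · exact h6
  · exact absurd h6 h1

end Pool.Agent.MP_cfacaa_ag.Fl
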