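import Pool.Agent.Lib.MP_cfacaa_ag.Fl.A2

/-! Partial flag varieties: nonnegative classes are globally generated; globally generated classes are nef. -/

namespace Pool.Agent.MP_cfacaa_ag.Fl

open MvPolynomial

section

variable {V I κ : Type} [Fintype I] [LinearOrder I] {S : FSys V I κ}

omit [Fintype I] [LinearOrder I] in
theorem C3_ev_mul (A : Matrix I I ℂ) (P Q : MvPolynomial (I × I) ℂ) :
    ev A (P * Q) = ev A P * ev A Q := by
  unfold ev
  exact map_mul _ _ _

omit [Fintype I] [LinearOrder I] in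
theorem C3_ev_one (A : Matrix I I ℂ) : ev A (1 : MvPolynomial (I × I) ℂ) = 1 := by
  unfold ev
  exact map_one _

/-- The product of two sections. -/
theorem FSys.IsSection.mul {d d' : Pos S.blk → ℤ} {s s' : Matrix I I ℂ → ℂ} (h : S.IsSection d s)
    (h' : S.IsSection d' s') : S.IsSection (fun j => d j + d' j) (fun A => s A * s' A) := by
  intro A hA
  obtain ⟨p, q, P, Q, hT, hP, hQ, hd, hne, hB⟩ := h A hA
  obtain ⟨p', q', P', Q', hT', hP', hQ', hd', hne', hB'⟩ := h' A hA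
  refine ⟨p + p', q + q', P * P', Q * Q', ?_, hP.mul hP', hQ.mul hQ', ?_, ?_, ?_⟩
  · intro j hj
    obtain ⟨h1, h2⟩ := hT j hj
    obtain ⟨h3, h4⟩ := hT' j hj
    exact ⟨by rw [Pi.add_apply, h1, h3], by rw [Pi.add_apply, h2, h4]⟩
  · intro j
    have h1 := hd j
    have h2 := hd' j
    show ((p j + p' j : ℕ) : ℤ) - ((q j + q' j : ℕ) : ℤ) = d j + d' j
    push_cast
    linarith
  · rw [C3_ev_mul]
    exact mul_ne_zero hne hne'
  · intro B hBc hBne
    rw [C3_ev_mul] at hBne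
    have h1 := hB B hBc (left_ne_zero_of_mul hBne)
    have h2 := hB' B hBc (right_ne_zero_of_mul hBne)
    show s B * s' B * ev B (Q * Q') = ev B (P * P')
    rw [C3_ev_mul, C3_ev_mul, ← h1, ← h2]
    ring

/-- The power of a section. -/
theorem FSys.IsSection.pow {d : Pos S.blk → ℤ} {s : Matrix I I ℂ → ℂ} (h : S.IsSection d s) (m : ℕ) :
    S.IsSection (fun j => (m : ℤ) * d j) (fun A => s A ^ m) := by
  induction m with
  | zero =>
    intro A hA
    refine ⟨0, 0, 1, 1, fun _ _ => ⟨rfl, rfl⟩, Semi.one, Semi.one, ?_, ?_, ?_⟩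
    · intro j
      show ((0 : ℕ) : ℤ) - ((0 : ℕ) : ℤ) = ((0 : ℕ) : ℤ) * d j
      push_cast
      ring
    · rw [C3_ev_one]
      exact one_ne_zero
    · intro B _ _
      show s B ^ 0 * ev B 1 = ev B 1
      rw [pow_zero, one_mul]
  | succ m ih =>
    have h1 := ih.mul h
    have h2 : (fun j => ((m + 1 : ℕ) : ℤ) * d j) = fun j => (m : ℤ) * d j + d j := by
      funext j
      push_cast
      ring
    have h3 : (fun A => s A ^ (m + 1)) = fun A => s A ^ m * s A := by
      funext A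
      exact pow_succ _ _
    rw [h2, h3]
    exact h1

/-- A semi-invariant `P` of weight `p` is a section (`Q = 1`). -/
theorem FSys.isSection_ev {p : Pos S.blk → ℕ} {P : MvPolynomial (I × I) ℂ} (hp : ∀ j, j ∉ S.T → p j = 0)
    (hP : Semi S.blk p P) : S.IsSection (fun j => (p j : ℤ)) (fun A => ev A P) := by
  intro A _
  refine ⟨p, 0, P, 1, fun j hj => ⟨hp j hj, rfl⟩, hP, Semi.one, ?_, ?_, ?_⟩
  · intro j
    show (p j : ℤ) - ((0 : ℕ) : ℤ) = (p j : ℤ)
    push_cast
    ring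
  · rw [C3_ev_one]
    exact one_ne_zero
  · intro B _ _
    show ev B P * ev B 1 = ev B P
    rw [C3_ev_one, mul_one]

/-- At `A` use the section `∏ j, (Dm blk j A⁻¹) ^ (d j).toNat`, with the value `1` at `A`. -/
theorem FSys.gg_of_nonneg (d : Pos S.blk → ℤ) (hT : ∀ j, j ∉ S.T → d j = 0) (hd : ∀ j, 0 ≤ d j) :
    S.GloballyGenerated d := by
  intro A hA
  have h1 : Semi S.blk (∑ j : Pos S.blk, (d j).toNat • om j)
      (∏ j : Pos S.blk, Dm S.blk j.1 (A⁻¹ : Matrix I I ℂ) ^ (d j).toNat) :=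
    Semi.prod Finset.univ (fun j => (d j).toNat • om j)
      (fun j => Dm S.blk j.1 (A⁻¹ : Matrix I I ℂ) ^ (d j).toNat)
      (fun j _ => (semi_Dm j (A⁻¹ : Matrix I I ℂ)).pow (d j).toNat)
  rw [sum_om (fun j => (d j).toNat)] at h1
  have h2 := FSys.isSection_ev (S := S) (p := fun j => (d j).toNat)
    (fun j hj => by show (d j).toNat = 0; rw [hT j hj, Int.toNat_zero]) h1
  have h3 : (fun j => (((d j).toNat : ℕ) : ℤ)) = d := by
    funext j
    exact Int.toNat_of_nonneg (hd j)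
  rw [h3] at h2
  refine ⟨_, h2, ?_⟩
  have h4 : ev A (∏ j : Pos S.blk, Dm S.blk j.1 (A⁻¹ : Matrix I I ℂ) ^ (d j).toNat) = 1 := by
    have h5 : ∀ j : Pos S.blk, ev A (Dm S.blk j.1 (A⁻¹ : Matrix I I ℂ)) = 1 := fun j =>
      ev_Dm_inv j.1 hA.2.1
    unfold ev at h5 ⊢
    rw [map_prod]
    refine Finset.prod_eq_one fun j _ => ?_
    rw [map_pow, h5 j, one_pow]
  show ev A (∏ j : Pos S.blk, Dm S.blk j.1 (A⁻¹ : Matrix I I ℂ) ^ (d j).toNat) ≠ 0
  rw [h4]
  exact one_ne_zero

open Classical in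
/-- `N = 1`: the section `s ^ m * s'` with `s` a section of `d`, `s'` a section of the ample class, both not zero at the point. -/
theorem FSys.nef_of_gg {d : Pos S.blk → ℤ} (h : S.GloballyGenerated d) : S.Nef d := by
  intro m _
  refine ⟨1, le_refl 1, ?_⟩
  intro A hA
  obtain ⟨s, hs, hsA⟩ := h A hA
  obtain ⟨s', hs', hsA'⟩ := FSys.gg_of_nonneg (S := S) (fun j => if j ∈ S.T then 1 else 0)
    (fun j hj => if_neg hj) (fun j => by
      show (0 : ℤ) ≤ if j ∈ S.T then 1 else 0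
      split_ifs
      · exact zero_le_one
      · exact le_refl 0) A hA
  have h1 := (hs.pow m).mul hs'
  have h2 : (fun j => ((1 : ℕ) : ℤ) * ((m : ℤ) * d j + if j ∈ S.T then 1 else 0)) =
      fun j => (m : ℤ) * d j + if j ∈ S.T then 1 else 0 := by
    funext j
    push_cast
    ring
  rw [h2]
  exact ⟨_, h1, mul_ne_zero (pow_ne_zero m hsA) hsA'⟩

end

end Pool.Agent.MP_cfacaa_ag.Fl
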