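import Pool.Agent.Lib.MP_cfacaa_ag.Fl.Base

/-!
Complete intersections in products of varieties of complete flags; the tools.
-/

namespace Pool.Agent.MP_cfacaa_ag.Fl

open MvPolynomial

section

variable {I κ : Type} [Fintype I] [LinearOrder I]

open Classical in
/-- The hook of `j`: the pairs `(a, b)`, `a ≤ j < b`, in the block of `j`, with `a = j` or `b` the successor of `j`. -/
noncomputable def hook (blk : I → κ) (j : I) : Finset (I × I) :=
  Finset.univ.filter fun s => blk s.1 = blk j ∧ blk s.2 = blk j ∧ s.1 ≤ j ∧ j < s.2 ∧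
    (s.1 = j ∨ ∀ x, blk x = blk j → j < x → s.2 ≤ x)

end

/-- A system of equations `F v = 0`, `v : V`, in the product of the flag varieties of the blocks: `F v` is a section of the
nef line bundle `𝒪(e v)`. -/
structure Sys (V I κ : Type) [Fintype I] [LinearOrder I] where
  /-- the block of an index -/
  blk : I → κ
  /-- the weights -/
  e : V → Pos blk → ℕ
  /-- the equations -/
  F : V → MvPolynomial (I × I) ℂ
  semi : ∀ v, Semi blk (e v) (F v)

section

variable {V I κ : Type} [Fintype I] [LinearOrder I] (S : Sys V I κ)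

/-- The cone over `X`: the families of invertible matrices whose flags are points of `X`. -/
def Sys.cone : Set (Matrix I I ℂ) := {A | BD S.blk A ∧ A.det ≠ 0 ∧ ∀ v, ev A (S.F v) = 0}

/-- `s` is a section of the line bundle `𝒪_X(d)`: locally on the cone `s` is `P / Q` with semi-invariant polynomials `P`, `Q` of
weights `p`, `q`, `p - q = d`. -/
def IsSection (d : Pos S.blk → ℤ) (s : Matrix I I ℂ → ℂ) : Prop :=
  ∀ A ∈ S.cone, ∃ (p q : Pos S.blk → ℕ) (P Q : MvPolynomial (I × I) ℂ), Semi S.blk p P ∧ Semi S.blk q Q ∧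
    (∀ j, (p j : ℤ) - q j = d j) ∧ ev A Q ≠ 0 ∧ ∀ B ∈ S.cone, ev B Q ≠ 0 → s B * ev B Q = ev B P

/-- The line bundle `𝒪_X(d)` is globally generated: at every point of `X` some section is not zero. -/
def GloballyGenerated (d : Pos S.blk → ℤ) : Prop :=
  ∀ A ∈ S.cone, ∃ s, IsSection S d s ∧ s A ≠ 0

/-- The class `d` is nef on `X` (Kleiman's criterion): for every `m ≥ 1` a positive multiple of `m • d + (1, …, 1)` is globally
generated. (The class `(1, …, 1)` is ample.) -/
def Nef (d : Pos S.blk → ℤ) : Prop :=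
  ∀ m : ℕ, 1 ≤ m → ∃ N : ℕ, 1 ≤ N ∧ GloballyGenerated S fun j => (N : ℤ) * ((m : ℤ) * d j + 1)

end

section

variable {I κ R : Type} [Fintype I] [LinearOrder I] [CommRing R]

/-- Replace the rows `i`, `k` by `s * (row i) + row k`, `- (row i)`. -/
def wm (i k : I) (s : R) (A : Matrix I I R) : Matrix I I R :=
  fun x y => if x = i then s * A i y + A k y else if x = k then - A i y else A x y

open Classical in
/-- The fundamental weight `ω_j`. -/
noncomputable def om {blk : I → κ} (j : Pos blk) : Pos blk → ℕ := fun l => if l = j then 1 else 0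

/-- The minor of `A * M` with the rows and columns `seg blk j`. -/
noncomputable def Dm (blk : I → κ) (j : I) (M : Matrix I I R) : MvPolynomial (I × I) R :=
  Matrix.det (Matrix.of fun r c : {x // x ∈ seg blk j} => ∑ y, X (r.1, y) * C (M y c.1))

/-- The matrix of a map: `A * pm f` has the entries `A x (f y)`. -/
def pm (f : I → I) : Matrix I I R := fun y c => if y = f c then 1 else 0

/-- Normalised matrices: `A l (c l) = 1` and `A x (c l) = 0` for `l < x`. -/
def Nrm (A : Matrix I I R) (c : I → I) : Prop := (∀ l, A l (c l) = 1) ∧ ∀ l x, l < x → A x (c l) = 0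

open Classical in
/-- The chart: upper unitriangular (block diagonal) matrices with the entry `0` at `(i, k)`. -/
noncomputable def ch (blk : I → κ) (i k : I) (z : I × I → R) : Matrix I I R :=
  fun x y => if x = y then 1 else if blk x = blk y ∧ x < y ∧ ¬ (x = i ∧ y = k) then z (x, y) else 0

/-- `F` is a semi-invariant of weight `e` whose values on the `(i, k)`-line through the matrix `ch z` are
`∑ s, U s (t, z) * z s`, with polynomials `U s` of degree at most `n` in `t`, and `J s (t) = U s (t, 0)`. -/
def Lin (blk : I → κ) (i k : I) (n : ℕ) (e : Pos blk → ℕ) (F : MvPolynomial (I × I) ℂ)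
    (J : I × I → Polynomial ℂ) : Prop :=
  Semi blk e F ∧ ∃ U : I × I → Polynomial (MvPolynomial (I × I) ℂ), (∀ s, (U s).natDegree ≤ n) ∧
    (∀ s, (U s).map constantCoeff = J s) ∧
    ∀ (L : Type) [Field L] [Algebra ℂ L] (z : I × I → L) (t : L),
      ev (up i k t (ch blk i k z)) F =
        ∑ s, (U s).eval₂ ((aeval z : MvPolynomial (I × I) ℂ →ₐ[ℂ] L) : MvPolynomial (I × I) ℂ →+* L) t * z s

/-- There is a semi-invariant of weight `e` as in `Lin` with `J` supported on `C` and with independent coefficients. -/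
def Good (blk : I → κ) (i k : I) (n : ℕ) (e : Pos blk → ℕ) (C : Finset (I × I)) : Prop :=
  ∃ (F : MvPolynomial (I × I) ℂ) (J : I × I → Polynomial ℂ), Lin blk i k n e F J ∧ (∀ s, s ∉ C → J s = 0) ∧
    ∀ w : ℕ → ℂ, ∃ y : I × I → ℂ, (∀ s, s ∉ C → y s = 0) ∧ ∀ r, r ≤ n → ∑ s, (J s).coeff r * y s = w r

end

end Pool.Agent.MP_cfacaa_ag.Fl
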