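import Pool.Agent.Lib.MP_cfacaa_ag.Fl.A1

/-! Row fl-E1a: normalised matrices are invertible. -/

namespace Pool.Agent.MP_cfacaa_ag.Fl

section

variable {I κ : Type} [Fintype I] [LinearOrder I] {blk : I → κ}

/-- `c` is injective (for `l < x`: `A x (c l) = 0 ≠ 1 = A x (c x)`), so a permutation `σ` of `I`; `A.submatrix id σ` is upper triangular with diagonal `1`
(`Matrix.det_of_upperTriangular`), its determinant is `± det A` (`Matrix.det_permute'`). -/
theorem Nrm.det_ne_zero {L : Type} [Field L] {A : Matrix I I L} {c : I → I} (h : Nrm A c) : A.det ≠ 0 := by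
  obtain ⟨h1, h2⟩ := h
  have hinj : Function.Injective c := by
    intro l x hlx
    rcases lt_trichotomy l x with hlt | heq | hgt
    · have h3 := h2 l x hlt
      rw [hlx, h1 x] at h3
      exact absurd h3 one_ne_zero
    · exact heq
    · have h3 := h2 x l hgt
      rw [← hlx, h1 l] at h3
      exact absurd h3 one_ne_zero
  have hbij : Function.Bijective c := Finite.injective_iff_bijective.mp hinj
  have hdet : (A.submatrix id (Equiv.ofBijective c hbij)).det = 1 := by
    rw [Matrix.det_of_upperTriangular]
    · apply Finset.prod_eq_one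
      intro l _
      exact h1 l
    · intro x l hlx
      exact h2 l x hlx
  rw [Matrix.det_permute'] at hdet
  intro h0
  rw [h0, mul_zero] at hdet
  exact zero_ne_one hdet

end

end Pool.Agent.MP_cfacaa_ag.Fl
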