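import Pool.Agent.Lib.MP_cfacaa_ag.Fl.A1

/-! Row fl-E1b: normal form of a flag with respect to a valuation ring. -/

namespace Pool.Agent.MP_cfacaa_ag.Fl

section

variable {I κ : Type} [Fintype I] [LinearOrder I] {blk : I → κ}

theorem E1b_quot {L : Type} [Field L] (O : ValuationSubring L) {x y : L} (hy : y ≠ 0)
    (h : O.valuation x ≤ O.valuation y) : y⁻¹ * x ∈ O := by
  rw [← O.valuation_le_one_iff, map_mul, map_inv₀]
  have hy' : O.valuation y ≠ 0 := (Valuation.ne_zero_iff _).2 hy
  have hy'' : 0 < O.valuation y := zero_lt_iff.2 hy'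
  rw [mul_comm, ← div_eq_mul_inv]
  exact (div_le_one₀ hy'').2 h

/-- the matrix of the step -/
def E1b_mat {L : Type} [Field L] (A : Matrix I I L) (a y0 : I) : Matrix I I L := fun x y =>
  if y = a then (if x = a then (A a y0)⁻¹ else if a < x then -(A x y0) * (A a y0)⁻¹ else 0)
  else (if x = y then 1 else 0)

theorem E1b_mul {L : Type} [Field L] (A : Matrix I I L) (a y0 x y : I) :
    (E1b_mat A a y0 * A) x y = E1b_mat A a y0 x a * A a y + (if x = a then 0 else A x y) := by
  rw [Matrix.mul_apply, ← Finset.add_sum_erase Finset.univ _ (Finset.mem_univ a)]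
  congr 1
  have h1 : ∀ z ∈ Finset.univ.erase a, E1b_mat A a y0 x z * A z y = if x = z then A z y else 0 := by
    intro z hz
    have hz' : z ≠ a := Finset.ne_of_mem_erase hz
    unfold E1b_mat
    rw [if_neg hz']
    split_ifs
    · rw [one_mul]
    · rw [zero_mul]
  rw [Finset.sum_congr rfl h1, Finset.sum_ite_eq]
  by_cases hx : x = a
  · rw [if_pos hx, if_neg (by simp [hx])]
  · rw [if_neg hx, if_pos (Finset.mem_erase.2 ⟨hx, Finset.mem_univ x⟩)]

omit [Fintype I] in
theorem E1b_low {L : Type} [Field L] {A : Matrix I I L} (hA : BD blk A) {a y0 : I} (hy : A a y0 ≠ 0) :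
    Low blk (E1b_mat A a y0) := by
  have hb : blk a = blk y0 := by
    by_contra h
    exact hy (hA a y0 h)
  intro x y hxy
  unfold E1b_mat at hxy
  by_cases h1 : y = a
  · rw [if_pos h1] at hxy
    by_cases h2 : x = a
    · exact ⟨by rw [h1, h2], by rw [h1, h2]⟩
    · rw [if_neg h2] at hxy
      by_cases h3 : a < x
      · rw [if_pos h3] at hxy
        have h4 : A x y0 ≠ 0 := by
          intro h
          rw [h, neg_zero, zero_mul] at hxy
          exact hxy rfl
        have h5 : blk x = blk y0 := by
          by_contra h
          exact h4 (hA x y0 h)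
        exact ⟨by rw [h5, h1, hb], by rw [h1]; exact h3.le⟩
      · rw [if_neg h3] at hxy
        exact absurd rfl hxy
  · rw [if_neg h1] at hxy
    by_cases h2 : x = y
    · exact ⟨by rw [h2], by rw [h2]⟩
    · rw [if_neg h2] at hxy
      exact absurd rfl hxy

theorem E1b_det {L : Type} [Field L] {A : Matrix I I L} {a y0 : I} (hy : A a y0 ≠ 0) :
    (E1b_mat A a y0).det ≠ 0 := by
  rw [Matrix.det_of_isLowerTriangular]
  · rw [Finset.prod_ne_zero_iff]
    intro x _
    unfold E1b_mat
    by_cases h1 : x = a
    · rw [if_pos h1, if_pos h1]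
      exact inv_ne_zero hy
    · rw [if_neg h1, if_pos rfl]
      exact one_ne_zero
  · intro x y hxy
    have h1 : x < y := OrderDual.toDual_lt_toDual.1 hxy
    unfold E1b_mat
    by_cases h2 : y = a
    · rw [if_pos h2, if_neg (by rw [← h2]; exact h1.ne), if_neg (by rw [← h2]; exact h1.not_gt)]
    · rw [if_neg h2, if_neg h1.ne]

/-- Row reduction. Prove by `Finset.induction_on_max` for all finite sets `s` of indices: there are `b` with `Low blk b`, `b.det ≠ 0` and `c : I → I` such that for all `l ∈ s`: `(b * A) l (c l) = 1`, all `(b * A) l y ∈ O`,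
and `(b * A) x (c l) = 0` for all `x > l`. Step, adding `a` larger than all elements of `s`: the row `a` of `A' = b * A` is not zero (`A'.det ≠ 0`); let `c a` be a column where `O.valuation (A' a y)` is maximal (`Finset.exists_max_image`); `A' a (c a) ≠ 0`,
`blk (c a) = blk a` (`A'` is `BD`). Multiply by the matrix `b'` equal to the identity matrix except: `b' a a = (A' a (c a))⁻¹`, and `b' x a = - A' x (c a) * (A' a (c a))⁻¹` for `x > a` (zero in other blocks, as `A'` is `BD`), so `Low blk b'`.
The rows `l < a` do not change; the new row `a` is `A' a y / A' a (c a)` with values in `O` (`ValuationSubring.valuation_le_one_iff`, see `RedA_quot` in `G/RedA.lean`: valuation `≤ 1`); for `x > a` the new row `x` is (row `x`) `- A' x (c a) *` (new row `a`): zero at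
`c a`, and still zero at `c l` for `l ∈ s` (`l < a < x`, both rows are zero there). At the end `s = univ`. -/
theorem exists_nrm {L : Type} [Field L] (O : ValuationSubring L) {A : Matrix I I L} (hA : BD blk A)
    (hdet : A.det ≠ 0) : ∃ (b : Matrix I I L) (c : I → I), Low blk b ∧ Nrm (b * A) c ∧ ∀ x y, (b * A) x y ∈ O := by
  classical
  have key : ∀ s : Finset I, ∃ (b : Matrix I I L) (c : I → I), Low blk b ∧ b.det ≠ 0 ∧
      ∀ l ∈ s, (b * A) l (c l) = 1 ∧ (∀ y, (b * A) l y ∈ O) ∧ ∀ x, l < x → (b * A) x (c l) = 0 := by
    intro s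
    induction s using Finset.induction_on_max with
    | empty =>
      refine ⟨1, id, Low.one, ?_, fun l hl => absurd hl (Finset.notMem_empty l)⟩
      rw [Matrix.det_one]
      exact one_ne_zero
    | insert a s hs ih =>
      obtain ⟨b, c, hb, hbd, hl⟩ := ih
      obtain ⟨A', hA'⟩ : ∃ A', A' = b * A := ⟨_, rfl⟩
      have hA'bd : BD blk A' := by
        rw [hA']
        exact hb.bd.mul hA
      have hA'det : A'.det ≠ 0 := by
        rw [hA', Matrix.det_mul]
        exact mul_ne_zero hbd hdet
      obtain ⟨y0, -, hmax⟩ := Finset.exists_max_image Finset.univ (fun y => O.valuation (A' a y))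
        ⟨a, Finset.mem_univ a⟩
      have hy0 : A' a y0 ≠ 0 := by
        intro h0
        refine hA'det (Matrix.det_eq_zero_of_row_eq_zero a fun y => ?_)
        have h1 := hmax y (Finset.mem_univ y)
        rw [h0, map_zero] at h1
        exact (Valuation.zero_iff _).1 (le_antisymm h1 zero_le)
      rw [← hA'] at hl
      refine ⟨E1b_mat A' a y0 * b, Function.update c a y0, (E1b_low hA'bd hy0).mul hb, ?_, ?_⟩
      · rw [Matrix.det_mul]
        exact mul_ne_zero (E1b_det hy0) hbd
      · rw [Matrix.mul_assoc, ← hA']
        intro l hl'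
        rcases Finset.mem_insert.1 hl' with rfl | hls
        · rw [Function.update_self]
          refine ⟨?_, ?_, ?_⟩
          · rw [E1b_mul, if_pos rfl, add_zero]
            unfold E1b_mat
            rw [if_pos rfl, if_pos rfl]
            exact inv_mul_cancel₀ hy0
          · intro y
            rw [E1b_mul, if_pos rfl, add_zero]
            unfold E1b_mat
            rw [if_pos rfl, if_pos rfl]
            exact E1b_quot O hy0 (hmax y (Finset.mem_univ y))
          · intro x hx
            rw [E1b_mul, if_neg hx.ne']
            unfold E1b_mat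
            rw [if_pos rfl, if_neg hx.ne', if_pos hx, mul_assoc, inv_mul_cancel₀ hy0, mul_one]
            ring
        · have hla : l < a := hs l hls
          obtain ⟨h1, h2, h3⟩ := hl l hls
          have h4 : ∀ y, (E1b_mat A' a y0 * A') l y = A' l y := by
            intro y
            rw [E1b_mul, if_neg hla.ne]
            unfold E1b_mat
            rw [if_pos rfl, if_neg hla.ne, if_neg hla.not_gt, zero_mul, zero_add]
          rw [Function.update_of_ne hla.ne]
          refine ⟨?_, ?_, ?_⟩
          · rw [h4]
            exact h1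
          · intro y
            rw [h4]
            exact h2 y
          · intro x hx
            rw [E1b_mul, h3 a hla, mul_zero, zero_add]
            split_ifs
            · rfl
            · exact h3 x hx
  obtain ⟨b, c, hb, -, h⟩ := key Finset.univ
  exact ⟨b, c, hb, ⟨fun l => (h l (Finset.mem_univ l)).1, fun l x hx => (h l (Finset.mem_univ l)).2.2 x hx⟩,
    fun x y => (h x (Finset.mem_univ x)).2.1 y⟩

end

end Pool.Agent.MP_cfacaa_ag.Fl
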