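import Pool.Agent.Lib.MP_cfacaa_ag.Fl.Defs
import Pool.Agent.Lib.MP_cfacaa_ag.G.NS

/-! Row fl-E2: descent to the complex numbers. -/

namespace Pool.Agent.MP_cfacaa_ag.Fl

open MvPolynomial

section

variable {I κ : Type} [Fintype I] [LinearOrder I] {blk : I → κ}

/-- The matrix of the variables. -/
noncomputable def E2_X (I : Type) : Matrix I I (MvPolynomial (I × I) ℂ) := fun x y => X (x, y)

omit [Fintype I] in
theorem E2_up {S : Type} [CommRing S] [Algebra ℂ S] (i k : I) (y : I × I → S) (t : ℂ) (a b : I) :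
    aeval y (up i k (C t) (E2_X I) a b) = up i k (algebraMap ℂ S t) (fun x z => y (x, z)) a b := by
  unfold up E2_X
  split_ifs
  · rw [map_add, map_mul, aeval_X, aeval_X, aeval_C]
  · rw [aeval_X]

theorem E2_aeval {S : Type} [CommRing S] [Algebra ℂ S] (i k : I) (y : I × I → S) (t : ℂ) (P : MvPolynomial (I × I) ℂ) :
    aeval y (ev (up i k (C t) (E2_X I)) P) = ev (up i k (algebraMap ℂ S t) (fun x z => y (x, z))) P := by
  have h : (aeval y : MvPolynomial (I × I) ℂ →ₐ[ℂ] S).comp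
      (aeval (fun p : I × I => up i k (C t) (E2_X I) p.1 p.2) : MvPolynomial (I × I) ℂ →ₐ[ℂ] MvPolynomial (I × I) ℂ) =
      aeval (fun p : I × I => up i k (algebraMap ℂ S t) (fun x z => y (x, z)) p.1 p.2) := by
    apply MvPolynomial.algHom_ext
    intro p
    rw [AlgHom.comp_apply, aeval_X, aeval_X]
    exact E2_up i k y t p.1 p.2
  exact DFunLike.congr_fun h P

/-- `G.exists_zero_of_extension` with the variables `I × I` and the equations: `X (x, y) = 0` for `blk x ≠ blk y`; `X (l, c l) - 1 = 0`; `X (x, c l) = 0` for `l < x`; `ev (up i k (C t) X) (F v) = 0` for all `v` and all `t : ℂ`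
(`X` the matrix of the variables; see `exists_line_of_extension` in `G/RedB.lean`). -/
theorem exists_flag_of_extension {V : Type} (F : V → MvPolynomial (I × I) ℂ) {L : Type} [Field L] [Algebra ℂ L] (i k : I)
    {A : Matrix I I L} {c : I → I} (hA : BD blk A) (hN : Nrm A c) (h : ∀ v t, ev (up i k t A) (F v) = 0) :
    ∃ A' : Matrix I I ℂ, BD blk A' ∧ Nrm A' c ∧ ∀ v t, ev (up i k t A') (F v) = 0 := by
  obtain ⟨y, hy⟩ := G.exists_zero_of_extension (σ := I × I) (K := ℂ) (F := L)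
    ({p | ∃ v t, p = ev (up i k (C t) (E2_X I)) (F v)} ∪ ({p | ∃ x z, blk x ≠ blk z ∧ p = X (x, z)} ∪
      ({p | ∃ l, p = X (l, c l) - 1} ∪ {p | ∃ l x, l < x ∧ p = X (x, c l)}))) (fun p => A p.1 p.2) (by
    rintro p (⟨v, t, rfl⟩ | ⟨x, z, hxz, rfl⟩ | ⟨l, rfl⟩ | ⟨l, x, hlx, rfl⟩)
    · rw [E2_aeval]
      exact h v _
    · rw [aeval_X]
      exact hA x z hxz
    · rw [map_sub, aeval_X, map_one, hN.1 l, sub_self]
    · rw [aeval_X]
      exact hN.2 l x hlx)
  refine ⟨fun x z => y (x, z), fun x z hxz => ?_, ⟨fun l => ?_, fun l x hlx => ?_⟩, fun v t => ?_⟩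
  · have h1 := hy (X (x, z)) (Or.inr (Or.inl ⟨x, z, hxz, rfl⟩))
    rwa [aeval_X] at h1
  · have h1 := hy (X (l, c l) - 1) (Or.inr (Or.inr (Or.inl ⟨l, rfl⟩)))
    rwa [map_sub, aeval_X, map_one, sub_eq_zero] at h1
  · have h1 := hy (X (x, c l)) (Or.inr (Or.inr (Or.inr ⟨l, x, hlx, rfl⟩)))
    rwa [aeval_X] at h1
  · have h1 := hy (ev (up i k (C t) (E2_X I)) (F v)) (Or.inl ⟨v, t, rfl⟩)
    rw [E2_aeval] at h1
    exact h1

end

end Pool.Agent.MP_cfacaa_ag.Fl
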