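import Pool.Agent.Lib.MP_cfacaa_ag.Fl.E1a
import Pool.Agent.Lib.MP_cfacaa_ag.Fl.E2

/-! Row fl-E3a: reduction modulo the maximal ideal. -/

namespace Pool.Agent.MP_cfacaa_ag.Fl

open MvPolynomial

section

variable {I κ : Type} [Fintype I] [LinearOrder I] {blk : I → κ}

omit [Fintype I] in
/-- homomorphisms and lines -/
theorem E3a_up {R S : Type} [CommRing R] [CommRing S] (φ : R →+* S) (i k : I) (t : R) (A : Matrix I I R) :
    up i k (φ t) (fun x y => φ (A x y)) = fun x y => φ (up i k t A x y) := by
  funext x y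
  unfold up
  by_cases h : x = i
  · rw [if_pos h, if_pos h, map_add, map_mul]
  · rw [if_neg h, if_neg h]

/-- The reduction. `κ = IsLocalRing.ResidueField O` is a field extension of `ℂ`; reduce the matrix `A` (with entries in `O`); every `t` in the residue field lifts to `O`; `ev (up i k t A) (F v)` is in the maximal ideal. See `RedC_reduce` in
`Pool/Agent/Lib/MP_cfacaa_ag/G/RedC.lean` (same construction of the algebra structures). Then `exists_flag_of_extension` and `Nrm.det_ne_zero`. -/
theorem reduce {V : Type} (F : V → MvPolynomial (I × I) ℂ) {L : Type} [Field L] [Algebra ℂ L] (O : ValuationSubring L)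
    (hO : ∀ a : ℂ, algebraMap ℂ L a ∈ O) (i k : I) {A : Matrix I I L} {c : I → I} (hA : BD blk A) (hN : Nrm A c)
    (hAO : ∀ x y, A x y ∈ O) (h : ∀ v, ∀ t ∈ O, O.valuation (ev (up i k t A) (F v)) < 1) :
    ∃ A' : Matrix I I ℂ, BD blk A' ∧ A'.det ≠ 0 ∧ ∀ v t, ev (up i k t A') (F v) = 0 := by
  let f : ℂ →+* O := (algebraMap ℂ L).codRestrict O.toSubring hO
  let _ : Algebra ℂ O := f.toAlgebra
  let _ : Algebra ℂ (IsLocalRing.ResidueField O) := ((IsLocalRing.residue O).comp f).toAlgebra
  let j : O →ₐ[ℂ] L := { O.subtype with commutes' := fun k => rfl }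
  let r : O →ₐ[ℂ] IsLocalRing.ResidueField O :=
    { IsLocalRing.residue O with commutes' := fun k => rfl }
  let AO : Matrix I I O := fun x y => ⟨A x y, hAO x y⟩
  have hA1 : BD blk (fun x y => r (AO x y) : Matrix I I (IsLocalRing.ResidueField O)) := by
    intro x y hxy
    have e : AO x y = 0 := Subtype.ext (hA x y hxy)
    show r (AO x y) = 0
    rw [e, map_zero]
  have hN1 : Nrm (fun x y => r (AO x y) : Matrix I I (IsLocalRing.ResidueField O)) c := by
    refine ⟨fun l => ?_, fun l x hlx => ?_⟩
    · have e : AO l (c l) = 1 := Subtype.ext (hN.1 l)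
      show r (AO l (c l)) = 1
      rw [e, map_one]
    · have e : AO x (c l) = 0 := Subtype.ext (hN.2 l x hlx)
      show r (AO x (c l)) = 0
      rw [e, map_zero]
  have hF1 : ∀ v t, ev (up i k t (fun x y => r (AO x y) : Matrix I I (IsLocalRing.ResidueField O))) (F v) = 0 := by
    intro v t
    obtain ⟨t, rfl⟩ := IsLocalRing.residue_surjective t
    have e1 : up i k (IsLocalRing.residue O t) (fun x y => r (AO x y) : Matrix I I (IsLocalRing.ResidueField O)) =
        fun x y => r (up i k t AO x y) := E3a_up (r : O →+* IsLocalRing.ResidueField O) i k t AO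
    have e2 : up i k (t : L) A = fun x y => j (up i k t AO x y) := E3a_up (j : O →+* L) i k t AO
    have e3 : aeval (fun p : I × I => r (up i k t AO p.1 p.2)) (F v) =
        r (aeval (fun p : I × I => up i k t AO p.1 p.2) (F v)) :=
      (comp_aeval_apply (fun p : I × I => up i k t AO p.1 p.2) r (F v)).symm
    have e4 : aeval (fun p : I × I => j (up i k t AO p.1 p.2)) (F v) =
        j (aeval (fun p : I × I => up i k t AO p.1 p.2) (F v)) :=
      (comp_aeval_apply (fun p : I × I => up i k t AO p.1 p.2) j (F v)).symm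
    have h2 : aeval (fun p : I × I => up i k t AO p.1 p.2) (F v) ∈ IsLocalRing.maximalIdeal O := by
      rw [ValuationSubring.valuation_lt_one_iff]
      have h3 := h v t t.2
      rw [e2] at h3
      unfold ev at h3
      rw [e4] at h3
      exact h3
    rw [e1]
    unfold ev
    rw [e3]
    exact (IsLocalRing.residue_eq_zero_iff _).mpr h2
  obtain ⟨A', h1, h2, h3⟩ := exists_flag_of_extension F i k hA1 hN1 hF1
  exact ⟨A', h1, h2.det_ne_zero, h3⟩

end

end Pool.Agent.MP_cfacaa_ag.Fl
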