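import Pool.Agent.Lib.MP_cfacaa_ag.Fl.A3
import Pool.Agent.Lib.MP_cfacaa_ag.Fl.B3
import Pool.Agent.Lib.MP_cfacaa_ag.Fl.E1b
import Pool.Agent.Lib.MP_cfacaa_ag.Fl.E3a
import Pool.Agent.Lib.MP_cfacaa_ag.ExV

/-! Row fl-E3b: specialisation. -/

namespace Pool.Agent.MP_cfacaa_ag.Fl

open MvPolynomial

section

variable {I κ : Type} [Fintype I] [LinearOrder I] {blk : I → κ}

/-- values of polynomials at matrices with entries in `O` -/
theorem E3b_mem {L : Type} [Field L] [Algebra ℂ L] (O : ValuationSubring L) (hO : ∀ a : ℂ, algebraMap ℂ L a ∈ O)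
    (M : Matrix I I L) (hM : ∀ x y, M x y ∈ O) (P : MvPolynomial (I × I) ℂ) : ev M P ∈ O := by
  let f : ℂ →+* O := (algebraMap ℂ L).codRestrict O.toSubring hO
  let _ : Algebra ℂ O := f.toAlgebra
  let j : O →ₐ[ℂ] L := { O.subtype with commutes' := fun k => rfl }
  let g : I × I → O := fun p => ⟨M p.1 p.2, hM p.1 p.2⟩
  have e2 : (fun p : I × I => M p.1 p.2) = fun p => j (g p) := rfl
  have e4 : aeval (fun p => j (g p)) P = j (aeval g P) := (comp_aeval_apply g j P).symm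
  show aeval (fun p : I × I => M p.1 p.2) P ∈ O
  rw [e2, e4]
  exact Subtype.property _

/-- `lam ∉ ℂ`, so there is a valuation subring `O ⊇ ℂ` with `lam ∉ O` (`mem_range_of_forall_valuationSubring` in `ExV.lean`), `lam⁻¹` is in the maximal ideal. `exists_nrm` gives `b`, `c`. The polynomial
`H v = F₀ v + lam F v` over `L` is semi-invariant (`Semi.map_add`, `ev_map_add`) and vanishes at `up i k t A`, so at `up i k t (b * A)` (`ev_up_mul`; `L` is infinite: `algebraMap ℂ L` is injective,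
`Infinite.of_injective`). For `t ∈ O` the value `ev (up i k t (b * A)) (F v) = - lam⁻¹ * ev (..) (F₀ v)` is in the maximal ideal. Use `reduce`. See `specialise` in `Pool/Agent/Lib/MP_cfacaa_ag/G/RedC.lean`. -/
theorem specialise {V : Type} (e : V → Pos blk → ℕ) (F₀ F : V → MvPolynomial (I × I) ℂ)
    (hF₀ : ∀ v, Semi blk (e v) (F₀ v)) (hF : ∀ v, Semi blk (e v) (F v)) {L : Type} [Field L] [Algebra ℂ L] (lam : L)
    (hlam : lam ∉ Set.range (algebraMap ℂ L)) {i : Pos blk} {k : I} (hk : Nx blk i.1 k) {A : Matrix I I L}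
    (hA : BD blk A) (hdet : A.det ≠ 0)
    (h : ∀ v t, ev (up i.1 k t A) (F₀ v) + lam * ev (up i.1 k t A) (F v) = 0) :
    ∃ A' : Matrix I I ℂ, BD blk A' ∧ A'.det ≠ 0 ∧ ∀ v t, ev (up i.1 k t A') (F v) = 0 := by
  obtain ⟨O, hO, hlO⟩ : ∃ O : ValuationSubring L, (∀ k : ℂ, algebraMap ℂ L k ∈ O) ∧ lam ∉ O := by
    by_contra hcon
    push Not at hcon
    exact hlam (mem_range_of_forall_valuationSubring lam hcon)
  obtain ⟨b, c, hb, hN, hAO⟩ := exists_nrm O hA hdet
  have hl0 : lam ≠ 0 := by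
    rintro rfl
    exact hlO O.zero_mem
  have hv : O.valuation lam⁻¹ < 1 := by
    have h1 : ¬ O.valuation lam ≤ 1 := fun h => hlO ((O.valuation_le_one_iff lam).1 h)
    rw [map_inv₀]
    exact inv_lt_one_of_one_lt₀ (not_le.1 h1)
  have hInf : Infinite L := Infinite.of_injective (algebraMap ℂ L) (algebraMap ℂ L).injective
  refine reduce F O hO i.1 k (BD.mul hb.bd hA) hN hAO fun v t ht => ?_
  have h1 : ev (up i.1 k t (b * A)) (F₀ v) + lam * ev (up i.1 k t (b * A)) (F v) = 0 := by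
    rw [← ev_map_add]
    refine ev_up_mul hk ((hF₀ v).map_add (hF v) lam) hA (fun t' => ?_) hb t
    rw [ev_map_add]
    exact h v t'
  have h2 : ev (up i.1 k t (b * A)) (F v) = -(lam⁻¹ * ev (up i.1 k t (b * A)) (F₀ v)) := by
    have h3 : ev (up i.1 k t (b * A)) (F₀ v) = -(lam * ev (up i.1 k t (b * A)) (F v)) :=
      eq_neg_of_add_eq_zero_left h1
    rw [h3, mul_neg, neg_neg, inv_mul_cancel_left₀ hl0]
  have hM : ∀ x y, up i.1 k t (b * A) x y ∈ O := by
    intro x y
    unfold up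
    split_ifs
    · exact O.add_mem _ _ (hAO _ _) (O.mul_mem _ _ ht (hAO _ _))
    · exact hAO _ _
  have h4 : O.valuation (ev (up i.1 k t (b * A)) (F₀ v)) ≤ 1 := by
    rw [O.valuation_le_one_iff]
    exact E3b_mem O hO _ hM _
  rw [h2, Valuation.map_neg, map_mul]
  exact lt_of_le_of_lt (mul_le_of_le_one_right' h4) hv

end

end Pool.Agent.MP_cfacaa_ag.Fl
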