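import Mathlib

/-! Row fl-F1a: solutions for small parameters. -/

namespace Pool.Agent.MP_cfacaa_ag.Fl

open MvPolynomial

/-- Adapt `eventually_exists` in `Pool/Agent/Lib/MP_cfacaa_ag/G/IFT.lean` (there `U r s` is a constant `A r s`). The map `(lam, z) ↦ (lam, ∑ U(z) z + lam G(z))` has at `(0, 0)` the strict derivative
`(lam, z) ↦ (lam, ∑ U(0) z + lam G(0))` (product rule: `z s` and `lam` vanish at `0`), which is surjective; `aeval 0 = constantCoeff`. -/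
theorem eventually_exists {σ ρ : Type} [Fintype σ] [Fintype ρ] (U : ρ → σ → MvPolynomial σ ℂ)
    (hU : ∀ w : ρ → ℂ, ∃ z : σ → ℂ, ∀ r, ∑ s, constantCoeff (U r s) * z s = w r) (G : ρ → MvPolynomial σ ℂ) :
    ∀ᶠ lam in nhds (0 : ℂ), ∃ z : σ → ℂ, ∀ r, ∑ s, aeval z (U r s) * z s + lam * aeval z (G r) = 0 := by
  classical
  let Φ : ℂ × (σ → ℂ) → ℂ × (ρ → ℂ) := fun p =>
    (p.1, fun r => ∑ s, aeval p.2 (U r s) * p.2 s + p.1 * aeval p.2 (G r))
  -- the strict derivatives of the polynomial parts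
  have hpol : ∀ P : MvPolynomial σ ℂ, ∃ g' : ℂ × (σ → ℂ) →L[ℂ] ℂ,
      HasStrictFDerivAt (fun p : ℂ × (σ → ℂ) => aeval p.2 P) g' (0, 0) := by
    intro P
    have ha : AnalyticAt ℂ (fun p : ℂ × (σ → ℂ) => aeval p.2 P) (0, 0) := by
      refine AnalyticAt.aeval_mvPolynomial (f := fun p : ℂ × (σ → ℂ) => p.2) (fun i => ?_) P
      exact ((ContinuousLinearMap.proj (R := ℂ) (φ := fun _ : σ => ℂ) i).comp
        (ContinuousLinearMap.snd ℂ ℂ (σ → ℂ))).analyticAt _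
    exact ⟨_, ha.hasStrictFDerivAt⟩
  choose D' hD' using hpol
  let pr : σ → (ℂ × (σ → ℂ) →L[ℂ] ℂ) := fun s =>
    (ContinuousLinearMap.proj (R := ℂ) (φ := fun _ : σ => ℂ) s).comp
      (ContinuousLinearMap.snd ℂ ℂ (σ → ℂ))
  let ℓ : ρ → (ℂ × (σ → ℂ) →L[ℂ] ℂ) := fun r =>
    ∑ s, ((aeval (0 : σ → ℂ) (U r s)) • pr s + (0 : ℂ) • D' (U r s))
  let Φ' : ℂ × (σ → ℂ) →L[ℂ] ℂ × (ρ → ℂ) :=
    (ContinuousLinearMap.fst ℂ ℂ (σ → ℂ)).prod (ContinuousLinearMap.pi fun r =>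
      ℓ r + ((0 : ℂ) • D' (G r) + (aeval (0 : σ → ℂ) (G r)) • ContinuousLinearMap.fst ℂ ℂ (σ → ℂ)))
  have hae : ∀ P : MvPolynomial σ ℂ, aeval (0 : σ → ℂ) P = constantCoeff P := by
    intro P
    exact MvPolynomial.aeval_zero P
  have hℓ : ∀ r (p : ℂ × (σ → ℂ)), ℓ r p = ∑ s, constantCoeff (U r s) * p.2 s := by
    intro r p
    have : ℓ r p = ∑ s, ((aeval (0 : σ → ℂ) (U r s)) * p.2 s + (0 : ℂ) * D' (U r s) p) := by
      simp [ℓ, pr]
    rw [this]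
    refine Finset.sum_congr rfl fun s _ => ?_
    rw [hae]
    ring
  have hΦ : HasStrictFDerivAt Φ Φ' (0, 0) := by
    refine HasStrictFDerivAt.prodMk hasStrictFDerivAt_fst ?_
    refine hasStrictFDerivAt_pi.2 fun r => ?_
    have h1 : HasStrictFDerivAt (fun p : ℂ × (σ → ℂ) => ∑ s, aeval p.2 (U r s) * p.2 s) (ℓ r) (0, 0) := by
      have h : ∀ s ∈ (Finset.univ : Finset σ), HasStrictFDerivAt
          (fun p : ℂ × (σ → ℂ) => aeval p.2 (U r s) * p.2 s)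
          ((aeval (0 : σ → ℂ) (U r s)) • pr s + (0 : ℂ) • D' (U r s)) (0, 0) := by
        intro s _
        have hs : HasStrictFDerivAt (fun p : ℂ × (σ → ℂ) => p.2 s) (pr s) (0, 0) :=
          (pr s).hasStrictFDerivAt (x := ((0 : ℂ), (0 : σ → ℂ)))
        exact (hD' (U r s)).mul hs
      exact HasStrictFDerivAt.fun_sum h
    have h2 : HasStrictFDerivAt (fun p : ℂ × (σ → ℂ) => p.1 * aeval p.2 (G r))
        ((0 : ℂ) • D' (G r) + (aeval (0 : σ → ℂ) (G r)) • ContinuousLinearMap.fst ℂ ℂ (σ → ℂ)) (0, 0) :=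
      (hasStrictFDerivAt_fst (𝕜 := ℂ) (E := ℂ) (F := σ → ℂ) (p := (0, 0))).mul (hD' (G r))
    exact h1.add h2
  have hsurj : Φ'.range = ⊤ := by
    rw [LinearMap.range_eq_top]
    rintro ⟨lam, w⟩
    obtain ⟨z, hz⟩ := hU fun r => w r - lam * aeval (0 : σ → ℂ) (G r)
    refine ⟨(lam, z), ?_⟩
    refine Prod.ext rfl ?_
    funext r
    have : ℓ r (lam, z) + ((0 : ℂ) • D' (G r) + (aeval (0 : σ → ℂ) (G r)) •
        ContinuousLinearMap.fst ℂ ℂ (σ → ℂ)) (lam, z) = w r := by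
      rw [hℓ]
      have h3 := hz r
      simp only [] at h3 ⊢
      rw [h3]
      simp
      ring
    exact this
  have hmap := hΦ.map_nhds_eq_of_surj hsurj
  have hΦ0 : Φ (0, 0) = (0, 0) := by
    refine Prod.ext rfl ?_
    funext r
    simp [Φ]
  rw [hΦ0] at hmap
  have hev : ∀ᶠ q in nhds ((0 : ℂ), (0 : ρ → ℂ)), q ∈ Set.range Φ := by
    rw [← hmap]
    exact Filter.Eventually.of_forall (f := nhds ((0 : ℂ), (0 : σ → ℂ))) fun p => ⟨p, rfl⟩
  have hcont : Filter.Tendsto (fun lam : ℂ => (lam, (0 : ρ → ℂ))) (nhds 0)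
      (nhds ((0 : ℂ), (0 : ρ → ℂ))) := by
    have : Continuous fun lam : ℂ => (lam, (0 : ρ → ℂ)) := by fun_prop
    exact this.tendsto 0
  filter_upwards [hcont.eventually hev] with lam hlam
  obtain ⟨⟨mu, z⟩, hz⟩ := hlam
  have h1 : mu = lam := congrArg Prod.fst hz
  subst h1
  exact ⟨z, fun r => congrFun (congrArg Prod.snd hz) r⟩

end Pool.Agent.MP_cfacaa_ag.Fl
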