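import Mathlib

/-! Row fl-F1b: solutions with a transcendental parameter. -/

namespace Pool.Agent.MP_cfacaa_ag.Fl

open MvPolynomial

/-- the ideal of the sequences with finite support -/
noncomputable def F1b_J : Ideal (ℕ → ℂ) where
  carrier := {f | (Function.support f).Finite}
  add_mem' {f g} hf hg := (Set.Finite.union hf hg).subset (Function.support_add f g)
  zero_mem' := by
    show (Function.support (0 : ℕ → ℂ)).Finite
    rw [Function.support_zero]
    exact Set.finite_empty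
  smul_mem' c f hf := by
    refine Set.Finite.subset hf ?_
    intro n hn hf0
    apply hn
    show c n * f n = 0
    rw [hf0, mul_zero]

theorem F1b_J_ne : F1b_J ≠ ⊤ := by
  intro h
  have h1 : (1 : ℕ → ℂ) ∈ F1b_J := by
    rw [h]
    exact Submodule.mem_top
  have h2 : (Function.support (1 : ℕ → ℂ)).Finite := h1
  rw [Function.support_one] at h2
  exact Set.infinite_univ h2

/-- Adapt `exists_field` in `Pool/Agent/Lib/MP_cfacaa_ag/G/Prod.lean` (there `H r` is linear). -/
theorem exists_field {σ ρ : Type} (H G : ρ → MvPolynomial σ ℂ)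
    (h : ∀ᶠ lam in nhds (0 : ℂ), ∃ z : σ → ℂ, ∀ r, aeval z (H r) + lam * aeval z (G r) = 0) :
    ∃ (L : Type) (_ : Field L) (_ : Algebra ℂ L) (lam : L) (z : σ → L), lam ∉ Set.range (algebraMap ℂ L) ∧
      ∀ r, aeval z (H r) + lam * aeval z (G r) = 0 := by
  classical
  have ht : Filter.Tendsto (fun n : ℕ => 1 / ((n : ℂ) + 1)) Filter.atTop (nhds 0) :=
    tendsto_one_div_add_atTop_nhds_zero_nat
  obtain ⟨N, hN⟩ := Filter.eventually_atTop.1 (ht.eventually h)
  have hN' : ∀ n : ℕ, ∃ z : σ → ℂ, ∀ r,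
      aeval z (H r) + (1 / (((N + n : ℕ) : ℂ) + 1)) * aeval z (G r) = 0 :=
    fun n => hN (N + n) (Nat.le_add_right N n)
  choose z hz using hN'
  obtain ⟨M, hM, hJM⟩ := Ideal.exists_le_maximal F1b_J F1b_J_ne
  obtain ⟨lamf, hlamf⟩ : ∃ lamf : ℕ → ℂ, ∀ n, lamf n = 1 / (((N + n : ℕ) : ℂ) + 1) :=
    ⟨fun n => 1 / (((N + n : ℕ) : ℂ) + 1), fun n => rfl⟩
  have hinj : ∀ n m, lamf n = lamf m → n = m := by
    intro n m hnm
    rw [hlamf, hlamf] at hnm
    have h1 : ((N + n : ℕ) : ℂ) + 1 ≠ 0 := by exact_mod_cast Nat.succ_ne_zero (N + n)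
    have h2 : ((N + m : ℕ) : ℂ) + 1 ≠ 0 := by exact_mod_cast Nat.succ_ne_zero (N + m)
    rw [div_eq_div_iff h1 h2, one_mul, one_mul] at hnm
    have h3 : ((N + m : ℕ) : ℂ) = ((N + n : ℕ) : ℂ) := add_right_cancel hnm
    have h4 : N + m = N + n := by exact_mod_cast h3
    omega
  let _ := Ideal.Quotient.field M
  refine ⟨(ℕ → ℂ) ⧸ M, inferInstance, inferInstance, Ideal.Quotient.mk M lamf,
    fun s => Ideal.Quotient.mk M (fun n => z n s), ?_, fun r => ?_⟩
  · rintro ⟨c, hc⟩
    have hu : lamf - algebraMap ℂ (ℕ → ℂ) c ∈ M := by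
      rw [← Ideal.Quotient.eq_zero_iff_mem, map_sub, sub_eq_zero]
      exact hc.symm
    obtain ⟨u, hu'⟩ : ∃ u : ℕ → ℂ, u = lamf - algebraMap ℂ (ℕ → ℂ) c := ⟨_, rfl⟩
    have hun : ∀ n, u n = lamf n - c := fun n => by rw [hu']; rfl
    have hg : (fun n => if u n = 0 then (1 : ℂ) else 0) ∈ M := by
      refine hJM ?_
      show (Function.support fun n => if u n = 0 then (1 : ℂ) else 0).Finite
      refine Set.Subsingleton.finite ?_
      intro n hn m hm
      have h1 : u n = 0 := by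
        by_contra hne
        exact hn (if_neg hne)
      have h2 : u m = 0 := by
        by_contra hne
        exact hm (if_neg hne)
      rw [hun, sub_eq_zero] at h1 h2
      exact hinj n m (h1.trans h2.symm)
    have hug := M.add_mem hu hg
    rw [← hu'] at hug
    refine hM.ne_top (Ideal.eq_top_of_isUnit_mem M hug ?_)
    rw [Pi.isUnit_iff]
    intro n
    rw [isUnit_iff_ne_zero]
    show u n + (if u n = 0 then (1 : ℂ) else 0) ≠ 0
    by_cases hn : u n = 0
    · rw [if_pos hn, hn, zero_add]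
      exact one_ne_zero
    · rw [if_neg hn, add_zero]
      exact hn
  · have ev : ∀ P : MvPolynomial σ ℂ, ∀ n,
        (aeval (fun s => (fun n => z n s : ℕ → ℂ)) P) n = aeval (z n) P := fun P n =>
      comp_aeval_apply (fun s => (fun n => z n s : ℕ → ℂ)) (Pi.evalAlgHom ℂ (fun _ : ℕ => ℂ) n) P
    have h1 : aeval (fun s => (fun n => z n s : ℕ → ℂ)) (H r) +
        lamf * aeval (fun s => (fun n => z n s : ℕ → ℂ)) (G r) = 0 := by
      funext n
      rw [Pi.add_apply, Pi.mul_apply, ev, ev, hlamf]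
      exact hz n r
    have h3 := congrArg (Ideal.Quotient.mk M) h1
    rw [map_add, map_mul, map_zero] at h3
    have h4 : ∀ P : MvPolynomial σ ℂ, Ideal.Quotient.mk M (aeval (fun s => (fun n => z n s : ℕ → ℂ)) P) =
        aeval (fun s => Ideal.Quotient.mk M (fun n => z n s)) P := fun P =>
      comp_aeval_apply (fun s => (fun n => z n s : ℕ → ℂ)) (Ideal.Quotient.mkₐ ℂ M) P
    rw [h4, h4] at h3
    exact h3

end Pool.Agent.MP_cfacaa_ag.Fl
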