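import Pool.Agent.Lib.MP_cfacaa_ag.Fl.A2
import Pool.Agent.Lib.MP_cfacaa_ag.Fl.A4

/-! Row fl-G1: values of minors on the chart. -/

namespace Pool.Agent.MP_cfacaa_ag.Fl

open MvPolynomial

section

variable {I κ : Type} [Fintype I] [LinearOrder I] {blk : I → κ}

theorem ch_bd {R : Type} [CommRing R] (i k : I) (z : I × I → R) : BD blk (ch blk i k z) := by
  intro x y hxy
  unfold ch
  rw [if_neg (fun h => hxy (by rw [h])), if_neg (fun h => hxy h.1)]

/-- `ch` is upper triangular with the diagonal entries `1`. -/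
theorem det_ch {R : Type} [CommRing R] (i k : I) (z : I × I → R) : (ch blk i k z).det = 1 := by
  rw [Matrix.det_of_isUpperTriangular]
  · apply Finset.prod_eq_one
    intro x _
    unfold ch
    rw [if_pos rfl]
  · intro x y hxy
    have h : y < x := hxy
    unfold ch
    rw [if_neg (ne_of_gt h), if_neg (fun h' => absurd h'.2.1 (not_lt_of_gt h))]

/-- below the diagonal `ch` is zero -/
theorem ch_lower {R : Type} [CommRing R] (i k : I) (z : I × I → R) {x y : I} (h : y < x) : ch blk i k z x y = 0 := by
  unfold ch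
  rw [if_neg (ne_of_gt h), if_neg (fun h' => absurd h'.2.1 (not_lt_of_gt h))]

omit [Fintype I] in
theorem G1_diag {R : Type} [CommRing R] (i k : I) (z : I × I → R) (x : I) : ch blk i k z x x = 1 := by
  unfold ch
  rw [if_pos rfl]

theorem G1_up_low {i k : I} (hik : i < k) {R : Type} [CommRing R] (z : I × I → R) (t : R) {x y : I} (h : y < x) :
    up i k t (ch blk i k z) x y = 0 := by
  unfold up
  by_cases hx : x = i
  · rw [if_pos hx]
    subst hx
    rw [ch_lower _ _ _ h, ch_lower _ _ _ (h.trans hik), mul_zero, add_zero]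
  · rw [if_neg hx]
    exact ch_lower _ _ _ h

theorem G1_up_diag {i k : I} (hik : i < k) {R : Type} [CommRing R] (z : I × I → R) (t : R) (x : I) :
    up i k t (ch blk i k z) x x = 1 := by
  unfold up
  by_cases hx : x = i
  · rw [if_pos hx]
    subst hx
    rw [G1_diag, ch_lower _ _ _ hik, mul_zero, add_zero]
  · rw [if_neg hx]
    exact G1_diag _ _ _ _

theorem G1_mem_le {j x : I} (h : x ∈ seg blk j) : x ≤ j := by
  simp only [seg, Finset.mem_filter, Finset.mem_univ, true_and] at h
  exact h.2

theorem G1_self_mem (j : I) : j ∈ seg blk j := by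
  simp only [seg, Finset.mem_filter, Finset.mem_univ, true_and]
  exact le_rfl

/-- the common form of the last two theorems -/
theorem G1_swap {i k : I} (hik : i < k) {b : I} (hb : i < b) {L : Type} [Field L] [Algebra ℂ L] (z : I × I → L) (t : L) :
    ev (up i k t (ch blk i k z)) (Dm blk i (pm (Equiv.swap i b) : Matrix I I ℂ)) = up i k t (ch blk i k z) i b := by
  rw [ev_Dm_pm, Matrix.det_of_isUpperTriangular]
  · rw [Finset.prod_eq_single (⟨i, G1_self_mem i⟩ : {x // x ∈ seg blk i})]
    · rw [Matrix.of_apply, Equiv.swap_apply_left]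
    · intro c _ hc
      have hci : c.1 ≠ i := fun h => hc (Subtype.ext h)
      have hcb : c.1 ≠ b := (lt_of_le_of_lt (G1_mem_le c.2) hb).ne
      rw [Matrix.of_apply, Equiv.swap_apply_of_ne_of_ne hci hcb]
      exact G1_up_diag hik z t c.1
    · intro h
      exact absurd (Finset.mem_univ _) h
  · intro r c hrc
    have h : c.1 < r.1 := hrc
    have hci : c.1 ≠ i := (lt_of_lt_of_le h (G1_mem_le r.2)).ne
    have hcb : c.1 ≠ b := (lt_of_le_of_lt (G1_mem_le c.2) hb).ne
    rw [Matrix.of_apply, Equiv.swap_apply_of_ne_of_ne hci hcb]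
    exact G1_up_low hik z t h

/-- The matrix `up i k t (ch z)` is upper triangular with diagonal entries `1` (row `i` plus `t` times row `k`, `i < k`), so all its minors with rows and columns `seg blk j` are `1` (`ev_Dm_pm`,
`Matrix.det_of_upperTriangular`). -/
theorem ev_Dm_one {i k : I} (hk : Nx blk i k) (j : I) {L : Type} [Field L] [Algebra ℂ L] (z : I × I → L) (t : L) :
    ev (up i k t (ch blk i k z)) (Dm blk j (pm id : Matrix I I ℂ)) = 1 := by
  rw [ev_Dm_pm, Matrix.det_of_isUpperTriangular]
  · apply Finset.prod_eq_one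
    intro x _
    rw [Matrix.of_apply, id]
    exact G1_up_diag hk.lt z t x.1
  · intro r c hrc
    have h : c.1 < r.1 := hrc
    rw [Matrix.of_apply, id]
    exact G1_up_low hk.lt z t h

/-- The columns are those of `seg blk i` with the last one, `i`, replaced by `k`. The matrix is upper triangular with diagonal entries `1` and, in the row `i`, the entry of `up i k t (ch z)` at `(i, k)`, which is `0 + t * 1`. -/
theorem ev_Dm_T {i k : I} (hk : Nx blk i k) {L : Type} [Field L] [Algebra ℂ L] (z : I × I → L) (t : L) :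
    ev (up i k t (ch blk i k z)) (Dm blk i (pm (Equiv.swap i k) : Matrix I I ℂ)) = t := by
  rw [G1_swap hk.lt hk.lt]
  unfold up
  rw [if_pos rfl, G1_diag, mul_one]
  unfold ch
  rw [if_neg hk.lt.ne, if_neg (fun h => h.2.2 ⟨rfl, rfl⟩), zero_add]

/-- As `ev_Dm_T`: the last diagonal entry is the entry of `up i k t (ch z)` at `(i, b)`. -/
theorem ev_Dm_R {i k : I} (hk : Nx blk i k) {b : I} (hb : blk b = blk i) (hkb : k < b) {L : Type} [Field L]
    [Algebra ℂ L] (z : I × I → L) (t : L) :
    ev (up i k t (ch blk i k z)) (Dm blk i (pm (Equiv.swap i b) : Matrix I I ℂ)) = z (i, b) + t * z (k, b) := by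
  have hib : i < b := hk.lt.trans hkb
  rw [G1_swap hk.lt hib]
  unfold up
  rw [if_pos rfl]
  unfold ch
  rw [if_neg hib.ne, if_pos ⟨hb.symm, hib, fun h => hkb.ne' h.2⟩, if_neg hkb.ne,
    if_pos ⟨hk.eq.trans hb.symm, hkb, fun h => hk.lt.ne' h.1⟩]

end

end Pool.Agent.MP_cfacaa_ag.Fl
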