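import Pool.Agent.Lib.MP_cfacaa_ag.Fl.B2b
import Pool.Agent.Lib.MP_cfacaa_ag.Fl.G1

/-! Row fl-F3: the coefficients of a semi-invariant along the fibres of the chart. -/

namespace Pool.Agent.MP_cfacaa_ag.Fl

open MvPolynomial

section

variable {I κ : Type} [Fintype I] [LinearOrder I] {blk : I → κ}

/-- evaluation of the chart coordinates at `z` and of the variable at `t` -/
noncomputable def F3_phi {L : Type} [Field L] [Algebra ℂ L] (z : I × I → L) (t : L) :
    Polynomial (MvPolynomial (I × I) ℂ) →ₐ[ℂ] L :=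
  Polynomial.eval₂AlgHom (aeval z : MvPolynomial (I × I) ℂ →ₐ[ℂ] L) t (fun _ => Commute.all _ _)

omit [Fintype I] [LinearOrder I] in
theorem F3_phi_apply {L : Type} [Field L] [Algebra ℂ L] (z : I × I → L) (t : L)
    (p : Polynomial (MvPolynomial (I × I) ℂ)) :
    F3_phi z t p = p.eval₂ ((aeval z : MvPolynomial (I × I) ℂ →ₐ[ℂ] L) :
      MvPolynomial (I × I) ℂ →+* L) t := rfl

theorem F3_phi_X {L : Type} [Field L] [Algebra ℂ L] (z : I × I → L) (t : L) :
    F3_phi z t Polynomial.X = t := by
  rw [F3_phi_apply, Polynomial.eval₂_X]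

theorem F3_phi_C {L : Type} [Field L] [Algebra ℂ L] (z : I × I → L) (t : L) (s : I × I) :
    F3_phi z t (Polynomial.C (X s)) = z s := by
  rw [F3_phi_apply, Polynomial.eval₂_C]
  exact aeval_X z s

/-- the value of a semi-invariant on the generic line of the chart -/
noncomputable def F3_pol (blk : I → κ) (i k : I) (P : MvPolynomial (I × I) ℂ) :
    Polynomial (MvPolynomial (I × I) ℂ) :=
  ev (up i k Polynomial.X (ch blk i k (fun s => Polynomial.C (X s)))) P

theorem F3_eval (i k : I) (P : MvPolynomial (I × I) ℂ) {L : Type} [Field L] [Algebra ℂ L]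
    (z : I × I → L) (t : L) :
    F3_phi z t (F3_pol blk i k P) = ev (up i k t (ch blk i k z)) P := by
  unfold F3_pol ev
  rw [comp_aeval_apply]
  have h : (fun p : I × I => F3_phi z t (up i k Polynomial.X
      (ch blk i k (fun s => Polynomial.C (X s))) p.1 p.2)) =
      fun p : I × I => up i k t (ch blk i k z) p.1 p.2 := by
    have hch : ∀ x y, F3_phi z t (ch blk i k (fun s => Polynomial.C (X s)) x y) =
        ch blk i k z x y := by
      intro x y
      unfold ch
      split_ifs
      · exact map_one _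
      · exact F3_phi_C z t _
      · exact map_zero _
    funext p
    unfold up
    split_ifs
    · rw [map_add, map_mul, F3_phi_X, hch, hch]
    · exact hch _ _
  rw [h]

theorem F3_natDegree {i : Pos blk} {k : I} (hk : Nx blk i.1 k) {e : Pos blk → ℕ}
    {P : MvPolynomial (I × I) ℂ} (hP : Semi blk e P) :
    (F3_pol blk i.1 k P).natDegree ≤ e i := by
  rw [Polynomial.natDegree_le_iff_coeff_eq_zero]
  intro r hr
  apply MvPolynomial.funext
  intro z
  rw [map_zero]
  obtain ⟨q, hq1, hq2, -⟩ := exists_pol hk hP (ch_bd (blk := blk) i.1 k z)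
  have hq : (F3_pol blk i.1 k P).map ((aeval z : MvPolynomial (I × I) ℂ →ₐ[ℂ] ℂ) :
      MvPolynomial (I × I) ℂ →+* ℂ) = q := by
    apply Polynomial.funext
    intro t
    rw [Polynomial.eval_map, hq2, ← F3_eval, F3_phi_apply]
  have h1 := congrArg (fun g => Polynomial.coeff g r) hq
  simp only [Polynomial.coeff_map] at h1
  rw [Polynomial.coeff_eq_zero_of_natDegree_lt (lt_of_le_of_lt hq1 hr)] at h1
  have h2 : eval z ((F3_pol blk i.1 k P).coeff r) = aeval z ((F3_pol blk i.1 k P).coeff r) := by
    rw [aeval_eq_eval]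
  rw [h2]
  exact h1

/-- Let `p = ev (up i k X (ch blk i k (fun s => C (X s)))) P` in `Polynomial (MvPolynomial (I × I) ℂ)`, `c r = p.coeff r`. For `L`, `z`, `t` the value at `(t, z)` is `ev (up i k t (ch blk i k z)) P = p.eval₂ (aeval z) t`
(`ev` commutes with algebra homomorphisms). The degree of `p` is at most `e i`: for `r > e i` the coefficient `c r` vanishes at every `z : I × I → ℂ` (`exists_pol` with `L = ℂ`, `A = ch blk i k z`, which is `BD`; two
polynomials in `ℂ[X]` with the same values are equal), so `c r = 0` (`MvPolynomial.funext`). `Polynomial.eval₂_eq_sum_range'`. -/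
theorem exists_coeffs {i : Pos blk} {k : I} (hk : Nx blk i.1 k) {e : Pos blk → ℕ} {P : MvPolynomial (I × I) ℂ}
    (hP : Semi blk e P) : ∃ c : ℕ → MvPolynomial (I × I) ℂ, ∀ (L : Type) [Field L] [Algebra ℂ L] (z : I × I → L) (t : L),
      ev (up i.1 k t (ch blk i.1 k z)) P = ∑ r ∈ Finset.range (e i + 1), t ^ r * aeval z (c r) := by
  refine ⟨fun r => (F3_pol blk i.1 k P).coeff r, fun L _ _ z t => ?_⟩
  rw [← F3_eval, F3_phi_apply, Polynomial.eval₂_eq_sum_range' _
    (Nat.lt_succ_of_le (F3_natDegree hk hP)) t]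
  refine Finset.sum_congr rfl fun r _ => ?_
  rw [mul_comm]
  rfl

end

end Pool.Agent.MP_cfacaa_ag.Fl
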