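import Pool.Agent.Lib.MP_cfacaa_ag.Fl.G1

/-! Row fl-G2a: minors with the rows of another flag index. -/

namespace Pool.Agent.MP_cfacaa_ag.Fl

open MvPolynomial

section

variable {I κ : Type} [Fintype I] [LinearOrder I] {blk : I → κ}

/-- For `j ≠ i` the minors of `up i k t A` with the rows `seg blk j` are those of `A`: if `i ∉ seg blk j` the rows are the same; if `i ∈ seg blk j` then `i < j`, `blk j = blk i`, `k ∈ seg blk j` (`hk.le`), and a multiple of the row `k` is added to the row
`i` (`Matrix.det_updateRow_add_smul_self`). -/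
theorem ev_Dm_up {i k : I} (hk : Nx blk i k) {j : I} (hj : j ≠ i) (f : I → I) {L : Type} [Field L] [Algebra ℂ L]
    (A : Matrix I I L) (t : L) :
    ev (up i k t A) (Dm blk j (pm f : Matrix I I ℂ)) = ev A (Dm blk j (pm f : Matrix I I ℂ)) := by
  rw [ev_Dm_pm, ev_Dm_pm]
  by_cases hi : i ∈ seg blk j
  · have hi' : blk i = blk j ∧ i ≤ j := by simpa [seg] using hi
    have hij : i < j := lt_of_le_of_ne hi'.2 (Ne.symm hj)
    have hkj : k ∈ seg blk j := by
      have h1 := hk.le j hi'.1.symm hij
      have h2 := hk.eq.trans hi'.1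
      simp [seg, h1, h2]
    have hne : (⟨i, hi⟩ : {x // x ∈ seg blk j}) ≠ ⟨k, hkj⟩ := by
      intro h
      exact hk.lt.ne (congrArg Subtype.val h)
    rw [← Matrix.det_updateRow_add_smul_self
      (Matrix.of fun r c : {x // x ∈ seg blk j} => A r.1 (f c.1)) hne t]
    congr 1
    ext r c
    rcases r with ⟨r, hr⟩
    by_cases h : r = i
    · subst h
      simp [up, Matrix.updateRow_apply]
    · have h' : (⟨r, hr⟩ : {x // x ∈ seg blk j}) ≠ ⟨i, hi⟩ := fun h2 => h (congrArg Subtype.val h2)
      simp [up, Matrix.updateRow_apply, h, h']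
  · congr 1
    ext r c
    rcases r with ⟨r, hr⟩
    have h : r ≠ i := fun h => hi (h ▸ hr)
    simp [up, h]

end

end Pool.Agent.MP_cfacaa_ag.Fl
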