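import Pool.Agent.Lib.MP_cfacaa_ag.Fl.G2a

/-! Row fl-G2b: the derivative of a minor of another flag index. -/

namespace Pool.Agent.MP_cfacaa_ag.Fl

open MvPolynomial

section

variable {I κ : Type} [Fintype I] [LinearOrder I] {blk : I → κ}

/-- the restriction of the chart matrix to the flag index `j` -/
noncomputable def G2b_B (blk : I → κ) (i k j : I) {R : Type} [CommRing R] (z : I × I → R) :
    Matrix {x // x ∈ seg blk j} {x // x ∈ seg blk j} R :=
  Matrix.of fun r c => ch blk i k z r.1 c.1

theorem G2b_map (i k j : I) {R S : Type} [CommRing R] [CommRing S] (φ : R →+* S) (z : I × I → R) :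
    φ.mapMatrix (G2b_B blk i k j z) = G2b_B blk i k j (fun p => φ (z p)) := by
  ext r c
  simp only [G2b_B, RingHom.mapMatrix_apply, Matrix.map_apply, Matrix.of_apply, ch]
  split_ifs <;> simp

theorem G2b_adj (i k j : I) {R S : Type} [CommRing R] [CommRing S] (φ : R →+* S) (z : I × I → R)
    (x y : {x // x ∈ seg blk j}) :
    φ ((G2b_B blk i k j z).adjugate x y) = (G2b_B blk i k j (fun p => φ (z p))).adjugate x y := by
  rw [← G2b_map, ← RingHom.map_adjugate]
  rfl

theorem G2b_zero (i k j : I) {R : Type} [CommRing R] :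
    G2b_B blk i k j (fun _ => (0 : R)) = 1 := by
  ext r c
  simp only [G2b_B, Matrix.of_apply, ch, Matrix.one_apply]
  by_cases h : r = c
  · subst h
    simp
  · have h' : r.1 ≠ c.1 := fun e => h (Subtype.ext e)
    simp [h, h']

theorem G2b_seg {j x : I} : x ∈ seg blk j ↔ blk x = blk j ∧ x ≤ j := by
  classical
  simp [seg]

theorem G2b_entry {i k : I} (hk : Nx blk i k) {j : I} (hj : j ≠ i) {b : I} (hb : blk b = blk j) (hjb : j < b)
    {R : Type} [CommRing R] (z : I × I → R) {r : I} (hr : r ∈ seg blk j) : ch blk i k z r b = z (r, b) := by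
  obtain ⟨h1, h2⟩ := G2b_seg.1 hr
  have h3 : r < b := lt_of_le_of_lt h2 hjb
  unfold ch
  rw [if_neg h3.ne, if_pos]
  refine ⟨h1.trans hb.symm, h3, ?_⟩
  rintro ⟨rfl, rfl⟩
  have h4 : r < j := lt_of_le_of_ne h2 (fun e => hj e.symm)
  exact absurd (hk.le j h1.symm h4) (not_le.2 hjb)

theorem G2b_det {i k : I} (hk : Nx blk i k) {j : I} (hj : j ≠ i) {a b : I} (ha : a ∈ seg blk j) (hb : blk b = blk j)
    (hjb : j < b) {R : Type} [CommRing R] (z : I × I → R) :
    (Matrix.of fun r c : {x // x ∈ seg blk j} => ch blk i k z r.1 (Equiv.swap a b c.1)).det =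
      ∑ r : {x // x ∈ seg blk j}, (G2b_B blk i k j z).adjugate ⟨a, ha⟩ r * z (r.1, b) := by
  have h1 : (Matrix.of fun r c : {x // x ∈ seg blk j} => ch blk i k z r.1 (Equiv.swap a b c.1)) =
      (G2b_B blk i k j z).updateCol ⟨a, ha⟩ (fun r => z (r.1, b)) := by
    ext r c
    rw [Matrix.updateCol_apply]
    by_cases hc : c = ⟨a, ha⟩
    · subst hc
      rw [if_pos rfl]
      simp only [Matrix.of_apply, Equiv.swap_apply_left]
      exact G2b_entry hk hj hb hjb z r.2
    · rw [if_neg hc]
      have h2 : c.1 ≠ a := fun e => hc (Subtype.ext e)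
      have h3 : c.1 ≠ b := by
        intro e
        have := (G2b_seg.1 c.2).2
        rw [e] at this
        exact absurd this (not_le.2 hjb)
      simp only [Matrix.of_apply, Equiv.swap_apply_of_ne_of_ne h2 h3, G2b_B]
  rw [h1, ← Matrix.cramer_apply, Matrix.cramer_eq_adjugate_mulVec]
  rfl

open Classical in
/-- the polynomials `U s` -/
noncomputable def G2b_U (blk : I → κ) (i k j : I) {a : I} (b : I) (ha : a ∈ seg blk j) (s : I × I) :
    Polynomial (MvPolynomial (I × I) ℂ) :=
  if h : s.1 ∈ seg blk j ∧ s.2 = b then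
    Polynomial.C ((G2b_B blk i k j (fun p => (X p : MvPolynomial (I × I) ℂ))).adjugate ⟨a, ha⟩ ⟨s.1, h.1⟩) else 0

/-- `semi_Dm`; `ev_Dm_up`; `ev_Dm_pm`: the value is the determinant of `B` with the column `a` replaced by `v`, where `B` is `ch z` restricted to `seg blk j` (`f = Equiv.swap a b` fixes the elements of `seg blk j` except `a`; `b ∉ seg blk j`), `v r = ch z r b = z (r, b)`
(`r ≤ j < b` in the block; `(r, b) = (i, k)` would give `i ≤ j < k`, `j = i`). By Cramer's rule (`Matrix.cramer_apply`, `Matrix.cramer_eq_adjugate_mulVec`) this is `∑ r ∈ seg blk j, adj(B) a r * z (r, b)`. So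
`U (r, b) = C (adj(ch X) a r)` for `r ∈ seg blk j`, and `U s = 0` otherwise; at `z = 0` the matrix `B` is the identity matrix, `adj(1) = 1` (`Matrix.adjugate_one`), so `J (a, b) = 1` and `J s = 0` otherwise. (The adjugate commutes with ring
homomorphisms: `RingHom.map_adjugate`.) -/
theorem lin_D {i k : I} (hk : Nx blk i k) (j : Pos blk) (hj : j.1 ≠ i) {a b : I} (ha : blk a = blk j.1)
    (haj : a ≤ j.1) (hb : blk b = blk j.1) (hjb : j.1 < b) :
    Lin blk i k 0 (om j) (Dm blk j.1 (pm (Equiv.swap a b))) (fun s => if s = (a, b) then 1 else 0) := by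
  have ha' : a ∈ seg blk j.1 := G2b_seg.2 ⟨ha, haj⟩
  refine ⟨semi_Dm j _, G2b_U blk i k j.1 b ha', ?_, ?_, ?_⟩
  · intro s
    unfold G2b_U
    split_ifs with h
    · rw [Polynomial.natDegree_C]
    · simp
  · intro s
    show (G2b_U blk i k j.1 b ha' s).map constantCoeff = if s = (a, b) then 1 else 0
    unfold G2b_U
    by_cases h : s.1 ∈ seg blk j.1 ∧ s.2 = b
    · rw [dif_pos h, Polynomial.map_C, G2b_adj]
      have h1 : (fun p : I × I => (constantCoeff : MvPolynomial (I × I) ℂ →+* ℂ) (X p)) = fun _ => (0 : ℂ) := by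
        funext p
        exact constantCoeff_X ℂ p
      rw [h1, G2b_zero, Matrix.adjugate_one, Matrix.one_apply]
      by_cases h2 : s = (a, b)
      · subst h2
        simp
      · rw [if_neg h2, if_neg, Polynomial.C_0]
        intro e
        apply h2
        have e1 : a = s.1 := congrArg Subtype.val e
        exact Prod.ext e1.symm h.2
    · rw [dif_neg h, Polynomial.map_zero, if_neg]
      rintro rfl
      exact h ⟨ha', rfl⟩
  · intro L _ _ z t
    rw [ev_Dm_up hk hj, ev_Dm_pm, G2b_det hk hj ha' hb hjb z, Fintype.sum_prod_type]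
    have h1 : ∀ x : I, ∑ y : I, (G2b_U blk i k j.1 b ha' (x, y)).eval₂
        ((aeval z : MvPolynomial (I × I) ℂ →ₐ[ℂ] L) : MvPolynomial (I × I) ℂ →+* L) t * z (x, y) =
        if h : x ∈ seg blk j.1 then (G2b_B blk i k j.1 z).adjugate ⟨a, ha'⟩ ⟨x, h⟩ * z (x, b) else 0 := by
      intro x
      rw [Finset.sum_eq_single b]
      · unfold G2b_U
        by_cases h : x ∈ seg blk j.1
        · rw [dif_pos ⟨h, rfl⟩, dif_pos h, Polynomial.eval₂_C, G2b_adj]
          congr 2
          simp
        · rw [dif_neg (fun e => h e.1), dif_neg h, Polynomial.eval₂_zero, zero_mul]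
      · intro y _ hy
        unfold G2b_U
        rw [dif_neg (fun e => hy e.2), Polynomial.eval₂_zero, zero_mul]
      · intro h
        exact absurd (Finset.mem_univ _) h
    rw [Finset.sum_congr rfl fun x _ => h1 x]
    rw [← Finset.sum_subset (Finset.subset_univ (seg blk j.1))]
    · rw [← Finset.sum_coe_sort (seg blk j.1)]
      refine Finset.sum_congr rfl fun r _ => ?_
      rw [dif_pos r.2]
    · intro x _ hx
      rw [dif_neg hx]

end

end Pool.Agent.MP_cfacaa_ag.Fl
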