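import Pool.Agent.Lib.MP_cfacaa_ag.Fl.G1

/-! Row fl-G3a: the minor with a later column; sums. -/

namespace Pool.Agent.MP_cfacaa_ag.Fl

open MvPolynomial

section

variable {I κ : Type} [Fintype I] [LinearOrder I] {blk : I → κ}

/-- `semi_Dm`, `ev_Dm_R`: `U (i, b) = 1`, `U (k, b) = X`, `U s = 0` otherwise. -/
theorem lin_R {i : Pos blk} {k : I} (hk : Nx blk i.1 k) {b : I} (hb : blk b = blk i.1) (hkb : k < b) :
    Lin blk i.1 k 1 (om i) (Dm blk i.1 (pm (Equiv.swap i.1 b)))
      (fun s => if s = (i.1, b) then 1 else if s = (k, b) then Polynomial.X else 0) := by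
  have hne : ((k, b) : I × I) ≠ (i.1, b) := by
    intro h
    exact hk.lt.ne' (congrArg Prod.fst h)
  refine ⟨semi_Dm i _, fun s => if s = (i.1, b) then 1 else if s = (k, b) then Polynomial.X else 0, ?_, ?_, ?_⟩
  · intro s
    dsimp only
    split_ifs
    · simp
    · exact Polynomial.natDegree_X_le
    · simp
  · intro s
    dsimp only
    split_ifs
    · simp
    · simp
    · simp
  · intro L _ _ z t
    rw [ev_Dm_R hk hb hkb z t]
    have h1 : ∀ s : I × I, (Polynomial.eval₂
        ((aeval z : MvPolynomial (I × I) ℂ →ₐ[ℂ] L) : MvPolynomial (I × I) ℂ →+* L) t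
        (if s = (i.1, b) then 1 else if s = (k, b) then Polynomial.X else 0)) * z s =
        (if s = (i.1, b) then z s else 0) + (if s = (k, b) then t * z s else 0) := by
      intro s
      by_cases ha : s = (i.1, b)
      · have hb' : s ≠ (k, b) := by
          rw [ha]
          exact hne.symm
        rw [if_pos ha, if_pos ha, if_neg hb', Polynomial.eval₂_one, one_mul, add_zero]
      · rw [if_neg ha, if_neg ha]
        by_cases hb' : s = (k, b)
        · rw [if_pos hb', if_pos hb', Polynomial.eval₂_X, zero_add]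
        · rw [if_neg hb', if_neg hb', Polynomial.eval₂_zero, zero_mul, zero_add]
    rw [Finset.sum_congr rfl fun s _ => h1 s, Finset.sum_add_distrib]
    simp only [Finset.sum_ite_eq', Finset.mem_univ, if_true]

/-- `U s + U' s` -/
theorem Lin.add {i k : I} {n : ℕ} {e : Pos blk → ℕ} {F F' : MvPolynomial (I × I) ℂ} {J J' : I × I → Polynomial ℂ}
    (h : Lin blk i k n e F J) (h' : Lin blk i k n e F' J') : Lin blk i k n e (F + F') (fun s => J s + J' s) := by
  obtain ⟨hs, U, hU, hJ, hE⟩ := h
  obtain ⟨hs', U', hU', hJ', hE'⟩ := h'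
  refine ⟨hs.add hs', fun s => U s + U' s, ?_, ?_, ?_⟩
  · intro s
    exact (Polynomial.natDegree_add_le _ _).trans (max_le (hU s) (hU' s))
  · intro s
    rw [Polynomial.map_add, hJ s, hJ' s]
  · intro L _ _ z t
    have hev : ev (up i k t (ch blk i k z)) (F + F') =
        ev (up i k t (ch blk i k z)) F + ev (up i k t (ch blk i k z)) F' := by
      unfold ev
      exact map_add _ _ _
    rw [hev, hE L z t, hE' L z t, ← Finset.sum_add_distrib]
    refine Finset.sum_congr rfl fun s _ => ?_
    rw [Polynomial.eval₂_add, add_mul]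

theorem Lin.mono {i k : I} {n n' : ℕ} {e : Pos blk → ℕ} {F : MvPolynomial (I × I) ℂ} {J : I × I → Polynomial ℂ}
    (h : Lin blk i k n e F J) (hn : n ≤ n') : Lin blk i k n' e F J := by
  obtain ⟨hs, U, hU, hJ, hE⟩ := h
  exact ⟨hs, U, fun s => (hU s).trans hn, hJ, hE⟩

end

end Pool.Agent.MP_cfacaa_ag.Fl
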