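import Pool.Agent.Lib.MP_cfacaa_ag.Fl.G1

/-! Row fl-G3b: multiplication of Lin. -/

namespace Pool.Agent.MP_cfacaa_ag.Fl

open MvPolynomial

section

variable {I κ : Type} [Fintype I] [LinearOrder I] {blk : I → κ}

/-- `ev_Dm_one`: the second factor has the value `1` on the chart. -/
theorem Lin.mul_one {i k : I} (hk : Nx blk i k) {n : ℕ} {e : Pos blk → ℕ} {F : MvPolynomial (I × I) ℂ}
    {J : I × I → Polynomial ℂ} (h : Lin blk i k n e F J) (j : Pos blk) :
    Lin blk i k n (e + om j) (F * Dm blk j.1 (pm id)) J := by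
  obtain ⟨hs, U, hU, hJ, hE⟩ := h
  refine ⟨hs.mul (semi_Dm j _), U, hU, hJ, fun L _ _ z t => ?_⟩
  have h1 := ev_Dm_one hk j.1 z t
  have h2 := hE L z t
  unfold ev at h1 h2 ⊢
  rw [map_mul, h1, _root_.mul_one, h2]

/-- `ev_Dm_T`: the second factor has the value `t` on the chart, `X * U s`. -/
theorem Lin.mul_T {i : Pos blk} {k : I} (hk : Nx blk i.1 k) {n : ℕ} {e : Pos blk → ℕ} {F : MvPolynomial (I × I) ℂ}
    {J : I × I → Polynomial ℂ} (h : Lin blk i.1 k n e F J) :
    Lin blk i.1 k (n + 1) (e + om i) (F * Dm blk i.1 (pm (Equiv.swap i.1 k))) (fun s => Polynomial.X * J s) := by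
  obtain ⟨hs, U, hU, hJ, hE⟩ := h
  refine ⟨hs.mul (semi_Dm i _), fun s => Polynomial.X * U s, fun s => ?_, fun s => ?_, fun L _ _ z t => ?_⟩
  · refine Polynomial.natDegree_mul_le.trans ?_
    have h1 := hU s
    have h2 : (Polynomial.X : Polynomial (MvPolynomial (I × I) ℂ)).natDegree ≤ 1 := Polynomial.natDegree_X_le
    omega
  · rw [Polynomial.map_mul, Polynomial.map_X, hJ]
  · have h1 := ev_Dm_T hk z t
    have h2 := hE L z t
    unfold ev at h1 h2 ⊢
    rw [map_mul, h1, h2, Finset.sum_mul]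
    refine Finset.sum_congr rfl fun s _ => ?_
    rw [Polynomial.eval₂_mul, Polynomial.eval₂_X]
    ring

/-- Multiply by `∏ j, (Dm blk j (pm id)) ^ (e' j - e j)`, which has the value `1` on the chart. -/
theorem Lin.compl {i k : I} (hk : Nx blk i k) {n : ℕ} {e : Pos blk → ℕ} {F : MvPolynomial (I × I) ℂ}
    {J : I × I → Polynomial ℂ} (h : Lin blk i k n e F J) (e' : Pos blk → ℕ) (he : ∀ j, e j ≤ e' j) :
    ∃ F', Lin blk i k n e' F' J := by
  obtain ⟨hs, U, hU, hJ, hE⟩ := h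
  have h1 : Semi blk (∑ j : Pos blk, (e' j - e j) • om j)
      (∏ j : Pos blk, Dm blk j.1 (pm id : Matrix I I ℂ) ^ (e' j - e j)) :=
    Semi.prod Finset.univ (fun j => (e' j - e j) • om j)
      (fun j => Dm blk j.1 (pm id : Matrix I I ℂ) ^ (e' j - e j))
      (fun j _ => (semi_Dm j (pm id : Matrix I I ℂ)).pow (e' j - e j))
  rw [sum_om (fun j => e' j - e j)] at h1
  have h2 := hs.mul h1
  have h3 : e + (fun j => e' j - e j) = e' := by
    funext j
    have := he j
    show e j + (e' j - e j) = e' j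
    omega
  rw [h3] at h2
  refine ⟨_, h2, U, hU, hJ, fun L _ _ z t => ?_⟩
  have h5 : ∀ j : Pos blk, ev (up i k t (ch blk i k z)) (Dm blk j.1 (pm id : Matrix I I ℂ)) = 1 :=
    fun j => ev_Dm_one hk j.1 z t
  have h6 := hE L z t
  unfold ev at h5 h6 ⊢
  rw [map_mul, map_prod, Finset.prod_eq_one, _root_.mul_one, h6]
  intro j _
  rw [map_pow, h5 j, one_pow]

end

end Pool.Agent.MP_cfacaa_ag.Fl
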