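import Pool.Agent.Lib.MP_cfacaa_ag.Fl.G1

/-! Row fl-G4: the minor with an earlier column. -/

namespace Pool.Agent.MP_cfacaa_ag.Fl

open MvPolynomial

section

variable {I κ : Type} [Fintype I] [LinearOrder I] {blk : I → κ}

theorem G4_mem_seg {j x : I} : x ∈ seg blk j ↔ blk x = blk j ∧ x ≤ j := by
  simp [seg]

/-- The restriction of the chart to `seg blk i` has the determinant `1`. -/
theorem G4_det {R : Type} [CommRing R] (i k : I) (z : I × I → R) :
    (Matrix.of fun r c : {x // x ∈ seg blk i} => ch blk i k z r.1 c.1).det = 1 := by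
  rw [Matrix.det_of_isUpperTriangular]
  · apply Finset.prod_eq_one
    intro x _
    simp [ch]
  · intro x y hxy
    exact ch_lower i k z hxy

/-- The minor, by the rule of Cramer. -/
theorem G4_cramer {R : Type} [CommRing R] {i k : I} (hk : Nx blk i k) {a : I} (ha : a ∈ seg blk i)
    (z : I × I → R) (t : R) :
    (Matrix.of fun r c : {x // x ∈ seg blk i} => up i k t (ch blk i k z) r.1 (Equiv.swap a k c.1)).det =
      ∑ r : {x // x ∈ seg blk i},
        (Matrix.of fun r c : {x // x ∈ seg blk i} => ch blk i k z r.1 c.1).adjugate ⟨a, ha⟩ r *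
          up i k t (ch blk i k z) r.1 k := by
  have e : (Matrix.of fun r c : {x // x ∈ seg blk i} => up i k t (ch blk i k z) r.1 (Equiv.swap a k c.1)) =
      (Matrix.of fun r c : {x // x ∈ seg blk i} => ch blk i k z r.1 c.1).updateCol ⟨a, ha⟩
        (fun r => up i k t (ch blk i k z) r.1 k) := by
    ext r c
    by_cases hc : c = ⟨a, ha⟩
    · subst hc
      simp
    · rw [Matrix.updateCol_ne hc]
      have hca : c.1 ≠ a := fun h => hc (Subtype.ext h)
      have hci : c.1 ≤ i := (G4_mem_seg.1 c.2).2
      have hck : c.1 < k := lt_of_le_of_lt hci hk.lt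
      simp only [Matrix.of_apply, Equiv.swap_apply_of_ne_of_ne hca hck.ne, up]
      by_cases hr : r.1 = i
      · simp only [hr, if_true]
        rw [ch_lower i k z hck, mul_zero, add_zero]
      · simp only [hr, if_false]
  rw [e, ← Matrix.cramer_apply, Matrix.cramer_eq_adjugate_mulVec]
  rfl

/-- The value of the minor. -/
theorem G4_value {R : Type} [CommRing R] {i k : I} (hk : Nx blk i k) {a : I} (ha : a ∈ seg blk i)
    (hi : i ∈ seg blk i) (hai : a < i) (z : I × I → R) (t : R) :
    (Matrix.of fun r c : {x // x ∈ seg blk i} => up i k t (ch blk i k z) r.1 (Equiv.swap a k c.1)).det =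
      ∑ r : {x // x ∈ seg blk i}, (if r.1 < i then
        (Matrix.of fun r c : {x // x ∈ seg blk i} => ch blk i k z r.1 c.1).adjugate ⟨a, ha⟩ r * z (r.1, k) else 0) +
      ∑ c : {x // x ∈ seg blk i}, (if a < c.1 then
        (-t * (Matrix.of fun r c : {x // x ∈ seg blk i} => ch blk i k z r.1 c.1).adjugate c ⟨i, hi⟩) * z (a, c.1)
          else 0) := by
  rw [G4_cramer hk ha]
  set B : Matrix {x // x ∈ seg blk i} {x // x ∈ seg blk i} R :=
    Matrix.of fun r c : {x // x ∈ seg blk i} => ch blk i k z r.1 c.1 with hB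
  have hdet : B.det = 1 := G4_det i k z
  -- the first sum
  have h1 : ∀ r : {x // x ∈ seg blk i}, B.adjugate ⟨a, ha⟩ r * up i k t (ch blk i k z) r.1 k =
      (if r.1 < i then B.adjugate ⟨a, ha⟩ r * z (r.1, k) else 0) +
        (if r = ⟨i, hi⟩ then B.adjugate ⟨a, ha⟩ r * t else 0) := by
    intro r
    have hr := G4_mem_seg.1 r.2
    rcases hr.2.lt_or_eq with h | h
    · have hne : r ≠ ⟨i, hi⟩ := fun e => h.ne (congrArg Subtype.val e)
      have hrk : r.1 < k := h.trans hk.lt
      have hb : blk r.1 = blk k := hr.1.trans hk.eq.symm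
      rw [if_pos h, if_neg hne, add_zero]
      simp only [up, h.ne, if_false, ch, hrk.ne, hb, hrk, true_and, false_and, not_false_eq_true, if_true]
    · have he : r = ⟨i, hi⟩ := Subtype.ext h
      subst he
      have hik := hk.lt
      simp only [up, lt_irrefl, if_true, if_false, zero_add, ch, hik.ne, true_and, not_true_eq_false, and_false]
      ring
  have h2 : B.adjugate ⟨a, ha⟩ ⟨i, hi⟩ =
      - ∑ c : {x // x ∈ seg blk i}, (if a < c.1 then z (a, c.1) * B.adjugate c ⟨i, hi⟩ else 0) := by
    have h3 := congrFun (congrFun (Matrix.mul_adjugate B) ⟨a, ha⟩) ⟨i, hi⟩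
    have hne : (⟨a, ha⟩ : {x // x ∈ seg blk i}) ≠ ⟨i, hi⟩ := fun e => hai.ne (congrArg Subtype.val e)
    rw [hdet, one_smul, Matrix.one_apply_ne hne, Matrix.mul_apply] at h3
    have h4 : ∀ c : {x // x ∈ seg blk i}, B ⟨a, ha⟩ c * B.adjugate c ⟨i, hi⟩ =
        (if c = ⟨a, ha⟩ then B.adjugate c ⟨i, hi⟩ else 0) +
          (if a < c.1 then z (a, c.1) * B.adjugate c ⟨i, hi⟩ else 0) := by
      intro c
      have hc := G4_mem_seg.1 c.2
      have ha' := G4_mem_seg.1 ha
      rcases lt_trichotomy a c.1 with h | h | h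
      · have hne' : c ≠ ⟨a, ha⟩ := fun e => h.ne' (congrArg Subtype.val e)
        have hb : blk a = blk c.1 := ha'.1.trans hc.1.symm
        rw [if_neg hne', if_pos h, zero_add]
        simp only [hB, Matrix.of_apply, ch, h.ne, hb, h, hai.ne, true_and, false_and, not_false_eq_true, if_true,
          if_false]
      · have he : c = ⟨a, ha⟩ := Subtype.ext h.symm
        subst he
        simp only [hB, Matrix.of_apply, ch, if_true, lt_irrefl, if_false, add_zero, one_mul]
      · have hne' : c ≠ ⟨a, ha⟩ := fun e => h.ne (congrArg Subtype.val e)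
        rw [if_neg hne', if_neg h.not_gt, zero_add]
        have : B ⟨a, ha⟩ c = 0 := ch_lower i k z h
        rw [this, zero_mul]
    simp only [h4, Finset.sum_add_distrib, Finset.sum_ite_eq', Finset.mem_univ, if_true] at h3
    exact eq_neg_of_add_eq_zero_left h3
  simp only [h1, Finset.sum_add_distrib, Finset.sum_ite_eq', Finset.mem_univ, if_true]
  rw [h2]
  congr 1
  rw [neg_mul, Finset.sum_mul, ← Finset.sum_neg_distrib]
  apply Finset.sum_congr rfl
  intro c _
  split_ifs
  · ring
  · ring

/-- `semi_Dm`. Let `B` be `ch z` restricted to `seg blk i`; it is also the restriction of `up i k t (ch z)` (the row `k` of `ch z` is zero in the columns `≤ i`). The value of the minor is (`ev_Dm_pm`, `Equiv.swap a k` fixes the elements of `seg blk i` except `a`) the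
determinant of `B` with the column `a` replaced by `v`, `v r = z (r, k)` for `r < i`, `v i = t` (`ch z i k = 0`, `ch z k k = 1`); by Cramer's rule it is `∑ r, adj(B) a r * v r = ∑ r < i, adj(B) a r * z (r, k) + t * adj(B) a i`. From `B * adj(B) = det B = 1` (`Matrix.mul_adjugate`)
at `(a, i)`, `a ≠ i`: `adj(B) a i = - ∑ c ∈ seg blk i, a < c, z (a, c) * adj(B) c i` (`ch z a a = 1`, `ch z a c = z (a, c)` for `a < c ≤ i`, `ch z a c = 0` for `c < a`). So `U (r, k) = C (adj(ch X) a r)` for `r ∈ seg blk i`, `r < i`; `U (a, c) = - X * C (adj(ch X) c i)` for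
`c ∈ seg blk i`, `a < c`; `U s = 0` otherwise (`c ≤ i < k`, so these are different). At `z = 0`: `adj(1) = 1`. (Adjugates of the matrix `ch X` over `MvPolynomial (I × I) ℂ`, `RingHom.map_adjugate`.) -/
theorem lin_C {i : Pos blk} {k : I} (hk : Nx blk i.1 k) {a : I} (ha : blk a = blk i.1) (hai : a < i.1) :
    Lin blk i.1 k 1 (om i) (Dm blk i.1 (pm (Equiv.swap a k)))
      (fun s => if s = (a, k) then 1 else if s = (a, i.1) then -Polynomial.X else 0) := by
  have haS : a ∈ seg blk i.1 := G4_mem_seg.2 ⟨ha, hai.le⟩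
  have hiS : i.1 ∈ seg blk i.1 := G4_mem_seg.2 ⟨rfl, le_rfl⟩
  -- the generic adjugate
  set A : Matrix {x // x ∈ seg blk i.1} {x // x ∈ seg blk i.1} (MvPolynomial (I × I) ℂ) :=
    (Matrix.of fun r c : {x // x ∈ seg blk i.1} =>
      ch blk i.1 k (X : I × I → MvPolynomial (I × I) ℂ) r.1 c.1).adjugate with hA
  -- its specialisations
  have hmap : ∀ (L : Type) [CommRing L] (f : MvPolynomial (I × I) ℂ →+* L) (r c : {x // x ∈ seg blk i.1}),
      f (A r c) = (Matrix.of fun r c : {x // x ∈ seg blk i.1} =>
        ch blk i.1 k (fun s => f (X s)) r.1 c.1).adjugate r c := by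
    intro L _ f r c
    have h := congrFun (congrFun (f.map_adjugate (Matrix.of fun r c : {x // x ∈ seg blk i.1} =>
      ch blk i.1 k (X : I × I → MvPolynomial (I × I) ℂ) r.1 c.1)) r) c
    have h' : f.mapMatrix (Matrix.of fun r c : {x // x ∈ seg blk i.1} =>
        ch blk i.1 k (X : I × I → MvPolynomial (I × I) ℂ) r.1 c.1) =
        Matrix.of fun r c : {x // x ∈ seg blk i.1} => ch blk i.1 k (fun s => f (X s)) r.1 c.1 := by
      ext x y
      simp only [RingHom.mapMatrix_apply, Matrix.map_apply, Matrix.of_apply, ch]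
      split_ifs <;> simp
    rw [h'] at h
    rw [← h]
    rfl
  have hmap0 : ∀ r c : {x // x ∈ seg blk i.1}, constantCoeff (A r c) = if r = c then 1 else 0 := by
    intro r c
    rw [hmap ℂ constantCoeff r c]
    have h' : (Matrix.of fun r c : {x // x ∈ seg blk i.1} =>
        ch blk i.1 k (fun s => constantCoeff (X s : MvPolynomial (I × I) ℂ)) r.1 c.1) = 1 := by
      ext x y
      simp only [Matrix.of_apply, ch, constantCoeff_X, ite_self, Matrix.one_apply, Subtype.ext_iff]
    rw [h', Matrix.adjugate_one, Matrix.one_apply]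
  refine ⟨semi_Dm i _, fun s =>
    ∑ r : {x // x ∈ seg blk i.1}, (if s = (r.1, k) then (if r.1 < i.1 then
      Polynomial.C (A ⟨a, haS⟩ r) else 0) else 0) +
    ∑ c : {x // x ∈ seg blk i.1}, (if s = (a, c.1) then (if a < c.1 then
      -Polynomial.X * Polynomial.C (A c ⟨i.1, hiS⟩) else 0) else 0), ?_, ?_, ?_⟩
  · intro s
    refine (Polynomial.natDegree_add_le _ _).trans (max_le ?_ ?_)
    · refine Polynomial.natDegree_sum_le_of_forall_le _ _ fun r _ => ?_
      split_ifs <;> simp
    · refine Polynomial.natDegree_sum_le_of_forall_le _ _ fun r _ => ?_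
      split_ifs
      · refine Polynomial.natDegree_mul_le.trans ?_
        simp
      · simp
      · simp
  · intro s
    rw [Polynomial.map_add, Polynomial.map_sum, Polynomial.map_sum]
    have e1 : ∀ r : {x // x ∈ seg blk i.1}, Polynomial.map constantCoeff (if s = (r.1, k) then (if r.1 < i.1 then
        Polynomial.C (A ⟨a, haS⟩ r) else 0) else 0) =
        if r = ⟨a, haS⟩ then (if s = (a, k) then 1 else 0) else 0 := by
      intro r
      by_cases hr : r = ⟨a, haS⟩
      · subst hr
        simp only [hai, if_true]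
        split_ifs
        · rw [Polynomial.map_C, hmap0]
          simp
        · simp
      · rw [if_neg hr]
        split_ifs
        · rw [Polynomial.map_C, hmap0, if_neg (Ne.symm hr)]
          simp
        · simp
        · simp
    have e2 : ∀ c : {x // x ∈ seg blk i.1}, Polynomial.map constantCoeff (if s = (a, c.1) then (if a < c.1 then
        -Polynomial.X * Polynomial.C (A c ⟨i.1, hiS⟩) else 0) else 0) =
        if c = ⟨i.1, hiS⟩ then (if s = (a, i.1) then -Polynomial.X else 0) else 0 := by
      intro c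
      by_cases hc : c = ⟨i.1, hiS⟩
      · subst hc
        simp only [hai, if_true]
        split_ifs
        · rw [Polynomial.map_mul, Polynomial.map_C, hmap0]
          simp
        · simp
      · rw [if_neg hc]
        split_ifs
        · rw [Polynomial.map_mul, Polynomial.map_C, hmap0, if_neg hc]
          simp
        · simp
        · simp
    simp only [e1, e2, Finset.sum_ite_eq', Finset.mem_univ, if_true]
    by_cases hs : s = (a, k)
    · have hs' : s ≠ (a, i.1) := by
        rw [hs]
        intro h
        exact hk.lt.ne' (Prod.ext_iff.1 h).2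
      rw [if_pos hs, if_neg hs', if_pos hs, add_zero]
    · rw [if_neg hs, if_neg hs, zero_add]
  · intro L _ _ z t
    rw [ev_Dm_pm, G4_value hk haS hiS hai]
    have hz : (fun s => ((aeval z : MvPolynomial (I × I) ℂ →ₐ[ℂ] L) : MvPolynomial (I × I) ℂ →+* L) (X s)) = z := by
      funext s
      simp
    have hm : ∀ r c : {x // x ∈ seg blk i.1},
        ((aeval z : MvPolynomial (I × I) ℂ →ₐ[ℂ] L) : MvPolynomial (I × I) ℂ →+* L) (A r c) =
        (Matrix.of fun r c : {x // x ∈ seg blk i.1} => ch blk i.1 k z r.1 c.1).adjugate r c := by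
      intro r c
      rw [hmap L _ r c, hz]
    simp only [Polynomial.eval₂_add, Polynomial.eval₂_finsetSum, add_mul, Finset.sum_add_distrib, Finset.sum_mul]
    congr 1
    · rw [Finset.sum_comm]
      apply Finset.sum_congr rfl
      intro r _
      rw [Finset.sum_eq_single (r.1, k)]
      · rw [if_pos rfl]
        split_ifs
        · rw [Polynomial.eval₂_C, hm]
        · simp
      · intro s _ hs
        rw [if_neg hs]
        simp
      · intro h
        exact absurd (Finset.mem_univ _) h
    · rw [Finset.sum_comm]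
      apply Finset.sum_congr rfl
      intro c _
      rw [Finset.sum_eq_single (a, c.1)]
      · rw [if_pos rfl]
        split_ifs
        · rw [Polynomial.eval₂_mul, Polynomial.eval₂_C, Polynomial.eval₂_neg, Polynomial.eval₂_X, hm]
        · simp
      · intro s _ hs
        rw [if_neg hs]
        simp
      · intro h
        exact absurd (Finset.mem_univ _) h

end

end Pool.Agent.MP_cfacaa_ag.Fl
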