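import Pool.Agent.Lib.MP_cfacaa_ag.Fl.PDefs

/-! Row fq-H1: the number of the roots in reach. -/

namespace Pool.Agent.MP_cfacaa_ag.Fl

section

variable {I κ : Type} [Fintype I] [LinearOrder I] {blk : I → κ}

open Classical in
/-- Let `P` be the set of the roots `(k, y)` with `k < y` and `(x, i)` with `x < i`, `x`, `y` in the set `D` of `idx` (`D` = indices `x` of the block of `i` with `a < x ≤ b`; `i, k ∈ D`: for `l ∈ T`, `l > i` in the block, `k ≤ l`). `|P| = |D| - 2` (every element of `D` other than `i`, `k` is `< i` or `> k`). All elements of `P` are in a pair. They are not in `roots blk J`: if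
`j ∈ J ⊆ T`, `k ≤ j < y`, then `i < j`, `j ∈ T`, so `y ≤ j` by the definition of `D`; if `x ≤ j < i` then `j < x`: contradiction. So the set on the right contains the disjoint sets `roots blk J \ {(i, k)}` (`(i, k) ∈ roots blk J` because `i ∈ J`) and `P`. -/
theorem card_reach (T J : Set (Pos blk)) (hJ : J ⊆ T) (i : Pos blk) (hi : i ∈ J) {k : I} (hk : Nx blk i.1 k) :
    (roots blk J).card + idx blk T i ≤ (Finset.univ.filter fun s : I × I =>
      (s ∈ roots blk J ∧ s ≠ (i.1, k)) ∨ (pk blk i.1 k s).isSome).card + 3 := by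
  obtain ⟨D, hDc, hDm⟩ : ∃ D : Finset I, D.card = idx blk T i ∧ ∀ x, x ∈ D ↔
      blk x = blk i.1 ∧ (∀ l ∈ T, blk l.1 = blk i.1 → l.1 < i.1 → l.1 < x) ∧
        ∀ l ∈ T, blk l.1 = blk i.1 → i.1 < l.1 → x ≤ l.1 :=
    ⟨_, rfl, fun x => by simp only [Finset.mem_filter, Finset.mem_univ, true_and]⟩
  obtain ⟨E, hEc, hEm⟩ : ∃ E : Finset (I × I), E.card = (Finset.univ.filter fun s : I × I =>
      (s ∈ roots blk J ∧ s ≠ (i.1, k)) ∨ (pk blk i.1 k s).isSome).card ∧
      ∀ s, s ∈ E ↔ (s ∈ roots blk J ∧ s ≠ (i.1, k)) ∨ (pk blk i.1 k s).isSome :=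
    ⟨_, rfl, fun x => by simp only [Finset.mem_filter, Finset.mem_univ, true_and]⟩
  rw [← hDc, ← hEc]
  have hR : ∀ s : I × I, s ∈ roots blk J ↔
      ∃ j ∈ J, blk s.1 = blk j.1 ∧ blk s.2 = blk j.1 ∧ s.1 ≤ j.1 ∧ j.1 < s.2 := by
    intro s
    simp only [roots, Finset.mem_filter, Finset.mem_univ, true_and]
  have hiD : i.1 ∈ D := (hDm _).2 ⟨rfl, fun l _ _ h => h, fun l _ _ h => h.le⟩
  have hkD : k ∈ D := (hDm _).2 ⟨hk.eq, fun l _ _ h => h.trans hk.lt, fun l _ hb h => hk.le _ hb h⟩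
  have hik : (i.1, k) ∈ roots blk J := (hR _).2 ⟨i, hi, rfl, hk.eq, le_refl _, hk.lt⟩
  let g : I → I × I := fun y => if y < i.1 then (y, i.1) else (k, y)
  have hcase : ∀ y ∈ (D.erase i.1).erase k, (y < i.1 ∧ g y = (y, i.1)) ∨ (k < y ∧ g y = (k, y)) := by
    intro y hy
    rw [Finset.mem_erase, Finset.mem_erase] at hy
    obtain ⟨hyk, hyi, hyD⟩ := hy
    rcases lt_or_ge y i.1 with h | h
    · exact Or.inl ⟨h, if_pos h⟩
    · refine Or.inr ⟨?_, if_neg (not_lt.2 h)⟩
      exact lt_of_le_of_ne (hk.le y ((hDm y).1 hyD).1 (lt_of_le_of_ne h (Ne.symm hyi))) (Ne.symm hyk)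
  have hinj : Set.InjOn g ((D.erase i.1).erase k : Finset I) := by
    intro y hy y' hy' hg
    rcases hcase y hy with ⟨h1, h2⟩ | ⟨h1, h2⟩ <;> rcases hcase y' hy' with ⟨h3, h4⟩ | ⟨h3, h4⟩ <;>
      rw [h2, h4, Prod.mk.injEq] at hg
    · exact hg.1
    · exact absurd (hg.1 ▸ h1) (not_lt.2 hk.lt.le)
    · exact absurd (hg.1 ▸ h3) (not_lt.2 hk.lt.le)
    · exact hg.2
  have hdis : Disjoint ((roots blk J).erase (i.1, k)) (((D.erase i.1).erase k).image g) := by
    rw [Finset.disjoint_left]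
    intro s hs hs'
    rw [Finset.mem_erase] at hs
    rw [Finset.mem_image] at hs'
    obtain ⟨y, hy, rfl⟩ := hs'
    obtain ⟨j, hj, h1, h2, h3, h4⟩ := (hR _).1 hs.2
    have hyD : y ∈ D := Finset.mem_of_mem_erase (Finset.mem_of_mem_erase hy)
    obtain ⟨hb, hl, hu⟩ := (hDm y).1 hyD
    rcases hcase y hy with ⟨h5, h6⟩ | ⟨h5, h6⟩
    · rw [h6] at h1 h2 h3 h4
      exact absurd (hl j (hJ hj) (h1.symm.trans hb) h4) (not_lt.2 h3)
    · rw [h6] at h1 h2 h3 h4
      exact absurd (hu j (hJ hj) (h1.symm.trans hk.eq) (lt_of_lt_of_le hk.lt h3)) (not_le.2 h4)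
  have hsub : (roots blk J).erase (i.1, k) ∪ ((D.erase i.1).erase k).image g ⊆ E := by
    intro s hs
    rw [Finset.mem_union] at hs
    rw [hEm]
    rcases hs with hs | hs
    · rw [Finset.mem_erase] at hs
      exact Or.inl ⟨hs.2, hs.1⟩
    · right
      rw [Finset.mem_image] at hs
      obtain ⟨y, hy, rfl⟩ := hs
      have hyD : y ∈ D := Finset.mem_of_mem_erase (Finset.mem_of_mem_erase hy)
      have hb := ((hDm y).1 hyD).1
      rcases hcase y hy with ⟨h5, h6⟩ | ⟨h5, h6⟩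
      · have hc : isCol blk i.1 k (y, i.1) := ⟨hb, h5, Or.inr rfl⟩
        rw [h6]
        unfold pk
        by_cases hr : isRow blk i.1 k (y, i.1)
        · simp [hr]
        · simp [hr, hc]
      · have hr : isRow blk i.1 k (k, y) := ⟨hb, h5, Or.inr rfl⟩
        rw [h6]
        unfold pk
        simp [hr]
  have hcard := Finset.card_le_card hsub
  rw [Finset.card_union_of_disjoint hdis, Finset.card_erase_of_mem hik, Finset.card_image_of_injOn hinj,
    Finset.card_erase_of_mem (Finset.mem_erase.2 ⟨hk.lt.ne', hkD⟩), Finset.card_erase_of_mem hiD] at hcard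
  omega

end

end Pool.Agent.MP_cfacaa_ag.Fl
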