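import Pool.Agent.Lib.MP_cfacaa_ag.Fl.H1

/-! Row fq-H2: Hall's theorem for the slots. -/

namespace Pool.Agent.MP_cfacaa_ag.Fl

section

variable {V I κ : Type} [Fintype V] [Fintype I] [LinearOrder I] {blk : I → κ}

/-- Hall's theorem (`Finset.all_card_le_biUnion_card_iff_exists_injective`) for the slots and the sets `t σ` of the roots `s` with `Fr blk i k (e σ.1) s ∨ (e σ.1 i ≠ 0 ∧ (pk s).isSome)`. Let `S` be a nonempty finite set of slots, `W` the set of the `v` which occur, `J = {j | ∃ v ∈ W, e v j ≠ 0}`; `|S| ≤ ∑ v ∈ W, (e v i + 1)`. (1) If `e v i = 0` for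
all `v ∈ W`: `⋃ t σ = roots blk J` (first case of `Fr`; `j ≠ i`), `|S| ≤ |W| ≤ |roots blk J|`. (2) Otherwise `i ∈ J`, and `⋃ t σ` contains the set of `card_reach`: a root `s = (x, y) ∈ roots blk J`, `s ≠ (i, k)`, with `x ≤ j < y`, `e v j ≠ 0`, is free for `v` if `j ≠ i`; if `j = i` it is in a pair (`x = i`, so `y > k`; or `y = k`, so `x < i`), or
`x < i`, `y > k`, then it is free for `v` (second case). So `|⋃ t σ| ≥ |roots blk J| + idx blk J i - 3 ≥ |W| + ∑ v ∈ W, e v i ≥ |S|`. -/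
theorem exists_valid (e : V → Pos blk → ℕ)
    (i : Pos blk) (hc : ∀ W : Finset V, W.Nonempty → W.card ≤ (roots blk {j | ∃ v ∈ W, e v j ≠ 0}).card ∧
      (i ∈ {j : Pos blk | ∃ v ∈ W, e v j ≠ 0} → W.card + 3 + ∑ v ∈ W, e v i ≤
        (roots blk {j | ∃ v ∈ W, e v j ≠ 0}).card + idx blk {j | ∃ v ∈ W, e v j ≠ 0} i))
    {k : I} (hk : Nx blk i.1 k) :
    ∃ φ : (Σ v, Fin (e v i + 1)) → I × I, Function.Injective φ ∧
      ∀ σ, Fr blk i k (e σ.1) (φ σ) ∨ (e σ.1 i ≠ 0 ∧ (pk blk i.1 k (φ σ)).isSome) := by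
  classical
  let t : (Σ v, Fin (e v i + 1)) → Finset (I × I) := fun σ => Finset.univ.filter fun s =>
    Fr blk i k (e σ.1) s ∨ (e σ.1 i ≠ 0 ∧ (pk blk i.1 k s).isSome)
  have ht : ∀ σ s, s ∈ t σ ↔ (Fr blk i k (e σ.1) s ∨ (e σ.1 i ≠ 0 ∧ (pk blk i.1 k s).isSome)) := by
    intro σ s
    simp [t]
  have hall : ∀ S : Finset (Σ v, Fin (e v i + 1)), S.card ≤ (S.biUnion t).card := by
    intro S
    rcases S.eq_empty_or_nonempty with hS | hS
    · rw [hS]
      simp
    obtain ⟨W, hW⟩ : ∃ W : Finset V, W = S.image Sigma.fst := ⟨_, rfl⟩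
    have hWne : W.Nonempty := by
      rw [hW]
      exact hS.image _
    have hmem : ∀ v ∈ W, ∃ σ ∈ S, σ.1 = v := by
      intro v hv
      rw [hW, Finset.mem_image] at hv
      exact hv
    have hSc : S.card ≤ ∑ v ∈ W, (e v i + 1) := by
      have h1 : S ⊆ W.sigma (fun v => (Finset.univ : Finset (Fin (e v i + 1)))) := by
        intro σ hσ
        rw [Finset.mem_sigma]
        refine ⟨?_, Finset.mem_univ _⟩
        rw [hW]
        exact Finset.mem_image_of_mem _ hσ
      refine (Finset.card_le_card h1).trans ?_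
      rw [Finset.card_sigma]
      refine le_of_eq (Finset.sum_congr rfl fun v _ => ?_)
      rw [Finset.card_univ, Fintype.card_fin]
    obtain ⟨J, hJ⟩ : ∃ J : Set (Pos blk), J = {j | ∃ v ∈ W, e v j ≠ 0} := ⟨_, rfl⟩
    have hcW := hc W hWne
    rw [← hJ] at hcW
    have hroot : ∀ s, s ∈ roots blk J → ∃ v ∈ W, ∃ j : Pos blk, e v j ≠ 0 ∧ blk s.1 = blk j.1 ∧
        blk s.2 = blk j.1 ∧ s.1 ≤ j.1 ∧ j.1 < s.2 := by
      intro s hs
      simp only [roots, Finset.mem_filter, Finset.mem_univ, true_and] at hs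
      obtain ⟨j, hj, a1, a2, a3, a4⟩ := hs
      rw [hJ] at hj
      obtain ⟨v, hv, hvj⟩ := hj
      exact ⟨v, hv, j, hvj, a1, a2, a3, a4⟩
    by_cases h0 : ∀ v ∈ W, e v i = 0
    · have h1 : ∑ v ∈ W, (e v i + 1) = W.card := by
        rw [Finset.card_eq_sum_ones]
        exact Finset.sum_congr rfl fun v hv => by rw [h0 v hv]
      have h2 : roots blk J ⊆ S.biUnion t := by
        intro s hs
        obtain ⟨v, hv, j, hvj, a1, a2, a3, a4⟩ := hroot s hs
        obtain ⟨σ, hσ, rfl⟩ := hmem v hv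
        rw [Finset.mem_biUnion]
        refine ⟨σ, hσ, (ht σ s).2 (Or.inl (Or.inl ⟨j, ?_, hvj, a1, a2, a3, a4⟩))⟩
        rintro rfl
        exact hvj (h0 _ hv)
      have h3 := Finset.card_le_card h2
      have h4 := hcW.1
      omega
    · push Not at h0
      obtain ⟨v0, hv0, he0⟩ := h0
      have hiJ : i ∈ J := by
        rw [hJ]
        exact ⟨v0, hv0, he0⟩
      have h1 := card_reach J J (fun j hj => hj) i hiJ hk
      have h2 : (Finset.univ.filter fun s : I × I =>
          (s ∈ roots blk J ∧ s ≠ (i.1, k)) ∨ (pk blk i.1 k s).isSome) ⊆ S.biUnion t := by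
        intro s hs
        rw [Finset.mem_filter] at hs
        have hpair : (pk blk i.1 k s).isSome → s ∈ S.biUnion t := by
          intro hp
          obtain ⟨σ, hσ, rfl⟩ := hmem v0 hv0
          rw [Finset.mem_biUnion]
          exact ⟨σ, hσ, (ht σ s).2 (Or.inr ⟨he0, hp⟩)⟩
        rcases hs.2 with ⟨hs1, hs2⟩ | hp
        · obtain ⟨v, hv, j, hvj, a1, a2, a3, a4⟩ := hroot s hs1
          obtain ⟨σ, hσ, rfl⟩ := hmem v hv
          by_cases hji : j = i
          · subst hji
            have hks : k ≤ s.2 := hk.le s.2 a2 a4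
            rcases a3.eq_or_lt with h4 | h4
            · have h5 : s.2 ≠ k := fun h => hs2 (Prod.ext h4 h)
              have h6 : k < s.2 := lt_of_le_of_ne hks (Ne.symm h5)
              apply hpair
              unfold pk
              rw [if_pos ⟨a2, h6, Or.inl h4⟩]
              rfl
            · rcases hks.eq_or_lt with h5 | h5
              · apply hpair
                unfold pk
                split_ifs with g1 g2
                · rfl
                · rfl
                · exact absurd ⟨a1, h4, Or.inl h5.symm⟩ g2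
              · rw [Finset.mem_biUnion]
                exact ⟨σ, hσ, (ht σ s).2 (Or.inl (Or.inr ⟨hvj, a1, a2, h4, h5⟩))⟩
          · rw [Finset.mem_biUnion]
            exact ⟨σ, hσ, (ht σ s).2 (Or.inl (Or.inl ⟨j, hji, hvj, a1, a2, a3, a4⟩))⟩
        · exact hpair hp
      have h3 := Finset.card_le_card h2
      have h4 : ∑ v ∈ W, (e v i + 1) = W.card + ∑ v ∈ W, e v i := by
        rw [Finset.sum_add_distrib, ← Finset.card_eq_sum_ones, add_comm]
      have h5 := hcW.2 hiJ
      omega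
  obtain ⟨φ, hφ, h⟩ := (Finset.all_card_le_biUnion_card_iff_exists_injective t).1 hall
  exact ⟨φ, hφ, fun σ => (ht σ _).1 (h σ)⟩

end

end Pool.Agent.MP_cfacaa_ag.Fl
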