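import Pool.Agent.Lib.MP_cfacaa_ag.Fl.Defs

/-! Row fl-K1a: the number of elements of a hook. -/

namespace Pool.Agent.MP_cfacaa_ag.Fl

section

variable {I κ : Type} [Fintype I] [LinearOrder I] {blk : I → κ}

theorem mem_block {x y : I} : y ∈ block blk x ↔ blk y = blk x := by
  simp only [block, Finset.mem_filter, Finset.mem_univ, true_and]

theorem mem_hook {j : I} {s : I × I} : s ∈ hook blk j ↔ blk s.1 = blk j ∧ blk s.2 = blk j ∧ s.1 ≤ j ∧ j < s.2 ∧
    (s.1 = j ∨ ∀ x, blk x = blk j → j < x → s.2 ≤ x) := by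
  simp only [hook, Finset.mem_filter, Finset.mem_univ, true_and]

/-- The map `s ↦ if s.1 = j then s.2 else s.1` is a bijection of the hook of `j` to `(block blk j).erase j`: the element `b > j` of the block comes from `(j, b)`, the element `a < j` from `(a, k)`, `k` the successor of `j` (the smallest
larger element of the block; it exists as `j : Pos blk`). -/
theorem card_hook (j : Pos blk) : (hook blk j.1).card + 1 = (block blk j.1).card := by
  classical
  obtain ⟨j, hj⟩ := j
  show (hook blk j).card + 1 = (block blk j).card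
  have hsucc : ∃ k, blk k = blk j ∧ j < k ∧ ∀ x, blk x = blk j → j < x → k ≤ x := by
    have hne : (Finset.univ.filter fun x => blk x = blk j ∧ j < x).Nonempty := by
      obtain ⟨k, hk1, hk2⟩ := hj
      exact ⟨k, Finset.mem_filter.mpr ⟨Finset.mem_univ _, hk1, hk2⟩⟩
    refine ⟨(Finset.univ.filter fun x => blk x = blk j ∧ j < x).min' hne, ?_, ?_, ?_⟩
    · exact (Finset.mem_filter.mp (Finset.min'_mem _ hne)).2.1
    · exact (Finset.mem_filter.mp (Finset.min'_mem _ hne)).2.2
    · intro x hx1 hx2
      exact Finset.min'_le _ _ (Finset.mem_filter.mpr ⟨Finset.mem_univ _, hx1, hx2⟩)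
  obtain ⟨k, hk1, hk2, hk3⟩ := hsucc
  have hjb : j ∈ block blk j := mem_block.mpr rfl
  rw [← Finset.card_erase_add_one hjb]
  congr 1
  refine Finset.card_nbij' (fun s : I × I => if s.1 = j then s.2 else s.1)
    (fun y : I => if j < y then (j, y) else (y, k)) ?_ ?_ ?_ ?_
  · intro s hs
    have hs' := mem_hook.mp (Finset.mem_coe.mp hs)
    obtain ⟨h1, h2, h3, h4, h5⟩ := hs'
    rw [Finset.mem_coe]
    show (if s.1 = j then s.2 else s.1) ∈ (block blk j).erase j
    split_ifs with hc
    · exact Finset.mem_erase.mpr ⟨h4.ne', mem_block.mpr h2⟩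
    · exact Finset.mem_erase.mpr ⟨hc, mem_block.mpr h1⟩
  · intro y hy
    obtain ⟨h1, h2⟩ := Finset.mem_erase.mp (Finset.mem_coe.mp hy)
    rw [mem_block] at h2
    rw [Finset.mem_coe]
    show (if j < y then (j, y) else (y, k)) ∈ hook blk j
    split_ifs with hc
    · exact mem_hook.mpr ⟨rfl, h2, le_rfl, hc, Or.inl rfl⟩
    · exact mem_hook.mpr ⟨h2, hk1, not_lt.mp hc, hk2, Or.inr hk3⟩
  · intro s hs
    obtain ⟨h1, h2, h3, h4, h5⟩ := mem_hook.mp (Finset.mem_coe.mp hs)
    show (if j < (if s.1 = j then s.2 else s.1) then (j, (if s.1 = j then s.2 else s.1))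
      else ((if s.1 = j then s.2 else s.1), k)) = s
    by_cases hc : s.1 = j
    · rw [if_pos hc, if_pos h4]
      exact Prod.ext hc.symm rfl
    · rw [if_neg hc, if_neg (not_lt.mpr h3)]
      rcases h5 with h5 | h5
      · exact absurd h5 hc
      · exact Prod.ext rfl (le_antisymm (hk3 _ h2 h4) (h5 k hk1 hk2))
  · intro y hy
    obtain ⟨h1, h2⟩ := Finset.mem_erase.mp (Finset.mem_coe.mp hy)
    show (if (if j < y then (j, y) else (y, k)).1 = j then (if j < y then (j, y) else (y, k)).2
      else (if j < y then (j, y) else (y, k)).1) = y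
    by_cases hc : j < y
    · simp only [if_pos hc, if_true]
    · simp only [if_neg hc, if_neg h1]

end

end Pool.Agent.MP_cfacaa_ag.Fl
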