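import Pool.Agent.Lib.MP_cfacaa_ag.Fl.K1a

/-! Row fl-K1b: intersections of hooks. -/

namespace Pool.Agent.MP_cfacaa_ag.Fl

section

variable {I κ : Type} [Fintype I] [LinearOrder I] {blk : I → κ}

theorem K1b_inter {j j' : I} (h : j < j') : (hook blk j ∩ hook blk j').card ≤ 1 := by
  rw [Finset.card_le_one]
  have key : ∀ s ∈ hook blk j ∩ hook blk j', s.1 = j ∧ blk s.2 = blk j' ∧ j' < s.2 ∧
      ∀ x, blk x = blk j' → j' < x → s.2 ≤ x := by
    intro s hs
    obtain ⟨h1, h2⟩ := Finset.mem_inter.1 hs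
    obtain ⟨a1, a2, a3, a4, a5⟩ := mem_hook.1 h1
    obtain ⟨b1, b2, b3, b4, b5⟩ := mem_hook.1 h2
    refine ⟨?_, b2, b4, ?_⟩
    · rcases a5 with a5 | a5
      · exact a5
      · exact absurd (a5 j' (b1.symm.trans a1) h) (not_le.2 b4)
    · rcases b5 with b5 | b5
      · exact absurd (b5 ▸ a3) (not_le.2 h)
      · exact b5
  intro s hs t ht
  obtain ⟨s1, s2, s3, s4⟩ := key s hs
  obtain ⟨t1, t2, t3, t4⟩ := key t ht
  exact Prod.ext (s1.trans t1.symm) (le_antisymm (s4 _ t2 t3) (t4 _ s2 s3))

/-- If `j < j'` (same block) an element `s` of both hooks has `s.1 ≤ j < j' < s.2`; `s.1 ≠ j'`, so `s.2` is the successor of `j'`; `s.2` is not the successor of `j` (which is `≤ j'`), so `s.1 = j`: at most one pair. In different blocks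
the hooks are disjoint. -/
theorem card_hook_inter {j j' : I} (h : j ≠ j') : (hook blk j ∩ hook blk j').card ≤ 1 := by
  rcases lt_or_gt_of_ne h with h | h
  · exact K1b_inter h
  · rw [Finset.inter_comm]
    exact K1b_inter h

/-- The elements of `T` are elements of the block of `j₀`, different from its last element. -/
theorem card_le_hook (j₀ : Pos blk) (T : Finset (Pos blk)) (hT : ∀ j ∈ T, blk j.1 = blk j₀.1) :
    T.card ≤ (hook blk j₀.1).card := by
  classical
  have hne : (block blk j₀.1).Nonempty := ⟨j₀.1, mem_block.2 rfl⟩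
  have h1 : T.image (fun j : Pos blk => j.1) ⊆ (block blk j₀.1).erase ((block blk j₀.1).max' hne) := by
    intro x hx
    obtain ⟨j, hj, rfl⟩ := Finset.mem_image.1 hx
    refine Finset.mem_erase.2 ⟨?_, mem_block.2 (hT j hj)⟩
    obtain ⟨k, hk, hjk⟩ := j.2
    have h2 : k ≤ (block blk j₀.1).max' hne :=
      Finset.le_max' _ _ (mem_block.2 (hk.trans (hT j hj)))
    exact ne_of_lt (lt_of_lt_of_le hjk h2)
  have h3 : (T.image (fun j : Pos blk => j.1)).card = T.card :=
    Finset.card_image_of_injective _ Subtype.val_injective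
  have h4 := Finset.card_le_card h1
  rw [h3, Finset.card_erase_of_mem (Finset.max'_mem _ _), ← card_hook j₀] at h4
  omega

end

end Pool.Agent.MP_cfacaa_ag.Fl
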