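import Pool.Agent.Lib.MP_cfacaa_ag.Fl.K1b

/-! Row fl-K2a: unions of hooks in a block. -/

namespace Pool.Agent.MP_cfacaa_ag.Fl

section

variable {I κ : Type} [Fintype I] [LinearOrder I] {blk : I → κ}

/-- the intersection of a hook with the union of `T` other hooks -/
theorem K2a_inter (j : Pos blk) (T : Finset (Pos blk)) (hj : j ∉ T) :
    (hook blk j.1 ∩ T.biUnion fun j => hook blk j.1).card ≤ T.card := by
  rw [Finset.inter_biUnion]
  refine (Finset.card_biUnion_le_card_mul T _ 1 fun j' hj' => ?_).trans (by rw [mul_one])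
  refine card_hook_inter fun h => hj ?_
  have h1 : j = j' := Subtype.ext h
  rw [h1]
  exact hj'

/-- `N` the number of elements of the hooks, all in one block. Induction on `T`: `|hook j ∩ ⋃ hook j'| ≤ |T|` for `j ∉ T` (`card_hook_inter`), so the union for `insert j T` has at least `N - |T|` more elements. -/
theorem card_union_ge (N : ℕ) (T : Finset (Pos blk)) (hN : ∀ j ∈ T, (hook blk j.1).card = N) :
    2 * T.card * N + T.card ≤ 2 * (T.biUnion fun j => hook blk j.1).card + T.card * T.card := by
  classical
  induction T using Finset.induction_on with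
  | empty => simp
  | insert j T hj ih =>
    have h1 := ih fun i hi => hN i (Finset.mem_insert_of_mem hi)
    have h2 := K2a_inter j T hj
    have h3 := Finset.card_union_add_card_inter (hook blk j.1) (T.biUnion fun j => hook blk j.1)
    have h4 := hN j (Finset.mem_insert_self _ _)
    rw [Finset.biUnion_insert, Finset.card_insert_of_notMem hj]
    rw [h4] at h3
    generalize (hook blk j.1 ∪ T.biUnion fun j => hook blk j.1).card = U at *
    generalize (T.biUnion fun j => hook blk j.1).card = U0 at *
    generalize (hook blk j.1 ∩ T.biUnion fun j => hook blk j.1).card = W at *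
    generalize T.card = t at *
    nlinarith

/-- One block. `N = |hook| ≥ 5` (`card_hook`), `m = |T| ≤ N` (`card_le_hook`). For `m ≥ 2`: `2 |U| ≥ m (2 N + 1 - m) ≥ 4 m + 8`, since `m (2 N - 3 - m) = (m - 2) (N - m) + 2 N + m (N - 5) ≥ 10`. For `m = 1`: `|U| = N ≥ 5`. -/
theorem card_union_block (h6 : ∀ x : I, 6 ≤ (block blk x).card) (j₀ : Pos blk) (T : Finset (Pos blk))
    (hT : ∀ j ∈ T, blk j.1 = blk j₀.1) (hne : T.Nonempty) :
    2 * T.card + 3 ≤ (T.biUnion fun j => hook blk j.1).card ∧
      (2 ≤ T.card → 2 * T.card + 4 ≤ (T.biUnion fun j => hook blk j.1).card) := by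
  have h1 := card_hook j₀
  have h2 := h6 j₀.1
  have h3 := card_le_hook j₀ T hT
  have h4 : ∀ j ∈ T, (hook blk j.1).card = (hook blk j₀.1).card := by
    intro j hj
    have h5 := card_hook j
    have h7 : block blk j.1 = block blk j₀.1 := by
      unfold block
      rw [hT j hj]
    rw [h7] at h5
    omega
  have h8 := card_union_ge (hook blk j₀.1).card T h4
  have h9 : 1 ≤ T.card := hne.card_pos
  have h10 : 5 ≤ (hook blk j₀.1).card := by omega
  generalize (hook blk j₀.1).card = N at *
  generalize (T.biUnion fun j => hook blk j.1).card = U at *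
  generalize T.card = m at *
  rcases Nat.lt_or_ge 1 m with hm | hm
  · obtain ⟨a, rfl⟩ := Nat.exists_eq_add_of_le (show 2 ≤ m from hm)
    obtain ⟨b, rfl⟩ := Nat.exists_eq_add_of_le h3
    have hb : 3 ≤ a + b := by omega
    have h11 : 2 * (2 + a) + 4 ≤ U := by
      nlinarith [Nat.zero_le (a * b), Nat.zero_le (a * (a + b - 3)), Nat.zero_le b, mul_le_mul_of_nonneg_left hb (Nat.zero_le (2 + a))]
    exact ⟨by omega, fun _ => h11⟩
  · have hm1 : m = 1 := by omega
    subst hm1
    exact ⟨by omega, fun h => absurd h (by norm_num)⟩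

end

end Pool.Agent.MP_cfacaa_ag.Fl
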