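import Pool.Agent.Lib.MP_cfacaa_ag.Fl.K2a
import Pool.Agent.Lib.MP_cfacaa_ag.Fl.A4

/-! Varieties of complete flags: the dimension condition. -/

namespace Pool.Agent.MP_cfacaa_ag.Fl

section

variable {V I κ : Type} [Fintype I] [LinearOrder I] {blk : I → κ}

/-- Group the union of the hooks by the blocks, `card_union_block`. -/
theorem two_mul_card_add_le (h6 : ∀ x : I, 6 ≤ (block blk x).card) (T : Finset (Pos blk)) (hne : T.Nonempty) :
    2 * T.card + 3 ≤ (T.biUnion fun j => hook blk j.1).card := by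
  classical
  set U := T.biUnion fun j => hook blk j.1 with hU
  have hmem : ∀ s ∈ U, blk s.1 ∈ T.image (fun j => blk j.1) := by
    intro s hs
    rw [hU, Finset.mem_biUnion] at hs
    obtain ⟨j, hj, hs⟩ := hs
    rw [Finset.mem_image]
    exact ⟨j, hj, ((mem_hook).1 hs).1.symm⟩
  have h1 : U.card = ∑ β ∈ T.image (fun j => blk j.1), (U.filter (fun s => blk s.1 = β)).card :=
    Finset.card_eq_sum_card_fiberwise hmem
  have h2 : T.card = ∑ β ∈ T.image (fun j => blk j.1), (T.filter (fun j => blk j.1 = β)).card :=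
    Finset.card_eq_sum_card_image (fun j => blk j.1) T
  have h3 : ∀ β ∈ T.image (fun j => blk j.1), 2 * (T.filter (fun j => blk j.1 = β)).card + 3 ≤
      (U.filter (fun s => blk s.1 = β)).card := by
    intro β hβ
    obtain ⟨j₀, hj₀, rfl⟩ := Finset.mem_image.1 hβ
    have hne' : (T.filter (fun j => blk j.1 = blk j₀.1)).Nonempty :=
      ⟨j₀, Finset.mem_filter.2 ⟨hj₀, rfl⟩⟩
    have hTT : ∀ j ∈ T.filter (fun j => blk j.1 = blk j₀.1), blk j.1 = blk j₀.1 :=
      fun j hj => (Finset.mem_filter.1 hj).2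
    refine (card_union_block h6 j₀ _ hTT hne').1.trans (Finset.card_le_card ?_)
    intro s hs
    rw [Finset.mem_biUnion] at hs
    obtain ⟨j, hj, hs⟩ := hs
    rw [Finset.mem_filter, hU, Finset.mem_biUnion]
    exact ⟨⟨j, (Finset.mem_filter.1 hj).1, hs⟩, ((mem_hook).1 hs).1.trans (hTT j hj)⟩
  have h4 := Finset.sum_le_sum h3
  rw [Finset.sum_add_distrib, ← Finset.mul_sum, ← h2, ← h1, Finset.sum_const, smul_eq_mul] at h4
  have h5 : 1 ≤ (T.image (fun j => blk j.1)).card := (hne.image _).card_pos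
  omega

/-- the members of the set of `idx` -/
theorem idx_mono {J T : Set (Pos blk)} (h : J ⊆ T) (i : Pos blk) : idx blk T i ≤ idx blk J i := by
  classical
  refine Finset.card_le_card fun x hx => ?_
  simp only [Finset.mem_filter, Finset.mem_univ, true_and] at hx ⊢
  exact ⟨hx.1, fun l hl => hx.2.1 l (h hl), fun l hl => hx.2.2 l (h hl)⟩

/-- For the complete flags `-K` has the coefficients `2`. -/
theorem idx_univ_le (i : Pos blk) : idx blk Set.univ i ≤ 2 := by
  classical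
  obtain ⟨k, hk⟩ := exists_nx i
  have h1 : (Finset.univ.filter fun x => blk x = blk i.1 ∧
      (∀ l ∈ (Set.univ : Set (Pos blk)), blk l.1 = blk i.1 → l.1 < i.1 → l.1 < x) ∧
      ∀ l ∈ (Set.univ : Set (Pos blk)), blk l.1 = blk i.1 → i.1 < l.1 → x ≤ l.1) ⊆ ({i.1, k} : Finset I) := by
    intro x hx
    rw [Finset.mem_filter] at hx
    obtain ⟨-, hb, hl, hu⟩ := hx
    rw [Finset.mem_insert, Finset.mem_singleton]
    have h2 : i.1 ≤ x := by
      by_contra h
      rw [not_le] at h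
      exact lt_irrefl x (hl ⟨x, i.1, hb.symm, h⟩ (Set.mem_univ _) hb h)
    rcases h2.eq_or_lt with h3 | h3
    · exact Or.inl h3.symm
    · right
      have h4 := hk.le x hb h3
      refine le_antisymm ?_ h4
      by_contra h5
      rw [not_le] at h5
      exact absurd (hu ⟨k, x, hb.trans hk.eq.symm, h5⟩ (Set.mem_univ _) hk.eq hk.lt) (not_le.2 h5)
  have h2 := Finset.card_le_card h1
  rw [Finset.card_pair hk.lt.ne] at h2
  refine le_trans (le_of_eq ?_) h2
  unfold idx
  congr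

/-- the hooks are contained in the set of the roots -/
theorem card_hooks_le (J : Finset (Pos blk)) :
    (J.biUnion fun j => hook blk j.1).card ≤ (roots blk (J : Set (Pos blk))).card := by
  classical
  refine Finset.card_le_card fun s hs => ?_
  rw [Finset.mem_biUnion] at hs
  obtain ⟨j, hj, hs⟩ := hs
  obtain ⟨a1, a2, a3, a4, -⟩ := mem_hook.1 hs
  simp only [roots, Finset.mem_filter, Finset.mem_univ, true_and]
  exact ⟨j, Finset.mem_coe.2 hj, a1, a2, a3, a4⟩

/-- Products of varieties of complete flags of spaces of dimension at least `6`. -/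
theorem big_of_complete (h6 : ∀ x : I, 6 ≤ (block blk x).card) (J : Finset (Pos blk)) (hJ : J.Nonempty) :
    ∑ j ∈ J, idx blk Set.univ j + 3 ≤ (roots blk (J : Set (Pos blk))).card := by
  have h1 := two_mul_card_add_le h6 J hJ
  have h2 := card_hooks_le J
  have h3 : ∑ j ∈ J, idx blk Set.univ j ≤ ∑ j ∈ J, 2 := Finset.sum_le_sum fun j _ => idx_univ_le j
  rw [Finset.sum_const, smul_eq_mul] at h3
  omega

/-- The dimension condition for all systems with `∑ v, e v ≤ -K`. -/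
theorem exp_of_big [Fintype V] (T : Set (Pos blk))
    (hbig : ∀ J : Finset (Pos blk), J.Nonempty → (∀ j ∈ J, j ∈ T) →
      ∑ j ∈ J, idx blk T j + 3 ≤ (roots blk (J : Set (Pos blk))).card)
    (e : V → Pos blk → ℕ) (hT : ∀ v j, e v j ≠ 0 → j ∈ T) (hcy : ∀ j ∈ T, ∑ v, e v j ≤ idx blk T j)
    (hnt : ∀ v, ∃ j, e v j ≠ 0) (W : Finset V) (hW : W.Nonempty) :
    W.card ≤ (roots blk {j | ∃ v ∈ W, e v j ≠ 0}).card ∧
      ∀ i ∈ {j : Pos blk | ∃ v ∈ W, e v j ≠ 0}, W.card + 3 + ∑ v ∈ W, e v i ≤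
        (roots blk {j | ∃ v ∈ W, e v j ≠ 0}).card + idx blk {j | ∃ v ∈ W, e v j ≠ 0} i := by
  classical
  obtain ⟨J, hJ⟩ : ∃ J : Finset (Pos blk), J = Finset.univ.filter fun j => ∃ v ∈ W, e v j ≠ 0 := ⟨_, rfl⟩
  have hJm : ∀ j, j ∈ J ↔ ∃ v ∈ W, e v j ≠ 0 := by
    intro j
    rw [hJ, Finset.mem_filter]
    exact ⟨fun h => h.2, fun h => ⟨Finset.mem_univ _, h⟩⟩
  have hJT : ∀ j ∈ J, j ∈ T := by
    intro j hj
    obtain ⟨v, -, hv⟩ := (hJm j).1 hj
    exact hT v j hv
  have hJs : {j : Pos blk | ∃ v ∈ W, e v j ≠ 0} = (J : Set (Pos blk)) := by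
    ext j
    exact (hJm j).symm
  rw [hJs]
  have hne : J.Nonempty := by
    obtain ⟨v, hv⟩ := hW
    obtain ⟨j, hj⟩ := hnt v
    exact ⟨j, (hJm j).2 ⟨v, hv, hj⟩⟩
  have h1 := hbig J hne hJT
  have h4 : ∀ j ∈ T, ∑ v ∈ W, e v j ≤ idx blk T j := fun j hj =>
    (Finset.sum_le_univ_sum_of_nonneg fun v => Nat.zero_le _).trans (hcy j hj)
  have h5 : W.card ≤ ∑ j ∈ J, idx blk T j := by
    have h6 : W.card ≤ ∑ v ∈ W, ∑ j ∈ J, e v j := by
      rw [Finset.card_eq_sum_ones]
      refine Finset.sum_le_sum fun v hv => ?_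
      obtain ⟨j, hj⟩ := hnt v
      have h7 : e v j ≤ ∑ j ∈ J, e v j :=
        Finset.single_le_sum (f := fun j => e v j) (fun _ _ => Nat.zero_le _) ((hJm j).2 ⟨v, hv, hj⟩)
      omega
    rw [Finset.sum_comm] at h6
    exact h6.trans (Finset.sum_le_sum fun j hj => h4 j (hJT j hj))
  refine ⟨by omega, fun i hi => ?_⟩
  have hiT : i ∈ T := hJT i hi
  have h8 : idx blk T i ≤ idx blk (J : Set (Pos blk)) i := idx_mono (fun j hj => hJT j hj) i
  have h9 := h4 i hiT
  omega

end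

end Pool.Agent.MP_cfacaa_ag.Fl
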