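import Pool.Agent.Lib.MP_cfacaa_ag.Fl.P5

/-! Row fq-P6: the linear parts for the slots of one equation. -/

namespace Pool.Agent.MP_cfacaa_ag.Fl

open MvPolynomial

section

variable {I κ : Type} [Fintype I] [LinearOrder I] {blk : I → κ}

omit [Fintype I] in
theorem P6_pk_row {i k : I} {s : I × I} {x : I} (h : pk blk i k s = some (true, x)) : isRow blk i k s ∧ s.2 = x := by
  unfold pk at h
  split_ifs at h with h1 h2
  · simp only [Option.some.injEq, Prod.mk.injEq, true_and] at h
    exact ⟨h1, h⟩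
  · simp at h

omit [Fintype I] in
theorem P6_pk_col {i k : I} {s : I × I} {x : I} (h : pk blk i k s = some (false, x)) :
    ¬ isRow blk i k s ∧ isCol blk i k s ∧ s.1 = x := by
  unfold pk at h
  split_ifs at h with h1 h2
  · simp at h
  · simp only [Option.some.injEq, Prod.mk.injEq, true_and] at h
    exact ⟨h1, h2, h⟩

/-- If a root of a pair is free, the other one is free too: `(i, b)` and `(k, b)`, `(a, k)` and `(a, i)` (the index `j ≠ i` of the first case of `Fr` is not between `i` and `k`; the second case does not occur for these). More generally `b ≤ b'`, `a' ≤ a`. -/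
theorem fr_mono {i : Pos blk} {k : I} (hk : Nx blk i.1 k) {e : Pos blk → ℕ} {s s' : I × I} {τ : Bool} {x y : I}
    (h : pk blk i.1 k s = some (τ, x)) (h' : pk blk i.1 k s' = some (τ, y)) (hxy : if τ then x ≤ y else y ≤ x)
    (hs : Fr blk i k e s) : Fr blk i k e s' := by
  cases τ with
  | true =>
    obtain ⟨⟨h1, h2, h3⟩, rfl⟩ := P6_pk_row h
    obtain ⟨⟨g1, g2, g3⟩, rfl⟩ := P6_pk_row h'
    have hxy' : s.2 ≤ s'.2 := hxy
    rcases hs with ⟨j, hj, hej, hb1, hb2, hl1, hl2⟩ | ⟨_, _, _, hl, _⟩
    · have hji : blk j.1 = blk i.1 := hb2.symm.trans h1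
      have hne : j.1 ≠ i.1 := fun h0 => hj (Subtype.ext h0)
      have hij : i.1 ≤ j.1 := by
        rcases h3 with h3 | h3
        · rw [← h3]; exact hl1
        · exact hk.lt.le.trans (by rw [← h3]; exact hl1)
      have hkj : k ≤ j.1 := hk.le j.1 hji (lt_of_le_of_ne hij (Ne.symm hne))
      refine Or.inl ⟨j, hj, hej, ?_, ?_, ?_, hl2.trans_le hxy'⟩
      · rcases g3 with g3 | g3
        · rw [g3, hji]
        · rw [g3, hk.eq, hji]
      · rw [g1, hji]
      · rcases g3 with g3 | g3
        · rw [g3]; exact hij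
        · rw [g3]; exact hkj
    · exfalso
      rcases h3 with h3 | h3
      · rw [h3] at hl; exact lt_irrefl _ hl
      · rw [h3] at hl; exact lt_asymm hl hk.lt
  | false =>
    obtain ⟨_, ⟨h1, h2, h3⟩, rfl⟩ := P6_pk_col h
    obtain ⟨_, ⟨g1, g2, g3⟩, rfl⟩ := P6_pk_col h'
    have hxy' : s'.1 ≤ s.1 := by simpa using hxy
    have hs2 : s.2 ≤ k := by
      rcases h3 with h3 | h3
      · rw [h3]
      · rw [h3]; exact hk.lt.le
    rcases hs with ⟨j, hj, hej, hb1, hb2, hl1, hl2⟩ | ⟨_, _, _, _, hl⟩
    · have hji : blk j.1 = blk i.1 := hb1.symm.trans h1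
      have hne : j.1 ≠ i.1 := fun h0 => hj (Subtype.ext h0)
      have hjk : j.1 < k := hl2.trans_le hs2
      have hji2 : j.1 < i.1 := by
        rcases lt_trichotomy j.1 i.1 with h0 | h0 | h0
        · exact h0
        · exact absurd h0 hne
        · exact absurd (hk.le j.1 hji h0) (not_le.2 hjk)
      refine Or.inl ⟨j, hj, hej, ?_, ?_, hxy'.trans hl1, ?_⟩
      · rw [g1, hji]
      · rcases g3 with g3 | g3
        · rw [g3, hk.eq, hji]
        · rw [g3, hji]
      · rcases g3 with g3 | g3
        · rw [g3]; exact hji2.trans hk.lt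
        · rw [g3]; exact hji2
    · exact absurd (hl.trans_le hs2) (lt_irrefl _)

omit [Fintype I] in
theorem P6_pk_row_iff {i k : I} {s : I × I} (h : isRow blk i k s) : pk blk i k s = some (true, s.2) := by
  unfold pk
  rw [if_pos h]

omit [Fintype I] in
theorem P6_pk_col_iff {i k : I} {s : I × I} (h0 : ¬ isRow blk i k s) (h : isCol blk i k s) :
    pk blk i k s = some (false, s.1) := by
  unfold pk
  rw [if_neg h0, if_pos h]

omit [Fintype I] in
theorem P6_pk_none {i k : I} {s : I × I} (h : pk blk i k s = none) : ¬ isRow blk i k s ∧ ¬ isCol blk i k s := by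
  unfold pk at h
  split_ifs at h with h1 h2
  exact ⟨h1, h2⟩

omit [Fintype I] in
theorem P6_pair {i k : I} {s s' s'' : I × I} {c : Bool × I} (h : pk blk i k s = some c)
    (h' : pk blk i k s' = some c) (h'' : pk blk i k s'' = some c) : s = s' ∨ s = s'' ∨ s' = s'' := by
  obtain ⟨τ, x⟩ := c
  cases τ with
  | true =>
    obtain ⟨⟨_, _, a1⟩, b1⟩ := P6_pk_row h
    obtain ⟨⟨_, _, a2⟩, b2⟩ := P6_pk_row h'
    obtain ⟨⟨_, _, a3⟩, b3⟩ := P6_pk_row h''
    rcases a1 with a1 | a1 <;> rcases a2 with a2 | a2 <;> rcases a3 with a3 | a3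
    all_goals first
      | exact Or.inl (Prod.ext (a1.trans a2.symm) (b1.trans b2.symm))
      | exact Or.inr (Or.inl (Prod.ext (a1.trans a3.symm) (b1.trans b3.symm)))
      | exact Or.inr (Or.inr (Prod.ext (a2.trans a3.symm) (b2.trans b3.symm)))
  | false =>
    obtain ⟨_, ⟨_, _, a1⟩, b1⟩ := P6_pk_col h
    obtain ⟨_, ⟨_, _, a2⟩, b2⟩ := P6_pk_col h'
    obtain ⟨_, ⟨_, _, a3⟩, b3⟩ := P6_pk_col h''
    rcases a1 with a1 | a1 <;> rcases a2 with a2 | a2 <;> rcases a3 with a3 | a3
    all_goals first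
      | exact Or.inl (Prod.ext (b1.trans b2.symm) (a1.trans a2.symm))
      | exact Or.inr (Or.inl (Prod.ext (b1.trans b3.symm) (a1.trans a3.symm)))
      | exact Or.inr (Or.inr (Prod.ext (b2.trans b3.symm) (a2.trans a3.symm)))

open Classical in
/-- the weight of `u` in its pair -/
noncomputable def P6_w (blk : I → κ) (i k : I) (t : ℂ) (u : I × I) : ℂ :=
  if isRow blk i k u then (if u.1 = i then 1 else t) else (if u.2 = k then 1 else -t)

omit [Fintype I] in
open Classical in
theorem P6_ow {i k : I} (hik : i < k) {s : I × I} {c : Bool × I} (h : pk blk i k s = some c) (t : ℂ) (u : I × I) :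
    ow blk i k s t u = if pk blk i k u = some c then P6_w blk i k t u else 0 := by
  obtain ⟨τ, x⟩ := c
  cases τ with
  | true =>
    obtain ⟨h1, rfl⟩ := P6_pk_row h
    unfold ow
    rw [if_pos h1]
    by_cases hu : pk blk i k u = some (true, s.2)
    · obtain ⟨⟨g1, g2, g3⟩, g4⟩ := P6_pk_row hu
      have gr : isRow blk i k u := ⟨g1, g2, g3⟩
      rw [if_pos hu]
      unfold P6_w
      rw [if_pos gr]
      by_cases hi : u.1 = i
      · have e1 : u = (i, s.2) := Prod.ext hi g4
        rw [if_pos e1, if_pos hi]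
      · have e1 : u = (k, s.2) := Prod.ext (g3.resolve_left hi) g4
        have e2 : ¬ u = (i, s.2) := fun h0 => hi (congrArg Prod.fst h0)
        rw [if_neg e2, if_pos e1, if_neg hi]
    · rw [if_neg hu, if_neg, if_neg]
      · rintro rfl
        exact hu (P6_pk_row_iff ⟨h1.1, h1.2.1, Or.inr rfl⟩)
      · rintro rfl
        exact hu (P6_pk_row_iff ⟨h1.1, h1.2.1, Or.inl rfl⟩)
  | false =>
    obtain ⟨h0, h1, rfl⟩ := P6_pk_col h
    unfold ow
    rw [if_neg h0, if_pos h1]
    by_cases hu : pk blk i k u = some (false, s.1)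
    · obtain ⟨g0, ⟨g1, g2, g3⟩, g4⟩ := P6_pk_col hu
      rw [if_pos hu]
      unfold P6_w
      rw [if_neg g0]
      by_cases hi : u.2 = k
      · have e1 : u = (s.1, k) := Prod.ext g4 hi
        rw [if_pos e1, if_pos hi]
      · have e1 : u = (s.1, i) := Prod.ext g4 (g3.resolve_left hi)
        have e2 : ¬ u = (s.1, k) := fun h0 => hi (congrArg Prod.snd h0)
        rw [if_neg e2, if_pos e1, if_neg hi]
    · rw [if_neg hu, if_neg, if_neg]
      · rintro rfl
        exact hu (P6_pk_col_iff (fun h' => absurd h'.2.1 (not_lt.2 hik.le)) ⟨h1.1, h1.2.1, Or.inr rfl⟩)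
      · rintro rfl
        exact hu (P6_pk_col_iff (fun h' => lt_irrefl _ h'.2.1) ⟨h1.1, h1.2.1, Or.inl rfl⟩)

omit [Fintype I] in
theorem P6_JJ {i k : I} (hik : i < k) (f : I × I → Polynomial ℂ) (P : Bool × I → Polynomial ℂ) (t : ℂ)
    (u : I × I) : (JJ blk i k f (fun b => P (true, b)) (fun a => P (false, a)) u).eval t =
      (f u).eval t + Option.elim (pk blk i k u) 0 (fun c => (P c).eval t * P6_w blk i k t u) := by
  classical
  unfold JJ P6_w
  by_cases h1 : isRow blk i k u
  · have h2 : ¬ isCol blk i k u := by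
      rintro ⟨_, h, _⟩
      rcases h1.2.2 with h3 | h3
      · rw [h3] at h; exact lt_irrefl _ h
      · rw [h3] at h; exact lt_asymm h hik
    rw [if_pos h1, if_neg h2, P6_pk_row_iff h1]
    simp only [Option.elim, if_pos h1, add_zero, Polynomial.eval_add]
    by_cases h3 : u.1 = i
    · rw [if_pos h3, if_pos h3, mul_one]
    · rw [if_neg h3, if_neg h3, Polynomial.eval_mul, Polynomial.eval_X, mul_comm]
  · by_cases h2 : isCol blk i k u
    · rw [if_neg h1, if_pos h2, P6_pk_col_iff h1 h2]
      simp only [Option.elim, if_neg h1, add_zero, Polynomial.eval_add]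
      by_cases h3 : u.2 = k
      · rw [if_pos h3, if_pos h3, mul_one]
      · rw [if_neg h3, if_neg h3, Polynomial.eval_neg, Polynomial.eval_mul, Polynomial.eval_X]
        ring
    · have h3 : pk blk i k u = none := by
        unfold pk
        rw [if_neg h1, if_neg h2]
      rw [h3, if_neg h1, if_neg h2]
      simp

/-- Let `n = e i`. `m₀`: a slot with `Fr (φ m₀)` if there is one, otherwise one of two slots in the same pair. `ℓ m` the Lagrange polynomial of degree `≤ n` with `ℓ m (t m') = δ`. Data for `real_lin` (for every `ε`): `f` = sum over the slots `m` with `Fr (φ m)` of: `ℓ m` at `(i, b)`, `t m * ℓ m` at `(k, b)`, if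
`φ m` is in the row pair `b`; `ℓ m` at `(a, k)`, `- t m * ℓ m` at `(a, i)`, if `φ m` is in the column pair `a`; `ℓ m` at `φ m` otherwise (`fr_mono`: all these roots are free). For a row pair `b` let `M b` be the set of the slots which are not free and in this pair (at most two elements, as `φ` is injective): `p b = ∏ m ∉ M b, (X - t m)` if `M b` has two
elements; `p b = ε ∏ m' ≠ m, m₀, (X - t m')` if `M b = {m}` (then `m ≠ m₀`); `p b = 0` if `M b` is empty; degree `n - 1`. Similarly `q a`. (`p ≠ 0` only if there is such a slot; then `e i ≠ 0`.) The value of `JJ … u` at `t m`: the free part gives `ow (φ m) (t m) u` if `m` is free, `0` otherwise; the row pair `b` gives `(p b).eval (t m) * ow' u`,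
where `ow' u` is the coefficient at `u` of `x (i, b) + t m x (k, b)`: nonzero only if `m ∈ M b` (then `ow' = ow (φ m) (t m)`), or `M b = {m'}` and `m = m₀` (then with a factor `ε`); similarly for columns. So: if `m` is free or in a pair with another slot: value = `c (ow u + ε h u)`, `c` = `1` or `(p b).eval (t m) ≠ 0`, `h = 0` for
`m ≠ m₀`; if `m` is neither: value `= ε c' ow u`. -/
theorem exists_slot {i : Pos blk} {k : I} (hk : Nx blk i.1 k) (e : Pos blk → ℕ) (φ : Fin (e i + 1) → I × I)
    (hφ : Function.Injective φ) (hR : ∀ m, Fr blk i k e (φ m) ∨ (e i ≠ 0 ∧ (pk blk i.1 k (φ m)).isSome))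
    (hG : (∃ m, Fr blk i k e (φ m)) ∨ ∃ m m', m ≠ m' ∧ pk blk i.1 k (φ m) = pk blk i.1 k (φ m') ∧
      (pk blk i.1 k (φ m)).isSome) (t : Fin (e i + 1) → ℂ) (ht : Function.Injective t) :
    ∃ (c : Fin (e i + 1) → ℂ → ℂ) (h : Fin (e i + 1) → I × I → ℂ), (∀ m ε, ε ≠ 0 → c m ε ≠ 0) ∧
      ∀ ε : ℂ, ∃ (F : MvPolynomial (I × I) ℂ) (J : I × I → Polynomial ℂ), Lin blk i.1 k (e i) e F J ∧
        ∀ m u, (J u).eval (t m) = c m ε * (ow blk i.1 k (φ m) (t m) u + ε * h m u) := by
  classical
  have hik : i.1 < k := hk.lt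
  obtain ⟨A, hA⟩ : ∃ A : Finset (Fin (e i + 1)), A = Finset.univ.filter (fun m => Fr blk i k e (φ m)) := ⟨_, rfl⟩
  have memA : ∀ m, m ∈ A ↔ Fr blk i k e (φ m) := fun m => by rw [hA, Finset.mem_filter]; simp
  obtain ⟨Mf, hMf⟩ : ∃ Mf : Bool × I → Finset (Fin (e i + 1)), Mf = fun c =>
      Finset.univ.filter (fun m => m ∉ A ∧ pk blk i.1 k (φ m) = some c) := ⟨_, rfl⟩
  have memM : ∀ c m, m ∈ Mf c ↔ m ∉ A ∧ pk blk i.1 k (φ m) = some c := fun c m => by
    rw [hMf]; simp only [Finset.mem_filter, Finset.mem_univ, true_and]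
  have hM2 : ∀ c, (Mf c).card ≤ 2 := by
    intro c
    by_contra hcon
    push Not at hcon
    obtain ⟨m1, m2, m3, h1, h2, h3, h12, h13, h23⟩ := Finset.two_lt_card_iff.1 hcon
    rcases P6_pair ((memM c m1).1 h1).2 ((memM c m2).1 h2).2 ((memM c m3).1 h3).2 with h | h | h
    · exact h12 (hφ h)
    · exact h13 (hφ h)
    · exact h23 (hφ h)
  have hnA : ∀ m, m ∉ A → e i ≠ 0 ∧ ∃ c, pk blk i.1 k (φ m) = some c := by
    intro m hm
    rcases hR m with h | ⟨h1, h2⟩
    · exact absurd ((memA m).2 h) hm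
    · exact ⟨h1, Option.isSome_iff_exists.1 h2⟩
  obtain ⟨m₀, hm₀⟩ : ∃ m₀, m₀ ∈ A ∨ ∃ c, pk blk i.1 k (φ m₀) = some c ∧ (Mf c).card = 2 := by
    by_cases hne : ∃ m, m ∈ A
    · obtain ⟨m, hm⟩ := hne
      exact ⟨m, Or.inl hm⟩
    · push Not at hne
      rcases hG with ⟨m, hm⟩ | ⟨m, m', hmm, hp1, hp2⟩
      · exact absurd ((memA m).2 hm) (hne m)
      · obtain ⟨c, hc⟩ := Option.isSome_iff_exists.1 hp2
        refine ⟨m, Or.inr ⟨c, hc, le_antisymm (hM2 c) ?_⟩⟩
        exact Finset.one_lt_card.2 ⟨m, (memM c m).2 ⟨hne m, hc⟩, m', (memM c m').2 ⟨hne m', hp1 ▸ hc⟩, hmm⟩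
  have hm₀1 : ∀ c, (Mf c).card = 1 → m₀ ∉ Mf c := by
    intro c hc hm
    obtain ⟨h1, h2⟩ := (memM c m₀).1 hm
    rcases hm₀ with h | ⟨c', h3, h4⟩
    · exact h1 h
    · rw [h2] at h3
      have h5 : c = c' := by simpa using h3
      rw [← h5, hc] at h4
      exact absurd h4 (by norm_num)
  obtain ⟨kc, hkc⟩ : ∃ kc : Bool × I → ℂ → ℂ, kc = fun c ε => if (Mf c).card = 2 then 1 else if (Mf c).card = 1 then ε else 0 := ⟨_, rfl⟩
  obtain ⟨Nn, hNn⟩ : ∃ Nn : Bool × I → Finset (Fin (e i + 1)), Nn = fun c => if (Mf c).card = 2 then Mf c else insert m₀ (Mf c) := ⟨_, rfl⟩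
  obtain ⟨Q, hQ⟩ : ∃ Q : Bool × I → Polynomial ℂ, Q = fun c => ∏ m' ∈ Finset.univ \ Nn c, (Polynomial.X - Polynomial.C (t m')) := ⟨_, rfl⟩
  have hQ0 : ∀ c m, m ∉ Nn c → (Q c).eval (t m) = 0 := by
    intro c m hm
    rw [hQ]
    simp only [Polynomial.eval_prod]
    refine Finset.prod_eq_zero (i := m) (Finset.mem_sdiff.2 ⟨Finset.mem_univ _, hm⟩) ?_
    simp
  have hQ1 : ∀ c m, m ∈ Nn c → (Q c).eval (t m) ≠ 0 := by
    intro c m hm
    rw [hQ]
    simp only [Polynomial.eval_prod]
    refine Finset.prod_ne_zero_iff.2 fun m' hm' => ?_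
    rw [Finset.mem_sdiff] at hm'
    rw [Polynomial.eval_sub, Polynomial.eval_X, Polynomial.eval_C, sub_ne_zero]
    intro h
    exact hm'.2 (ht h ▸ hm)
  have hcardN : ∀ c, (Mf c).card = 2 ∨ (Mf c).card = 1 → (Nn c).card = 2 := by
    intro c hc
    rw [hNn]
    rcases hc with hc | hc
    · simp only [if_pos hc]; exact hc
    · have h2 : ¬ (Mf c).card = 2 := by rw [hc]; norm_num
      simp only [if_neg h2]
      rw [Finset.card_insert_of_notMem (hm₀1 c hc), hc]
  have hei : ∀ c, (Mf c).card = 2 ∨ (Mf c).card = 1 → e i ≠ 0 := by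
    intro c hc
    have h1 : (Mf c).Nonempty := by
      rw [← Finset.card_pos]
      omega
    obtain ⟨m, hm⟩ := h1
    exact (hnA m ((memM c m).1 hm).1).1
  have hdeg : ∀ c ε, Polynomial.C (kc c ε) * Q c ≠ 0 → (Polynomial.C (kc c ε) * Q c).natDegree + 1 ≤ e i := by
    intro c ε h0
    have h1 : (Mf c).card = 2 ∨ (Mf c).card = 1 := by
      by_contra hcon
      push Not at hcon
      apply h0
      rw [hkc]
      simp only [if_neg hcon.1, if_neg hcon.2, map_zero, zero_mul]
    have h2 := hcardN c h1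
    have h3 := hei c h1
    have h4 : (Q c).natDegree = e i + 1 - 2 := by
      rw [hQ]
      simp only
      rw [Polynomial.natDegree_prod_of_monic _ _ (fun m' _ => Polynomial.monic_X_sub_C (t m'))]
      simp only [Polynomial.natDegree_X_sub_C, Finset.sum_const, smul_eq_mul, mul_one]
      rw [Finset.card_sdiff_of_subset (Finset.subset_univ _), h2, Finset.card_univ, Fintype.card_fin]
    have h5 := Polynomial.natDegree_C_mul_le (kc c ε) (Q c)
    omega
  -- the free part
  obtain ⟨f, hf⟩ : ∃ f : I × I → Polynomial ℂ, f = fun u => ∑ m ∈ A,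
      Polynomial.C (ow blk i.1 k (φ m) (t m) u) * Lagrange.basis Finset.univ t m := ⟨_, rfl⟩
  have hinj : Set.InjOn t (Finset.univ : Finset (Fin (e i + 1))) := ht.injOn
  have hfd : ∀ u, (f u).natDegree ≤ e i := by
    intro u
    rw [hf]
    refine Polynomial.natDegree_sum_le_of_forall_le _ _ fun m _ => ?_
    refine (Polynomial.natDegree_C_mul_le _ _).trans ?_
    have h1 := Lagrange.degree_basis hinj (Finset.mem_univ m)
    rw [Finset.card_univ, Fintype.card_fin, Nat.add_sub_cancel] at h1
    exact (Polynomial.natDegree_eq_of_degree_eq_some h1).le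
  have hfe : ∀ m u, (f u).eval (t m) = if m ∈ A then ow blk i.1 k (φ m) (t m) u else 0 := by
    intro m u
    rw [hf]
    simp only [Polynomial.eval_finsetSum, Polynomial.eval_mul, Polynomial.eval_C]
    by_cases hm : m ∈ A
    · rw [if_pos hm, Finset.sum_eq_single m]
      · rw [Lagrange.eval_basis_self hinj (Finset.mem_univ m), mul_one]
      · intro m' _ hne
        rw [Lagrange.eval_basis_of_ne hne (Finset.mem_univ m), mul_zero]
      · intro h; exact absurd hm h
    · rw [if_neg hm]
      refine Finset.sum_eq_zero fun m' hm' => ?_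
      have hne : m' ≠ m := by rintro rfl; exact hm hm'
      rw [Lagrange.eval_basis_of_ne hne (Finset.mem_univ m), mul_zero]
  have hf0 : ∀ u, f u ≠ 0 → Fr blk i k e u := by
    intro u hu
    by_contra hcon
    apply hu
    rw [hf]
    refine Finset.sum_eq_zero fun m hm => ?_
    have h1 : ow blk i.1 k (φ m) (t m) u = 0 := by
      rcases hc : pk blk i.1 k (φ m) with _ | c
      · obtain ⟨g1, g2⟩ := P6_pk_none hc
        unfold ow
        rw [if_neg g1, if_neg g2, if_neg]
        rintro rfl
        exact hcon ((memA m).1 hm)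
      · rw [P6_ow hik hc, if_neg]
        intro hu'
        obtain ⟨τ, x⟩ := c
        exact hcon (fr_mono hk hc hu' (by split_ifs <;> exact le_rfl) ((memA m).1 hm))
    rw [h1, map_zero, zero_mul]
  -- the values
  obtain ⟨VV, hVV⟩ : ∃ VV : Fin (e i + 1) → I × I → ℂ, VV = fun m u =>
      Option.elim (pk blk i.1 k u) 0 (fun c => if (Mf c).card = 1 then (Q c).eval (t m) * P6_w blk i.1 k (t m) u else 0) := ⟨_, rfl⟩
  obtain ⟨γ, hγ⟩ : ∃ γ : Fin (e i + 1) → ℂ, γ = fun m =>
      if m ∈ A then 1 else Option.elim (pk blk i.1 k (φ m)) 1 (fun c => (Q c).eval (t m)) := ⟨_, rfl⟩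
  have hγ0 : ∀ m, γ m ≠ 0 := by
    intro m
    rw [hγ]
    by_cases hm : m ∈ A
    · simp only [if_pos hm]; exact one_ne_zero
    · simp only [if_neg hm]
      obtain ⟨c, hc⟩ := (hnA m hm).2
      rw [hc]
      apply hQ1
      have h1 : m ∈ Mf c := (memM c m).2 ⟨hm, hc⟩
      rw [hNn]
      simp only
      split_ifs
      · exact h1
      · exact Finset.mem_insert_of_mem h1
  refine ⟨fun m ε => γ m * (if m ∈ A then 1 else Option.elim (pk blk i.1 k (φ m)) 1 (fun c => kc c ε)),
    fun m u => if m = m₀ then (γ m)⁻¹ * VV m u else 0, ?_, ?_⟩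
  · intro m ε hε
    refine mul_ne_zero (hγ0 m) ?_
    by_cases hm : m ∈ A
    · rw [if_pos hm]; exact one_ne_zero
    · rw [if_neg hm]
      obtain ⟨c, hc⟩ := (hnA m hm).2
      rw [hc]
      have h1 : m ∈ Mf c := (memM c m).2 ⟨hm, hc⟩
      have h2 : 0 < (Mf c).card := Finset.card_pos.2 ⟨m, h1⟩
      have h3 := hM2 c
      simp only [Option.elim, hkc]
      split_ifs with h4 h5
      · exact one_ne_zero
      · exact hε
      · omega
  · intro ε
    obtain ⟨F, hF⟩ := real_lin hk e f (fun b => Polynomial.C (kc (true, b) ε) * Q (true, b))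
      (fun a => Polynomial.C (kc (false, a) ε) * Q (false, a)) hfd hf0 (fun b h => hdeg _ _ h) (fun a h => hdeg _ _ h)
    refine ⟨F, _, hF, fun m u => ?_⟩
    rw [P6_JJ hik f (fun c => Polynomial.C (kc c ε) * Q c) (t m) u, hfe]
    beta_reduce
    -- the pair part
    by_cases hm : m ∈ A
    · rw [if_pos hm]
      have hg : γ m = 1 := by rw [hγ]; simp only [if_pos hm]
      rw [hg, if_pos hm, one_mul, one_mul, inv_one, one_mul]
      congr 1
      rcases hc : pk blk i.1 k u with _ | c
      · simp [hVV, hc]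
      · simp only [Option.elim, Polynomial.eval_mul, Polynomial.eval_C]
        have hmc : m ∉ Mf c := fun h => ((memM c m).1 h).1 hm
        by_cases h2 : (Mf c).card = 2
        · have hn : m ∉ Nn c := by rw [hNn]; simp only [if_pos h2]; exact hmc
          rw [hQ0 c m hn]
          have h1 : ¬ (Mf c).card = 1 := by omega
          simp [hVV, hc, h1]
        · by_cases h1 : (Mf c).card = 1
          · by_cases hmm : m = m₀
            · simp only [hVV, hc, hkc, if_pos hmm, if_pos h1, if_neg h2, Option.elim]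
              ring
            · have hn : m ∉ Nn c := by
                rw [hNn]; simp only [if_neg h2, Finset.mem_insert, not_or]; exact ⟨hmm, hmc⟩
              rw [hQ0 c m hn]
              simp [hmm]
          · simp [hVV, hc, hkc, h1, h2]
    · rw [if_neg hm, zero_add]
      obtain ⟨c0, hc0⟩ := (hnA m hm).2
      have hm0 : m ∈ Mf c0 := (memM c0 m).2 ⟨hm, hc0⟩
      have hg : γ m = (Q c0).eval (t m) := by rw [hγ]; simp only [if_neg hm, hc0, Option.elim]
      have hgne : (Q c0).eval (t m) ≠ 0 := hg ▸ hγ0 m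
      rw [if_neg hm, hc0, P6_ow hik hc0, hg]
      simp only [Option.elim]
      rcases hc : pk blk i.1 k u with _ | c
      · simp [hVV, hc]
      · simp only [Polynomial.eval_mul, Polynomial.eval_C]
        by_cases hcc : c = c0
        · subst hcc
          rw [if_pos rfl]
          by_cases hmm : m = m₀
          · have h1 : ¬ (Mf c).card = 1 := fun h => hm₀1 c h (hmm ▸ hm0)
            simp only [hVV, hc, if_neg h1, Option.elim, mul_zero, ite_self, add_zero]
            ring
          · rw [if_neg hmm]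
            ring
        · have hne : ¬ (some c = some c0) := fun h => hcc (Option.some.inj h)
          rw [if_neg hne]
          have hmc : m ∉ Mf c := by
            intro h
            have h1 := ((memM c m).1 h).2
            rw [hc0] at h1
            exact hcc (Option.some.inj h1).symm
          by_cases h2 : (Mf c).card = 2
          · have hn : m ∉ Nn c := by rw [hNn]; simp only [if_pos h2]; exact hmc
            have h1 : ¬ (Mf c).card = 1 := by omega
            rw [hQ0 c m hn]
            simp [hVV, hc, h1]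
          · by_cases h1 : (Mf c).card = 1
            · by_cases hmm : m = m₀
              · have h3 : (Mf c0).card = 2 := by
                  rcases hm₀ with h | ⟨c', h4, h5⟩
                  · exact absurd (hmm ▸ h) hm
                  · rw [← hmm, hc0] at h4
                    rw [Option.some.inj h4]; exact h5
                simp only [hVV, hc, hkc, if_pos hmm, if_pos h1, if_neg h2, if_pos h3, Option.elim]
                field_simp
                ring
              · have hn : m ∉ Nn c := by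
                  rw [hNn]; simp only [if_neg h2, Finset.mem_insert, not_or]; exact ⟨hmm, hmc⟩
                rw [hQ0 c m hn]
                simp [hmm]
            · simp [hVV, hc, hkc, h1, h2]

end

end Pool.Agent.MP_cfacaa_ag.Fl
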