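import Pool.Agent.Lib.MP_cfacaa_ag.Fl.X2
import Pool.Agent.Lib.MP_cfacaa_ag.Fl.P6

/-! Row fq-X3: all equations good; the concrete context. -/

namespace Pool.Agent.MP_cfacaa_ag.Fl

/-- Strong induction on the number of `v` which are not good, with `step`. -/
theorem exists_good {V R X : Type} [Fintype V] (Γ : Ctx V R X) {φ : (Σ v, Fin (Γ.n v + 1)) → R} (h : Valid Γ φ) :
    ∃ φ', Valid Γ φ' ∧ ∀ v, GoodAt Γ φ' v := by
  classical
  have key : ∀ N : ℕ, ∀ φ : (Σ v, Fin (Γ.n v + 1)) → R, Valid Γ φ →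
      (Finset.univ.filter fun v => ¬ GoodAt Γ φ v).card ≤ N → ∃ φ', Valid Γ φ' ∧ ∀ v, GoodAt Γ φ' v := by
    intro N
    induction N with
    | zero =>
      intro φ h hN
      refine ⟨φ, h, fun v => ?_⟩
      by_contra hv
      have h1 : v ∈ Finset.univ.filter fun v => ¬ GoodAt Γ φ v := by simp [hv]
      have h2 := Finset.card_pos.2 ⟨v, h1⟩
      omega
    | succ N ih =>
      intro φ h hN
      by_cases hall : ∀ v, GoodAt Γ φ v
      · exact ⟨φ, h, hall⟩
      obtain ⟨v, hv⟩ := not_forall.1 hall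
      obtain ⟨φ', h', hv', hu⟩ := step Γ h hv
      apply ih φ' h'
      have hss : (Finset.univ.filter fun v => ¬ GoodAt Γ φ' v) ⊂ Finset.univ.filter fun v => ¬ GoodAt Γ φ v := by
        refine Finset.ssubset_iff_of_subset (fun u hu' => ?_) |>.2 ⟨v, ?_, ?_⟩
        · simp only [Finset.mem_filter, Finset.mem_univ, true_and] at hu' ⊢
          exact fun hg => hu' (hu u hg)
        · simp [hv]
        · simp [hv']
      have := Finset.card_lt_card hss
      omega
  exact key _ φ h le_rfl

section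

variable {V I κ : Type} [Fintype V] [Fintype I] [LinearOrder I] {blk : I → κ}

open Classical in
/-- the other root of the pair -/
noncomputable def X3_mate (blk : I → κ) (i k : I) (s : I × I) : I × I :=
  if isRow blk i k s then (if s.1 = i then (k, s.2) else (i, s.2))
  else if isCol blk i k s then (if s.2 = k then (s.1, i) else (s.1, k)) else s

omit [Fintype I] in
theorem X3_pk_row {i k : I} {s : I × I} (h : isRow blk i k s) : pk blk i k s = some (true, s.2) := by
  unfold pk
  rw [if_pos h]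

omit [Fintype I] in
theorem X3_not_row {i k : I} (hik : i < k) {s : I × I} (h : s.1 < i) : ¬ isRow blk i k s := by
  rintro ⟨-, -, h1 | h1⟩
  · rw [h1] at h
    exact lt_irrefl _ h
  · rw [h1] at h
    exact lt_irrefl _ (h.trans hik)

omit [Fintype I] in
theorem X3_pk_col {i k : I} (hik : i < k) {s : I × I} (h : isCol blk i k s) : pk blk i k s = some (false, s.1) := by
  unfold pk
  rw [if_neg (X3_not_row hik h.2.1), if_pos h]

omit [Fintype I] in
theorem X3_pk_none {i k : I} {s : I × I} (h : ¬ isRow blk i k s) (h' : ¬ isCol blk i k s) : pk blk i k s = none := by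
  unfold pk
  rw [if_neg h, if_neg h']

omit [Fintype I] in
theorem X3_pk_cases {i k : I} (hik : i < k) {s : I × I} {c : Bool × I} (h : pk blk i k s = some c) :
    (isRow blk i k s ∧ c = (true, s.2)) ∨ (isCol blk i k s ∧ ¬ isRow blk i k s ∧ c = (false, s.1)) := by
  by_cases h1 : isRow blk i k s
  · rw [X3_pk_row h1] at h
    exact Or.inl ⟨h1, (Option.some.inj h).symm⟩
  · by_cases h2 : isCol blk i k s
    · rw [X3_pk_col hik h2] at h
      exact Or.inr ⟨h2, h1, (Option.some.inj h).symm⟩
    · unfold pk at h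
      rw [if_neg h1, if_neg h2] at h
      exact absurd h (by simp)

omit [Fintype I] in
theorem X3_mate_row {i k : I} (hik : i < k) {s : I × I} (h : isRow blk i k s) :
    isRow blk i k (X3_mate blk i k s) ∧ (X3_mate blk i k s).2 = s.2 ∧ (X3_mate blk i k s).1 ≠ s.1 := by
  unfold X3_mate
  rw [if_pos h]
  by_cases h1 : s.1 = i
  · rw [if_pos h1]
    exact ⟨⟨h.1, h.2.1, Or.inr rfl⟩, rfl, fun e => hik.ne' (e.trans h1)⟩
  · rw [if_neg h1]
    exact ⟨⟨h.1, h.2.1, Or.inl rfl⟩, rfl, fun e => h1 e.symm⟩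

omit [Fintype I] in
theorem X3_mate_col {i k : I} (hik : i < k) {s : I × I} (h : isCol blk i k s) :
    isCol blk i k (X3_mate blk i k s) ∧ (X3_mate blk i k s).1 = s.1 ∧ (X3_mate blk i k s).2 ≠ s.2 := by
  unfold X3_mate
  rw [if_neg (X3_not_row hik h.2.1), if_pos h]
  by_cases h1 : s.2 = k
  · rw [if_pos h1]
    exact ⟨⟨h.1, h.2.1, Or.inr rfl⟩, rfl, fun e => hik.ne (e.trans h1)⟩
  · rw [if_neg h1]
    exact ⟨⟨h.1, h.2.1, Or.inl rfl⟩, rfl, fun e => h1 e.symm⟩

/-- The context of the flag varieties. -/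
noncomputable def X3_ctx (e : V → Pos blk → ℕ) (i : Pos blk) {k : I} (hk : Nx blk i.1 k) : Ctx V (I × I) I where
  n v := e v i
  Fr v := Fr blk i k (e v)
  pk := pk blk i.1 k
  le τ x y := if τ then x ≤ y else y ≤ x
  mate := X3_mate blk i.1 k
  total := by
    intro τ x y
    cases τ
    · simpa using le_total y x
    · simpa using le_total x y
  mate_ne := by
    intro s c h hs
    rcases X3_pk_cases hk.lt h with ⟨h1, -⟩ | ⟨h1, -, -⟩
    · exact (X3_mate_row hk.lt h1).2.2 (congrArg Prod.fst hs)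
    · exact (X3_mate_col hk.lt h1).2.2 (congrArg Prod.snd hs)
  pk_mate := by
    intro s c h
    rcases X3_pk_cases hk.lt h with ⟨h1, hc⟩ | ⟨h1, -, hc⟩
    · obtain ⟨h2, h3, -⟩ := X3_mate_row hk.lt h1
      rw [X3_pk_row h2, h3, hc]
    · obtain ⟨h2, h3, -⟩ := X3_mate_col hk.lt h1
      rw [X3_pk_col hk.lt h2, h3, hc]
  pk_eq := by
    intro s s' c h h'
    rcases X3_pk_cases hk.lt h with ⟨h1, hc⟩ | ⟨h1, -, hc⟩
    · rcases X3_pk_cases hk.lt h' with ⟨h1', hc'⟩ | ⟨h1', -, hc'⟩
      · obtain ⟨h2, h3, h4⟩ := X3_mate_row hk.lt h1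
        rw [hc] at hc'
        have h5 : s.2 = s'.2 := by simpa using hc'
        by_cases h6 : s'.1 = s.1
        · exact Or.inl (Prod.ext h6 h5.symm)
        · refine Or.inr (Prod.ext ?_ (h5.symm.trans h3.symm))
          have a1 := h1.2.2
          have a2 := h1'.2.2
          have a3 := h2.2.2
          rcases a1 with a1 | a1 <;> rcases a2 with a2 | a2 <;> rcases a3 with a3 | a3
          · exact a2.trans a3.symm
          · exact absurd (a2.trans a1.symm) h6
          · exact absurd (a3.trans a1.symm) h4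
          · exact a2.trans a3.symm
          · exact a2.trans a3.symm
          · exact absurd (a3.trans a1.symm) h4
          · exact absurd (a2.trans a1.symm) h6
          · exact absurd (a2.trans a1.symm) h6
      · rw [hc] at hc'
        exact absurd (congrArg Prod.fst hc') (by simp)
    · rcases X3_pk_cases hk.lt h' with ⟨h1', hc'⟩ | ⟨h1', -, hc'⟩
      · rw [hc] at hc'
        exact absurd (congrArg Prod.fst hc') (by simp)
      · obtain ⟨h2, h3, h4⟩ := X3_mate_col hk.lt h1
        rw [hc] at hc'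
        have h5 : s.1 = s'.1 := by simpa using hc'
        by_cases h6 : s'.2 = s.2
        · exact Or.inl (Prod.ext h5.symm h6)
        · refine Or.inr (Prod.ext (h5.symm.trans h3.symm) ?_)
          have a1 := h1.2.2
          have a2 := h1'.2.2
          have a3 := h2.2.2
          rcases a1 with a1 | a1 <;> rcases a2 with a2 | a2 <;> rcases a3 with a3 | a3
          · exact a2.trans a3.symm
          · exact absurd (a2.trans a1.symm) h6
          · exact absurd (a3.trans a1.symm) h4
          · exact a2.trans a3.symm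
          · exact a2.trans a3.symm
          · exact absurd (a3.trans a1.symm) h4
          · exact absurd (a2.trans a1.symm) h6
          · exact absurd (a2.trans a1.symm) h6
  mono := by
    intro v s s' τ x y h h' hxy hs
    exact fr_mono hk h h' hxy hs
  cross := by
    intro s s' x y h h'
    rcases X3_pk_cases hk.lt h with ⟨h1, hc⟩ | ⟨h1, -, hc⟩
    swap
    · exact absurd (congrArg Prod.fst hc) (by simp)
    rcases X3_pk_cases hk.lt h' with ⟨h1', hc'⟩ | ⟨h1', -, hc'⟩
    · exact absurd (congrArg Prod.fst hc') (by simp)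
    have hx : x = s.2 := congrArg Prod.snd hc
    have hy : y = s'.1 := congrArg Prod.snd hc'
    subst hx hy
    obtain ⟨b1, b2, b3⟩ := h1
    obtain ⟨c1, c2, c3⟩ := h1'
    refine ⟨(s'.1, s.2), ?_, ?_, ?_⟩
    · refine X3_pk_none (X3_not_row hk.lt c2) ?_
      rintro ⟨-, -, h2 | h2⟩
      · exact b2.ne' h2
      · exact (hk.lt.trans b2).ne' h2
    · intro v hv
      exact Or.inr ⟨hv, c1, b1, c2, b2⟩
    · intro v hv hr
      rcases hr with ⟨j, hj, hej, d1, d2, d3, d4⟩ | ⟨h0, -⟩
      · have hji : j.1 ≠ i.1 := fun e => hj (Subtype.ext e)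
        have hbj : blk j.1 = blk i.1 := d1.symm.trans c1
        rcases lt_or_gt_of_ne hji with hlt | hgt
        · refine Or.inr (Or.inl ⟨j, hj, hej, c1.trans hbj.symm, ?_, d3, ?_⟩)
          · rcases c3 with c3 | c3
            · rw [c3, hk.eq, hbj]
            · rw [c3, hbj]
          · rcases c3 with c3 | c3
            · rw [c3]
              exact hlt.trans hk.lt
            · rw [c3]
              exact hlt
        · have hkj : k ≤ j.1 := hk.le j.1 hbj hgt
          refine Or.inl (Or.inl ⟨j, hj, hej, ?_, d2, ?_, d4⟩)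
          · rcases b3 with b3 | b3
            · rw [b3, hbj]
            · rw [b3, hk.eq, hbj]
          · rcases b3 with b3 | b3
            · rw [b3]
              exact hk.lt.le.trans hkj
            · rw [b3]
              exact hkj
      · exact absurd hv h0

/-- The context: `n v = e v i`, `Fr v = Fr blk i k (e v)`, `pk = pk blk i k`, `le true x y = x ≤ y`, `le false x y = y ≤ x`, `mate (i, b) = (k, b)`, `mate (k, b) = (i, b)` (`b > k` in the block), `mate (a, k) = (a, i)`, `mate (a, i) = (a, k)` (`a < i`); `mono` is `fr_mono`; `cross`: for the row pair `b` and the column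
pair `a` take `r = (a, b)`: it is in no pair (`a < i`, `b > k`), it is free for all `v` with `e v i ≠ 0` (second case of `Fr`), and if `e v i = 0` and it is free, the index `j ≠ i` (`a ≤ j < b`) is `< i` or `≥ k` (then `(a, k)`, or `(i, b)`, is free, and with it both roots of the pair, `fr_mono`). -/
theorem exists_assignment (e : V → Pos blk → ℕ) (i : Pos blk) {k : I} (hk : Nx blk i.1 k)
    (φ : (Σ v, Fin (e v i + 1)) → I × I) (hφ : Function.Injective φ)
    (hR : ∀ σ, Fr blk i k (e σ.1) (φ σ) ∨ (e σ.1 i ≠ 0 ∧ (pk blk i.1 k (φ σ)).isSome)) :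
    ∃ φ' : (Σ v, Fin (e v i + 1)) → I × I, Function.Injective φ' ∧
      (∀ σ, Fr blk i k (e σ.1) (φ' σ) ∨ (e σ.1 i ≠ 0 ∧ (pk blk i.1 k (φ' σ)).isSome)) ∧
      ∀ v, e v i = 0 ∨ (∃ m, Fr blk i k (e v) (φ' ⟨v, m⟩)) ∨
        ∃ m m', m ≠ m' ∧ pk blk i.1 k (φ' ⟨v, m⟩) = pk blk i.1 k (φ' ⟨v, m'⟩) ∧
          (pk blk i.1 k (φ' ⟨v, m⟩)).isSome := by
  obtain ⟨φ', hV, hG⟩ := exists_good (X3_ctx e i hk) (φ := φ) ⟨hφ, hR⟩
  exact ⟨φ', hV.1, hV.2, hG⟩

end

end Pool.Agent.MP_cfacaa_ag.Fl
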