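import Pool.Agent.Lib.MP_cfacaa_ag.Fl.P9
import Pool.Agent.Lib.MP_cfacaa_ag.Fl.X3
import Pool.Agent.Lib.MP_cfacaa_ag.Fl.H2
import Pool.Agent.Lib.MP_cfacaa_ag.Fl.F1a
import Pool.Agent.Lib.MP_cfacaa_ag.Fl.F1b
import Pool.Agent.Lib.MP_cfacaa_ag.Fl.F3
import Pool.Agent.Lib.MP_cfacaa_ag.Fl.E3b
import Pool.Agent.Lib.MP_cfacaa_ag.Fl.C1b
import Pool.Agent.Lib.MP_cfacaa_ag.Fl.C3
import Pool.Agent.Lib.MP_cfacaa_ag.Fl.K5

/-! Existence of fibres; the theorem. -/

namespace Pool.Agent.MP_cfacaa_ag.Fl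

open MvPolynomial

section

variable {V I κ : Type} [Fintype V] [Fintype I] [LinearOrder I]

/-- The zero set of semi-invariants of the weights `e v` contains a fibre of every projection, if some semi-invariants of these weights have
independent linear parts. -/
theorem exists_fibre_of_special {blk : I → κ} (e : V → Pos blk → ℕ) (i : Pos blk) {k : I} (hk : Nx blk i.1 k)
    (F₀ : V → MvPolynomial (I × I) ℂ) (J : V → I × I → Polynomial ℂ)
    (hLin : ∀ v, Lin blk i.1 k (e v i) (e v) (F₀ v) (J v))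
    (hs : ∀ w : V → ℕ → ℂ, ∃ y : I × I → ℂ, ∀ v r, r ≤ e v i → ∑ s, (J v s).coeff r * y s = w v r)
    (F : V → MvPolynomial (I × I) ℂ) (hF : ∀ v, Semi blk (e v) (F v)) :
    ∃ A : Matrix I I ℂ, BD blk A ∧ A.det ≠ 0 ∧ ∀ v t, ev (up i.1 k t A) (F v) = 0 := by
  classical
  choose hS U hdeg hmap hev using hLin
  choose c hc using fun v => exists_coeffs hk (hF v)
  -- the system
  obtain ⟨U', hU'⟩ : ∃ U' : (Σ v, Fin (e v i + 1)) → I × I → MvPolynomial (I × I) ℂ,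
      ∀ p s, U' p s = (U p.1 s).coeff p.2 := ⟨_, fun _ _ => rfl⟩
  obtain ⟨G', hG'⟩ : ∃ G' : (Σ v, Fin (e v i + 1)) → MvPolynomial (I × I) ℂ,
      ∀ p, G' p = c p.1 p.2 := ⟨_, fun _ => rfl⟩
  have hsurj : ∀ w : (Σ v, Fin (e v i + 1)) → ℂ, ∃ z : I × I → ℂ,
      ∀ p, ∑ s, constantCoeff (U' p s) * z s = w p := by
    intro w
    obtain ⟨y, hy⟩ := hs fun v r => if h : r < e v i + 1 then w ⟨v, ⟨r, h⟩⟩ else 0
    refine ⟨y, fun p => ?_⟩
    have h1 := hy p.1 p.2 (Nat.lt_succ_iff.1 p.2.2)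
    rw [dif_pos p.2.2] at h1
    refine Eq.trans (Finset.sum_congr rfl fun s _ => ?_) h1
    rw [hU', ← hmap, Polynomial.coeff_map]
  have hevent := eventually_exists U' hsurj G'
  obtain ⟨L, _, _, lam, z, hlam, hz⟩ := exists_field (fun p => ∑ s, U' p s * X s) G' (by
    filter_upwards [hevent] with mu hmu
    obtain ⟨z, hz⟩ := hmu
    refine ⟨z, fun p => ?_⟩
    rw [← hz p, map_sum]
    congr 1
    refine Finset.sum_congr rfl fun s _ => ?_
    rw [map_mul, aeval_X])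
  refine specialise e F₀ F hS hF lam hlam hk (ch_bd i.1 k z) (by rw [det_ch]; exact one_ne_zero) fun v t => ?_
  rw [hev v L z t, hc v L z t, Finset.mul_sum]
  have h1 : ∀ s, (U v s).eval₂ ((aeval z : MvPolynomial (I × I) ℂ →ₐ[ℂ] L) : MvPolynomial (I × I) ℂ →+* L) t * z s =
      ∑ r ∈ Finset.range (e v i + 1), t ^ r * (aeval z ((U v s).coeff r) * z s) := by
    intro s
    rw [Polynomial.eval₂_eq_sum_range' _ (Nat.lt_succ_of_le (hdeg v s)), Finset.sum_mul]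
    refine Finset.sum_congr rfl fun r _ => ?_
    rw [RingHom.coe_coe]
    ring
  rw [Finset.sum_congr rfl fun s _ => h1 s, Finset.sum_comm, ← Finset.sum_add_distrib]
  refine Finset.sum_eq_zero fun r hr => ?_
  have h2 := hz ⟨v, ⟨r, Finset.mem_range.1 hr⟩⟩
  rw [map_sum, hG'] at h2
  simp only [map_mul, aeval_X, hU'] at h2
  rw [← Finset.mul_sum]
  linear_combination t ^ r * h2

/-- `X` contains a fibre of every projection. -/
theorem exists_fibre_T {blk : I → κ} (e : V → Pos blk → ℕ) (i : Pos blk)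
    (hc : ∀ W : Finset V, W.Nonempty → W.card ≤ (roots blk {j | ∃ v ∈ W, e v j ≠ 0}).card ∧
      (i ∈ {j : Pos blk | ∃ v ∈ W, e v j ≠ 0} → W.card + 3 + ∑ v ∈ W, e v i ≤
        (roots blk {j | ∃ v ∈ W, e v j ≠ 0}).card + idx blk {j | ∃ v ∈ W, e v j ≠ 0} i))
    (F : V → MvPolynomial (I × I) ℂ) (hF : ∀ v, Semi blk (e v) (F v)) {k : I} (hk : Nx blk i.1 k) :
    ∃ A : Matrix I I ℂ, BD blk A ∧ A.det ≠ 0 ∧ ∀ v t, ev (up i.1 k t A) (F v) = 0 := by
  obtain ⟨φ, hφ, hR⟩ := exists_valid e i hc hk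
  obtain ⟨φ', hφ', hR', hG⟩ := exists_assignment e i hk φ hφ hR
  obtain ⟨F₀, J, hLin, hs⟩ := exists_special e i hk φ' hφ' hR' hG
  exact exists_fibre_of_special e i hk F₀ J hLin hs F hF

/-- A section of a class of negative degree on the line vanishes on the line; so nef classes have nonnegative coefficients. -/
theorem nonneg_of_nef_T (S : FSys V I κ) {d : Pos S.blk → ℤ} (hd : S.Nef d) (i : Pos S.blk) (hi : i ∈ S.T)
    {A : Matrix I I ℂ} {k : I} (hk : Nx S.blk i.1 k) (hA : ∀ t : ℂ, up i.1 k t A ∈ S.cone) : 0 ≤ d i := by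
  classical
  by_contra hneg
  rw [not_le] at hneg
  obtain ⟨N, hN, hgg⟩ := hd 2 (by norm_num)
  have hcone : A ∈ S.cone := by
    have := hA 0
    rwa [up_zero] at this
  obtain ⟨s, hs, hsA⟩ := hgg A hcone
  have hs' : IsSection ⟨S.blk, S.e, S.F, S.semi⟩
      (fun j => (N : ℤ) * (((2 : ℕ) : ℤ) * d j + if j ∈ S.T then 1 else 0)) s := by
    intro B hB
    obtain ⟨p, q, P, Q, -, hP, hQ, hpq, hne, hPQ⟩ := hs B hB
    exact ⟨p, q, P, Q, hP, hQ, hpq, hne, hPQ⟩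
  refine hsA (section_eq_zero ⟨S.blk, S.e, S.F, S.semi⟩ hs' i hk ?_ hcone.1 hcone.2.1 fun v t => (hA t).2.2 v)
  have h1 : (1 : ℤ) ≤ N := by exact_mod_cast hN
  have h2 : ((2 : ℕ) : ℤ) * d i + (if i ∈ S.T then 1 else 0) < 0 := by
    rw [if_pos hi]
    push_cast
    omega
  nlinarith

/-- lines -/
theorem hasLine (S : FSys V I κ) (i : Pos S.blk) (h : S.Lines i) : S.HasLine i := by
  obtain ⟨k, hk⟩ := exists_nx i
  obtain ⟨A, hA, hdet, h⟩ := exists_fibre_T S.e i h S.F S.semi hk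
  exact ⟨A, k, hk, fun t => ⟨BD.up hk hA t, by rw [det_up hk.ne]; exact hdet, fun v => h v t⟩⟩

/-- wide systems -/
theorem lines_of_wide (S : FSys V I κ) (h : S.Wide) (i : Pos S.blk) : S.Lines i := by
  obtain ⟨hnt, hcy, hbig⟩ := h
  intro W hW
  have hB : ∀ J : Finset (Pos S.blk), J.Nonempty → (∀ j ∈ J, j ∈ S.T) →
      ∑ j ∈ J, idx S.blk S.T j + 3 ≤ (roots S.blk (J : Set (Pos S.blk))).card := by
    rcases hbig with hbig | ⟨hT, h6⟩
    · exact hbig
    · intro J hJ _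
      rw [hT]
      exact big_of_complete h6 J hJ
  obtain ⟨h1, h2⟩ := exp_of_big S.T hB S.e S.supp hcy hnt W hW
  exact ⟨h1, fun hi => h2 i hi⟩

end

end Pool.Agent.MP_cfacaa_ag.Fl
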