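import Pool.Agent.Lib.MP_cfacaa_ag.Fl.R11

/-! Row ft-R12: sections which are not zero somewhere have nonnegative degree on the free classes. -/

namespace Pool.Agent.MP_cfacaa_ag.Fl

open MvPolynomial

section

variable {V I κ : Type} [Fintype V] [Fintype I] [LinearOrder I] (S : FSys V I κ)

omit [Fintype V] [Fintype I] [LinearOrder I] in
theorem R12_ev_mul {L : Type} [CommRing L] [Algebra ℂ L] (M : Matrix I I L) (P Q : MvPolynomial (I × I) ℂ) :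
    ev M (P * Q) = ev M P * ev M Q := by
  unfold ev
  exact map_mul _ _ _

omit [Fintype V] [Fintype I] [LinearOrder I] in
theorem R12_ev_pow {L : Type} [CommRing L] [Algebra ℂ L] (M : Matrix I I L) (P : MvPolynomial (I × I) ℂ) (n : ℕ) :
    ev M (P ^ n) = ev M P ^ n := by
  unfold ev
  exact map_pow _ _ _

open Classical in
/-- Suppose `d i < 0`, `d i = -(k + 1)`. `exists_xi` gives `ξ`, `M = ut (fib) ξ (ext A)`; `(x, y) ∈ fib` with `ξ (x, y) ∉ ℂ`. Let `(p, q, P, Q)` be the fraction of `s` near `A`, `G = Dm blk i A⁻¹`, `G' = Dm blk i (A⁻¹ * pm (Equiv.swap x y))`. The sections `s * G ^ (k + 1)` and `s * (G ^ k * G')` (`FSys.IsSection.mul`,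
`FSys.isSection_ev`, weights `(k + 1) • om i`) have degree `0` at `i`; their fractions near `A` are `(P * G ^ (k + 1), Q)`, `(P * (G ^ k * G'), Q)`; `const_of_zero`: `u = ev M P / ev M Q` (as `ev M G = 1`, `ev_Dm_ut`) and `u * ξ (x, y)` (`ev_Dm_swap`) are in `ℂ`. `u ≠ 0`: `ev A P = s A * ev A Q ≠ 0`, so `ev M P ≠ 0`. So `ξ (x, y) ∈ ℂ`:
contradiction. -/
theorem nonneg_of_free {A : Matrix I I ℂ} (hA : A ∈ S.cone) {i : Pos S.blk} (hi : i ∈ S.T)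
    (hfree : (Finset.univ.filter fun v => S.e v i ≠ 0).card + (roots S.blk (S.T \ {i})).card < (roots S.blk S.T).card)
    {d : Pos S.blk → ℤ} {s : Matrix I I ℂ → ℂ} (hs : S.IsSection d s) (hsA : s A ≠ 0) : 0 ≤ d i := by
  by_contra hneg
  rw [not_le] at hneg
  obtain ⟨k, hk⟩ : ∃ k : ℕ, d i + ((k + 1 : ℕ) : ℤ) = 0 := ⟨(-d i - 1).toNat, by
    push_cast
    rw [Int.toNat_of_nonneg (by linarith)]
    ring⟩
  obtain ⟨K, hKf, hKa, ξ, hξ1, ⟨⟨x, y⟩, hxy, hξ2⟩, hne⟩ := exists_xi S hA hi hfree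
  obtain ⟨p, q, P, Q, hT, hP, hQ, hd, hQA, hB⟩ := hs A hA
  have hdet : A.det ≠ 0 := hA.2.1
  have hPA : ev A P ≠ 0 := by
    rw [← hB A hA hQA]
    exact mul_ne_zero hsA hQA
  have hMP := hne P hPA
  have hMQ := hne Q hQA
  have hw : ∀ j, j ∉ S.T → ((k + 1) • om i) j = 0 := by
    intro j hj
    have hji : ¬ j = i := fun h => hj (h ▸ hi)
    show (k + 1) • om i j = 0
    simp only [om, if_neg hji, smul_zero]
  have hwi : (((k + 1) • om i) i : ℕ) = k + 1 := by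
    show (k + 1) • om i i = k + 1
    simp only [om, if_true, smul_eq_mul, mul_one]
  have hG : Semi S.blk ((k + 1) • om i) (Dm S.blk i.1 (A⁻¹ : Matrix I I ℂ) ^ (k + 1)) :=
    (semi_Dm i (A⁻¹ : Matrix I I ℂ)).pow (k + 1)
  have hG' : Semi S.blk ((k + 1) • om i) (Dm S.blk i.1 (A⁻¹ : Matrix I I ℂ) ^ k *
      Dm S.blk i.1 (A⁻¹ * pm (Equiv.swap x y) : Matrix I I ℂ)) := by
    rw [succ_nsmul]
    exact ((semi_Dm i (A⁻¹ : Matrix I I ℂ)).pow k).mul (semi_Dm i (A⁻¹ * pm (Equiv.swap x y) : Matrix I I ℂ))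
  have hs1 := hs.mul (FSys.isSection_ev (S := S) hw hG)
  have hs2 := hs.mul (FSys.isSection_ev (S := S) hw hG')
  have hd0 : (fun j => d j + (((k + 1) • om i) j : ℤ)) i = 0 := by
    show d i + (((((k + 1) • om i) i : ℕ)) : ℤ) = 0
    rw [hwi]
    exact hk
  have f1 : ∀ B ∈ S.cone, ev B Q ≠ 0 → (fun A' => s A' * ev A' (Dm S.blk i.1 (A⁻¹ : Matrix I I ℂ) ^ (k + 1))) B * ev B Q =
      ev B (P * Dm S.blk i.1 (A⁻¹ : Matrix I I ℂ) ^ (k + 1)) := by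
    intro B hBc hBQ
    show s B * ev B (Dm S.blk i.1 (A⁻¹ : Matrix I I ℂ) ^ (k + 1)) * ev B Q = _
    rw [R12_ev_mul, ← hB B hBc hBQ]
    ring
  have f2 : ∀ B ∈ S.cone, ev B Q ≠ 0 → (fun A' => s A' * ev A' (Dm S.blk i.1 (A⁻¹ : Matrix I I ℂ) ^ k *
      Dm S.blk i.1 (A⁻¹ * pm (Equiv.swap x y) : Matrix I I ℂ))) B * ev B Q =
      ev B (P * (Dm S.blk i.1 (A⁻¹ : Matrix I I ℂ) ^ k *
      Dm S.blk i.1 (A⁻¹ * pm (Equiv.swap x y) : Matrix I I ℂ))) := by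
    intro B hBc hBQ
    show s B * ev B (Dm S.blk i.1 (A⁻¹ : Matrix I I ℂ) ^ k *
      Dm S.blk i.1 (A⁻¹ * pm (Equiv.swap x y) : Matrix I I ℂ)) * ev B Q = _
    rw [R12_ev_mul (P := P), ← hB B hBc hBQ]
    ring
  obtain ⟨a, ha⟩ := const_of_zero S hA hi hd0 hs1 f1 ξ hξ1 hMQ
  obtain ⟨b, hb⟩ := const_of_zero S hA hi hd0 hs2 f2 ξ hξ1 hMQ
  rw [R12_ev_mul, R12_ev_pow, ev_Dm_ut hi hdet ξ, one_pow, mul_one] at ha
  rw [R12_ev_mul, R12_ev_mul, R12_ev_pow, ev_Dm_ut hi hdet ξ, one_pow, one_mul, ev_Dm_swap hi hxy hdet ξ] at hb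
  have ha0 : algebraMap ℂ K a ≠ 0 := by
    rw [ha]
    exact div_ne_zero hMP hMQ
  apply hξ2
  refine ⟨b / a, ?_⟩
  rw [map_div₀, div_eq_iff ha0, ha, hb]
  ring

end

end Pool.Agent.MP_cfacaa_ag.Fl
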