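import Pool.Agent.Lib.MP_cfacaa_ag.Fl.M2
import Pool.Agent.Lib.MP_cfacaa_ag.Fl.R12

/-! Nef classes. -/

namespace Pool.Agent.MP_cfacaa_ag.Fl

section

variable {V I κ : Type} [Fintype V] [Fintype I] [LinearOrder I]

/-- nef classes have nonnegative coefficients at the free classes -/
theorem nonneg_of_nef_free (S : FSys V I κ) (hne : S.cone.Nonempty) {d : Pos S.blk → ℤ} (hd : S.Nef d) (i : Pos S.blk)
    (hi : i ∈ S.T) (hfree : S.Free i) : 0 ≤ d i := by
  classical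
  by_contra hneg
  rw [not_le] at hneg
  obtain ⟨N, hN, hgg⟩ := hd 2 (by norm_num)
  obtain ⟨A, hA⟩ := hne
  obtain ⟨s, hs, hsA⟩ := hgg A hA
  have h3 := nonneg_of_free S hA hi hfree hs hsA
  rw [if_pos hi] at h3
  have h1 : (1 : ℤ) ≤ N := by exact_mod_cast hN
  have h2 : ((2 : ℕ) : ℤ) * d i + 1 < 0 := by
    push_cast
    omega
  nlinarith

end

end Pool.Agent.MP_cfacaa_ag.Fl
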