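import Pool.Agent.Lib.MP_cfacaa_ag.Fl.G3a
import Pool.Agent.Lib.MP_cfacaa_ag.Fl.G3b

/-! Sums and multiples of Lin. -/

namespace Pool.Agent.MP_cfacaa_ag.Fl

open MvPolynomial

section

variable {I κ : Type} [Fintype I] [LinearOrder I] {blk : I → κ}

theorem Lin.zero (i k : I) (n : ℕ) (e : Pos blk → ℕ) : Lin blk i k n e 0 (fun _ => 0) := by
  refine ⟨Semi.zero e, fun _ => 0, ?_, ?_, ?_⟩
  · intro s
    rw [Polynomial.natDegree_zero]
    exact Nat.zero_le _
  · intro s
    rw [Polynomial.map_zero]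
  · intro L _ _ z t
    have hev : ev (up i k t (ch blk i k z)) (0 : MvPolynomial (I × I) ℂ) = 0 := by
      unfold ev
      exact map_zero _
    rw [hev]
    symm
    refine Finset.sum_eq_zero fun s _ => ?_
    rw [Polynomial.eval₂_zero, zero_mul]

theorem Lin.smul {i k : I} {n : ℕ} {e : Pos blk → ℕ} {F : MvPolynomial (I × I) ℂ} {J : I × I → Polynomial ℂ}
    (h : Lin blk i k n e F J) (c : ℂ) : Lin blk i k n e (C c * F) (fun s => Polynomial.C c * J s) := by
  obtain ⟨hs, U, hU, hJ, hE⟩ := h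
  refine ⟨hs.C_mul c, fun s => Polynomial.C (C c) * U s, ?_, ?_, ?_⟩
  · intro s
    exact (Polynomial.natDegree_C_mul_le _ _).trans (hU s)
  · intro s
    rw [Polynomial.map_mul, Polynomial.map_C, hJ s, constantCoeff_C]
  · intro L _ _ z t
    have hev : ev (up i k t (ch blk i k z)) (C c * F) =
        algebraMap ℂ L c * ev (up i k t (ch blk i k z)) F := by
      unfold ev
      rw [map_mul, aeval_C]
    rw [hev, hE L z t, Finset.mul_sum]
    refine Finset.sum_congr rfl fun s _ => ?_
    have h1 : ((aeval z : MvPolynomial (I × I) ℂ →ₐ[ℂ] L) : MvPolynomial (I × I) ℂ →+* L) (C c) =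
        algebraMap ℂ L c := aeval_C z c
    rw [Polynomial.eval₂_mul, Polynomial.eval₂_C, h1, mul_assoc]

/-- sums -/
theorem Lin.sum {ι : Type} {i k : I} {n : ℕ} {e : Pos blk → ℕ} (A : Finset ι) (F : ι → MvPolynomial (I × I) ℂ)
    (J : ι → I × I → Polynomial ℂ) (h : ∀ a ∈ A, Lin blk i k n e (F a) (J a)) :
    Lin blk i k n e (∑ a ∈ A, F a) (fun s => ∑ a ∈ A, J a s) := by
  classical
  induction A using Finset.induction_on with
  | empty =>
    simp only [Finset.sum_empty]
    exact Lin.zero i k n e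
  | insert a B ha ih =>
    simp only [Finset.sum_insert ha]
    exact (h a (Finset.mem_insert_self _ _)).add
      (ih fun b hb => h b (Finset.mem_insert_of_mem hb))

end

end Pool.Agent.MP_cfacaa_ag.Fl
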