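import Pool.Agent.Lib.MP_cfacaa_ag.Fl.G2b
import Pool.Agent.Lib.MP_cfacaa_ag.Fl.G4

/-! Row fq-P2: the minor with an earlier column replaced by a later one. -/

namespace Pool.Agent.MP_cfacaa_ag.Fl

open MvPolynomial

section

variable {I κ : Type} [Fintype I] [LinearOrder I] {blk : I → κ}

/-- The entries of the column `b` of the matrix of the fibre. -/
theorem P2_entry {R : Type} [CommRing R] {i k : I} (hk : Nx blk i k) {b : I} (hb : blk b = blk i) (hkb : k < b)
    (z : I × I → R) (t : R) {r : I} (hr : r ∈ seg blk i) :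
    up i k t (ch blk i k z) r b = z (r, b) + (if r = i then t * z (k, b) else 0) := by
  obtain ⟨h1, h2⟩ := G4_mem_seg.1 hr
  have hib : i < b := hk.lt.trans hkb
  have hrb : r < b := lt_of_le_of_lt h2 hib
  have hbk : b ≠ k := hkb.ne'
  have hkbb : blk k = blk b := hk.eq.trans hb.symm
  have hib' : blk i = blk b := hb.symm
  have hrb' : blk r = blk b := h1.trans hb.symm
  by_cases hri : r = i
  · subst hri
    simp only [up, if_true, ch, hib.ne, hib', hib, hbk, hkb.ne, hkbb, hkb, and_false, not_false_eq_true, true_and,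
      if_false, and_true]
  · simp only [up, hri, if_false, ch, hrb.ne, hrb', hrb, hbk, and_false, not_false_eq_true, true_and,
      if_true, add_zero, and_true]

/-- The minor, by the rule of Cramer. -/
theorem P2_value {R : Type} [CommRing R] {i k : I} (hk : Nx blk i k) {a b : I} (ha : a ∈ seg blk i)
    (hi : i ∈ seg blk i) (hb : blk b = blk i) (hkb : k < b) (z : I × I → R) (t : R) :
    (Matrix.of fun r c : {x // x ∈ seg blk i} => up i k t (ch blk i k z) r.1 (Equiv.swap a b c.1)).det =
      ∑ r : {x // x ∈ seg blk i},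
        (Matrix.of fun r c : {x // x ∈ seg blk i} => ch blk i k z r.1 c.1).adjugate ⟨a, ha⟩ r * z (r.1, b) +
      t * (Matrix.of fun r c : {x // x ∈ seg blk i} => ch blk i k z r.1 c.1).adjugate ⟨a, ha⟩ ⟨i, hi⟩ * z (k, b) := by
  set B : Matrix {x // x ∈ seg blk i} {x // x ∈ seg blk i} R :=
    Matrix.of fun r c : {x // x ∈ seg blk i} => ch blk i k z r.1 c.1 with hB
  have e : (Matrix.of fun r c : {x // x ∈ seg blk i} => up i k t (ch blk i k z) r.1 (Equiv.swap a b c.1)) =
      B.updateCol ⟨a, ha⟩ (fun r => up i k t (ch blk i k z) r.1 b) := by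
    ext r c
    by_cases hc : c = ⟨a, ha⟩
    · subst hc
      simp
    · rw [Matrix.updateCol_ne hc]
      have hca : c.1 ≠ a := fun h => hc (Subtype.ext h)
      have hci : c.1 ≤ i := (G4_mem_seg.1 c.2).2
      have hck : c.1 < k := lt_of_le_of_lt hci hk.lt
      have hcb : c.1 < b := hck.trans hkb
      simp only [Matrix.of_apply, Equiv.swap_apply_of_ne_of_ne hca hcb.ne, up, hB]
      by_cases hr : r.1 = i
      · simp only [hr, if_true]
        rw [ch_lower i k z hck, mul_zero, add_zero]
      · simp only [hr, if_false]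
  rw [e, ← Matrix.cramer_apply, Matrix.cramer_eq_adjugate_mulVec]
  have h1 : (B.adjugate.mulVec fun r : {x // x ∈ seg blk i} => up i k t (ch blk i k z) r.1 b) ⟨a, ha⟩ =
      ∑ r : {x // x ∈ seg blk i}, B.adjugate ⟨a, ha⟩ r * up i k t (ch blk i k z) r.1 b := rfl
  rw [h1]
  have h2 : ∀ r : {x // x ∈ seg blk i}, B.adjugate ⟨a, ha⟩ r * up i k t (ch blk i k z) r.1 b =
      B.adjugate ⟨a, ha⟩ r * z (r.1, b) +
        (if r = ⟨i, hi⟩ then t * B.adjugate ⟨a, ha⟩ r * z (k, b) else 0) := by
    intro r
    rw [P2_entry hk hb hkb z t r.2, mul_add]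
    congr 1
    by_cases hr : r = ⟨i, hi⟩
    · subst hr
      rw [if_pos rfl, if_pos rfl]
      ring
    · have hr' : r.1 ≠ i := fun h => hr (Subtype.ext h)
      rw [if_neg hr, if_neg hr', mul_zero]
  simp only [h2, Finset.sum_add_distrib, Finset.sum_ite_eq', Finset.mem_univ, if_true]

/-- See the proof of `lin_C` in `G4.lean`. Let `B` be `ch z` restricted to `seg blk i` (also the restriction of `up i k t (ch z)`). The value of the minor is the determinant of `B` with the column `a` replaced by `v`, `v r = z (r, b)` for `r < i`,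
`v i = z (i, b) + t z (k, b)` (`a < i`, `k < b`; the pairs `(r, b)` are not `(i, k)`), by Cramer's rule `∑ r, adj(B) a r * v r`. So `U (r, b) = C (adj(ch X) a r)` for `r ∈ seg blk i` and `U (k, b) = X * C (adj(ch X) a i)`, `U s = 0` otherwise. At `z = 0`, `adj(1) = 1`:
`J (a, b) = 1`, and `0` at the others (`a ≠ i`). -/
theorem lin_A0 {i : Pos blk} {k : I} (hk : Nx blk i.1 k) {a b : I} (ha : blk a = blk i.1) (hai : a < i.1)
    (hb : blk b = blk i.1) (hkb : k < b) :
    Lin blk i.1 k 1 (om i) (Dm blk i.1 (pm (Equiv.swap a b))) (fun s => if s = (a, b) then 1 else 0) := by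
  have haS : a ∈ seg blk i.1 := G4_mem_seg.2 ⟨ha, hai.le⟩
  have hiS : i.1 ∈ seg blk i.1 := G4_mem_seg.2 ⟨rfl, le_rfl⟩
  -- the generic adjugate
  set A : Matrix {x // x ∈ seg blk i.1} {x // x ∈ seg blk i.1} (MvPolynomial (I × I) ℂ) :=
    (Matrix.of fun r c : {x // x ∈ seg blk i.1} =>
      ch blk i.1 k (X : I × I → MvPolynomial (I × I) ℂ) r.1 c.1).adjugate with hA
  -- its specialisations
  have hmap : ∀ (L : Type) [CommRing L] (f : MvPolynomial (I × I) ℂ →+* L) (r c : {x // x ∈ seg blk i.1}),
      f (A r c) = (Matrix.of fun r c : {x // x ∈ seg blk i.1} =>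
        ch blk i.1 k (fun s => f (X s)) r.1 c.1).adjugate r c := by
    intro L _ f r c
    have h := congrFun (congrFun (f.map_adjugate (Matrix.of fun r c : {x // x ∈ seg blk i.1} =>
      ch blk i.1 k (X : I × I → MvPolynomial (I × I) ℂ) r.1 c.1)) r) c
    have h' : f.mapMatrix (Matrix.of fun r c : {x // x ∈ seg blk i.1} =>
        ch blk i.1 k (X : I × I → MvPolynomial (I × I) ℂ) r.1 c.1) =
        Matrix.of fun r c : {x // x ∈ seg blk i.1} => ch blk i.1 k (fun s => f (X s)) r.1 c.1 := by
      ext x y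
      simp only [RingHom.mapMatrix_apply, Matrix.map_apply, Matrix.of_apply, ch]
      split_ifs <;> simp
    rw [h'] at h
    rw [← h]
    rfl
  have hmap0 : ∀ r c : {x // x ∈ seg blk i.1}, constantCoeff (A r c) = if r = c then 1 else 0 := by
    intro r c
    rw [hmap ℂ constantCoeff r c]
    have h' : (Matrix.of fun r c : {x // x ∈ seg blk i.1} =>
        ch blk i.1 k (fun s => constantCoeff (X s : MvPolynomial (I × I) ℂ)) r.1 c.1) = 1 := by
      ext x y
      simp only [Matrix.of_apply, ch, constantCoeff_X, ite_self, Matrix.one_apply, Subtype.ext_iff]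
    rw [h', Matrix.adjugate_one, Matrix.one_apply]
  have hai' : (⟨a, haS⟩ : {x // x ∈ seg blk i.1}) ≠ ⟨i.1, hiS⟩ := fun e => hai.ne (congrArg Subtype.val e)
  refine ⟨semi_Dm i _, fun s =>
    ∑ r : {x // x ∈ seg blk i.1}, (if s = (r.1, b) then Polynomial.C (A ⟨a, haS⟩ r) else 0) +
    (if s = (k, b) then Polynomial.X * Polynomial.C (A ⟨a, haS⟩ ⟨i.1, hiS⟩) else 0), ?_, ?_, ?_⟩
  · intro s
    refine (Polynomial.natDegree_add_le _ _).trans (max_le ?_ ?_)
    · refine Polynomial.natDegree_sum_le_of_forall_le _ _ fun r _ => ?_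
      split_ifs <;> simp
    · split_ifs
      · refine Polynomial.natDegree_mul_le.trans ?_
        simp
      · simp
  · intro s
    rw [Polynomial.map_add, Polynomial.map_sum]
    have e1 : ∀ r : {x // x ∈ seg blk i.1}, Polynomial.map constantCoeff (if s = (r.1, b) then
        Polynomial.C (A ⟨a, haS⟩ r) else 0) =
        if r = ⟨a, haS⟩ then (if s = (a, b) then 1 else 0) else 0 := by
      intro r
      by_cases hr : r = ⟨a, haS⟩
      · subst hr
        rw [if_pos rfl]
        split_ifs
        · rw [Polynomial.map_C, hmap0]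
          simp
        · simp
      · rw [if_neg hr]
        split_ifs
        · rw [Polynomial.map_C, hmap0, if_neg (Ne.symm hr)]
          simp
        · simp
    have e2 : Polynomial.map constantCoeff (if s = (k, b) then
        Polynomial.X * Polynomial.C (A ⟨a, haS⟩ ⟨i.1, hiS⟩) else 0) = 0 := by
      split_ifs
      · rw [Polynomial.map_mul, Polynomial.map_C, hmap0, if_neg hai']
        simp
      · simp
    simp only [e1, Finset.sum_ite_eq', Finset.mem_univ, if_true]
    rw [e2, add_zero]
  · intro L _ _ z t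
    rw [ev_Dm_pm, P2_value hk haS hiS hb hkb]
    have hz : (fun s => ((aeval z : MvPolynomial (I × I) ℂ →ₐ[ℂ] L) : MvPolynomial (I × I) ℂ →+* L) (X s)) = z := by
      funext s
      simp
    have hm : ∀ r c : {x // x ∈ seg blk i.1},
        ((aeval z : MvPolynomial (I × I) ℂ →ₐ[ℂ] L) : MvPolynomial (I × I) ℂ →+* L) (A r c) =
        (Matrix.of fun r c : {x // x ∈ seg blk i.1} => ch blk i.1 k z r.1 c.1).adjugate r c := by
      intro r c
      rw [hmap L _ r c, hz]
    simp only [Polynomial.eval₂_add, Polynomial.eval₂_finsetSum, add_mul, Finset.sum_add_distrib, Finset.sum_mul]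
    congr 1
    · rw [Finset.sum_comm]
      apply Finset.sum_congr rfl
      intro r _
      rw [Finset.sum_eq_single (r.1, b)]
      · rw [if_pos rfl, Polynomial.eval₂_C, hm]
      · intro s _ hs
        rw [if_neg hs]
        simp
      · intro h
        exact absurd (Finset.mem_univ _) h
    · rw [Finset.sum_eq_single (k, b)]
      · rw [if_pos rfl, Polynomial.eval₂_mul, Polynomial.eval₂_C, Polynomial.eval₂_X, hm]
      · intro s _ hs
        rw [if_neg hs]
        simp
      · intro h
        exact absurd (Finset.mem_univ _) h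

end

end Pool.Agent.MP_cfacaa_ag.Fl
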