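import Pool.Agent.Lib.MP_cfacaa_ag.Fl.G2b
import Pool.Agent.Lib.MP_cfacaa_ag.Fl.G4

/-! Row fq-P3: the minor with two replaced columns. -/

namespace Pool.Agent.MP_cfacaa_ag.Fl

open MvPolynomial

section

variable {I κ : Type} [Fintype I] [LinearOrder I] {blk : I → κ}

theorem P3_det2 {n R : Type} [Fintype n] [DecidableEq n] [CommRing R] (B M : Matrix n n R) (hB : B.det = 1)
    {a i : n} (hai : a ≠ i) (v u : n → R)
    (hM : ∀ r c, M r c = if c = i then u r else if c = a then v r else B r c) :
    M.det = (B.adjugate.mulVec v) a * (B.adjugate.mulVec u) i -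
      (B.adjugate.mulVec u) a * (B.adjugate.mulVec v) i := by
  obtain ⟨w, hw⟩ : ∃ w, w = B.adjugate.mulVec v := ⟨_, rfl⟩
  obtain ⟨w', hw'⟩ : ∃ w', w' = B.adjugate.mulVec u := ⟨_, rfl⟩
  rw [← hw, ← hw']
  have hBw : B.mulVec w = v := by
    rw [hw, Matrix.mulVec_mulVec, Matrix.mul_adjugate, hB, one_smul, Matrix.one_mulVec]
  have hBw' : B.mulVec w' = u := by
    rw [hw', Matrix.mulVec_mulVec, Matrix.mul_adjugate, hB, one_smul, Matrix.one_mulVec]
  obtain ⟨P, hP⟩ : ∃ P : Matrix n (Fin 2) R, P = Matrix.of fun r c =>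
      if c = 0 then w r - (if r = a then 1 else 0) else w' r - (if r = i then 1 else 0) := ⟨_, rfl⟩
  obtain ⟨Q, hQ⟩ : ∃ Q : Matrix (Fin 2) n R, Q = Matrix.of fun c r =>
      if c = 0 then (if r = a then 1 else 0) else (if r = i then 1 else 0) := ⟨_, rfl⟩
  have hP0 : ∀ r, P r 0 = w r - (if r = a then 1 else 0) := fun r => by
    rw [hP, Matrix.of_apply, if_pos rfl]
  have hP1 : ∀ r, P r 1 = w' r - (if r = i then 1 else 0) := fun r => by
    rw [hP, Matrix.of_apply, if_neg one_ne_zero]
  have hQ0 : ∀ r, Q 0 r = if r = a then 1 else 0 := fun r => by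
    rw [hQ, Matrix.of_apply, if_pos rfl]
  have hQ1 : ∀ r, Q 1 r = if r = i then 1 else 0 := fun r => by
    rw [hQ, Matrix.of_apply, if_neg one_ne_zero]
  have h1 : M = B * (1 + P * Q) := by
    ext r c
    have e0 : (B * P) r 0 = v r - B r a := by
      rw [Matrix.mul_apply, ← hBw]
      simp only [hP0, mul_sub, Finset.sum_sub_distrib, mul_ite, mul_one, mul_zero, Finset.sum_ite_eq',
        Finset.mem_univ, if_true]
      rfl
    have e1 : (B * P) r 1 = u r - B r i := by
      rw [Matrix.mul_apply, ← hBw']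
      simp only [hP1, mul_sub, Finset.sum_sub_distrib, mul_ite, mul_one, mul_zero, Finset.sum_ite_eq',
        Finset.mem_univ, if_true]
      rfl
    rw [hM, Matrix.mul_add, Matrix.mul_one, ← Matrix.mul_assoc, Matrix.add_apply, Matrix.mul_apply,
      Fin.sum_univ_two, e0, e1, hQ0, hQ1]
    by_cases hci : c = i
    · subst hci
      rw [if_pos rfl, if_neg hai.symm, if_pos rfl]
      ring
    · rw [if_neg hci, if_neg hci]
      by_cases hca : c = a
      · subst hca
        rw [if_pos rfl, if_pos rfl]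
        ring
      · rw [if_neg hca, if_neg hca]
        ring
  have h00 : (Q * P) 0 0 = w a - 1 := by
    rw [Matrix.mul_apply]
    simp only [hP0, hQ0, ite_mul, one_mul, zero_mul, Finset.sum_ite_eq', Finset.mem_univ, if_true]
  have h01 : (Q * P) 0 1 = w' a := by
    rw [Matrix.mul_apply]
    simp only [hP1, hQ0, ite_mul, one_mul, zero_mul, Finset.sum_ite_eq', Finset.mem_univ, if_true]
    rw [if_neg hai, sub_zero]
  have h10 : (Q * P) 1 0 = w i := by
    rw [Matrix.mul_apply]
    simp only [hP0, hQ1, ite_mul, one_mul, zero_mul, Finset.sum_ite_eq', Finset.mem_univ, if_true]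
    rw [if_neg hai.symm, sub_zero]
  have h11 : (Q * P) 1 1 = w' i - 1 := by
    rw [Matrix.mul_apply]
    simp only [hP1, hQ1, ite_mul, one_mul, zero_mul, Finset.sum_ite_eq', Finset.mem_univ, if_true]
  rw [h1, Matrix.det_mul, hB, one_mul, Matrix.det_one_add_mul_comm, Matrix.det_fin_two]
  simp only [Matrix.add_apply, h00, h01, h10, h11, Matrix.one_apply_eq, Matrix.one_apply_ne zero_ne_one,
    Matrix.one_apply_ne one_ne_zero]
  ring

/-- the last row of the adjugate -/
theorem P3_row {R : Type} [CommRing R] (i k : I) (hi : i ∈ seg blk i) (z : I × I → R) (w : {x // x ∈ seg blk i} → R) :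
    ((G2b_B blk i k i z).adjugate.mulVec w) ⟨i, hi⟩ = w ⟨i, hi⟩ := by
  have hdet : (G2b_B blk i k i z).det = 1 := G4_det i k z
  have h1 : ∀ r, (G2b_B blk i k i z).adjugate ⟨i, hi⟩ r = if ⟨i, hi⟩ = r then 1 else 0 := by
    intro r
    have h3 := congrFun (congrFun (Matrix.mul_adjugate (G2b_B blk i k i z)) ⟨i, hi⟩) r
    rw [hdet, one_smul, Matrix.one_apply, Matrix.mul_apply, Finset.sum_eq_single (⟨i, hi⟩ : {x // x ∈ seg blk i})] at h3
    · have h4 : G2b_B blk i k i z ⟨i, hi⟩ ⟨i, hi⟩ = 1 := G1_diag i k z i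
      rw [h4, one_mul] at h3
      exact h3
    · intro c _ hc
      have h5 : c.1 < i := lt_of_le_of_ne (G4_mem_seg.1 c.2).2 fun e => hc (Subtype.ext e)
      have h4 : G2b_B blk i k i z ⟨i, hi⟩ c = 0 := ch_lower i k z h5
      rw [h4, zero_mul]
    · intro h
      exact absurd (Finset.mem_univ _) h
  show ∑ r, (G2b_B blk i k i z).adjugate ⟨i, hi⟩ r * w r = w ⟨i, hi⟩
  simp only [h1, ite_mul, one_mul, zero_mul, Finset.sum_ite_eq, Finset.mem_univ, if_true]

/-- the value of the minor -/
theorem P3_value {R : Type} [CommRing R] {i k : I} (hk : Nx blk i k) {a b : I} (ha : a ∈ seg blk i)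
    (hi : i ∈ seg blk i) (hai : a < i) (hb : blk b = blk i) (hkb : k < b) (z : I × I → R) (t : R) :
    (Matrix.of fun r c : {x // x ∈ seg blk i} => up i k t (ch blk i k z) r.1
      ((fun x => if x = i then k else if x = a then b else x) c.1)).det =
      t * (∑ r : {x // x ∈ seg blk i}, if r.1 < i then (G2b_B blk i k i z).adjugate ⟨a, ha⟩ r * z (r.1, b) else 0) -
      (z (i, b) + t * z (k, b)) *
        ∑ r : {x // x ∈ seg blk i}, if r.1 < i then (G2b_B blk i k i z).adjugate ⟨a, ha⟩ r * z (r.1, k) else 0 := by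
  have hib : i < b := hk.lt.trans hkb
  have hne : (⟨a, ha⟩ : {x // x ∈ seg blk i}) ≠ ⟨i, hi⟩ := fun e => hai.ne (congrArg Subtype.val e)
  have hM : ∀ r c : {x // x ∈ seg blk i}, (Matrix.of fun r c : {x // x ∈ seg blk i} =>
      up i k t (ch blk i k z) r.1 ((fun x => if x = i then k else if x = a then b else x) c.1)) r c =
      if c = ⟨i, hi⟩ then up i k t (ch blk i k z) r.1 k else
        if c = ⟨a, ha⟩ then up i k t (ch blk i k z) r.1 b else G2b_B blk i k i z r c := by
    intro r c
    rw [Matrix.of_apply]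
    by_cases hci : c = ⟨i, hi⟩
    · subst hci
      simp only [if_true]
    · have hci' : c.1 ≠ i := fun e => hci (Subtype.ext e)
      by_cases hca : c = ⟨a, ha⟩
      · subst hca
        simp only [hai.ne, if_false, if_true, hne]
      · have hca' : c.1 ≠ a := fun e => hca (Subtype.ext e)
        simp only [hci, hca, hci', hca', if_false]
        show up i k t (ch blk i k z) r.1 c.1 = ch blk i k z r.1 c.1
        unfold up
        by_cases hr : r.1 = i
        · have h1 : c.1 < k := lt_of_le_of_lt (G4_mem_seg.1 c.2).2 hk.lt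
          rw [if_pos hr, ch_lower i k z h1, mul_zero, add_zero, hr]
        · rw [if_neg hr]
  rw [P3_det2 (G2b_B blk i k i z) _ (G4_det i k z) hne (fun r => up i k t (ch blk i k z) r.1 b)
    (fun r => up i k t (ch blk i k z) r.1 k) hM, P3_row, P3_row]
  have hvi : up i k t (ch blk i k z) i b = z (i, b) + t * z (k, b) := by
    unfold up
    rw [if_pos rfl]
    unfold ch
    rw [if_neg hib.ne, if_pos ⟨hb.symm, hib, fun h => hkb.ne' h.2⟩, if_neg hkb.ne,
      if_pos ⟨hk.eq.trans hb.symm, hkb, fun h => hk.lt.ne' h.1⟩]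
  have hui : up i k t (ch blk i k z) i k = t := by
    unfold up
    rw [if_pos rfl, G1_diag, mul_one]
    unfold ch
    rw [if_neg hk.lt.ne, if_neg (fun h => h.2.2 ⟨rfl, rfl⟩), zero_add]
  have hv : ∀ r : {x // x ∈ seg blk i}, r.1 < i → up i k t (ch blk i k z) r.1 b = z (r.1, b) := by
    intro r hr
    have h1 := G4_mem_seg.1 r.2
    unfold up
    rw [if_neg hr.ne]
    unfold ch
    rw [if_neg (hr.trans hib).ne, if_pos ⟨h1.1.trans hb.symm, hr.trans hib, fun h => hr.ne h.1⟩]
  have hu : ∀ r : {x // x ∈ seg blk i}, r.1 < i → up i k t (ch blk i k z) r.1 k = z (r.1, k) := by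
    intro r hr
    have h1 := G4_mem_seg.1 r.2
    unfold up
    rw [if_neg hr.ne]
    unfold ch
    rw [if_neg (hr.trans hk.lt).ne, if_pos ⟨h1.1.trans hk.eq.symm, hr.trans hk.lt, fun h => hr.ne h.1⟩]
  have key : ∀ (w : {x // x ∈ seg blk i} → R) (y : {x // x ∈ seg blk i} → R) (_ : ∀ r, r.1 < i → w r = y r),
      ((G2b_B blk i k i z).adjugate.mulVec w) ⟨a, ha⟩ =
        (∑ r : {x // x ∈ seg blk i}, if r.1 < i then (G2b_B blk i k i z).adjugate ⟨a, ha⟩ r * y r else 0) +
        (G2b_B blk i k i z).adjugate ⟨a, ha⟩ ⟨i, hi⟩ * w ⟨i, hi⟩ := by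
    intro w y hwy
    show ∑ r, (G2b_B blk i k i z).adjugate ⟨a, ha⟩ r * w r = _
    have e1 : ∀ r : {x // x ∈ seg blk i}, (G2b_B blk i k i z).adjugate ⟨a, ha⟩ r * w r =
        (if r.1 < i then (G2b_B blk i k i z).adjugate ⟨a, ha⟩ r * y r else 0) +
        (if r = ⟨i, hi⟩ then (G2b_B blk i k i z).adjugate ⟨a, ha⟩ r * w r else 0) := by
      intro r
      by_cases hr : r = ⟨i, hi⟩
      · subst hr
        rw [if_neg (lt_irrefl _), if_pos rfl, zero_add]
      · have hri : r.1 < i := lt_of_le_of_ne (G4_mem_seg.1 r.2).2 fun e => hr (Subtype.ext e)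
        rw [if_pos hri, if_neg hr, add_zero, hwy r hri]
    rw [Finset.sum_congr rfl fun r _ => e1 r, Finset.sum_add_distrib, Finset.sum_ite_eq',
      if_pos (Finset.mem_univ _)]
  rw [key _ (fun r => z (r.1, b)) hv, key _ (fun r => z (r.1, k)) hu, hvi, hui]
  ring

open Classical in
/-- the polynomials `U s` -/
noncomputable def P3_U (blk : I → κ) (i k : I) {a : I} (b : I) (ha : a ∈ seg blk i) (s : I × I) :
    Polynomial (MvPolynomial (I × I) ℂ) :=
  (∑ r : {x // x ∈ seg blk i}, if s = (r.1, b) then (if r.1 < i then Polynomial.X *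
    Polynomial.C ((G2b_B blk i k i (fun p => (X p : MvPolynomial (I × I) ℂ))).adjugate ⟨a, ha⟩ r) else 0) else 0) -
  (if s = (i, b) then Polynomial.C (∑ r : {x // x ∈ seg blk i}, if r.1 < i then
    (G2b_B blk i k i (fun p => (X p : MvPolynomial (I × I) ℂ))).adjugate ⟨a, ha⟩ r * X (r.1, k) else 0) else 0) -
  (if s = (k, b) then Polynomial.X * Polynomial.C (∑ r : {x // x ∈ seg blk i}, if r.1 < i then
    (G2b_B blk i k i (fun p => (X p : MvPolynomial (I × I) ℂ))).adjugate ⟨a, ha⟩ r * X (r.1, k) else 0) else 0)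

/-- Columns of the minor (rows and columns `seg blk i`): the column `i` is replaced by `k`, the column `a < i` by `b > k`, the others are not changed. Let `A = up i k t (ch z)`. Entries: column `i`: `u r = z (r, k)` for `r < i`, `u i = t` (`ch z i k = 0`, `ch z k k = 1`); column `a`:
`v r = z (r, b)` for `r < i`, `v i = z (i, b) + t z (k, b)`; the other columns `c < i`: `ch z r c` for `r < i` and `0` in the row `i`. The row `i` (the last one) has the only nonzero entries `v i` at `a` and `t` at `i`. Let `B'` be `ch z` restricted to the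
indices `< i` of the block (`det B' = 1`), `N w = ∑ r < i, adj(B') a r * w r` the determinant of `B'` with the column `a` replaced by `w`. Then the minor is `t * N (z (·, b)) - (z (i, b) + t z (k, b)) * N (z (·, k))` (expansion along the row `i`, or: it is `det (M)` for
`M = [[B' with column a replaced by v, u]; [v i at a, t]]`; linear in the last row: the part `t` at the corner gives `t * N v`; the part `v i` at `a` gives, after exchanging the columns `a` and `i`, `- v i * N u`). (Alternative without an expansion: Cramer's rule for the matrix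
`B''` = `ch z` on `seg blk i` with the column `i` replaced by `u`; then the cofactors are needed.) So `U (r, b) = X * C (adj(B'(X)) a r)` for `r < i`, `U (i, b) = - C (N (X (·, k)))`, `U (k, b) = - X * C (N (X (·, k)))`, `U s = 0` otherwise. At `z = 0`: `adj(1) = 1` and `N (0) = 0`, so
`J (a, b) = X` and `0` otherwise. -/
theorem lin_A1 {i : Pos blk} {k : I} (hk : Nx blk i.1 k) {a b : I} (ha : blk a = blk i.1) (hai : a < i.1)
    (hb : blk b = blk i.1) (hkb : k < b) :
    Lin blk i.1 k 1 (om i) (Dm blk i.1 (pm fun x => if x = i.1 then k else if x = a then b else x))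
      (fun s => if s = (a, b) then Polynomial.X else 0) := by
  have haS : a ∈ seg blk i.1 := G4_mem_seg.2 ⟨ha, hai.le⟩
  have hiS : i.1 ∈ seg blk i.1 := G4_mem_seg.2 ⟨rfl, le_rfl⟩
  refine ⟨semi_Dm i _, P3_U blk i.1 k b haS, ?_, ?_, ?_⟩
  · intro s
    unfold P3_U
    refine (Polynomial.natDegree_sub_le _ _).trans (max_le ((Polynomial.natDegree_sub_le _ _).trans (max_le ?_ ?_)) ?_)
    · refine Polynomial.natDegree_sum_le_of_forall_le _ _ fun r _ => ?_
      split_ifs
      · refine Polynomial.natDegree_mul_le.trans ?_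
        rw [Polynomial.natDegree_C, Polynomial.natDegree_X]
      · simp
      · simp
    · split_ifs
      · rw [Polynomial.natDegree_C]
        exact Nat.zero_le _
      · simp
    · split_ifs
      · refine Polynomial.natDegree_mul_le.trans ?_
        rw [Polynomial.natDegree_C, Polynomial.natDegree_X]
      · simp
  · intro s
    have h1 : (fun p : I × I => (constantCoeff : MvPolynomial (I × I) ℂ →+* ℂ) (X p)) = fun _ => (0 : ℂ) := by
      funext p
      exact constantCoeff_X ℂ p
    have hN : constantCoeff (∑ r : {x // x ∈ seg blk i.1}, if r.1 < i.1 then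
        (G2b_B blk i.1 k i.1 (fun p => (X p : MvPolynomial (I × I) ℂ))).adjugate ⟨a, haS⟩ r * X (r.1, k) else 0) = 0 := by
      rw [map_sum]
      refine Finset.sum_eq_zero fun r _ => ?_
      split_ifs
      · rw [map_mul, constantCoeff_X, mul_zero]
      · exact map_zero _
    have hA : ∀ r : {x // x ∈ seg blk i.1}, constantCoeff
        ((G2b_B blk i.1 k i.1 (fun p => (X p : MvPolynomial (I × I) ℂ))).adjugate ⟨a, haS⟩ r) =
        if ⟨a, haS⟩ = r then 1 else 0 := by
      intro r
      rw [G2b_adj, h1, G2b_zero, Matrix.adjugate_one, Matrix.one_apply]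
    show (P3_U blk i.1 k b haS s).map constantCoeff = if s = (a, b) then Polynomial.X else 0
    unfold P3_U
    rw [Polynomial.map_sub, Polynomial.map_sub, Polynomial.map_sum]
    have e1 : ∀ r : {x // x ∈ seg blk i.1}, Polynomial.map constantCoeff (if s = (r.1, b) then (if r.1 < i.1 then
        Polynomial.X * Polynomial.C ((G2b_B blk i.1 k i.1 (fun p => (X p : MvPolynomial (I × I) ℂ))).adjugate
          ⟨a, haS⟩ r) else 0) else 0) =
        if r = ⟨a, haS⟩ then (if s = (a, b) then Polynomial.X else 0) else 0 := by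
      intro r
      by_cases hr : r = ⟨a, haS⟩
      · subst hr
        simp only [hai, if_true]
        split_ifs
        · rw [Polynomial.map_mul, Polynomial.map_C, hA, if_pos rfl, Polynomial.map_X, Polynomial.C_1, mul_one]
        · simp
      · rw [if_neg hr]
        split_ifs
        · rw [Polynomial.map_mul, Polynomial.map_C, hA, if_neg (Ne.symm hr), Polynomial.C_0, mul_zero]
        · simp
        · simp
    rw [Finset.sum_congr rfl fun r _ => e1 r, Finset.sum_ite_eq', if_pos (Finset.mem_univ _)]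
    have e2 : Polynomial.map (constantCoeff : MvPolynomial (I × I) ℂ →+* ℂ) (if s = (i.1, b) then
        Polynomial.C (∑ r : {x // x ∈ seg blk i.1}, if r.1 < i.1 then
          (G2b_B blk i.1 k i.1 (fun p => (X p : MvPolynomial (I × I) ℂ))).adjugate ⟨a, haS⟩ r * X (r.1, k) else 0)
        else 0) = 0 := by
      split_ifs
      · rw [Polynomial.map_C, hN, Polynomial.C_0]
      · exact Polynomial.map_zero _
    have e3 : Polynomial.map (constantCoeff : MvPolynomial (I × I) ℂ →+* ℂ) (if s = (k, b) then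
        Polynomial.X * Polynomial.C (∑ r : {x // x ∈ seg blk i.1}, if r.1 < i.1 then
          (G2b_B blk i.1 k i.1 (fun p => (X p : MvPolynomial (I × I) ℂ))).adjugate ⟨a, haS⟩ r * X (r.1, k) else 0)
        else 0) = 0 := by
      split_ifs
      · rw [Polynomial.map_mul, Polynomial.map_C, hN, Polynomial.C_0, mul_zero]
      · exact Polynomial.map_zero _
    rw [e2, e3, sub_zero, sub_zero]
  · intro L _ _ z t
    rw [ev_Dm_pm, P3_value hk haS hiS hai hb hkb z t]
    have hz : (fun s => ((aeval z : MvPolynomial (I × I) ℂ →ₐ[ℂ] L) : MvPolynomial (I × I) ℂ →+* L) (X s)) = z := by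
      funext s
      simp
    obtain ⟨φ, hφ⟩ : ∃ φ : MvPolynomial (I × I) ℂ →+* L,
      φ = ((aeval z : MvPolynomial (I × I) ℂ →ₐ[ℂ] L) : MvPolynomial (I × I) ℂ →+* L) := ⟨_, rfl⟩
    rw [← hφ] at hz ⊢
    have hX : ∀ s, φ (X s) = z s := fun s => congrFun hz s
    have hm : ∀ r : {x // x ∈ seg blk i.1},
        φ ((G2b_B blk i.1 k i.1 (fun p => (X p : MvPolynomial (I × I) ℂ))).adjugate ⟨a, haS⟩ r) =
        (G2b_B blk i.1 k i.1 z).adjugate ⟨a, haS⟩ r := by
      intro r
      rw [G2b_adj, hz]
    have hN : φ (∑ r : {x // x ∈ seg blk i.1}, if r.1 < i.1 then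
        (G2b_B blk i.1 k i.1 (fun p => (X p : MvPolynomial (I × I) ℂ))).adjugate ⟨a, haS⟩ r * X (r.1, k) else 0) =
        ∑ r : {x // x ∈ seg blk i.1}, if r.1 < i.1 then
          (G2b_B blk i.1 k i.1 z).adjugate ⟨a, haS⟩ r * z (r.1, k) else 0 := by
      rw [map_sum]
      refine Finset.sum_congr rfl fun r _ => ?_
      split_ifs
      · rw [map_mul, hm, hX]
      · exact map_zero _
    unfold P3_U
    simp only [Polynomial.eval₂_sub, Polynomial.eval₂_finsetSum, sub_mul, Finset.sum_sub_distrib, Finset.sum_mul]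
    have s1 : ∑ s : I × I, ∑ r : {x // x ∈ seg blk i.1}, Polynomial.eval₂ φ t (if s = (r.1, b) then
        (if r.1 < i.1 then Polynomial.X * Polynomial.C
          ((G2b_B blk i.1 k i.1 (fun p => (X p : MvPolynomial (I × I) ℂ))).adjugate ⟨a, haS⟩ r) else 0) else 0) * z s =
        t * ∑ r : {x // x ∈ seg blk i.1}, if r.1 < i.1 then
          (G2b_B blk i.1 k i.1 z).adjugate ⟨a, haS⟩ r * z (r.1, b) else 0 := by
      rw [Finset.sum_comm, Finset.mul_sum]
      refine Finset.sum_congr rfl fun r _ => ?_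
      rw [Finset.sum_eq_single (r.1, b)]
      · rw [if_pos rfl]
        split_ifs
        · rw [Polynomial.eval₂_mul, Polynomial.eval₂_C, Polynomial.eval₂_X, hm]
          ring
        · simp
      · intro s _ hs
        rw [if_neg hs]
        simp
      · intro h
        exact absurd (Finset.mem_univ _) h
    have s2 : ∑ s : I × I, Polynomial.eval₂ φ t (if s = (i.1, b) then
        Polynomial.C (∑ r : {x // x ∈ seg blk i.1}, if r.1 < i.1 then
          (G2b_B blk i.1 k i.1 (fun p => (X p : MvPolynomial (I × I) ℂ))).adjugate ⟨a, haS⟩ r * X (r.1, k) else 0)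
        else 0) * z s = (∑ r : {x // x ∈ seg blk i.1}, if r.1 < i.1 then
          (G2b_B blk i.1 k i.1 z).adjugate ⟨a, haS⟩ r * z (r.1, k) else 0) * z (i.1, b) := by
      rw [Finset.sum_eq_single (i.1, b)]
      · rw [if_pos rfl, Polynomial.eval₂_C, hN]
      · intro s _ hs
        rw [if_neg hs]
        simp
      · intro h
        exact absurd (Finset.mem_univ _) h
    have s3 : ∑ s : I × I, Polynomial.eval₂ φ t (if s = (k, b) then
        Polynomial.X * Polynomial.C (∑ r : {x // x ∈ seg blk i.1}, if r.1 < i.1 then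
          (G2b_B blk i.1 k i.1 (fun p => (X p : MvPolynomial (I × I) ℂ))).adjugate ⟨a, haS⟩ r * X (r.1, k) else 0)
        else 0) * z s = t * (∑ r : {x // x ∈ seg blk i.1}, if r.1 < i.1 then
          (G2b_B blk i.1 k i.1 z).adjugate ⟨a, haS⟩ r * z (r.1, k) else 0) * z (k, b) := by
      rw [Finset.sum_eq_single (k, b)]
      · rw [if_pos rfl, Polynomial.eval₂_mul, Polynomial.eval₂_C, Polynomial.eval₂_X, hN]
      · intro s _ hs
        rw [if_neg hs]
        simp
      · intro h
        exact absurd (Finset.mem_univ _) h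
    rw [s1, s2, s3]
    ring

end

end Pool.Agent.MP_cfacaa_ag.Fl
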