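import Pool.Agent.Lib.MP_cfacaa_ag.Fl.Defs

/-!
Partial flag varieties: dimensions, indices; slots.
-/

namespace Pool.Agent.MP_cfacaa_ag.Fl

open Polynomial

section

variable {I κ : Type} [Fintype I] [LinearOrder I]

/-- `s = (i, b)` or `(k, b)` with `b > k`. -/
def isRow (blk : I → κ) (i k : I) (s : I × I) : Prop := blk s.2 = blk i ∧ k < s.2 ∧ (s.1 = i ∨ s.1 = k)

/-- `s = (a, k)` or `(a, i)` with `a < i`. -/
def isCol (blk : I → κ) (i k : I) (s : I × I) : Prop := blk s.1 = blk i ∧ s.1 < i ∧ (s.2 = k ∨ s.2 = i)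

open Classical in
/-- The pair of `s`: the roots `(i, b)`, `(k, b)` form the row pair `b`, the roots `(a, k)`, `(a, i)` the column pair `a`. -/
noncomputable def pk (blk : I → κ) (i k : I) (s : I × I) : Option (Bool × I) :=
  if isRow blk i k s then some (true, s.2) else if isCol blk i k s then some (false, s.1) else none

/-- `s` is free for the weight `e`. -/
def Fr (blk : I → κ) (i : Pos blk) (k : I) (e : Pos blk → ℕ) (s : I × I) : Prop :=
  (∃ j : Pos blk, j ≠ i ∧ e j ≠ 0 ∧ blk s.1 = blk j.1 ∧ blk s.2 = blk j.1 ∧ s.1 ≤ j.1 ∧ j.1 < s.2) ∨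
  (e i ≠ 0 ∧ blk s.1 = blk i.1 ∧ blk s.2 = blk i.1 ∧ s.1 < i.1 ∧ k < s.2)

open Classical in
/-- The functional of the slot at `s` with the parameter `t`: `x (i, b) + t x (k, b)` for the row pair `b`, `x (a, k) - t x (a, i)` for the column
pair `a`, `x s` otherwise (its coefficient at `u`). -/
noncomputable def ow (blk : I → κ) (i k : I) (s : I × I) (t : ℂ) (u : I × I) : ℂ :=
  if isRow blk i k s then (if u = (i, s.2) then 1 else if u = (k, s.2) then t else 0)
  else if isCol blk i k s then (if u = (s.1, k) then 1 else if u = (s.1, i) then -t else 0)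
  else if u = s then 1 else 0

open Classical in
/-- The linear parts which can be realised. -/
noncomputable def JJ (blk : I → κ) (i k : I) (f : I × I → ℂ[X]) (p q : I → ℂ[X]) (s : I × I) : ℂ[X] :=
  f s + (if isRow blk i k s then (if s.1 = i then p s.2 else X * p s.2) else 0) +
    (if isCol blk i k s then (if s.2 = k then q s.1 else -(X * q s.1)) else 0)

end

/-- Abstract slots: the equation `v` has the slots `(v, m)`, `m ≤ n v`; `pk` the pair of a root (row pair: `true`). -/
structure Ctx (V R X : Type) where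
  /-- number of slots minus one -/
  n : V → ℕ
  /-- free roots -/
  Fr : V → R → Prop
  /-- the pair of a root -/
  pk : R → Option (Bool × X)
  /-- the orders of the row pairs and of the column pairs -/
  le : Bool → X → X → Prop
  /-- the other root of the pair -/
  mate : R → R
  total : ∀ τ x y, le τ x y ∨ le τ y x
  mate_ne : ∀ s c, pk s = some c → mate s ≠ s
  pk_mate : ∀ s c, pk s = some c → pk (mate s) = some c
  pk_eq : ∀ s s' c, pk s = some c → pk s' = some c → s' = s ∨ s' = mate s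
  mono : ∀ v s s' τ x y, pk s = some (τ, x) → pk s' = some (τ, y) → le τ x y → Fr v s → Fr v s'
  cross : ∀ s s' x y, pk s = some (true, x) → pk s' = some (false, y) →
    ∃ r, pk r = none ∧ (∀ v, n v ≠ 0 → Fr v r) ∧ ∀ v, n v = 0 → Fr v r → Fr v s ∨ Fr v s'

/-- An admissible assignment of roots to the slots. -/
def Valid {V R X : Type} (Γ : Ctx V R X) (φ : (Σ v, Fin (Γ.n v + 1)) → R) : Prop :=
  Function.Injective φ ∧ ∀ σ, Γ.Fr σ.1 (φ σ) ∨ (Γ.n σ.1 ≠ 0 ∧ (Γ.pk (φ σ)).isSome)

/-- `v` has a slot at a free root or two slots in the same pair (or `n v = 0`). -/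
def GoodAt {V R X : Type} (Γ : Ctx V R X) (φ : (Σ v, Fin (Γ.n v + 1)) → R) (v : V) : Prop :=
  Γ.n v = 0 ∨ (∃ m, Γ.Fr v (φ ⟨v, m⟩)) ∨
    ∃ m m', m ≠ m' ∧ Γ.pk (φ ⟨v, m⟩) = Γ.pk (φ ⟨v, m'⟩) ∧ (Γ.pk (φ ⟨v, m⟩)).isSome

end Pool.Agent.MP_cfacaa_ag.Fl
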