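import Pool.Agent.Lib.MP_cfacaa_ag.Fl.P1
import Pool.Agent.Lib.MP_cfacaa_ag.Fl.P2
import Pool.Agent.Lib.MP_cfacaa_ag.Fl.P3
import Pool.Agent.Lib.MP_cfacaa_ag.Fl.PDefs

/-! Row fq-P4: monomial linear parts. -/

namespace Pool.Agent.MP_cfacaa_ag.Fl

open MvPolynomial

section

variable {I κ : Type} [Fintype I] [LinearOrder I] {blk : I → κ}

omit [Fintype I] in
theorem P4_om_self (i : Pos blk) : om i i = 1 := by
  simp only [om, if_true]

omit [Fintype I] in
theorem P4_om_ne {i j : Pos blk} (h : j ≠ i) : om i j = 0 := by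
  simp only [om, if_neg h]

theorem P4_pow {i : Pos blk} {k : I} (hk : Nx blk i.1 k) {n₀ : ℕ} {e₀ : Pos blk → ℕ}
    {F : MvPolynomial (I × I) ℂ} {J : I × I → Polynomial ℂ} (h : Lin blk i.1 k n₀ e₀ F J) (r : ℕ) :
    ∃ F', Lin blk i.1 k (n₀ + r) (fun j => e₀ j + r * om i j) F' (fun s => Polynomial.X ^ r * J s) := by
  induction r with
  | zero =>
    refine ⟨F, ?_⟩
    have h1 : (fun j => e₀ j + 0 * om i j) = e₀ := by
      funext j
      rw [Nat.zero_mul, Nat.add_zero]
    have h2 : (fun s => Polynomial.X ^ 0 * J s) = J := by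
      funext s
      rw [pow_zero, one_mul]
    rw [h1, h2]
    exact h
  | succ r ih =>
    obtain ⟨F', hF'⟩ := ih
    have h3 := Lin.mul_T hk hF'
    have h1 : ((fun j => e₀ j + r * om i j) + om i : Pos blk → ℕ) = fun j => e₀ j + (r + 1) * om i j := by
      funext j
      show e₀ j + r * om i j + om i j = e₀ j + (r + 1) * om i j
      ring
    have h2 : (fun s => Polynomial.X * (Polynomial.X ^ r * J s)) = fun s => Polynomial.X ^ (r + 1) * J s := by
      funext s
      rw [pow_succ', mul_assoc]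
    rw [h1, h2] at h3
    exact ⟨_, h3⟩

omit [Fintype I] in
theorem P4_he {i : Pos blk} {e : Pos blk → ℕ} {r : ℕ} (hr : r + 1 ≤ e i) (j : Pos blk) :
    om i j + r * om i j ≤ e j := by
  by_cases hj : j = i
  · subst hj
    rw [P4_om_self]
    omega
  · rw [P4_om_ne hj]
    omega

/-- From `Lin (n₀) e₀ F J`: multiply `r` times by the minor with the value `t` (`Lin.mul_T`) and `q` times by the one with the value `1` (`Lin.mul_one`), `Lin.mono`, `Lin.compl`. -/
theorem Lin.pow {i : Pos blk} {k : I} (hk : Nx blk i.1 k) {n₀ n r : ℕ} {e₀ e : Pos blk → ℕ}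
    {F : MvPolynomial (I × I) ℂ} {J : I × I → Polynomial ℂ} (h : Lin blk i.1 k n₀ e₀ F J) (hn : n₀ + r ≤ n)
    (he : ∀ j, e₀ j + r * om i j ≤ e j) : ∃ F', Lin blk i.1 k n e F' (fun s => Polynomial.X ^ r * J s) := by
  obtain ⟨F', hF'⟩ := P4_pow hk h r
  exact Lin.compl hk (hF'.mono hn) e he

/-- `Lin.pow` and `lin_R`. -/
theorem lin_row_pow {i : Pos blk} {k : I} (hk : Nx blk i.1 k) {e : Pos blk → ℕ} {b : I} (hb : blk b = blk i.1)
    (hkb : k < b) {r : ℕ} (hr : r + 1 ≤ e i) : ∃ F, Lin blk i.1 k (e i) e F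
      (fun s => if s = (i.1, b) then Polynomial.X ^ r else if s = (k, b) then Polynomial.X ^ (r + 1) else 0) := by
  obtain ⟨F, hF⟩ := Lin.pow (r := r) hk (lin_R hk hb hkb) (show 1 + r ≤ e i by omega) (P4_he hr)
  refine ⟨F, ?_⟩
  have h2 : (fun s : I × I => (Polynomial.X : Polynomial ℂ) ^ r *
      (if s = (i.1, b) then 1 else if s = (k, b) then Polynomial.X else 0)) =
      fun s => if s = (i.1, b) then Polynomial.X ^ r else if s = (k, b) then Polynomial.X ^ (r + 1) else 0 := by
    funext s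
    by_cases h1 : s = (i.1, b)
    · rw [if_pos h1, if_pos h1, mul_one]
    · rw [if_neg h1, if_neg h1]
      by_cases h3 : s = (k, b)
      · rw [if_pos h3, if_pos h3, pow_succ]
      · rw [if_neg h3, if_neg h3, mul_zero]
  rw [h2] at hF
  exact hF

/-- `Lin.pow` and `lin_C`. -/
theorem lin_col_pow {i : Pos blk} {k : I} (hk : Nx blk i.1 k) {e : Pos blk → ℕ} {a : I} (ha : blk a = blk i.1)
    (hai : a < i.1) {r : ℕ} (hr : r + 1 ≤ e i) : ∃ F, Lin blk i.1 k (e i) e F
      (fun s => if s = (a, k) then Polynomial.X ^ r else if s = (a, i.1) then -Polynomial.X ^ (r + 1) else 0) := by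
  obtain ⟨F, hF⟩ := Lin.pow (r := r) hk (lin_C hk ha hai) (show 1 + r ≤ e i by omega) (P4_he hr)
  refine ⟨F, ?_⟩
  have h2 : (fun s : I × I => (Polynomial.X : Polynomial ℂ) ^ r *
      (if s = (a, k) then 1 else if s = (a, i.1) then -Polynomial.X else 0)) =
      fun s => if s = (a, k) then Polynomial.X ^ r else if s = (a, i.1) then -Polynomial.X ^ (r + 1) else 0 := by
    funext s
    by_cases h1 : s = (a, k)
    · rw [if_pos h1, if_pos h1, mul_one]
    · rw [if_neg h1, if_neg h1]
      by_cases h3 : s = (a, i.1)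
      · rw [if_pos h3, if_pos h3, mul_neg, pow_succ]
      · rw [if_neg h3, if_neg h3, mul_zero]
  rw [h2] at hF
  exact hF

/-- First case of `Fr`: `lin_D` (`n₀ = 0`, weight `om j`, `j ≠ i`; `pm (swap s₀.1 s₀.2)`) and `Lin.pow`. Second case: for `r < e i` `lin_A0` and `Lin.pow`, for `r = e i` `lin_A1` and `Lin.pow` with `r - 1`. -/
theorem lin_free_pow {i : Pos blk} {k : I} (hk : Nx blk i.1 k) {e : Pos blk → ℕ} {s₀ : I × I}
    (hs : Fr blk i k e s₀) {r : ℕ} (hr : r ≤ e i) : ∃ F, Lin blk i.1 k (e i) e F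
      (fun s => if s = s₀ then Polynomial.X ^ r else 0) := by
  have key : ∀ q : ℕ, (fun s : I × I => (Polynomial.X : Polynomial ℂ) ^ q * (if s = s₀ then 1 else 0)) =
      fun s => if s = s₀ then Polynomial.X ^ q else 0 := by
    intro q
    funext s
    by_cases h1 : s = s₀
    · rw [if_pos h1, if_pos h1, mul_one]
    · rw [if_neg h1, if_neg h1, mul_zero]
  obtain ⟨a, b⟩ := s₀
  rcases hs with ⟨j, hj, hej, ha, hb, haj, hjb⟩ | ⟨hei, ha, hb, hai, hkb⟩
  · have hD := lin_D hk j (fun h => hj (Subtype.ext h)) ha haj hb hjb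
    have he : ∀ l, om j l + r * om i l ≤ e l := by
      intro l
      by_cases hl : l = j
      · subst hl
        rw [P4_om_self, P4_om_ne hj]
        omega
      · rw [P4_om_ne hl]
        by_cases hl' : l = i
        · subst hl'
          rw [P4_om_self]
          omega
        · rw [P4_om_ne hl']
          omega
    obtain ⟨F, hF⟩ := Lin.pow (r := r) hk hD (show 0 + r ≤ e i by omega) he
    refine ⟨F, ?_⟩
    have hF' := hF
    simp only at hF'
    rw [key r] at hF'
    exact hF'
  · by_cases hr' : r < e i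
    · obtain ⟨F, hF⟩ := Lin.pow (r := r) hk (lin_A0 hk ha hai hb hkb) (show 1 + r ≤ e i by omega) (P4_he hr')
      refine ⟨F, ?_⟩
      have hF' := hF
      simp only at hF'
      rw [key r] at hF'
      exact hF'
    · have h1 : 1 ≤ r := by omega
      obtain ⟨q, rfl⟩ : ∃ q, r = q + 1 := ⟨r - 1, by omega⟩
      obtain ⟨F, hF⟩ := Lin.pow (r := q) hk (lin_A1 hk ha hai hb hkb) (show 1 + q ≤ e i by omega) (P4_he hr)
      refine ⟨F, ?_⟩
      have h2 : (fun s : I × I => (Polynomial.X : Polynomial ℂ) ^ q * (if s = (a, b) then Polynomial.X else 0)) =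
          fun s => if s = (a, b) then Polynomial.X ^ (q + 1) else 0 := by
        funext s
        by_cases h3 : s = (a, b)
        · rw [if_pos h3, if_pos h3, pow_succ]
        · rw [if_neg h3, if_neg h3, mul_zero]
      have hF' := hF
      simp only at hF'
      rw [h2] at hF'
      exact hF'

end

end Pool.Agent.MP_cfacaa_ag.Fl
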