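import Pool.Agent.Lib.MP_cfacaa_ag.Fl.P4

/-! Row fq-P5: realisation of linear parts. -/

namespace Pool.Agent.MP_cfacaa_ag.Fl

open MvPolynomial

section

variable {I κ : Type} [Fintype I] [LinearOrder I] {blk : I → κ}

theorem P5_smul {i k : I} {n : ℕ} {e : Pos blk → ℕ} {J : I × I → Polynomial ℂ} (c : ℂ)
    (h : ∃ F, Lin blk i k n e F J) : ∃ F, Lin blk i k n e F (fun s => Polynomial.C c * J s) := by
  obtain ⟨F, hF⟩ := h
  exact ⟨_, hF.smul c⟩

theorem P5_sum {ι : Type} {i k : I} {n : ℕ} {e : Pos blk → ℕ} (A : Finset ι) (J : ι → I × I → Polynomial ℂ)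
    (h : ∀ a ∈ A, ∃ F, Lin blk i k n e F (J a)) : ∃ F, Lin blk i k n e F (fun s => ∑ a ∈ A, J a s) := by
  classical
  refine ⟨∑ a ∈ A, (if ha : a ∈ A then (h a ha).choose else 0), Lin.sum A _ J ?_⟩
  intro a ha
  rw [dif_pos ha]
  exact (h a ha).choose_spec

theorem P5_congr {i k : I} {n : ℕ} {e : Pos blk → ℕ} {J J' : I × I → Polynomial ℂ}
    (h : ∃ F, Lin blk i k n e F J) (hJ : ∀ s, J' s = J s) : ∃ F, Lin blk i k n e F J' := by
  obtain rfl : J' = J := funext hJ
  exact h

theorem P5_as_sum (P : Polynomial ℂ) (N : ℕ) (h : P.natDegree < N) :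
    P = ∑ r ∈ Finset.range N, Polynomial.C (P.coeff r) * Polynomial.X ^ r := by
  conv_lhs => rw [P.as_sum_range' N h]
  exact Finset.sum_congr rfl fun r _ => (Polynomial.C_mul_X_pow_eq_monomial).symm

/-- Sum (`Lin.sum`, `Lin.smul`) over all roots `s₀` with `f s₀ ≠ 0` and `r ≤ e i` of the multiples `(f s₀).coeff r` of `lin_free_pow`, over all `b` of the block with `k < b`, `p b ≠ 0` and `r < e i` of `(p b).coeff r` times `lin_row_pow`, over all `a < i` of the block with `q a ≠ 0` and
`r < e i` of `(q a).coeff r` times `lin_col_pow`. (Choose the polynomials with `choose`/`if` for the indices in these sets, `0` otherwise.) `Polynomial.as_sum_range'`. -/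
theorem real_lin {i : Pos blk} {k : I} (hk : Nx blk i.1 k) (e : Pos blk → ℕ) (f : I × I → Polynomial ℂ)
    (p q : I → Polynomial ℂ) (hf : ∀ s, (f s).natDegree ≤ e i) (hf0 : ∀ s, f s ≠ 0 → Fr blk i k e s)
    (hp : ∀ b, p b ≠ 0 → (p b).natDegree + 1 ≤ e i) (hq : ∀ a, q a ≠ 0 → (q a).natDegree + 1 ≤ e i) :
    ∃ F, Lin blk i.1 k (e i) e F (JJ blk i.1 k f p q) := by
  classical
  have hF1 : ∃ F, Lin blk i.1 k (e i) e F (fun s => f s) := by
    refine P5_congr (P5_sum Finset.univ (fun s₀ s => if s = s₀ then f s₀ else 0) ?_) ?_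
    · intro s₀ _
      by_cases h0 : f s₀ = 0
      · refine P5_congr ⟨0, Lin.zero i.1 k (e i) e⟩ fun s => ?_
        rw [h0, ite_self]
      · refine P5_congr (P5_sum (Finset.range (e i + 1)) (fun r s => Polynomial.C ((f s₀).coeff r) *
          (if s = s₀ then Polynomial.X ^ r else 0)) ?_) ?_
        · intro r hr
          exact P5_smul _ (lin_free_pow hk (hf0 s₀ h0) (Nat.lt_succ_iff.1 (Finset.mem_range.1 hr)))
        · intro s
          by_cases hs : s = s₀
          · simp only [if_pos hs]
            exact P5_as_sum _ _ (Nat.lt_succ_of_le (hf s₀))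
          · simp only [if_neg hs, mul_zero, Finset.sum_const_zero]
    · intro s
      rw [Finset.sum_ite_eq Finset.univ s f, if_pos (Finset.mem_univ s)]
  have hF2 : ∃ F, Lin blk i.1 k (e i) e F (fun s => if isRow blk i.1 k s then
      (if s.1 = i.1 then p s.2 else Polynomial.X * p s.2) else 0) := by
    refine P5_congr (P5_sum (Finset.univ.filter fun b : I => blk b = blk i.1 ∧ k < b)
      (fun b s => if s = (i.1, b) then p b else if s = (k, b) then Polynomial.X * p b else 0) ?_) ?_
    · intro b hb
      obtain ⟨-, hb1, hb2⟩ := Finset.mem_filter.1 hb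
      by_cases h0 : p b = 0
      · refine P5_congr ⟨0, Lin.zero i.1 k (e i) e⟩ fun s => ?_
        rw [h0, mul_zero, ite_self, ite_self]
      · refine P5_congr (P5_sum (Finset.range (e i)) (fun r s => Polynomial.C ((p b).coeff r) *
          (if s = (i.1, b) then Polynomial.X ^ r else if s = (k, b) then Polynomial.X ^ (r + 1) else 0)) ?_) ?_
        · intro r hr
          exact P5_smul _ (lin_row_pow hk hb1 hb2 (Finset.mem_range.1 hr))
        · intro s
          have h1 := P5_as_sum (p b) (e i) (hp b h0)
          by_cases hs : s = (i.1, b)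
          · simp only [if_pos hs]
            exact h1
          · simp only [if_neg hs]
            by_cases hs2 : s = (k, b)
            · simp only [if_pos hs2]
              conv_lhs => rw [h1, Finset.mul_sum]
              refine Finset.sum_congr rfl fun r _ => ?_
              ring
            · simp only [if_neg hs2, mul_zero, Finset.sum_const_zero]
    · intro s
      by_cases hm : blk s.2 = blk i.1 ∧ k < s.2
      · rw [Finset.sum_eq_single s.2]
        · by_cases h1 : s.1 = i.1
          · have h2 : s = (i.1, s.2) := Prod.ext h1 rfl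
            rw [if_pos (show isRow blk i.1 k s from ⟨hm.1, hm.2, Or.inl h1⟩), if_pos h1, if_pos h2]
          · have h2 : ¬ s = (i.1, s.2) := fun h => h1 (congrArg Prod.fst h)
            rw [if_neg h2]
            by_cases h3 : s.1 = k
            · have h4 : s = (k, s.2) := Prod.ext h3 rfl
              rw [if_pos (show isRow blk i.1 k s from ⟨hm.1, hm.2, Or.inr h3⟩), if_neg h1, if_pos h4]
            · have h4 : ¬ s = (k, s.2) := fun h => h3 (congrArg Prod.fst h)
              have h5 : ¬ isRow blk i.1 k s := fun h => h.2.2.elim h1 h3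
              rw [if_neg h4, if_neg h5]
        · intro b _ hb
          have h1 : ¬ s = (i.1, b) := fun h => hb (congrArg Prod.snd h).symm
          have h2 : ¬ s = (k, b) := fun h => hb (congrArg Prod.snd h).symm
          rw [if_neg h1, if_neg h2]
        · intro h
          exact (h (Finset.mem_filter.2 ⟨Finset.mem_univ _, hm⟩)).elim
      · have h5 : ¬ isRow blk i.1 k s := fun h => hm ⟨h.1, h.2.1⟩
        rw [if_neg h5]
        symm
        apply Finset.sum_eq_zero
        intro b hb
        obtain ⟨-, hb1, hb2⟩ := Finset.mem_filter.1 hb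
        have hne : s.2 ≠ b := fun h => hm (by rw [h]; exact ⟨hb1, hb2⟩)
        have h1 : ¬ s = (i.1, b) := fun h => hne (congrArg Prod.snd h)
        have h2 : ¬ s = (k, b) := fun h => hne (congrArg Prod.snd h)
        rw [if_neg h1, if_neg h2]
  have hF3 : ∃ F, Lin blk i.1 k (e i) e F (fun s => if isCol blk i.1 k s then
      (if s.2 = k then q s.1 else -(Polynomial.X * q s.1)) else 0) := by
    refine P5_congr (P5_sum (Finset.univ.filter fun a : I => blk a = blk i.1 ∧ a < i.1)
      (fun a s => if s = (a, k) then q a else if s = (a, i.1) then -(Polynomial.X * q a) else 0) ?_) ?_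
    · intro a ha
      obtain ⟨-, ha1, ha2⟩ := Finset.mem_filter.1 ha
      by_cases h0 : q a = 0
      · refine P5_congr ⟨0, Lin.zero i.1 k (e i) e⟩ fun s => ?_
        rw [h0, mul_zero, neg_zero, ite_self, ite_self]
      · refine P5_congr (P5_sum (Finset.range (e i)) (fun r s => Polynomial.C ((q a).coeff r) *
          (if s = (a, k) then Polynomial.X ^ r else if s = (a, i.1) then -Polynomial.X ^ (r + 1) else 0)) ?_) ?_
        · intro r hr
          exact P5_smul _ (lin_col_pow hk ha1 ha2 (Finset.mem_range.1 hr))
        · intro s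
          have h1 := P5_as_sum (q a) (e i) (hq a h0)
          by_cases hs : s = (a, k)
          · simp only [if_pos hs]
            exact h1
          · simp only [if_neg hs]
            by_cases hs2 : s = (a, i.1)
            · simp only [if_pos hs2]
              conv_lhs => rw [h1, Finset.mul_sum, ← Finset.sum_neg_distrib]
              refine Finset.sum_congr rfl fun r _ => ?_
              ring
            · simp only [if_neg hs2, mul_zero, Finset.sum_const_zero]
    · intro s
      by_cases hm : blk s.1 = blk i.1 ∧ s.1 < i.1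
      · rw [Finset.sum_eq_single s.1]
        · by_cases h1 : s.2 = k
          · have h2 : s = (s.1, k) := Prod.ext rfl h1
            rw [if_pos (show isCol blk i.1 k s from ⟨hm.1, hm.2, Or.inl h1⟩), if_pos h1, if_pos h2]
          · have h2 : ¬ s = (s.1, k) := fun h => h1 (congrArg Prod.snd h)
            rw [if_neg h2]
            by_cases h3 : s.2 = i.1
            · have h4 : s = (s.1, i.1) := Prod.ext rfl h3
              rw [if_pos (show isCol blk i.1 k s from ⟨hm.1, hm.2, Or.inr h3⟩), if_neg h1, if_pos h4]
            · have h4 : ¬ s = (s.1, i.1) := fun h => h3 (congrArg Prod.snd h)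
              have h5 : ¬ isCol blk i.1 k s := fun h => h.2.2.elim h1 h3
              rw [if_neg h4, if_neg h5]
        · intro b _ hb
          have h1 : ¬ s = (b, k) := fun h => hb (congrArg Prod.fst h).symm
          have h2 : ¬ s = (b, i.1) := fun h => hb (congrArg Prod.fst h).symm
          rw [if_neg h1, if_neg h2]
        · intro h
          exact (h (Finset.mem_filter.2 ⟨Finset.mem_univ _, hm⟩)).elim
      · have h5 : ¬ isCol blk i.1 k s := fun h => hm ⟨h.1, h.2.1⟩
        rw [if_neg h5]
        symm
        apply Finset.sum_eq_zero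
        intro b hb
        obtain ⟨-, hb1, hb2⟩ := Finset.mem_filter.1 hb
        have hne : s.1 ≠ b := fun h => hm (by rw [h]; exact ⟨hb1, hb2⟩)
        have h1 : ¬ s = (b, k) := fun h => hne (congrArg Prod.fst h)
        have h2 : ¬ s = (b, i.1) := fun h => hne (congrArg Prod.fst h)
        rw [if_neg h1, if_neg h2]
  obtain ⟨F1, h1⟩ := hF1
  obtain ⟨F2, h2⟩ := hF2
  obtain ⟨F3, h3⟩ := hF3
  refine P5_congr ⟨F1 + F2 + F3, (h1.add h2).add h3⟩ fun s => ?_
  rfl

end

end Pool.Agent.MP_cfacaa_ag.Fl
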