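import Pool.Agent.Lib.MP_cfacaa_ag.Fl.PDefs

/-! Row fq-P7: the functionals of the slots are independent; perturbation. -/

namespace Pool.Agent.MP_cfacaa_ag.Fl

section

variable {I κ : Type} [Fintype I] [LinearOrder I] {blk : I → κ}

omit [Fintype I] [LinearOrder I] in
/-- Interpolation: at most two slots have their root in the pair `r₁`, `r₂`. -/
theorem P7_two {Sl : Type} (φ : Sl → I × I) (hφ : Function.Injective φ) (t : Sl → ℂ) (ht : Function.Injective t)
    (w : Sl → ℂ) (r₁ r₂ : I × I) :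
    ∃ c : ℂ × ℂ, ∀ σ, (φ σ = r₁ ∨ φ σ = r₂) → c.1 + t σ * c.2 = w σ := by
  by_cases h1 : ∃ σ, φ σ = r₁
  · obtain ⟨σ₁, h1⟩ := h1
    by_cases h2 : ∃ σ, φ σ = r₂
    · obtain ⟨σ₂, h2⟩ := h2
      by_cases h12 : σ₁ = σ₂
      · refine ⟨(w σ₁, 0), fun σ hσ => ?_⟩
        have h3 : σ = σ₁ := by
          rcases hσ with h | h
          · exact hφ (h.trans h1.symm)
          · exact (hφ (h.trans h2.symm)).trans h12.symm
        rw [h3]
        simp
      · have h3 : t σ₁ - t σ₂ ≠ 0 := sub_ne_zero.2 fun h => h12 (ht h)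
        refine ⟨(w σ₁ - t σ₁ * ((w σ₁ - w σ₂) / (t σ₁ - t σ₂)), (w σ₁ - w σ₂) / (t σ₁ - t σ₂)), fun σ hσ => ?_⟩
        rcases hσ with h | h
        · rw [hφ (h.trans h1.symm)]
          ring
        · rw [hφ (h.trans h2.symm)]
          field_simp
          ring
    · refine ⟨(w σ₁, 0), fun σ hσ => ?_⟩
      have h3 : σ = σ₁ := by
        rcases hσ with h | h
        · exact hφ (h.trans h1.symm)
        · exact absurd ⟨σ, h⟩ h2
      rw [h3]
      simp
  · by_cases h2 : ∃ σ, φ σ = r₂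
    · obtain ⟨σ₂, h2⟩ := h2
      refine ⟨(w σ₂, 0), fun σ hσ => ?_⟩
      have h3 : σ = σ₂ := by
        rcases hσ with h | h
        · exact absurd ⟨σ, h⟩ h1
        · exact hφ (h.trans h2.symm)
      rw [h3]
      simp
    · refine ⟨(0, 0), fun σ hσ => ?_⟩
      rcases hσ with h | h
      · exact absurd ⟨σ, h⟩ h1
      · exact absurd ⟨σ, h⟩ h2

/-- A sum with two terms. -/
theorem P7_sum (r₁ r₂ : I × I) (c : ℂ) (f : I × I → ℂ) (x : I × I → ℂ)
    (hf : ∀ u, f u = (if u = r₁ then 1 else 0) + if u = r₂ then c else 0) :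
    ∑ u, f u * x u = x r₁ + c * x r₂ := by
  have h1 : ∀ u, f u * x u = (if u = r₁ then x u else 0) + if u = r₂ then c * x u else 0 := by
    intro u
    rw [hf u, add_mul, ite_mul, ite_mul, zero_mul, one_mul]
  rw [Finset.sum_congr rfl fun u _ => h1 u, Finset.sum_add_distrib, Finset.sum_ite_eq', Finset.sum_ite_eq',
    if_pos (Finset.mem_univ r₁), if_pos (Finset.mem_univ r₂)]

theorem P7_row {i k : I} (hik : i ≠ k) {s : I × I} (hs : isRow blk i k s) (t : ℂ) (x : I × I → ℂ) :
    ∑ u, ow blk i k s t u * x u = x (i, s.2) + t * x (k, s.2) := by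
  have hne : (i, s.2) ≠ (k, s.2) := fun h => hik (congrArg Prod.fst h)
  apply P7_sum
  intro u
  unfold ow
  rw [if_pos hs]
  by_cases h1 : u = (i, s.2)
  · have h2 : ¬ u = (k, s.2) := fun h => hne (h1.symm.trans h)
    rw [if_pos h1, if_pos h1, if_neg h2, add_zero]
  · by_cases h2 : u = (k, s.2)
    · rw [if_neg h1, if_neg h1, if_pos h2, zero_add]
    · rw [if_neg h1, if_neg h1, if_neg h2, zero_add]

theorem P7_col {i k : I} (hik : i ≠ k) {s : I × I} (hs : ¬ isRow blk i k s) (hs' : isCol blk i k s) (t : ℂ)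
    (x : I × I → ℂ) : ∑ u, ow blk i k s t u * x u = x (s.1, k) + -t * x (s.1, i) := by
  have hne : (s.1, k) ≠ (s.1, i) := fun h => hik (congrArg Prod.snd h).symm
  apply P7_sum
  intro u
  unfold ow
  rw [if_neg hs, if_pos hs']
  by_cases h1 : u = (s.1, k)
  · have h2 : ¬ u = (s.1, i) := fun h => hne (h1.symm.trans h)
    rw [if_pos h1, if_pos h1, if_neg h2, add_zero]
  · by_cases h2 : u = (s.1, i)
    · rw [if_neg h1, if_neg h1, if_pos h2, zero_add]
    · rw [if_neg h1, if_neg h1, if_neg h2, zero_add]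

theorem P7_none {i k : I} {s : I × I} (hs : ¬ isRow blk i k s) (hs' : ¬ isCol blk i k s) (t : ℂ)
    (x : I × I → ℂ) : ∑ u, ow blk i k s t u * x u = x s := by
  have h1 : ∀ u, ow blk i k s t u * x u = if u = s then x u else 0 := by
    intro u
    unfold ow
    rw [if_neg hs, if_neg hs']
    by_cases h1 : u = s
    · rw [if_pos h1, if_pos h1, one_mul]
    · rw [if_neg h1, if_neg h1, zero_mul]
  rw [Finset.sum_congr rfl fun u _ => h1 u, Finset.sum_ite_eq', if_pos (Finset.mem_univ s)]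

/-- For every pair (row pair `b` or column pair `a`) there are at most two slots with `φ σ` in this pair; let `g` be a polynomial of degree `≤ 1`, `g = α + β X`, with `g (t σ) = w σ` for these slots (`t` is injective: interpolation). Put `x (i, b) = α`, `x (k, b) = β` for the row pair,
`x (a, k) = α`, `x (a, i) = - β` for the column pair; at a root `s` which is in no pair `x s = w σ` if `φ σ = s`, and `0` if there is no such slot. -/
theorem own_surj {Sl : Type} [Fintype Sl] {i k : I} (hk : Nx blk i k) (φ : Sl → I × I) (hφ : Function.Injective φ)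
    (t : Sl → ℂ) (ht : Function.Injective t) (w : Sl → ℂ) :
    ∃ x : I × I → ℂ, ∀ σ, ∑ u, ow blk i k (φ σ) (t σ) u * x u = w σ := by
  classical
  have hik : i ≠ k := ne_of_lt hk.lt
  choose cr hcr using fun b : I => P7_two φ hφ t ht w (i, b) (k, b)
  choose cc hcc using fun a : I => P7_two φ hφ t ht w (a, k) (a, i)
  refine ⟨fun u => if isRow blk i k u then (if u.1 = i then (cr u.2).1 else (cr u.2).2)
    else if isCol blk i k u then (if u.2 = k then (cc u.1).1 else - (cc u.1).2)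
    else if h : ∃ σ, φ σ = u then w h.choose else 0, fun σ => ?_⟩
  by_cases h1 : isRow blk i k (φ σ)
  · rw [P7_row hik h1]
    have h2 : isRow blk i k (i, (φ σ).2) := ⟨h1.1, h1.2.1, Or.inl rfl⟩
    have h3 : isRow blk i k (k, (φ σ).2) := ⟨h1.1, h1.2.1, Or.inr rfl⟩
    rw [if_pos h2, if_pos h3, if_pos rfl, if_neg (Ne.symm hik)]
    apply hcr (φ σ).2 σ
    rcases h1.2.2 with h4 | h4
    · exact Or.inl (Prod.ext h4 rfl)
    · exact Or.inr (Prod.ext h4 rfl)
  · by_cases h1' : isCol blk i k (φ σ)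
    · rw [P7_col hik h1 h1']
      have h2 : isCol blk i k ((φ σ).1, k) := ⟨h1'.1, h1'.2.1, Or.inl rfl⟩
      have h3 : isCol blk i k ((φ σ).1, i) := ⟨h1'.1, h1'.2.1, Or.inr rfl⟩
      have h4 : ¬ isRow blk i k ((φ σ).1, k) := fun h => lt_irrefl _ h.2.1
      have h5 : ¬ isRow blk i k ((φ σ).1, i) := fun h => lt_asymm hk.lt h.2.1
      rw [if_neg h4, if_neg h5, if_pos h2, if_pos h3, if_pos rfl, if_neg hik, neg_mul_neg]
      apply hcc (φ σ).1 σ
      rcases h1'.2.2 with h4 | h4
      · exact Or.inl (Prod.ext rfl h4)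
      · exact Or.inr (Prod.ext rfl h4)
    · rw [P7_none h1 h1', if_neg h1, if_neg h1']
      have h2 : ∃ σ', φ σ' = φ σ := ⟨σ, rfl⟩
      rw [dif_pos h2]
      exact congrArg w (hφ h2.choose_spec)

end

end Pool.Agent.MP_cfacaa_ag.Fl
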