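import Mathlib

/-! Row fq-P8: perturbation of a surjective linear map. -/

namespace Pool.Agent.MP_cfacaa_ag.Fl

/-- `det (1 + ε • M)` is not zero for some `ε ≠ 0`. -/
theorem P8_det {ι : Type} [Fintype ι] [DecidableEq ι] (M : Matrix ι ι ℂ) : ∃ ε : ℂ, ε ≠ 0 ∧ (1 + ε • M).det ≠ 0 := by
  let p : Polynomial ℂ := (1 + (Polynomial.X : Polynomial ℂ) • M.map Polynomial.C).det
  have hp : ∀ ε : ℂ, p.eval ε = (1 + ε • M).det := by
    intro ε
    show Polynomial.evalRingHom ε p = _
    rw [RingHom.map_det]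
    congr 1
    ext a b
    simp only [RingHom.mapMatrix_apply, Matrix.map_apply, Matrix.add_apply, Matrix.smul_apply, smul_eq_mul,
      Polynomial.coe_evalRingHom, Polynomial.eval_add, Polynomial.eval_mul, Polynomial.eval_X, Polynomial.eval_C]
    congr 1
    by_cases h : a = b
    · subst h
      rw [Matrix.one_apply_eq, Matrix.one_apply_eq, Polynomial.eval_one]
    · rw [Matrix.one_apply_ne h, Matrix.one_apply_ne h, Polynomial.eval_zero]
  have hp0 : p ≠ 0 := by
    intro h
    have h1 := hp 0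
    rw [h, Polynomial.eval_zero, zero_smul, add_zero, Matrix.det_one] at h1
    exact zero_ne_one h1
  by_contra hcon
  have h1 : ∀ ε : ℂ, ε ≠ 0 → p.eval ε = 0 := by
    intro ε hε
    rw [hp]
    by_contra h2
    exact hcon ⟨ε, hε, h2⟩
  have h2 : p * Polynomial.X = 0 := by
    apply Polynomial.funext
    intro ε
    rw [Polynomial.eval_mul, Polynomial.eval_X, Polynomial.eval_zero]
    by_cases h3 : ε = 0
    · rw [h3, mul_zero]
    · rw [h1 ε h3, zero_mul]
  rcases mul_eq_zero.1 h2 with h3 | h3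
  · exact hp0 h3
  · exact Polynomial.X_ne_zero h3

/-- Let `G` be a right inverse of `A` (`A * G = 1`, columns from `hA`). `det (1 + ε • (B * G))` is a polynomial in `ε` with the value `1` at `0` (`Polynomial.eval` of the determinant of the matrix `1 + X • (B * G).map C`), so it is not zero for some `ε ≠ 0` (infinitely many values of `ε`, finitely many roots).
For this `ε` the matrix `(A + ε B) * G` is invertible, so `A + ε B` is surjective. -/
theorem exists_eps {ι σ : Type} [Fintype ι] [Fintype σ] (A B : ι → σ → ℂ)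
    (hA : ∀ w : ι → ℂ, ∃ x : σ → ℂ, ∀ a, ∑ s, A a s * x s = w a) :
    ∃ ε : ℂ, ε ≠ 0 ∧ ∀ w : ι → ℂ, ∃ x : σ → ℂ, ∀ a, ∑ s, (A a s + ε * B a s) * x s = w a := by
  classical
  choose g hg using fun a : ι => hA (fun b => if b = a then 1 else 0)
  -- `g a s`: column `a` of the right inverse
  let M : Matrix ι ι ℂ := fun a b => ∑ s, B a s * g b s
  obtain ⟨ε, hε, hdet⟩ := P8_det M
  refine ⟨ε, hε, fun w => ?_⟩
  have hunit : IsUnit (1 + ε • M).det := isUnit_iff_ne_zero.2 hdet
  obtain ⟨y, hy⟩ : ∃ y : ι → ℂ, (1 + ε • M).mulVec y = w :=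
    ⟨(1 + ε • M)⁻¹.mulVec w, by rw [Matrix.mulVec_mulVec, Matrix.mul_nonsing_inv _ hunit, Matrix.one_mulVec]⟩
  refine ⟨fun s => ∑ b, g b s * y b, fun a => ?_⟩
  have h1 : ∀ b, ∑ s, (A a s + ε * B a s) * g b s = (1 + ε • M) a b := by
    intro b
    have h2 := hg b a
    have h3 : ∑ s, (A a s + ε * B a s) * g b s = ∑ s, A a s * g b s + ε * ∑ s, B a s * g b s := by
      rw [Finset.mul_sum, ← Finset.sum_add_distrib]
      exact Finset.sum_congr rfl fun s _ => by ring
    rw [h3, h2, Matrix.add_apply, Matrix.smul_apply, smul_eq_mul, Matrix.one_apply]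
  have h4 : ∑ s, (A a s + ε * B a s) * ∑ b, g b s * y b = ∑ b, (1 + ε • M) a b * y b := by
    simp only [Finset.mul_sum]
    rw [Finset.sum_comm]
    refine Finset.sum_congr rfl fun b _ => ?_
    rw [← h1 b, Finset.sum_mul]
    exact Finset.sum_congr rfl fun s _ => by ring
  rw [h4]
  exact congrFun hy a

end Pool.Agent.MP_cfacaa_ag.Fl
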