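import Pool.Agent.Lib.MP_cfacaa_ag.Fl.P6
import Pool.Agent.Lib.MP_cfacaa_ag.Fl.P7
import Pool.Agent.Lib.MP_cfacaa_ag.Fl.P8

/-! Row fq-P9: a special system. -/

namespace Pool.Agent.MP_cfacaa_ag.Fl

open MvPolynomial

section

variable {V I κ : Type} [Fintype V] [Fintype I] [LinearOrder I] {blk : I → κ}

/-- Restriction of an injective map to the slots of one equation. -/
theorem P9_inj {W : Type} {n : W → ℕ} {Z : Type} {f : (Σ v, Fin (n v + 1)) → Z} (hf : Function.Injective f)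
    {v : W} {a b : Fin (n v + 1)} (h : f ⟨v, a⟩ = f ⟨v, b⟩) : a = b := by
  have h1 := hf h
  simpa using h1

/-- Two polynomials of degree at most `n` which agree at `n + 1` points are equal. -/
theorem P9_eq (n : ℕ) {P Q : Polynomial ℂ} (hP : P.natDegree ≤ n) (hQ : Q.natDegree ≤ n)
    (t : Fin (n + 1) → ℂ) (ht : Function.Injective t) (h : ∀ m, P.eval (t m) = Q.eval (t m)) : P = Q := by
  have h1 : P - Q = 0 := by
    refine Polynomial.eq_zero_of_natDegree_lt_card_of_eval_eq_zero (P - Q) ht (fun m => ?_) ?_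
    · rw [Polynomial.eval_sub, h m, sub_self]
    · rw [Fintype.card_fin]
      have h2 := Polynomial.natDegree_sub_le P Q
      omega
  exact sub_eq_zero.1 h1

/-- Let `t` be an injective map from the slots to `ℂ` (`Fintype.equivFin`). `exists_slot` for every `v` with `φ ⟨v, ·⟩`, `t ⟨v, ·⟩` gives `c`, `h`. `own_surj` and `exists_eps` (index set: all slots, `A σ u = ow (φ σ) (t σ) u`, `B = h`) give `ε ≠ 0` such that the functionals `∑ u, (ow u + ε h u) x u` take all values.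
Take `F v`, `J v` for this `ε`. For `w` let `g v = ∑ r ≤ e v i, w v r X ^ r`; there is `y` with `∑ u, (J v u).eval (t σ) * y u = (g v).eval (t σ)` for all slots `σ = ⟨v, m⟩` (divide by `c ≠ 0`). The polynomials `∑ u, C (y u) * J v u` and `g v` have degree at most `e v i` (`(J v u) = (U u).map`, degree of `U u` at
most `e v i`) and agree at `e v i + 1` points, so they are equal (`Polynomial.eq_of_degree_sub_lt_of_eval_finset_eq` or `Polynomial.eq_zero_of_natDegree_lt_card_of_eval_eq_zero`); compare coefficients. -/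
theorem exists_special (e : V → Pos blk → ℕ) (i : Pos blk) {k : I} (hk : Nx blk i.1 k)
    (φ : (Σ v, Fin (e v i + 1)) → I × I) (hφ : Function.Injective φ)
    (hR : ∀ σ, Fr blk i k (e σ.1) (φ σ) ∨ (e σ.1 i ≠ 0 ∧ (pk blk i.1 k (φ σ)).isSome))
    (hG : ∀ v, e v i = 0 ∨ (∃ m, Fr blk i k (e v) (φ ⟨v, m⟩)) ∨
      ∃ m m', m ≠ m' ∧ pk blk i.1 k (φ ⟨v, m⟩) = pk blk i.1 k (φ ⟨v, m'⟩) ∧ (pk blk i.1 k (φ ⟨v, m⟩)).isSome) :
    ∃ (F : V → MvPolynomial (I × I) ℂ) (J : V → I × I → Polynomial ℂ),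
      (∀ v, Lin blk i.1 k (e v i) (e v) (F v) (J v)) ∧
      ∀ w : V → ℕ → ℂ, ∃ y : I × I → ℂ, ∀ v r, r ≤ e v i → ∑ s, (J v s).coeff r * y s = w v r := by
  classical
  obtain ⟨t, ht⟩ : ∃ t : (Σ v, Fin (e v i + 1)) → ℂ, Function.Injective t := by
    refine ⟨fun σ => ((Fintype.equivFin (Σ v, Fin (e v i + 1)) σ : ℕ) : ℂ), fun a b hab => ?_⟩
    have h1 : ((Fintype.equivFin (Σ v, Fin (e v i + 1)) a : ℕ)) =
        (Fintype.equivFin (Σ v, Fin (e v i + 1)) b : ℕ) := by
      exact Nat.cast_injective (R := ℂ) hab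
    exact (Fintype.equivFin (Σ v, Fin (e v i + 1))).injective (Fin.ext h1)
  have hslot : ∀ v, ∃ (c : Fin (e v i + 1) → ℂ → ℂ) (h : Fin (e v i + 1) → I × I → ℂ),
      (∀ m ε, ε ≠ 0 → c m ε ≠ 0) ∧
      ∀ ε : ℂ, ∃ (F : MvPolynomial (I × I) ℂ) (J : I × I → Polynomial ℂ),
        Lin blk i.1 k (e v i) (e v) F J ∧
        ∀ m u, (J u).eval (t ⟨v, m⟩) = c m ε * (ow blk i.1 k (φ ⟨v, m⟩) (t ⟨v, m⟩) u + ε * h m u) := by
    intro v
    refine exists_slot hk (e v) (fun m => φ ⟨v, m⟩) (fun a b hab => ?_) (fun m => hR ⟨v, m⟩) ?_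
      (fun m => t ⟨v, m⟩) (fun a b hab => ?_)
    · exact P9_inj hφ hab
    · rcases hG v with h0 | h1 | h2
      · refine Or.inl ⟨0, ?_⟩
        rcases hR ⟨v, 0⟩ with h1 | h1
        · exact h1
        · exact absurd h0 h1.1
      · exact Or.inl h1
      · exact Or.inr h2
    · exact P9_inj ht hab
  choose c h hc hF using hslot
  obtain ⟨ε, hε, hsurj⟩ := exists_eps
    (fun (σ : Σ v, Fin (e v i + 1)) (u : I × I) => ow blk i.1 k (φ σ) (t σ) u)
    (fun (σ : Σ v, Fin (e v i + 1)) (u : I × I) => h σ.1 σ.2 u) (own_surj hk φ hφ t ht)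
  choose F J hL hJ using fun v => hF v ε
  refine ⟨F, J, hL, fun w => ?_⟩
  obtain ⟨y, hy⟩ := hsurj fun σ =>
    (∑ r ∈ Finset.range (e σ.1 i + 1), Polynomial.monomial r (w σ.1 r)).eval (t σ) / c σ.1 σ.2 ε
  refine ⟨y, fun v r hr => ?_⟩
  have hU : ∀ s, (J v s).natDegree ≤ e v i := by
    obtain ⟨U, hU1, hU2, -⟩ := (hL v).2
    intro s
    rw [← hU2 s]
    exact Polynomial.natDegree_map_le.trans (hU1 s)
  have hev : ∀ m : Fin (e v i + 1), (∑ s, Polynomial.C (y s) * J v s).eval (t ⟨v, m⟩) =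
      (∑ r ∈ Finset.range (e v i + 1), Polynomial.monomial r (w v r)).eval (t ⟨v, m⟩) := by
    intro m
    have h1 := hy ⟨v, m⟩
    have h2 : c v m ε ≠ 0 := hc v m ε hε
    rw [eq_div_iff h2] at h1
    rw [← h1, Polynomial.eval_finsetSum, Finset.sum_mul]
    refine Finset.sum_congr rfl fun s _ => ?_
    rw [Polynomial.eval_mul, Polynomial.eval_C, hJ]
    ring
  have hpoly : (∑ s, Polynomial.C (y s) * J v s) =
      ∑ r ∈ Finset.range (e v i + 1), Polynomial.monomial r (w v r) := by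
    refine P9_eq (e v i) ?_ ?_ (fun m => t ⟨v, m⟩) (fun a b hab => P9_inj ht hab) hev
    · refine Polynomial.natDegree_sum_le_of_forall_le _ _ fun s _ => ?_
      exact (Polynomial.natDegree_C_mul_le _ _).trans (hU s)
    · refine Polynomial.natDegree_sum_le_of_forall_le _ _ fun r hr => ?_
      have h1 := Finset.mem_range.1 hr
      exact (Polynomial.natDegree_monomial_le _).trans (by omega)
  have hco := congrArg (fun P : Polynomial ℂ => P.coeff r) hpoly
  simp only [Polynomial.finsetSum_coeff, Polynomial.coeff_C_mul, Polynomial.coeff_monomial] at hco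
  rw [Finset.sum_ite_eq' (Finset.range (e v i + 1)) r, if_pos (Finset.mem_range.2 (by omega))] at hco
  rw [← hco]
  exact Finset.sum_congr rfl fun s _ => mul_comm _ _

end

end Pool.Agent.MP_cfacaa_ag.Fl
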