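import Pool.Agent.Lib.MP_cfacaa_ag.Fl.Defs

/-! Free classes: the chart of the fibre. -/

namespace Pool.Agent.MP_cfacaa_ag.Fl

section

variable {I κ : Type} [Fintype I] [LinearOrder I]

open Classical in
/-- The roots of the fibre of the projection which forgets the subspace with the index `i`. -/
noncomputable def fib (blk : I → κ) (T : Set (Pos blk)) (i : Pos blk) : Finset (I × I) :=
  roots blk T \ roots blk (T \ {i})

open Classical in
/-- Add the row `y` times `z (x, y)` to the row `x` of `A`, for all `(x, y) ∈ s`. -/
noncomputable def ut {R : Type} [CommRing R] (s : Finset (I × I)) (z : I × I → R) (A : Matrix I I R) : Matrix I I R :=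
  fun x c => A x c + ∑ y, (if (x, y) ∈ s then z (x, y) else 0) * A y c

/-- the matrix `A` over an extension -/
def ext {L : Type} [Field L] [Algebra ℂ L] (A : Matrix I I ℂ) : Matrix I I L := fun x y => algebraMap ℂ L (A x y)

end

end Pool.Agent.MP_cfacaa_ag.Fl
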