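import Pool.Agent.Lib.MP_cfacaa_ag.Fl.Q0

/-! Row ft-R1: the roots of the fibre. -/

namespace Pool.Agent.MP_cfacaa_ag.Fl

section

variable {I κ : Type} [Fintype I] [LinearOrder I] {blk : I → κ} {T : Set (Pos blk)} {i : Pos blk}

theorem R1_mem_roots (J : Set (Pos blk)) (x y : I) : (x, y) ∈ roots blk J ↔
    ∃ j ∈ J, blk x = blk j.1 ∧ blk y = blk j.1 ∧ x ≤ j.1 ∧ j.1 < y := by
  classical
  unfold roots
  rw [@Finset.mem_filter _ _ (Classical.decPred _)]
  constructor
  · intro h
    exact h.2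
  · intro h
    exact ⟨Finset.mem_univ _, h⟩

/-- The index `j` of `roots` for `s` is `i` (otherwise `s ∈ roots blk (T \ {i})`), and no other `j ∈ T` is possible. -/
theorem mem_fib (hi : i ∈ T) (x y : I) : (x, y) ∈ fib blk T i ↔ blk x = blk i.1 ∧ blk y = blk i.1 ∧ x ≤ i.1 ∧ i.1 < y ∧
    ∀ j ∈ T, blk j.1 = blk i.1 → x ≤ j.1 → j.1 < y → j = i := by
  unfold fib
  rw [Finset.mem_sdiff, R1_mem_roots, R1_mem_roots]
  constructor
  · rintro ⟨⟨j, hj, h1, h2, h3, h4⟩, h5⟩
    have h6 : j = i := by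
      by_contra hne
      exact h5 ⟨j, ⟨hj, hne⟩, h1, h2, h3, h4⟩
    subst h6
    refine ⟨h1, h2, h3, h4, fun l hl hl1 hl2 hl3 => ?_⟩
    by_contra hne
    exact h5 ⟨l, ⟨hl, hne⟩, h1.trans hl1.symm, h2.trans hl1.symm, hl2, hl3⟩
  · rintro ⟨h1, h2, h3, h4, h5⟩
    refine ⟨⟨i, hi, h1, h2, h3, h4⟩, ?_⟩
    rintro ⟨l, ⟨hl, hne⟩, hl1, hl2, hl3, hl4⟩
    exact hne (h5 l hl (hl1.symm.trans h1) hl3 hl4)

/-- `roots blk (T \ {i}) ⊆ roots blk T`, `Finset.card_sdiff`. -/
theorem card_fib : (fib blk T i).card + (roots blk (T \ {i})).card = (roots blk T).card := by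
  unfold fib
  refine Finset.card_sdiff_add_card_eq_card ?_
  rintro ⟨x, y⟩ h
  rw [R1_mem_roots] at h ⊢
  obtain ⟨j, hj, h1⟩ := h
  exact ⟨j, hj.1, h1⟩

theorem R1_sum {R : Type} [CommRing R] {s : Finset (I × I)} {x y : I} (hn : (x, y) ∉ s) (z : I × I → R)
    (A : Matrix I I R) (r c : I) :
    ∑ w, (if (r, w) ∈ insert (x, y) s then z (r, w) else 0) * A w c =
      (∑ w, (if (r, w) ∈ s then z (r, w) else 0) * A w c) + (if r = x then z (x, y) * A y c else 0) := by
  have h1 : ∀ w ∈ (Finset.univ : Finset I), (if (r, w) ∈ insert (x, y) s then z (r, w) else 0) * A w c =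
      (if (r, w) ∈ s then z (r, w) else 0) * A w c + (if w = y then (if r = x then z (x, y) * A y c else 0) else 0) := by
    intro w _
    by_cases h2 : (r, w) = (x, y)
    · have h3 := (Prod.mk.injEq _ _ _ _).mp h2
      obtain ⟨h4, h5⟩ := h3
      subst h4
      subst h5
      rw [if_pos (Finset.mem_insert_self _ _), if_neg hn, if_pos rfl, if_pos rfl, zero_mul, zero_add]
    · have h3 : (if w = y then (if r = x then z (x, y) * A y c else 0) else 0) = 0 := by
        by_cases h4 : w = y
        · have h5 : r ≠ x := fun h5 => h2 (by rw [h4, h5])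
          rw [if_pos h4, if_neg h5]
        · rw [if_neg h4]
      rw [h3, add_zero]
      by_cases h4 : (r, w) ∈ s
      · rw [if_pos h4, if_pos (Finset.mem_insert_of_mem h4)]
      · have h5 : (r, w) ∉ insert (x, y) s := by
          rw [Finset.mem_insert]
          rintro (h6 | h6)
          · exact h2 h6
          · exact h4 h6
        rw [if_neg h4, if_neg h5]
  rw [Finset.sum_congr rfl h1, Finset.sum_add_distrib, Finset.sum_ite_eq', if_pos (Finset.mem_univ _)]

/-- `ut` of `insert (x, y) s`, `(x, y) ∉ s`, `s`, `{(x, y)}` contained in `fib`: the row `y` of `ut s z A` is the row `y` of `A` (`y > i`, the first elements of the pairs of `fib` are `≤ i`). -/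
theorem ut_insert {R : Type} [CommRing R] (hi : i ∈ T) {s : Finset (I × I)} (hs : s ⊆ fib blk T i) {x y : I}
    (hxy : (x, y) ∈ fib blk T i) (hn : (x, y) ∉ s) (z : I × I → R) (A : Matrix I I R) :
    ut (insert (x, y) s) z A = up x y (z (x, y)) (ut s z A) := by
  have h0 : ∀ c, ut s z A y c = A y c := by
    intro c
    unfold ut
    rw [Finset.sum_eq_zero, add_zero]
    intro w _
    have h1 : (y, w) ∉ s := by
      intro h2
      have h3 := ((mem_fib hi y w).mp (hs h2)).2.2.1
      have h4 := ((mem_fib hi x y).mp hxy).2.2.2.1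
      exact absurd h3 (not_le.mpr h4)
    rw [if_neg h1, zero_mul]
  funext r c
  have h1 : ut (insert (x, y) s) z A r c = ut s z A r c + (if r = x then z (x, y) * A y c else 0) := by
    unfold ut
    rw [R1_sum hn, add_assoc]
  rw [h1]
  unfold up
  by_cases h2 : r = x
  · rw [if_pos h2, if_pos h2, h0, h2]
  · rw [if_neg h2, if_neg h2, add_zero]

theorem ut_empty {R : Type} [CommRing R] (z : I × I → R) (A : Matrix I I R) : ut ∅ z A = A := by
  funext r c
  unfold ut
  rw [Finset.sum_eq_zero, add_zero]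
  intro w _
  rw [if_neg (Finset.notMem_empty _), zero_mul]

theorem R1_det_up {R : Type} [CommRing R] {x y : I} (hxy : x ≠ y) (A : Matrix I I R) (t : R) :
    (up x y t A).det = A.det := by
  have h : up x y t A = Matrix.updateRow A x (A x + t • A y) := by
    funext r c
    unfold up
    split_ifs with h
    · rw [h, Matrix.updateRow_self]
      rfl
    · rw [Matrix.updateRow_ne h]
  rw [h, Matrix.det_updateRow_add_smul_self A hxy]

/-- `det_up` with `ut_insert`, induction. -/
theorem det_ut {R : Type} [CommRing R] (hi : i ∈ T) {s : Finset (I × I)} (hs : s ⊆ fib blk T i) (z : I × I → R)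
    (A : Matrix I I R) : (ut s z A).det = A.det := by
  induction s using Finset.induction_on with
  | empty => rw [ut_empty]
  | insert a s ha ih =>
    obtain ⟨x, y⟩ := a
    have h1 : s ⊆ fib blk T i := fun w hw => hs (Finset.mem_insert_of_mem hw)
    have h2 : (x, y) ∈ fib blk T i := hs (Finset.mem_insert_self _ _)
    have h3 := (mem_fib hi x y).mp h2
    rw [ut_insert hi h1 h2 ha, R1_det_up (lt_of_le_of_lt h3.2.2.1 h3.2.2.2.1).ne, ih h1]

/-- The pairs of `fib` are in one block. -/
theorem bd_ut {R : Type} [CommRing R] (hi : i ∈ T) {s : Finset (I × I)} (hs : s ⊆ fib blk T i) (z : I × I → R)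
    {A : Matrix I I R} (hA : BD blk A) : BD blk (ut s z A) := by
  intro r c hrc
  unfold ut
  rw [hA r c hrc, zero_add]
  refine Finset.sum_eq_zero fun w _ => ?_
  by_cases h : (r, w) ∈ s
  · have h1 := (mem_fib hi r w).mp (hs h)
    have h2 : blk w ≠ blk c := fun h3 => hrc (h1.1.trans (h1.2.1.symm.trans h3))
    rw [hA w c h2, mul_zero]
  · rw [if_neg h, zero_mul]

end

end Pool.Agent.MP_cfacaa_ag.Fl
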