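import Pool.Agent.Lib.MP_cfacaa_ag.Fl.R1
import Pool.Agent.Lib.MP_cfacaa_ag.Fl.A2

/-! Row ft-R10: the coordinates of the fibre as values of semi-invariants. -/

namespace Pool.Agent.MP_cfacaa_ag.Fl

section

variable {I κ : Type} [Fintype I] [LinearOrder I] {blk : I → κ} {T : Set (Pos blk)} {i : Pos blk}

theorem R10_mem_seg {j x : I} : x ∈ seg blk j ↔ blk x = blk j ∧ x ≤ j := by
  simp [seg]

theorem R10_mul_pm {R : Type} [CommRing R] (f : I → I) (M : Matrix I I R) (a c : I) :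
    (M * pm f : Matrix I I R) a c = M a (f c) := by
  rw [Matrix.mul_apply, Finset.sum_eq_single (f c)]
  · simp [pm]
  · intro y _ hy
    simp [pm, hy]
  · intro h
    exact absurd (Finset.mem_univ _) h

/-- `ut s ξ (ext A) = U * ext A` with `U = 1 + ∑ ξ (x, y) E_xy`; the columns: `∑ y, (ut ..) r y * algebraMap (A⁻¹ y c) = U r c`. -/
theorem ut_mul_inv {A : Matrix I I ℂ} (hA : A.det ≠ 0) {L : Type} [Field L] [Algebra ℂ L] (ξ : I × I → L) (r c : I) :
    ∑ y, ut (fib blk T i) ξ (ext A) r y * algebraMap ℂ L (A⁻¹ y c) =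
      (if r = c then 1 else 0) + if (r, c) ∈ fib blk T i then ξ (r, c) else 0 := by
  have hAA : A * A⁻¹ = 1 := Matrix.mul_nonsing_inv A (isUnit_iff_ne_zero.2 hA)
  have h1 : ∀ r : I, ∑ y, algebraMap ℂ L (A r y) * algebraMap ℂ L (A⁻¹ y c) = if r = c then 1 else 0 := by
    intro r
    have h3 := congrFun (congrFun hAA r) c
    rw [Matrix.mul_apply, Matrix.one_apply] at h3
    have h4 := congrArg (algebraMap ℂ L) h3
    rw [map_sum] at h4
    simp only [map_mul] at h4
    rw [h4]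
    split_ifs
    · exact map_one _
    · exact map_zero _
  have h2 : ∀ y, ut (fib blk T i) ξ (ext A) r y * algebraMap ℂ L (A⁻¹ y c) =
      algebraMap ℂ L (A r y) * algebraMap ℂ L (A⁻¹ y c) +
        ∑ y', (if (r, y') ∈ fib blk T i then ξ (r, y') else 0) *
          (algebraMap ℂ L (A y' y) * algebraMap ℂ L (A⁻¹ y c)) := by
    intro y
    simp only [ut, ext]
    rw [add_mul, Finset.sum_mul]
    congr 1
    refine Finset.sum_congr rfl fun y' _ => ?_
    rw [mul_assoc]
  rw [Finset.sum_congr rfl (fun y _ => h2 y), Finset.sum_add_distrib, h1, Finset.sum_comm]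
  congr 1
  rw [Finset.sum_congr rfl (fun y' _ => (Finset.mul_sum _ _ _).symm)]
  rw [Finset.sum_eq_single c]
  · rw [h1, if_pos rfl, mul_one]
  · intro y' _ hy'
    rw [h1, if_neg hy', mul_zero]
  · intro h
    exact absurd (Finset.mem_univ _) h

/-- `ev_Dm` and `ut_mul_inv`: for `r`, `c ∈ seg blk i` the pair `(r, c)` is not in `fib` (`c ≤ i`), the matrix is the identity. -/
theorem ev_Dm_ut (hi : i ∈ T) {A : Matrix I I ℂ} (hA : A.det ≠ 0) {L : Type} [Field L] [Algebra ℂ L] (ξ : I × I → L) :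
    ev (ut (fib blk T i) ξ (ext A)) (Dm blk i.1 (A⁻¹ : Matrix I I ℂ)) = 1 := by
  rw [ev_Dm]
  have h1 : (Matrix.of fun r c : {x // x ∈ seg blk i.1} =>
      ∑ y, ut (fib blk T i) ξ (ext A) r.1 y * algebraMap ℂ L (A⁻¹ y c.1)) =
      (1 : Matrix {x // x ∈ seg blk i.1} {x // x ∈ seg blk i.1} L) := by
    ext r c
    have hcf : (r.1, c.1) ∉ fib blk T i := by
      rw [mem_fib hi]
      rintro ⟨-, -, -, h, -⟩
      exact absurd h (not_lt.2 (R10_mem_seg.1 c.2).2)
    rw [Matrix.of_apply, ut_mul_inv hA, if_neg hcf, add_zero, Matrix.one_apply]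
    simp only [Subtype.ext_iff]
  rw [h1, Matrix.det_one]

/-- `ev_Dm` for `A⁻¹ * pm (Equiv.swap x y)`, `∑ y', A⁻¹ ... = A⁻¹ (..) (swap x y c)`: the columns `c ≠ x` of the matrix are those of the identity (`y ∉ seg blk i`, `swap x y c = c`), the column `x` is the column `y` of `U`: `(x, x)` entry `ξ (x, y)`, `det = ξ (x, y)` (expand: identity matrix with one column replaced,
`Matrix.det_succ..` or `Matrix.cramer`, `Matrix.det_updateCol` of `1`: `Matrix.cramer_one`-like; see `G4_cramer` in `G4.lean`). -/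
theorem ev_Dm_swap (hi : i ∈ T) {x y : I} (hxy : (x, y) ∈ fib blk T i) {A : Matrix I I ℂ} (hA : A.det ≠ 0)
    {L : Type} [Field L] [Algebra ℂ L] (ξ : I × I → L) :
    ev (ut (fib blk T i) ξ (ext A)) (Dm blk i.1 (A⁻¹ * pm (Equiv.swap x y) : Matrix I I ℂ)) = ξ (x, y) := by
  have hf := (mem_fib hi x y).1 hxy
  have hx : x ∈ seg blk i.1 := R10_mem_seg.2 ⟨hf.1, hf.2.2.1⟩
  have hy : y ∉ seg blk i.1 := fun h => absurd hf.2.2.2.1 (not_lt.2 (R10_mem_seg.1 h).2)
  rw [ev_Dm]
  have h0 : ∀ r c : I, ∑ y', ut (fib blk T i) ξ (ext A) r y' *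
      algebraMap ℂ L ((A⁻¹ * pm (Equiv.swap x y) : Matrix I I ℂ) y' c) =
      (if r = Equiv.swap x y c then 1 else 0) +
        if (r, Equiv.swap x y c) ∈ fib blk T i then ξ (r, Equiv.swap x y c) else 0 := by
    intro r c
    rw [← ut_mul_inv hA]
    refine Finset.sum_congr rfl fun y' _ => ?_
    rw [R10_mul_pm]
  have h1 : (Matrix.of fun r c : {x // x ∈ seg blk i.1} => ∑ y', ut (fib blk T i) ξ (ext A) r.1 y' *
      algebraMap ℂ L ((A⁻¹ * pm (Equiv.swap x y) : Matrix I I ℂ) y' c.1)) =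
      (1 : Matrix {x // x ∈ seg blk i.1} {x // x ∈ seg blk i.1} L).updateCol ⟨x, hx⟩
        (fun r => if (r.1, y) ∈ fib blk T i then ξ (r.1, y) else 0) := by
    ext r c
    rw [Matrix.of_apply, h0]
    by_cases hc : c = ⟨x, hx⟩
    · subst hc
      rw [Matrix.updateCol_self, Equiv.swap_apply_left, if_neg, zero_add]
      rintro h
      exact hy (h ▸ r.2)
    · rw [Matrix.updateCol_ne hc]
      have hcx : c.1 ≠ x := fun h => hc (Subtype.ext h)
      have hcy : c.1 ≠ y := fun h => hy (h ▸ c.2)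
      have hcf : (r.1, c.1) ∉ fib blk T i := by
        rw [mem_fib hi]
        rintro ⟨-, -, -, h, -⟩
        exact absurd h (not_lt.2 (R10_mem_seg.1 c.2).2)
      rw [Equiv.swap_apply_of_ne_of_ne hcx hcy, if_neg hcf, add_zero, Matrix.one_apply]
      simp only [Subtype.ext_iff]
  rw [h1, ← Matrix.cramer_apply, Matrix.cramer_one]
  simp [hxy]

end

end Pool.Agent.MP_cfacaa_ag.Fl
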