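import Pool.Agent.Lib.MP_cfacaa_ag.Fl.R8

/-! Row ft-R9: sections of degree zero on the fibre are constant. -/

namespace Pool.Agent.MP_cfacaa_ag.Fl

open MvPolynomial

theorem R9_alg {K : Type} [Field K] {x y x' y' a c : K} (hy : y ≠ 0) (hy' : y' ≠ 0) (ha : a * c ≠ 0)
    (h : x * y' = x' * y) : x / y = a * (c * x') * (a * c * y')⁻¹ := by
  rw [← div_eq_mul_inv, div_eq_div_iff hy (mul_ne_zero ha hy')]
  linear_combination a * c * h

section

variable {V I κ : Type} [Fintype I] [LinearOrder I] (S : FSys V I κ)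

theorem const_of_zero {A : Matrix I I ℂ} (hA : A ∈ S.cone) {i : Pos S.blk} (hi : i ∈ S.T) {d : Pos S.blk → ℤ}
    (hd : d i = 0) {s : Matrix I I ℂ → ℂ} (hs : S.IsSection d s) {P Q : MvPolynomial (I × I) ℂ}
    (h : ∀ B ∈ S.cone, ev B Q ≠ 0 → s B * ev B Q = ev B P) {K : Type} [Field K] [Algebra ℂ K] (ξ : I × I → K)
    (hξ : ∀ v, ev (ut (fib S.blk S.T i) ξ (ext A)) (S.F v) = 0)
    (hQ : ev (ut (fib S.blk S.T i) ξ (ext A)) Q ≠ 0) :
    ev (ut (fib S.blk S.T i) ξ (ext A)) P / ev (ut (fib S.blk S.T i) ξ (ext A)) Q ∈ Set.range (algebraMap ℂ K) := by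
  classical
  have hext : BD S.blk (ext A : Matrix I I K) := by
    intro x y hxy
    show algebraMap ℂ K (A x y) = 0
    rw [hA.1 x y hxy, map_zero]
  have hMbd : BD S.blk (ut (fib S.blk S.T i) ξ (ext A)) := bd_ut hi (Finset.Subset.refl _) ξ hext
  have hMdet : (ut (fib S.blk S.T i) ξ (ext A)).det ≠ 0 := by
    rw [det_ut hi (Finset.Subset.refl _)]
    have h1 : (ext A : Matrix I I K).det = algebraMap ℂ K A.det := by
      rw [RingHom.map_det]
      rfl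
    rw [h1]
    intro h2
    exact hA.2.1 ((map_eq_zero (algebraMap ℂ K)).1 h2)
  refine mem_range_of_forall_valuationSubring _ fun O hO => ?_
  obtain ⟨b, c, hb, hN, hint⟩ := exists_nrm O hMbd hMdet
  choose p q P' Q' hT hP hQ' hpq hne hPQ using hs
  have hF : ∀ v, ev (b * ut (fib S.blk S.T i) ξ (ext A)) (S.F v) = 0 := by
    intro v
    rw [(S.semi v).ev_eq hb hMbd, hξ v, mul_zero]
  obtain ⟨⟨B, hB⟩, hB1, hB2⟩ := exists_unit (ι := {B // B ∈ S.cone}) S.F (fun B => Q' B.1 B.2)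
    (fun A' h1 h2 h3 => ⟨⟨A', h1, h2, h3⟩, hne A' ⟨h1, h2, h3⟩⟩) O hO (hb.bd.mul hMbd) hN hint hF
  have hPO : ev (b * ut (fib S.blk S.T i) ξ (ext A)) (P' B hB) ∈ O := E3b_mem O hO _ hint _
  have hpi : p B hB i = q B hB i := by
    have := hpq B hB i
    omega
  obtain ⟨a, ha, hchi⟩ := chi_ratio hi hA.1 ξ hb hN (hT B hB) hpi
  have e1 := (hP B hB).ev_eq hb hMbd
  have e2 := (hQ' B hB).ev_eq hb hMbd
  have hQM : ev (ut (fib S.blk S.T i) ξ (ext A)) (Q' B hB) ≠ 0 := by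
    intro h0
    apply hB1
    show ev (b * ut (fib S.blk S.T i) ξ (ext A)) (Q' B hB) = 0
    rw [e2, h0, mul_zero]
  have hchiq : chi S.blk (q B hB) b ≠ 0 := by
    intro h0
    apply hB1
    show ev (b * ut (fib S.blk S.T i) ξ (ext A)) (Q' B hB) = 0
    rw [e2, h0, zero_mul]
  have hchip : chi S.blk (p B hB) b ≠ 0 := by
    intro h0
    rw [h0, mul_zero] at hchi
    exact hchiq hchi
  have hfr := frac_eq S hA hi h (hPQ B hB) ξ hξ hQ hQM
  have e3 : ev (ut (fib S.blk S.T i) ξ (ext A)) P / ev (ut (fib S.blk S.T i) ξ (ext A)) Q =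
      algebraMap ℂ K a * ev (b * ut (fib S.blk S.T i) ξ (ext A)) (P' B hB) *
        (ev (b * ut (fib S.blk S.T i) ξ (ext A)) (Q' B hB))⁻¹ := by
    rw [e1, e2, hchi]
    rw [hchi] at hchiq
    exact R9_alg hQ hQM hchiq hfr
  rw [e3]
  exact O.mul_mem _ _ (O.mul_mem _ _ (hO a) hPO) hB2

end

end Pool.Agent.MP_cfacaa_ag.Fl
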