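import Pool.Agent.Lib.MP_cfacaa_ag.Fl.R4
import Pool.Agent.Lib.MP_cfacaa_ag.Fl.R9
import Pool.Agent.Lib.MP_cfacaa_ag.Fl.R10
import Pool.Agent.Lib.MP_cfacaa_ag.Fl.C3

/-! Row ft-R11: the theorem on free classes. -/

namespace Pool.Agent.MP_cfacaa_ag.Fl

open MvPolynomial

section

variable {V I κ : Type} [Fintype V] [Fintype I] [LinearOrder I] (S : FSys V I κ)

omit [Fintype V] in
/-- `ev`, `ut` and homomorphisms of algebras -/
theorem R11_map {B L : Type} [CommRing B] [Algebra ℂ B] [CommRing L] [Algebra ℂ L] (φ : B →ₐ[ℂ] L)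
    (s : Finset (I × I)) (z : I × I → B) (M : Matrix I I B) (P : MvPolynomial (I × I) ℂ) :
    φ (ev (ut s z M) P) = ev (ut s (fun p => φ (z p)) (fun x y => φ (M x y))) P := by
  unfold ev
  rw [comp_aeval_apply]
  congr 2
  funext p
  unfold ut
  rw [map_add, map_sum]
  congr 1
  refine Finset.sum_congr rfl fun y _ => ?_
  rw [map_mul]
  congr 1
  split_ifs
  · rfl
  · exact map_zero φ

omit [Fintype V] in
/-- the point `0` of the fibre -/
theorem R11_zero {R : Type} [CommRing R] (s : Finset (I × I)) (A : Matrix I I R) :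
    ut s (fun _ => 0) A = A := by
  funext x c
  unfold ut
  rw [Finset.sum_eq_zero, add_zero]
  intro y _
  rw [ite_self, zero_mul]

open Classical in
/-- A point `ξ` of the fibre through `A` over an extension `K`. `exists_point` with the variables `{p // p ∈ fib}` and the equations `v` with `e v i ≠ 0`: `f v = ` the polynomial `utP (F v)` in these variables (`rename`d back; e.g. `f v = aeval (fun p => if h : p ∈ fib then X ⟨p, h⟩ else 0) (utP (F v))`;
`ut (fib) z` depends only on the values of `z` on `fib`), `constantCoeff (f v) = ev A (F v) = 0`. `ξ p = 0` for `p ∉ fib`. The equations with `e v i = 0`: `ev_ut`, `ev_ext`. -/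
theorem exists_xi {A : Matrix I I ℂ} (hA : A ∈ S.cone) {i : Pos S.blk} (hi : i ∈ S.T)
    (hfree : (Finset.univ.filter fun v => S.e v i ≠ 0).card + (roots S.blk (S.T \ {i})).card < (roots S.blk S.T).card) :
    ∃ (K : Type) (_ : Field K) (_ : Algebra ℂ K) (ξ : I × I → K),
      (∀ v, ev (ut (fib S.blk S.T i) ξ (ext A)) (S.F v) = 0) ∧
      (∃ s ∈ fib S.blk S.T i, ξ s ∉ Set.range (algebraMap ℂ K)) ∧
      ∀ P : MvPolynomial (I × I) ℂ, ev A P ≠ 0 → ev (ut (fib S.blk S.T i) ξ (ext A)) P ≠ 0 := by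
  let z : I × I → MvPolynomial {p // p ∈ fib S.blk S.T i} ℂ :=
    fun p => if h : p ∈ fib S.blk S.T i then X ⟨p, h⟩ else 0
  let M : Matrix I I (MvPolynomial {p // p ∈ fib S.blk S.T i} ℂ) := fun x y => C (A x y)
  let g : MvPolynomial (I × I) ℂ → MvPolynomial {p // p ∈ fib S.blk S.T i} ℂ :=
    fun P => ev (ut (fib S.blk S.T i) z M) P
  have hg0 : ∀ P, constantCoeff (g P) = ev A P := by
    intro P
    have h1 : aeval (0 : {p // p ∈ fib S.blk S.T i} → ℂ) (g P) = constantCoeff (g P) := by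
      rw [aeval_zero]
      rfl
    rw [← h1]
    show (aeval (0 : {p // p ∈ fib S.blk S.T i} → ℂ)) (ev (ut (fib S.blk S.T i) z M) P) = _
    rw [R11_map]
    have h2 : (fun p => (aeval (0 : {p // p ∈ fib S.blk S.T i} → ℂ)) (z p)) = fun _ => (0 : ℂ) := by
      funext p
      show (aeval (0 : {p // p ∈ fib S.blk S.T i} → ℂ))
        (if h : p ∈ fib S.blk S.T i then X ⟨p, h⟩ else 0) = 0
      split_ifs
      · rw [aeval_X]
        rfl
      · exact map_zero _
    have h3 : (fun x y => (aeval (0 : {p // p ∈ fib S.blk S.T i} → ℂ)) (M x y)) = A := by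
      funext x y
      show (aeval (0 : {p // p ∈ fib S.blk S.T i} → ℂ)) (C (A x y)) = A x y
      rw [aeval_C]
      rfl
    rw [h2, h3, R11_zero]
  obtain ⟨K, hK1, hK2, ξ', hξ1, ⟨s, hs⟩, hξ3⟩ := exists_point
    (σ := {p // p ∈ fib S.blk S.T i}) (V := {v // S.e v i ≠ 0}) (fun v => g (S.F v.1))
    (fun v => by rw [hg0]; exact hA.2.2 v.1) (by
      have h1 := card_fib (blk := S.blk) (T := S.T) (i := i)
      rw [Fintype.card_subtype, Fintype.card_coe]
      omega)
  refine ⟨K, hK1, hK2, fun p => if h : p ∈ fib S.blk S.T i then ξ' ⟨p, h⟩ else 0, ?_⟩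
  have hg : ∀ P, aeval ξ' (g P) = ev (ut (fib S.blk S.T i)
      (fun p => if h : p ∈ fib S.blk S.T i then ξ' ⟨p, h⟩ else 0) (ext A)) P := by
    intro P
    show (aeval ξ') (ev (ut (fib S.blk S.T i) z M) P) = _
    rw [R11_map]
    have h2 : (fun p => (aeval ξ') (z p)) =
        fun p => if h : p ∈ fib S.blk S.T i then ξ' ⟨p, h⟩ else 0 := by
      funext p
      show (aeval ξ') (if h : p ∈ fib S.blk S.T i then X ⟨p, h⟩ else 0) = _
      split_ifs
      · rw [aeval_X]
      · exact map_zero _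
    have h3 : (fun x y => (aeval ξ') (M x y)) = (ext A : Matrix I I K) := by
      funext x y
      show (aeval ξ') (C (A x y)) = algebraMap ℂ K (A x y)
      rw [aeval_C]
    rw [h2, h3]
  refine ⟨?_, ⟨s.1, s.2, ?_⟩, ?_⟩
  · intro v
    by_cases hv : S.e v i = 0
    · rw [ev_ut hi (fun j hj => by by_contra h; exact hj (S.supp v j h)) hv (S.semi v), ev_ext,
        hA.2.2 v, map_zero]
      intro x y hxy
      show algebraMap ℂ K (A x y) = 0
      rw [hA.1 x y hxy, map_zero]
    · rw [← hg]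
      exact hξ1 ⟨v, hv⟩
  · show (if h : s.1 ∈ fib S.blk S.T i then ξ' ⟨s.1, h⟩ else 0) ∉ Set.range (algebraMap ℂ K)
    rw [dif_pos s.2]
    exact hs
  · intro P hP h0
    rw [← hg] at h0
    have h1 := hξ3 _ h0
    rw [hg0] at h1
    exact hP h1

end

end Pool.Agent.MP_cfacaa_ag.Fl
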