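import Pool.Agent.Lib.MP_cfacaa_ag.Fl.B2b

/-! Row ft-R2: semi-invariants of weight zero between `x` and `y`. -/

namespace Pool.Agent.MP_cfacaa_ag.Fl

section

variable {I κ : Type} [Fintype I] [LinearOrder I] {blk : I → κ}

omit [Fintype I] in
theorem R2_bd {L : Type} [CommRing L] {x y : I} (hb : blk x = blk y) {A : Matrix I I L} (hA : BD blk A)
    (t : L) : BD blk (up x y t A) := by
  intro a c hac
  unfold up
  by_cases h : a = x
  · rw [if_pos h]
    rw [h] at hac
    have h1 : A x c = 0 := hA x c hac
    have h2 : A y c = 0 := hA y c (by rw [← hb]; exact hac)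
    rw [h1, h2, mul_zero, add_zero]
  · rw [if_neg h]
    exact hA a c hac

omit [Fintype I] in
theorem R2_comm {L : Type} [CommRing L] {x z y : I} (hxz : x ≠ z) (hxy : x ≠ y) (hzy : z ≠ y) (t : L)
    (A : Matrix I I L) :
    up x y t A = up x z t (up z y 1 (up x z (-t) (up z y (-1) A))) := by
  ext a c
  unfold up
  by_cases h1 : a = x
  · subst h1
    simp only [if_pos, if_neg hxz, if_neg hxz.symm, if_neg hxy.symm, if_neg hzy.symm]
    ring
  · by_cases h2 : a = z
    · subst h2
      simp only [if_pos, if_neg h1, if_neg hxz, if_neg hxy.symm, if_neg hzy.symm]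
      ring
    · simp only [if_neg h1, if_neg h2]

theorem R2_succ {L : Type} [Field L] [Infinite L] {e : Pos blk → ℕ} {P : MvPolynomial (I × I) L}
    (hP : Semi blk e P) {x y : I} (hn : Nx blk x y)
    (he : ∀ j : Pos blk, j.1 = x → e j = 0) (t : L) {A : Matrix I I L} (hA : BD blk A) :
    ev (up x y t A) P = ev A P := by
  obtain ⟨p, hp1, hp2, -⟩ := exists_pol (i := ⟨x, y, hn.eq, hn.lt⟩) hn hP hA
  have h0 : e ⟨x, y, hn.eq, hn.lt⟩ = 0 := he _ rfl
  rw [h0] at hp1
  have hp3 := Polynomial.eq_C_of_natDegree_le_zero hp1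
  have h1 := hp2 t
  have h2 := hp2 0
  have h3 : p.eval t = p.eval 0 := by
    rw [hp3, Polynomial.eval_C, Polynomial.eval_C]
  rw [← h1, h3, h2]
  show ev (up x y 0 A) P = ev A P
  rw [up_zero]

theorem R2_ind {L : Type} [Field L] [Infinite L] {e : Pos blk → ℕ} {P : MvPolynomial (I × I) L}
    (hP : Semi blk e P) (y : I) (n : ℕ) : ∀ x : I,
    (Finset.univ.filter fun z : I => x < z ∧ z ≤ y).card ≤ n →
    blk x = blk y → x < y →
    (∀ j : Pos blk, blk j.1 = blk x → x ≤ j.1 → j.1 < y → e j = 0) → ∀ (t : L) {A : Matrix I I L},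
    BD blk A → ev (up x y t A) P = ev A P := by
  induction n with
  | zero =>
    intro x hcard _ hxy
    exfalso
    have h1 : y ∈ (Finset.univ.filter fun z : I => x < z ∧ z ≤ y) :=
      Finset.mem_filter.2 ⟨Finset.mem_univ _, hxy, le_rfl⟩
    have h2 := Finset.card_pos.2 ⟨y, h1⟩
    omega
  | succ n ih =>
    intro x hcard hb hxy he t A hA
    obtain ⟨z, hz⟩ := exists_nx (blk := blk) ⟨x, y, hb.symm, hxy⟩
    have hz1 : blk z = blk x := hz.eq
    have hz2 : x < z := hz.lt
    have hz3 : z ≤ y := hz.le y hb.symm hxy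
    have hex : ∀ j : Pos blk, j.1 = x → e j = 0 := by
      intro j hj
      refine he j ?_ ?_ ?_
      · rw [hj]
      · rw [hj]
      · rw [hj]
        exact hxy
    rcases hz3.eq_or_lt with h | h
    · rw [h] at hz
      exact R2_succ hP hz hex t hA
    · have hlt : (Finset.univ.filter fun w : I => z < w ∧ w ≤ y).card <
          (Finset.univ.filter fun w : I => x < w ∧ w ≤ y).card := by
        apply Finset.card_lt_card
        rw [Finset.ssubset_iff_of_subset]
        · refine ⟨z, Finset.mem_filter.2 ⟨Finset.mem_univ _, hz2, hz3⟩, fun hw => ?_⟩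
          exact lt_irrefl _ (Finset.mem_filter.1 hw).2.1
        · intro w hw
          obtain ⟨h1, h2, h3⟩ := Finset.mem_filter.1 hw
          exact Finset.mem_filter.2 ⟨h1, hz2.trans h2, h3⟩
      have hfar : ∀ (u : L) {B : Matrix I I L}, BD blk B → ev (up z y u B) P = ev B P := by
        intro u B hB
        refine ih z (by omega) (hz1.trans hb) h ?_ u hB
        intro j h1 h2 h3
        exact he j (h1.trans hz1) (hz2.le.trans h2) h3
      have hzy : blk z = blk y := hz1.trans hb
      rw [R2_comm (z := z) hz2.ne hxy.ne h.ne t A]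
      have b1 := R2_bd hzy hA (-1)
      have b2 := R2_bd hz1.symm b1 (-t)
      have b3 := R2_bd hzy b2 1
      rw [R2_succ hP hz hex t b3, hfar 1 b2, R2_succ hP hz hex (-t) b1, hfar (-1) hA]

/-- `x < y` in one block and `e j = 0` for all `j` in the block with `x ≤ j < y`. Induction on the number of the elements of the block between `x` and `y`. If `y` is the successor of `x`: the polynomial of `exists_pol` has degree at most `e x = 0`, so its value at `t` is its value at `0`, `up x y 0 A = A` (`up_zero`).
Otherwise let `x'` be the successor of `x` (`exists_nx`), `x < x' < y`. For every `t`: `up x y t A = up x x' t (up x' y 1 (up x x' (-t) (up x' y (-1) A)))` (compare the rows `x`, `x'`; the row `y` and the others do not change), and the four steps do not change the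
value of `F` (`BD` is preserved by row operations in a block). -/
theorem ev_up_far {L : Type} [Field L] [Infinite L] {e : Pos blk → ℕ} {P : MvPolynomial (I × I) L} (hP : Semi blk e P)
    {x y : I} (hb : blk x = blk y) (hxy : x < y)
    (he : ∀ j : Pos blk, blk j.1 = blk x → x ≤ j.1 → j.1 < y → e j = 0) (t : L) {A : Matrix I I L} (hA : BD blk A) :
    ev (up x y t A) P = ev A P :=
  R2_ind hP y _ x le_rfl hb hxy he t hA

end

end Pool.Agent.MP_cfacaa_ag.Fl
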