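import Pool.Agent.Lib.MP_cfacaa_ag.Fl.R1
import Pool.Agent.Lib.MP_cfacaa_ag.Fl.R2
import Pool.Agent.Lib.MP_cfacaa_ag.Fl.A3

/-! Row ft-R3: semi-invariants of weight zero at `i` are constant on the fibre. -/

namespace Pool.Agent.MP_cfacaa_ag.Fl

section

variable {I κ : Type} [Fintype I] [LinearOrder I] {blk : I → κ} {T : Set (Pos blk)} {i : Pos blk}

/-- First for a semi-invariant `P` over the infinite field `L` and `ut s z A`, `s ⊆ fib blk T i`, by induction on `s` (`ut_insert`, `ev_up_far`: for `x ≤ j < y`, `(x, y) ∈ fib`: `j ∈ T` gives `j = i`, `e i = 0`; `j ∉ T` gives `e j = 0`). For `P` over `ℂ` use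
`map (algebraMap ℂ L) P` (semi-invariant: `Semi.ev_eq` with `ev_map`, or `Semi.map_add` with `lam = 0`). `L` is infinite (`algebraMap ℂ L` is injective). -/
theorem ev_ut (hi : i ∈ T) {e : Pos blk → ℕ} (heT : ∀ j, j ∉ T → e j = 0) (he : e i = 0) {P : MvPolynomial (I × I) ℂ}
    (hP : Semi blk e P) {L : Type} [Field L] [Algebra ℂ L] (z : I × I → L) {A : Matrix I I L} (hA : BD blk A) :
    ev (ut (fib blk T i) z A) P = ev A P := by
  classical
  have hL : Infinite L := Infinite.of_injective (algebraMap ℂ L) (algebraMap ℂ L).injective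
  have hS : Semi blk e (MvPolynomial.map (algebraMap ℂ L) P) := by
    intro b B hb hB
    rw [ev_map, ev_map]
    exact hP.ev_eq hb hB
  have key : ∀ s : Finset (I × I), s ⊆ fib blk T i →
      ev (ut s z A) (MvPolynomial.map (algebraMap ℂ L) P) =
        ev A (MvPolynomial.map (algebraMap ℂ L) P) := by
    intro s
    induction s using Finset.induction_on with
    | empty =>
      intro _
      rw [ut_empty]
    | insert p s hn ih =>
      intro hps
      obtain ⟨x, y⟩ := p
      have hs : s ⊆ fib blk T i := fun q hq => hps (Finset.mem_insert_of_mem hq)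
      have hxy : (x, y) ∈ fib blk T i := hps (Finset.mem_insert_self _ _)
      obtain ⟨h1, h2, h3, h4, h5⟩ := (mem_fib hi x y).1 hxy
      rw [ut_insert hi hs hxy hn]
      rw [ev_up_far hS (h1.trans h2.symm) (lt_of_le_of_lt h3 h4) ?_ _ (bd_ut hi hs z hA)]
      · exact ih hs
      · intro j hj1 hj2 hj3
        by_cases hjT : j ∈ T
        · rw [h5 j hjT (hj1.trans h1) hj2 hj3]
          exact he
        · exact heT j hjT
  have h := key _ (Finset.Subset.refl _)
  rw [ev_map, ev_map] at h
  exact h

omit [LinearOrder I] in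
/-- values at extended matrices -/
theorem ev_ext {L : Type} [Field L] [Algebra ℂ L] (A : Matrix I I ℂ) (P : MvPolynomial (I × I) ℂ) :
    ev (ext A : Matrix I I L) P = algebraMap ℂ L (ev A P) := by
  have h : (Algebra.ofId ℂ L) (ev A P) = ev (ext A : Matrix I I L) P := by
    unfold ev
    rw [MvPolynomial.comp_aeval_apply]
    rfl
  exact h.symm

end

end Pool.Agent.MP_cfacaa_ag.Fl
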