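import Mathlib

/-! Row ft-R4: a point of positive dimension. -/

namespace Pool.Agent.MP_cfacaa_ag.Fl

open MvPolynomial

/-- put the variables of `s` equal to zero -/
noncomputable def R4_phi {σ : Type} (s : Set σ) : MvPolynomial σ ℂ →ₐ[ℂ] MvPolynomial σ ℂ := by
  classical
  exact aeval fun i => if i ∈ s then 0 else X i

theorem R4_phi_X {σ : Type} (s : Set σ) (i : σ) [Decidable (i ∈ s)] :
    R4_phi s (X i) = if i ∈ s then 0 else X i := by
  unfold R4_phi
  rw [aeval_X]
  split_ifs <;> rfl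

theorem R4_prime {σ : Type} (s : Set σ) : (RingHom.ker (R4_phi s)).IsPrime := RingHom.ker_isPrime _

theorem R4_le {σ : Type} {s t : Set σ} (h : s ⊆ t) :
    RingHom.ker (R4_phi s) ≤ RingHom.ker (R4_phi t) := by
  classical
  intro g hg
  have h1 : (R4_phi t).comp (R4_phi s) = R4_phi t := by
    ext i : 1
    rw [AlgHom.comp_apply, R4_phi_X, R4_phi_X]
    by_cases hi : i ∈ s
    · rw [if_pos hi, if_pos (h hi), map_zero]
    · rw [if_neg hi, R4_phi_X]
  rw [RingHom.mem_ker] at hg ⊢
  have h2 := DFunLike.congr_fun h1 g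
  rw [AlgHom.comp_apply, hg, map_zero] at h2
  exact h2.symm

theorem R4_card {σ : Type} (s : Finset σ) :
    (s.card : ℕ∞) ≤ (RingHom.ker (R4_phi (s : Set σ))).height := by
  classical
  induction s using Finset.induction_on with
  | empty => simp
  | insert a s ha ih =>
    have hp := R4_prime (s : Set σ)
    have hq := R4_prime ((insert a s : Finset σ) : Set σ)
    have hlt : RingHom.ker (R4_phi (s : Set σ)) <
        RingHom.ker (R4_phi ((insert a s : Finset σ) : Set σ)) := by
      refine lt_of_le_of_ne (R4_le (by simp)) ?_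
      intro he
      have h1 : (X a : MvPolynomial σ ℂ) ∈ RingHom.ker (R4_phi ((insert a s : Finset σ) : Set σ)) := by
        rw [RingHom.mem_ker, R4_phi_X, if_pos (by simp)]
      rw [← he, RingHom.mem_ker, R4_phi_X, if_neg (by simpa using ha)] at h1
      exact X_ne_zero a h1
    refine le_trans ?_ (Ideal.height_add_one_le_of_lt_of_isPrime hlt)
    rw [Finset.card_insert_of_notMem ha]
    push_cast
    gcongr

theorem R4_ker {σ : Type} [Fintype σ] (g : MvPolynomial σ ℂ) :
    R4_phi ((Finset.univ : Finset σ) : Set σ) g = C (constantCoeff g) := by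
  classical
  have h1 : R4_phi ((Finset.univ : Finset σ) : Set σ) = aeval (fun _ => (0 : MvPolynomial σ ℂ)) := by
    ext i : 1
    rw [R4_phi_X, if_pos (by simp), aeval_X]
  rw [h1]
  have h2 := aeval_zero' (σ := σ) (S₁ := MvPolynomial σ ℂ) g
  rw [h2]
  rfl

/-- The ideal `(X_1, …, X_n)` of `ℂ[X_1, …, X_n]` has height at least `n`: chain of the primes `(X_j, j < k)` (kernels of the evaluations `X_j ↦ 0` for `j < k`, `X_j ↦ X_j` otherwise), strictly increasing. -/
theorem le_height {σ : Type} [Fintype σ] :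
    (Fintype.card σ : ℕ∞) ≤ (RingHom.ker (constantCoeff : MvPolynomial σ ℂ →+* ℂ)).height := by
  have h1 : RingHom.ker (constantCoeff : MvPolynomial σ ℂ →+* ℂ) =
      RingHom.ker (R4_phi ((Finset.univ : Finset σ) : Set σ)) := by
    ext g
    rw [RingHom.mem_ker, RingHom.mem_ker, R4_ker, C_eq_zero]
  rw [h1]
  exact R4_card Finset.univ

/-- Fewer equations than variables, with the zero `0`. Let `m = ker constantCoeff`, `𝔭` a minimal prime of `(f v)` contained in `m` (`Ideal.exists_minimalPrimes_le`); its height is at most the number of equations (`Ideal.height_le_card_of_mem_minimalPrimes_span_finset`), so `𝔭 ≠ m` (`le_height`). `K` = fraction field of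
the quotient by `𝔭`, `ξ s` the image of `X s`. If all `ξ s` are in `ℂ`, `ξ s = c s`, then `X s - C (c s) ∈ 𝔭 ≤ m`, so `c s = 0`, `X s ∈ 𝔭` for all `s`, `𝔭 = m`. If `g (ξ) = 0` then `g ∈ 𝔭 ≤ m`. -/
theorem exists_point {σ V : Type} [Fintype σ] [Fintype V] (f : V → MvPolynomial σ ℂ)
    (h0 : ∀ v, constantCoeff (f v) = 0) (hc : Fintype.card V < Fintype.card σ) :
    ∃ (K : Type) (_ : Field K) (_ : Algebra ℂ K) (ξ : σ → K), (∀ v, aeval ξ (f v) = 0) ∧
      (∃ s, ξ s ∉ Set.range (algebraMap ℂ K)) ∧ ∀ g : MvPolynomial σ ℂ, aeval ξ g = 0 → constantCoeff g = 0 := by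
  classical
  obtain ⟨m, hm⟩ : ∃ m : Ideal (MvPolynomial σ ℂ),
      m = RingHom.ker (constantCoeff : MvPolynomial σ ℂ →+* ℂ) := ⟨_, rfl⟩
  have hmp : m.IsPrime := by
    rw [hm]
    exact RingHom.ker_isPrime _
  have hle : Ideal.span ((Finset.univ.image f : Finset (MvPolynomial σ ℂ)) : Set (MvPolynomial σ ℂ)) ≤ m := by
    rw [Ideal.span_le]
    intro g hg
    simp only [Finset.coe_image, Finset.coe_univ, Set.image_univ, Set.mem_range] at hg
    obtain ⟨v, rfl⟩ := hg
    rw [SetLike.mem_coe, hm, RingHom.mem_ker]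
    exact h0 v
  obtain ⟨p, hp, hpm⟩ := Ideal.exists_minimalPrimes_le hle
  have hpp : p.IsPrime := hp.1.1
  have hh : p.height ≤ (Fintype.card V : ℕ∞) := by
    refine (Ideal.height_le_card_of_mem_minimalPrimes_span_finset hp).trans ?_
    have : (Finset.univ.image f).card ≤ Fintype.card V := Finset.card_image_le
    exact_mod_cast this
  have hne : p ≠ m := by
    intro he
    rw [he, hm] at hh
    have h1 := (le_height (σ := σ)).trans hh
    have h2 : Fintype.card σ ≤ Fintype.card V := by exact_mod_cast h1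
    omega
  have hfp : ∀ v, f v ∈ p := by
    intro v
    apply hp.1.2
    apply Ideal.subset_span
    simp
  obtain ⟨ξ, hξ⟩ : ∃ ξ : σ → FractionRing (MvPolynomial σ ℂ ⧸ p),
      ξ = fun s => algebraMap (MvPolynomial σ ℂ ⧸ p) _ (Ideal.Quotient.mk p (X s)) := ⟨_, rfl⟩
  have hev : ∀ g : MvPolynomial σ ℂ, aeval ξ g =
      algebraMap (MvPolynomial σ ℂ ⧸ p) (FractionRing (MvPolynomial σ ℂ ⧸ p)) (Ideal.Quotient.mk p g) := by
    intro g
    have h1 : aeval ξ = (IsScalarTower.toAlgHom ℂ (MvPolynomial σ ℂ ⧸ p)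
        (FractionRing (MvPolynomial σ ℂ ⧸ p))).comp (Ideal.Quotient.mkₐ ℂ p) := by
      ext s : 1
      rw [aeval_X, hξ, AlgHom.comp_apply]
      rfl
    rw [h1, AlgHom.comp_apply]
    rfl
  have hz : ∀ g : MvPolynomial σ ℂ, aeval ξ g = 0 ↔ g ∈ p := by
    intro g
    rw [hev, map_eq_zero_iff _ (IsFractionRing.injective _ _), Ideal.Quotient.eq_zero_iff_mem]
  refine ⟨FractionRing (MvPolynomial σ ℂ ⧸ p), inferInstance, inferInstance, ξ, fun v => (hz _).2 (hfp v),
    ?_, fun g hg => ?_⟩
  · by_contra hcon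
    push Not at hcon
    have hc0 : ∀ s, ξ s = 0 := by
      intro s
      obtain ⟨c, hc⟩ := hcon s
      have h1 : aeval ξ (X s - C c) = 0 := by
        rw [map_sub, aeval_X, ← hc, ← algebraMap_eq, AlgHom.commutes, sub_self]
      have h2 := hpm ((hz _).1 h1)
      rw [hm, RingHom.mem_ker, map_sub, constantCoeff_X, constantCoeff_C, zero_sub, neg_eq_zero] at h2
      rw [← hc, h2, map_zero]
    apply hne
    refine le_antisymm hpm ?_
    intro g hg
    rw [← hz]
    have h3 : ξ = fun _ => 0 := funext hc0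
    rw [h3, aeval_zero']
    rw [hm, RingHom.mem_ker] at hg
    rw [hg, map_zero]
  · have h1 := hpm ((hz g).1 hg)
    rwa [hm, RingHom.mem_ker] at h1

end Pool.Agent.MP_cfacaa_ag.Fl
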