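import Pool.Agent.Lib.MP_cfacaa_ag.G.NS

/-! Row ft-R5: Nullstellensatz. -/

namespace Pool.Agent.MP_cfacaa_ag.Fl

open MvPolynomial

/-- If `g` vanishes at the complex zeros of the `f v`, it vanishes at the zeros over all extension fields: otherwise the equations `f v = 0` and `Y * g - 1 = 0` (one more variable `Y`, type `Option σ`) have a zero over `K`, so over `ℂ` (`G.exists_zero_of_extension`): contradiction. (Or `MvPolynomial.vanishingIdeal_zeroLocus_eq_radical`.) -/
theorem vanish_ext {σ : Type} [Finite σ] {V : Type} (f : V → MvPolynomial σ ℂ) (g : MvPolynomial σ ℂ)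
    (h : ∀ z : σ → ℂ, (∀ v, aeval z (f v) = 0) → aeval z g = 0) {K : Type} [Field K] [Algebra ℂ K] (ξ : σ → K)
    (hξ : ∀ v, aeval ξ (f v) = 0) : aeval ξ g = 0 := by
  have h1 : g ∈ vanishingIdeal ℂ (zeroLocus ℂ (Ideal.span (Set.range f))) := by
    rw [mem_vanishingIdeal_iff]
    intro z hz
    apply h
    intro v
    rw [mem_zeroLocus_iff] at hz
    exact hz (f v) (Ideal.subset_span ⟨v, rfl⟩)
  rw [vanishingIdeal_zeroLocus_eq_radical] at h1
  obtain ⟨n, hn⟩ := h1
  have h2 : Ideal.span (Set.range f) ≤ RingHom.ker (aeval ξ : MvPolynomial σ ℂ →ₐ[ℂ] K) := by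
    rw [Ideal.span_le]
    rintro p ⟨v, rfl⟩
    exact hξ v
  have h3 : aeval ξ (g ^ n) = 0 := h2 hn
  rw [map_pow] at h3
  exact eq_zero_of_pow_eq_zero h3

end Pool.Agent.MP_cfacaa_ag.Fl
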