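import Pool.Agent.Lib.MP_cfacaa_ag.Fl.E3a

/-! Row ft-R6: flags over an extension field; reduction. -/

namespace Pool.Agent.MP_cfacaa_ag.Fl

open MvPolynomial

section

variable {I κ : Type} [Fintype I] [LinearOrder I] {blk : I → κ}

/-- As `exists_flag_of_extension` in `E2.lean` (without `up`): `G.exists_zero_of_extension` with the variables `I × I` and the equations: `X (x, y) = 0` for `blk x ≠ blk y`; `X (l, c l) - 1 = 0`; `X (x, c l) = 0` for `l < x`; `F v = 0`. -/
theorem exists_flag_point {V : Type} (F : V → MvPolynomial (I × I) ℂ) {L : Type} [Field L] [Algebra ℂ L]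
    {A : Matrix I I L} {c : I → I} (hA : BD blk A) (hN : Nrm A c) (h : ∀ v, ev A (F v) = 0) :
    ∃ A' : Matrix I I ℂ, BD blk A' ∧ Nrm A' c ∧ ∀ v, ev A' (F v) = 0 := by
  obtain ⟨y, hy⟩ := G.exists_zero_of_extension (σ := I × I) (K := ℂ) (F := L)
    ({p | ∃ v, p = F v} ∪ ({p | ∃ x z, blk x ≠ blk z ∧ p = X (x, z)} ∪
      ({p | ∃ l, p = X (l, c l) - 1} ∪ {p | ∃ l x, l < x ∧ p = X (x, c l)}))) (fun p => A p.1 p.2) (by
    rintro p (⟨v, rfl⟩ | ⟨x, z, hxz, rfl⟩ | ⟨l, rfl⟩ | ⟨l, x, hlx, rfl⟩)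
    · exact h v
    · rw [aeval_X]
      exact hA x z hxz
    · rw [map_sub, aeval_X, map_one, hN.1 l, sub_self]
    · rw [aeval_X]
      exact hN.2 l x hlx)
  refine ⟨fun x z => y (x, z), fun x z hxz => ?_, ⟨fun l => ?_, fun l x hlx => ?_⟩, fun v => ?_⟩
  · have h1 := hy (X (x, z)) (Or.inr (Or.inl ⟨x, z, hxz, rfl⟩))
    rwa [aeval_X] at h1
  · have h1 := hy (X (l, c l) - 1) (Or.inr (Or.inr (Or.inl ⟨l, rfl⟩)))
    rwa [map_sub, aeval_X, map_one, sub_eq_zero] at h1
  · have h1 := hy (X (x, c l)) (Or.inr (Or.inr (Or.inr ⟨l, x, hlx, rfl⟩)))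
    rwa [aeval_X] at h1
  · exact hy (F v) (Or.inl ⟨v, rfl⟩)

theorem R6_reduce {V : Type} (F : V → MvPolynomial (I × I) ℂ) {L : Type} [Field L] [Algebra ℂ L] (O : ValuationSubring L)
    (hO : ∀ a : ℂ, algebraMap ℂ L a ∈ O) {A : Matrix I I L} {c : I → I} (hA : BD blk A) (hN : Nrm A c)
    (hAO : ∀ x y, A x y ∈ O) (h : ∀ v, O.valuation (ev A (F v)) < 1) :
    ∃ A' : Matrix I I ℂ, BD blk A' ∧ A'.det ≠ 0 ∧ ∀ v, ev A' (F v) = 0 := by
  let f : ℂ →+* O := (algebraMap ℂ L).codRestrict O.toSubring hO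
  let _ : Algebra ℂ O := f.toAlgebra
  let _ : Algebra ℂ (IsLocalRing.ResidueField O) := ((IsLocalRing.residue O).comp f).toAlgebra
  let j : O →ₐ[ℂ] L := { O.subtype with commutes' := fun k => rfl }
  let r : O →ₐ[ℂ] IsLocalRing.ResidueField O :=
    { IsLocalRing.residue O with commutes' := fun k => rfl }
  let AO : Matrix I I O := fun x y => ⟨A x y, hAO x y⟩
  have hA1 : BD blk (fun x y => r (AO x y) : Matrix I I (IsLocalRing.ResidueField O)) := by
    intro x y hxy
    have e : AO x y = 0 := Subtype.ext (hA x y hxy)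
    show r (AO x y) = 0
    rw [e, map_zero]
  have hN1 : Nrm (fun x y => r (AO x y) : Matrix I I (IsLocalRing.ResidueField O)) c := by
    refine ⟨fun l => ?_, fun l x hlx => ?_⟩
    · have e : AO l (c l) = 1 := Subtype.ext (hN.1 l)
      show r (AO l (c l)) = 1
      rw [e, map_one]
    · have e : AO x (c l) = 0 := Subtype.ext (hN.2 l x hlx)
      show r (AO x (c l)) = 0
      rw [e, map_zero]
  have hF1 : ∀ v, ev (fun x y => r (AO x y) : Matrix I I (IsLocalRing.ResidueField O)) (F v) = 0 := by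
    intro v
    have e2 : A = fun x y => j (AO x y) := rfl
    have e3 : aeval (fun p : I × I => r (AO p.1 p.2)) (F v) = r (aeval (fun p : I × I => AO p.1 p.2) (F v)) :=
      (comp_aeval_apply (fun p : I × I => AO p.1 p.2) r (F v)).symm
    have e4 : aeval (fun p : I × I => j (AO p.1 p.2)) (F v) = j (aeval (fun p : I × I => AO p.1 p.2) (F v)) :=
      (comp_aeval_apply (fun p : I × I => AO p.1 p.2) j (F v)).symm
    have h2 : aeval (fun p : I × I => AO p.1 p.2) (F v) ∈ IsLocalRing.maximalIdeal O := by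
      rw [ValuationSubring.valuation_lt_one_iff]
      have h3 := h v
      rw [e2] at h3
      unfold ev at h3
      rw [e4] at h3
      exact h3
    unfold ev
    rw [e3]
    exact (IsLocalRing.residue_eq_zero_iff _).mpr h2
  obtain ⟨A', h1, h2, h3⟩ := exists_flag_point F hA1 hN1 hF1
  exact ⟨A', h1, h2.det_ne_zero, h3⟩

/-- As `reduce` in `E3a.lean` (without `up`; take the polynomials `F v` and `Q a` together, type `V ⊕ ι`): if all `Q a` had a value of valuation `< 1` at `A`, the reduction of `A` would be a common zero of the `F v` and the `Q a` over the residue field; `exists_flag_point` gives a complex one. (The values `ev A (Q a)` are in `O`: `E3b_mem` in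
`E3b.lean`, or directly.) -/
theorem exists_unit {V ι : Type} (F : V → MvPolynomial (I × I) ℂ) (Q : ι → MvPolynomial (I × I) ℂ)
    (hQ : ∀ A' : Matrix I I ℂ, BD blk A' → A'.det ≠ 0 → (∀ v, ev A' (F v) = 0) → ∃ a, ev A' (Q a) ≠ 0)
    {L : Type} [Field L] [Algebra ℂ L] (O : ValuationSubring L) (hO : ∀ a : ℂ, algebraMap ℂ L a ∈ O)
    {A : Matrix I I L} {c : I → I} (hA : BD blk A) (hN : Nrm A c) (hAO : ∀ x y, A x y ∈ O) (h : ∀ v, ev A (F v) = 0) :
    ∃ a, ev A (Q a) ≠ 0 ∧ (ev A (Q a))⁻¹ ∈ O := by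
  by_contra hcon
  push Not at hcon
  have hval : ∀ w : V ⊕ ι, O.valuation (ev A (Sum.elim F Q w)) < 1 := by
    rintro (v | a)
    · rw [Sum.elim_inl, h v, map_zero]
      exact zero_lt_one
    · rw [Sum.elim_inr]
      by_cases h0 : ev A (Q a) = 0
      · rw [h0, map_zero]
        exact zero_lt_one
      · have h1 := hcon a h0
        rw [← O.valuation_le_one_iff, map_inv₀, not_le] at h1
        exact (one_lt_inv₀ (zero_lt_iff.2 ((Valuation.ne_zero_iff _).2 h0))).1 h1
  obtain ⟨A', h1, h2, h3⟩ := R6_reduce (Sum.elim F Q) O hO hA hN hAO hval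
  obtain ⟨a, ha⟩ := hQ A' h1 h2 fun v => h3 (Sum.inl v)
  exact ha (h3 (Sum.inr a))

end

end Pool.Agent.MP_cfacaa_ag.Fl
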