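import Pool.Agent.Lib.MP_cfacaa_ag.Fl.R3
import Pool.Agent.Lib.MP_cfacaa_ag.Fl.A2

/-! Row ft-R7: the characters of the reducing matrix. -/

namespace Pool.Agent.MP_cfacaa_ag.Fl

section

variable {I κ : Type} [Fintype I] [LinearOrder I] {blk : I → κ} {T : Set (Pos blk)} {i : Pos blk}

theorem R7_chi_om {L : Type} [Field L] (j : Pos blk) (b : Matrix I I L) :
    chi blk (om j) b = ∏ x ∈ seg blk j.1, b x x := by
  unfold chi
  rw [Finset.prod_eq_single j]
  · simp [om]
  · intro l _ hl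
    simp [om, hl]
  · intro h
    exact absurd (Finset.mem_univ _) h

theorem R7_one {L : Type} [Field L] [Algebra ℂ L] {B : Matrix I I L} {c : I → I} (hN : Nrm B c) (j : I) :
    ev B (Dm blk j (pm c : Matrix I I ℂ)) = 1 := by
  rw [ev_Dm_pm, Matrix.det_of_isUpperTriangular]
  · apply Finset.prod_eq_one
    intro x _
    rw [Matrix.of_apply]
    exact hN.1 x.1
  · intro r l hrl
    have h : l.1 < r.1 := hrl
    rw [Matrix.of_apply]
    exact hN.2 l.1 r.1 h

/-- Let `M = ut (fib blk T i) ξ (ext A)`, `b` lower triangular with `Nrm (b * M) c`; `G = Dm blk j (pm c)` has the value `1` at `b * M` (`ev_Dm_pm`: the matrix `(b * M) r (c l)`, `r`, `l ∈ seg blk j`, is upper triangular with diagonal `1`), so by `Semi.ev_eq` (weight `om j`, `semi_Dm`) `1 = chi (om j) b * ev M G`, and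
`ev M G = ev (ext A) G ∈ ℂ` (`ev_ut`: `om j` is supported on `T` and is `0` at `i`; `ev_ext`). So `chi (om j) b` is the inverse of a complex number. -/
theorem chi_om (hi : i ∈ T) {j : Pos blk} (hj : j ∈ T) (hji : j ≠ i) {A : Matrix I I ℂ} (hA : BD blk A)
    {L : Type} [Field L] [Algebra ℂ L] (ξ : I × I → L) {b : Matrix I I L} (hb : Low blk b) {c : I → I}
    (hN : Nrm (b * ut (fib blk T i) ξ (ext A)) c) :
    ∃ a : ℂ, a ≠ 0 ∧ chi blk (om j) b = algebraMap ℂ L a := by
  have hAe : BD blk (ext A : Matrix I I L) := by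
    intro x y hxy
    show algebraMap ℂ L (A x y) = 0
    rw [hA x y hxy, map_zero]
  have hM : BD blk (ut (fib blk T i) ξ (ext A)) := bd_ut hi (Finset.Subset.refl _) ξ hAe
  have h1 := R7_one (blk := blk) hN j.1
  have hS : Semi blk (om j) (Dm blk j.1 (pm c : Matrix I I ℂ)) := semi_Dm j _
  rw [hS.ev_eq hb hM, ev_ut hi (e := om j) (by
      intro l hl
      have h : l ≠ j := fun h => hl (h ▸ hj)
      simp [om, h]) (by
      have h : ¬ i = j := fun h => hji h.symm
      simp [om, h]) hS ξ hAe, ev_ext] at h1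
  set g : ℂ := ev A (Dm blk j.1 (pm c : Matrix I I ℂ)) with hg
  have hg0 : g ≠ 0 := by
    intro h
    rw [h, map_zero, mul_zero] at h1
    exact zero_ne_one h1
  refine ⟨g⁻¹, inv_ne_zero hg0, ?_⟩
  rw [map_inv₀]
  exact eq_inv_of_mul_eq_one_left h1

/-- `chi blk e b = ∏ j, chi blk (om j) b ^ e j` (`chi` and `om`). The weights `p`, `q` are `0` off `T` and `p i = q i`. `chi blk (om i) b ≠ 0`: `b.det ≠ 0` (`hN` gives `(b * M).det ≠ 0`, `Nrm.det_ne_zero` in `E1a.lean`; or take `hbi` as it is). -/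
theorem chi_ratio (hi : i ∈ T) {A : Matrix I I ℂ} (hA : BD blk A) {L : Type} [Field L] [Algebra ℂ L] (ξ : I × I → L)
    {b : Matrix I I L} (hb : Low blk b) {c : I → I} (hN : Nrm (b * ut (fib blk T i) ξ (ext A)) c)
    {p q : Pos blk → ℕ} (hp : ∀ j, j ∉ T → p j = 0 ∧ q j = 0) (hpq : p i = q i) :
    ∃ a : ℂ, a ≠ 0 ∧ chi blk q b = algebraMap ℂ L a * chi blk p b := by
  classical
  have hstep : ∀ j : Pos blk, ∃ a : ℂ, a ≠ 0 ∧
      (∏ x ∈ seg blk j.1, b x x) ^ q j = algebraMap ℂ L a * (∏ x ∈ seg blk j.1, b x x) ^ p j := by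
    intro j
    by_cases hji : j = i
    · subst hji
      exact ⟨1, one_ne_zero, by rw [map_one, one_mul, hpq]⟩
    · by_cases hj : j ∈ T
      · obtain ⟨a, ha, hab⟩ := chi_om hi hj hji hA ξ hb hN
        rw [R7_chi_om] at hab
        refine ⟨a ^ q j * (a ^ p j)⁻¹, mul_ne_zero (pow_ne_zero _ ha) (inv_ne_zero (pow_ne_zero _ ha)), ?_⟩
        rw [hab, ← map_pow, ← map_pow, ← map_mul]
        congr 1
        rw [mul_assoc, inv_mul_cancel₀ (pow_ne_zero _ ha), mul_one]
      · obtain ⟨h1, h2⟩ := hp j hj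
        exact ⟨1, one_ne_zero, by rw [map_one, one_mul, h1, h2]⟩
  choose a ha hab using hstep
  refine ⟨∏ j, a j, Finset.prod_ne_zero_iff.2 fun j _ => ha j, ?_⟩
  unfold chi
  rw [map_prod, ← Finset.prod_mul_distrib]
  exact Finset.prod_congr rfl fun j _ => hab j

end

end Pool.Agent.MP_cfacaa_ag.Fl
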