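import Pool.Agent.Lib.MP_cfacaa_ag.Fl.R5
import Pool.Agent.Lib.MP_cfacaa_ag.Fl.R6
import Pool.Agent.Lib.MP_cfacaa_ag.Fl.R7
import Pool.Agent.Lib.MP_cfacaa_ag.Fl.E1b
import Pool.Agent.Lib.MP_cfacaa_ag.Fl.E3b

/-! Row ft-R8: sections of degree zero on the fibre are constant. -/

namespace Pool.Agent.MP_cfacaa_ag.Fl

open MvPolynomial

section

variable {V I κ : Type} [Fintype I] [LinearOrder I] (S : FSys V I κ)

/-- The polynomial `z ↦ ev (ut (fib blk T i) z A) P`. -/
noncomputable def utP {blk : I → κ} (T : Set (Pos blk)) (i : Pos blk) (A : Matrix I I ℂ) (P : MvPolynomial (I × I) ℂ) :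
    MvPolynomial (I × I) ℂ := ev (ut (fib blk T i) (fun s => (X s : MvPolynomial (I × I) ℂ)) (fun x y => C (A x y))) P

/-- `aeval` commutes with `ev`, `ut`. -/
theorem aeval_utP {blk : I → κ} (T : Set (Pos blk)) (i : Pos blk) (A : Matrix I I ℂ) (P : MvPolynomial (I × I) ℂ)
    {L : Type} [Field L] [Algebra ℂ L] (z : I × I → L) :
    aeval z (utP T i A P) = ev (ut (fib blk T i) z (ext A)) P := by
  unfold utP ev
  rw [MvPolynomial.comp_aeval_apply]
  congr 1
  congr 1
  funext p
  unfold ut ext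
  rw [map_add, aeval_C, map_sum]
  congr 1
  refine Finset.sum_congr rfl fun y _ => ?_
  rw [map_mul, aeval_C, apply_ite (aeval z), aeval_X, map_zero]

/-- the value at `0` -/
theorem constantCoeff_utP {blk : I → κ} (T : Set (Pos blk)) (i : Pos blk) (A : Matrix I I ℂ)
    (P : MvPolynomial (I × I) ℂ) : constantCoeff (utP T i A P) = ev A P := by
  have h1 : ut (fib blk T i) (0 : I × I → ℂ) (ext A) = A := by
    funext x y
    unfold ut ext
    simp
  have h2 := aeval_utP T i A P (0 : I × I → ℂ)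
  rw [h1, MvPolynomial.aeval_zero] at h2
  exact h2

/-- Two fractions of the section `s` agree at the point `ξ` of the fibre over `K`. The polynomial `g = (utP P * utP Q' - utP P' * utP Q) * utP Q * utP Q'` vanishes at all complex zeros `z` of the `utP (F v)` (there `B = ut (fib) z A` is in the cone: `bd_ut`, `det_ut`, and
`s B * Q B = P B`, `s B * Q' B = P' B` if `Q B ≠ 0`, `Q' B ≠ 0`); so it vanishes at `ξ` (`vanish_ext`). -/
theorem frac_eq {A : Matrix I I ℂ} (hA : A ∈ S.cone) {i : Pos S.blk} (hi : i ∈ S.T) {s : Matrix I I ℂ → ℂ}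
    {P Q P' Q' : MvPolynomial (I × I) ℂ} (h : ∀ B ∈ S.cone, ev B Q ≠ 0 → s B * ev B Q = ev B P)
    (h' : ∀ B ∈ S.cone, ev B Q' ≠ 0 → s B * ev B Q' = ev B P') {K : Type} [Field K] [Algebra ℂ K] (ξ : I × I → K)
    (hξ : ∀ v, ev (ut (fib S.blk S.T i) ξ (ext A)) (S.F v) = 0)
    (hQ : ev (ut (fib S.blk S.T i) ξ (ext A)) Q ≠ 0) (hQ' : ev (ut (fib S.blk S.T i) ξ (ext A)) Q' ≠ 0) :
    ev (ut (fib S.blk S.T i) ξ (ext A)) P * ev (ut (fib S.blk S.T i) ξ (ext A)) Q' =
      ev (ut (fib S.blk S.T i) ξ (ext A)) P' * ev (ut (fib S.blk S.T i) ξ (ext A)) Q := by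
  have hg : aeval ξ ((utP S.T i A P * utP S.T i A Q' - utP S.T i A P' * utP S.T i A Q) * utP S.T i A Q *
      utP S.T i A Q') = 0 := by
    refine vanish_ext (fun v => utP S.T i A (S.F v)) _ ?_ ξ ?_
    · intro z hz
      have hB : ut (fib S.blk S.T i) z (ext A) = ut (fib S.blk S.T i) z A := rfl
      have hc : ut (fib S.blk S.T i) z A ∈ S.cone := by
        refine ⟨bd_ut hi subset_rfl z hA.1, ?_, ?_⟩
        · rw [det_ut hi subset_rfl]
          exact hA.2.1
        · intro v
          have h1 := hz v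
          rw [aeval_utP, hB] at h1
          exact h1
      simp only [map_mul, map_sub, aeval_utP, hB]
      by_cases hq : ev (ut (fib S.blk S.T i) z A) Q = 0
      · rw [hq]
        ring
      by_cases hq' : ev (ut (fib S.blk S.T i) z A) Q' = 0
      · rw [hq']
        ring
      rw [← h _ hc hq, ← h' _ hc hq']
      ring
    · intro v
      show aeval ξ (utP S.T i A (S.F v)) = 0
      rw [aeval_utP]
      exact hξ v
  simp only [map_mul, map_sub, aeval_utP] at hg
  rcases mul_eq_zero.1 hg with h1 | h1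
  · rcases mul_eq_zero.1 h1 with h2 | h2
    · exact sub_eq_zero.1 h2
    · exact absurd h2 hQ
  · exact absurd h1 hQ'

end

end Pool.Agent.MP_cfacaa_ag.Fl
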