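import Pool.Agent.Lib.MP_cfacaa_ag.Fl.PDefs

/-! Row fq-X1: exchange in two pairs of the same type. -/

namespace Pool.Agent.MP_cfacaa_ag.Fl

theorem X1_aux {V R X : Type} (Γ : Ctx V R X) {φ : (Σ v, Fin (Γ.n v + 1)) → R} (h : Valid Γ φ) {v : V}
    (hv : ¬ GoodAt Γ φ v) {m m' : Fin (Γ.n v + 1)} (hm : m ≠ m') {τ : Bool} {x y : X} (hle : Γ.le τ x y)
    (h1 : Γ.pk (φ ⟨v, m⟩) = some (τ, x)) (h2 : Γ.pk (φ ⟨v, m'⟩) = some (τ, y)) :
    ∃ φ', Valid Γ φ' ∧ GoodAt Γ φ' v ∧ ∀ u, GoodAt Γ φ u → GoodAt Γ φ' u := by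
  classical
  obtain ⟨hinj, hadm⟩ := h
  have hn : Γ.n v ≠ 0 := fun h0 => hv (Or.inl h0)
  have hmate : Γ.pk (Γ.mate (φ ⟨v, m⟩)) = some (τ, x) := Γ.pk_mate _ _ h1
  have hmm : (⟨v, m⟩ : Σ v, Fin (Γ.n v + 1)) ≠ ⟨v, m'⟩ := by
    intro h0
    apply hm
    simpa using h0
  by_cases hr : ∃ σ, φ σ = Γ.mate (φ ⟨v, m⟩)
  · obtain ⟨⟨w, l⟩, hl⟩ := hr
    have hwv : w ≠ v := by
      intro h0
      subst h0
      apply hv
      refine Or.inr (Or.inr ⟨m, l, ?_, ?_, ?_⟩)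
      · intro h0
        subst h0
        exact Γ.mate_ne _ _ h1 hl.symm
      · rw [h1, hl, hmate]
      · rw [h1]; rfl
    have hne1 : (⟨v, m⟩ : Σ v, Fin (Γ.n v + 1)) ≠ ⟨w, l⟩ := fun h0 => hwv (congrArg Sigma.fst h0).symm
    have hne2 : (⟨v, m'⟩ : Σ v, Fin (Γ.n v + 1)) ≠ ⟨w, l⟩ := fun h0 => hwv (congrArg Sigma.fst h0).symm
    have e1 : (φ ∘ Equiv.swap (⟨v, m'⟩ : Σ v, Fin (Γ.n v + 1)) ⟨w, l⟩) ⟨v, m⟩ = φ ⟨v, m⟩ := by
      show φ _ = _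
      rw [Equiv.swap_apply_of_ne_of_ne hmm hne1]
    have e2 : (φ ∘ Equiv.swap (⟨v, m'⟩ : Σ v, Fin (Γ.n v + 1)) ⟨w, l⟩) ⟨v, m'⟩ = Γ.mate (φ ⟨v, m⟩) := by
      show φ _ = _
      rw [Equiv.swap_apply_left, hl]
    have e3 : (φ ∘ Equiv.swap (⟨v, m'⟩ : Σ v, Fin (Γ.n v + 1)) ⟨w, l⟩) ⟨w, l⟩ = φ ⟨v, m'⟩ := by
      show φ _ = _
      rw [Equiv.swap_apply_right]
    have e4 : ∀ σ : (Σ v, Fin (Γ.n v + 1)), σ ≠ ⟨v, m'⟩ → σ ≠ ⟨w, l⟩ →
        (φ ∘ Equiv.swap (⟨v, m'⟩ : Σ v, Fin (Γ.n v + 1)) ⟨w, l⟩) σ = φ σ := by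
      intro σ ha hb
      show φ _ = _
      rw [Equiv.swap_apply_of_ne_of_ne ha hb]
    have hFr : Γ.Fr w (φ ⟨w, l⟩) → Γ.Fr w (φ ⟨v, m'⟩) := by
      intro h0
      exact Γ.mono w (φ ⟨w, l⟩) (φ ⟨v, m'⟩) τ x y (by rw [hl, hmate]) h2 hle h0
    have hpair : ∀ b : Fin (Γ.n w + 1), b ≠ l → Γ.pk (φ ⟨w, b⟩) ≠ some (τ, x) := by
      intro b hb h0
      rcases Γ.pk_eq _ _ _ h1 h0 with h3 | h3
      · exact hwv (congrArg Sigma.fst (hinj h3))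
      · rw [← hl] at h3
        have h4 := hinj h3
        apply hb
        simpa using h4
    refine ⟨φ ∘ Equiv.swap (⟨v, m'⟩ : Σ v, Fin (Γ.n v + 1)) ⟨w, l⟩, ⟨hinj.comp (Equiv.injective _), ?_⟩, ?_, ?_⟩
    · intro σ
      by_cases ha : σ = ⟨v, m'⟩
      · subst ha
        rw [e2]
        exact Or.inr ⟨hn, by rw [hmate]; rfl⟩
      · by_cases hb : σ = ⟨w, l⟩
        · subst hb
          rw [e3]
          by_cases hw : Γ.n w = 0
          · rcases hadm ⟨w, l⟩ with h5 | h5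
            · exact Or.inl (hFr h5)
            · exact absurd hw h5.1
          · exact Or.inr ⟨hw, by rw [h2]; rfl⟩
        · rw [e4 σ ha hb]
          exact hadm σ
    · refine Or.inr (Or.inr ⟨m, m', hm, ?_, ?_⟩)
      · rw [e1, e2, h1, hmate]
      · rw [e1, h1]; rfl
    · intro u hu
      have huv : u ≠ v := fun h0 => hv (h0 ▸ hu)
      have e5 : ∀ b : Fin (Γ.n u + 1), (⟨u, b⟩ : Σ v, Fin (Γ.n v + 1)) ≠ ⟨v, m'⟩ := fun b h0 => huv (congrArg Sigma.fst h0)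
      by_cases huw : u = w
      · subst huw
        have e6 : ∀ b : Fin (Γ.n u + 1), b ≠ l → (⟨u, b⟩ : Σ v, Fin (Γ.n v + 1)) ≠ ⟨u, l⟩ := by
          intro b hb h0
          apply hb
          simpa using h0
        rcases hu with h5 | ⟨a, ha⟩ | ⟨a, b, hab, h6, h7⟩
        · exact Or.inl h5
        · by_cases hal : a = l
          · subst hal
            exact Or.inr (Or.inl ⟨a, by rw [e3]; exact hFr ha⟩)
          · exact Or.inr (Or.inl ⟨a, by rw [e4 _ (e5 a) (e6 a hal)]; exact ha⟩)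
        · have hal : a ≠ l := by
            intro h0
            subst h0
            apply hpair b hab.symm
            rw [← h6, hl, hmate]
          have hbl : b ≠ l := by
            intro h0
            subst h0
            apply hpair a hab
            rw [h6, hl, hmate]
          refine Or.inr (Or.inr ⟨a, b, hab, ?_, ?_⟩)
          · rw [e4 _ (e5 a) (e6 a hal), e4 _ (e5 b) (e6 b hbl)]
            exact h6
          · rw [e4 _ (e5 a) (e6 a hal)]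
            exact h7
      · have e6 : ∀ b : Fin (Γ.n u + 1), (φ ∘ Equiv.swap (⟨v, m'⟩ : Σ v, Fin (Γ.n v + 1)) ⟨w, l⟩) ⟨u, b⟩ = φ ⟨u, b⟩ :=
          fun b => e4 _ (e5 b) (fun h0 => huw (congrArg Sigma.fst h0))
        rcases hu with h5 | ⟨a, ha⟩ | ⟨a, b, hab, h6, h7⟩
        · exact Or.inl h5
        · exact Or.inr (Or.inl ⟨a, by rw [e6 a]; exact ha⟩)
        · exact Or.inr (Or.inr ⟨a, b, hab, by rw [e6 a, e6 b]; exact h6, by rw [e6 a]; exact h7⟩)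
  · have hr' : ∀ σ, φ σ ≠ Γ.mate (φ ⟨v, m⟩) := fun σ h0 => hr ⟨σ, h0⟩
    have e2 : Function.update φ (⟨v, m'⟩ : Σ v, Fin (Γ.n v + 1)) (Γ.mate (φ ⟨v, m⟩)) ⟨v, m'⟩ = Γ.mate (φ ⟨v, m⟩) :=
      Function.update_self _ _ _
    have e4 : ∀ σ : (Σ v, Fin (Γ.n v + 1)), σ ≠ ⟨v, m'⟩ →
        Function.update φ (⟨v, m'⟩ : Σ v, Fin (Γ.n v + 1)) (Γ.mate (φ ⟨v, m⟩)) σ = φ σ :=
      fun σ hσ => Function.update_of_ne hσ _ _
    refine ⟨Function.update φ (⟨v, m'⟩ : Σ v, Fin (Γ.n v + 1)) (Γ.mate (φ ⟨v, m⟩)), ⟨?_, ?_⟩, ?_, ?_⟩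
    · intro σ σ' hσ
      by_cases ha : σ = ⟨v, m'⟩
      · by_cases hb : σ' = ⟨v, m'⟩
        · rw [ha, hb]
        · rw [ha, e2, e4 _ hb] at hσ
          exact absurd hσ.symm (hr' σ')
      · by_cases hb : σ' = ⟨v, m'⟩
        · rw [hb, e2, e4 _ ha] at hσ
          exact absurd hσ (hr' σ)
        · rw [e4 _ ha, e4 _ hb] at hσ
          exact hinj hσ
    · intro σ
      by_cases ha : σ = ⟨v, m'⟩
      · subst ha
        rw [e2]
        exact Or.inr ⟨hn, by rw [hmate]; rfl⟩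
      · rw [e4 _ ha]
        exact hadm σ
    · refine Or.inr (Or.inr ⟨m, m', hm, ?_, ?_⟩)
      · rw [e4 _ hmm, e2, h1, hmate]
      · rw [e4 _ hmm, h1]; rfl
    · intro u hu
      have huv : u ≠ v := fun h0 => hv (h0 ▸ hu)
      have e6 : ∀ b : Fin (Γ.n u + 1), Function.update φ (⟨v, m'⟩ : Σ v, Fin (Γ.n v + 1)) (Γ.mate (φ ⟨v, m⟩)) ⟨u, b⟩ = φ ⟨u, b⟩ :=
        fun b => e4 _ (fun h0 => huv (congrArg Sigma.fst h0))
      rcases hu with h5 | ⟨a, ha⟩ | ⟨a, b, hab, h6, h7⟩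
      · exact Or.inl h5
      · exact Or.inr (Or.inl ⟨a, by rw [e6 a]; exact ha⟩)
      · exact Or.inr (Or.inr ⟨a, b, hab, by rw [e6 a, e6 b]; exact h6, by rw [e6 a]; exact h7⟩)

/-- `v` is not good: `n v ≠ 0`, no slot of `v` is at a free root, no two slots of `v` are in the same pair; so `x ≠ y`. By `total` we may assume `le τ x y` (otherwise exchange `m`, `m'`). Let `s₁ = φ ⟨v, m⟩`, `s₂ = φ ⟨v, m'⟩`, `s₁' = mate s₁` (in the same pair as `s₁`).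
(1) `s₁'` is not in the range of `φ`: `φ' = Function.update φ ⟨v, m'⟩ s₁'`; injective, admissible (`n v ≠ 0`, `pk s₁'` is some), `v` is good (`m`, `m'`), nothing changes for `u ≠ v`.
(2) `s₁' = φ τ`, `τ = ⟨w, _⟩`; `w ≠ v` (otherwise `v` has two slots in one pair). `φ' = φ ∘ Equiv.swap ⟨v, m'⟩ τ`: `φ' ⟨v, m'⟩ = s₁'`, `φ' τ = s₂`. Admissible at `τ`: if `n w ≠ 0` because `pk s₂` is some; if `n w = 0` then `Fr w s₁'`, so `Fr w s₂` by `mono`. `v` is good. If `w` was good: `n w = 0`: still; a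
free slot `≠ τ` remains, and if `τ` was free, then `Fr w s₁'` gives `Fr w s₂`; two slots of `w` in the same pair: none of them is `τ` (the pair of `s₁'` consists of `s₁` and `s₁'`, `s₁` is the root of `⟨v, m⟩`), so they remain. The others do not change. -/
theorem step_same {V R X : Type} (Γ : Ctx V R X) {φ : (Σ v, Fin (Γ.n v + 1)) → R} (h : Valid Γ φ) {v : V}
    (hv : ¬ GoodAt Γ φ v) {m m' : Fin (Γ.n v + 1)} (hm : m ≠ m') {τ : Bool} {x y : X}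
    (h1 : Γ.pk (φ ⟨v, m⟩) = some (τ, x)) (h2 : Γ.pk (φ ⟨v, m'⟩) = some (τ, y)) :
    ∃ φ', Valid Γ φ' ∧ GoodAt Γ φ' v ∧ ∀ u, GoodAt Γ φ u → GoodAt Γ φ' u := by
  rcases Γ.total τ x y with hle | hle
  · exact X1_aux Γ h hv hm hle h1 h2
  · exact X1_aux Γ h hv hm.symm hle h2 h1

end Pool.Agent.MP_cfacaa_ag.Fl
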