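import Pool.Agent.Lib.MP_cfacaa_ag.Fl.X1

/-! Row fq-X2: exchange, general case. -/

namespace Pool.Agent.MP_cfacaa_ag.Fl

theorem X2_congr {V R X : Type} (Γ : Ctx V R X) {φ φ' : (Σ v, Fin (Γ.n v + 1)) → R} {u : V}
    (h : ∀ k, φ' ⟨u, k⟩ = φ ⟨u, k⟩) (hg : GoodAt Γ φ u) : GoodAt Γ φ' u := by
  unfold GoodAt at hg ⊢
  simp only [h]
  exact hg

theorem X2_ne {V R X : Type} (Γ : Ctx V R X) {u v : V} (h : u ≠ v) (k : Fin (Γ.n u + 1))
    (m : Fin (Γ.n v + 1)) : (⟨u, k⟩ : Σ v, Fin (Γ.n v + 1)) ≠ ⟨v, m⟩ :=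
  fun e => h (congrArg Sigma.fst e)

theorem X2_ne' {V R X : Type} (Γ : Ctx V R X) {w : V} {l l' : Fin (Γ.n w + 1)} (h : l' ≠ l) :
    (⟨w, l'⟩ : Σ v, Fin (Γ.n v + 1)) ≠ ⟨w, l⟩ := fun e => h (by
  rw [Sigma.mk.injEq] at e
  exact eq_of_heq e.2)

theorem X2_update {V R X : Type} (Γ : Ctx V R X) {φ : (Σ v, Fin (Γ.n v + 1)) → R} (h : Valid Γ φ)
    {v : V} (hv : ¬ GoodAt Γ φ v) (m : Fin (Γ.n v + 1)) {r : R} (hr : Γ.Fr v r) (hrng : ∀ σ, φ σ ≠ r) :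
    ∃ φ', Valid Γ φ' ∧ GoodAt Γ φ' v ∧ ∀ u, GoodAt Γ φ u → GoodAt Γ φ' u := by
  classical
  refine ⟨Function.update φ ⟨v, m⟩ r, ⟨?_, ?_⟩, Or.inr (Or.inl ⟨m, ?_⟩), ?_⟩
  · intro a b hab
    by_cases ha : a = ⟨v, m⟩
    · by_cases hb : b = ⟨v, m⟩
      · rw [ha, hb]
      · rw [ha, Function.update_self, Function.update_of_ne hb] at hab
        exact absurd hab.symm (hrng b)
    · by_cases hb : b = ⟨v, m⟩
      · rw [hb, Function.update_self, Function.update_of_ne ha] at hab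
        exact absurd hab (hrng a)
      · rw [Function.update_of_ne ha, Function.update_of_ne hb] at hab
        exact h.1 hab
  · intro σ
    by_cases hσ : σ = ⟨v, m⟩
    · subst hσ
      rw [Function.update_self]
      exact Or.inl hr
    · rw [Function.update_of_ne hσ]
      exact h.2 σ
  · rw [Function.update_self]
    exact hr
  · intro u hu
    have huv : u ≠ v := fun e => hv (e ▸ hu)
    exact X2_congr Γ (fun k => Function.update_of_ne (X2_ne Γ huv k m) _ _) hu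

theorem X2_swap {V R X : Type} (Γ : Ctx V R X) {φ : (Σ v, Fin (Γ.n v + 1)) → R} (h : Valid Γ φ)
    {v w : V} (hwv : w ≠ v) (m : Fin (Γ.n v + 1)) (l : Fin (Γ.n w + 1)) (hr : Γ.Fr v (φ ⟨w, l⟩))
    (ha : Γ.Fr w (φ ⟨v, m⟩) ∨ (Γ.n w ≠ 0 ∧ (Γ.pk (φ ⟨v, m⟩)).isSome)) :
    ∃ φ', Valid Γ φ' ∧ GoodAt Γ φ' v ∧ (∀ u, u ≠ w → GoodAt Γ φ u → GoodAt Γ φ' u) ∧
      φ' ⟨w, l⟩ = φ ⟨v, m⟩ ∧ ∀ l', l' ≠ l → φ' ⟨w, l'⟩ = φ ⟨w, l'⟩ := by
  classical
  set e : Equiv.Perm (Σ v, Fin (Γ.n v + 1)) := Equiv.swap ⟨v, m⟩ ⟨w, l⟩ with he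
  have e1 : e ⟨v, m⟩ = ⟨w, l⟩ := Equiv.swap_apply_left _ _
  have e2 : e ⟨w, l⟩ = ⟨v, m⟩ := Equiv.swap_apply_right _ _
  have e3 : ∀ σ, σ ≠ ⟨v, m⟩ → σ ≠ ⟨w, l⟩ → e σ = σ := fun σ h1 h2 =>
    Equiv.swap_apply_of_ne_of_ne h1 h2
  have hgv : GoodAt Γ (φ ∘ e) v := Or.inr (Or.inl ⟨m, by
    rw [Function.comp_apply, e1]
    exact hr⟩)
  refine ⟨φ ∘ e, ⟨h.1.comp e.injective, ?_⟩, hgv, ?_, ?_, ?_⟩
  · intro σ
    by_cases h1 : σ = ⟨v, m⟩
    · subst h1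
      rw [Function.comp_apply, e1]
      exact Or.inl hr
    · by_cases h2 : σ = ⟨w, l⟩
      · subst h2
        rw [Function.comp_apply, e2]
        exact ha
      · rw [Function.comp_apply, e3 σ h1 h2]
        exact h.2 σ
  · intro u huw hu
    by_cases huv : u = v
    · rw [huv]
      exact hgv
    · exact X2_congr Γ (fun k => by
        rw [Function.comp_apply, e3 _ (X2_ne Γ huv k m) (X2_ne Γ huw k l)]) hu
  · rw [Function.comp_apply, e2]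
  · intro l' hl
    rw [Function.comp_apply, e3 _ (X2_ne Γ hwv l' m) (X2_ne' Γ hl)]

theorem X2_main {V R X : Type} (Γ : Ctx V R X) {φ : (Σ v, Fin (Γ.n v + 1)) → R} (h : Valid Γ φ)
    {v : V} (hv : ¬ GoodAt Γ φ v) {m m' : Fin (Γ.n v + 1)} {x y : X}
    (h1 : Γ.pk (φ ⟨v, m⟩) = some (true, x)) (h2 : Γ.pk (φ ⟨v, m'⟩) = some (false, y)) :
    ∃ φ', Valid Γ φ' ∧ GoodAt Γ φ' v ∧ ∀ u, GoodAt Γ φ u → GoodAt Γ φ' u := by
  classical
  have hnv : Γ.n v ≠ 0 := fun h0 => hv (Or.inl h0)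
  have hnf : ∀ m, ¬ Γ.Fr v (φ ⟨v, m⟩) := fun m hm => hv (Or.inr (Or.inl ⟨m, hm⟩))
  obtain ⟨r, hr0, hr1, hr2⟩ := Γ.cross _ _ x y h1 h2
  by_cases hrng : ∀ σ, φ σ ≠ r
  · exact X2_update Γ h hv m (hr1 v hnv) hrng
  push Not at hrng
  obtain ⟨⟨w, l⟩, hτ⟩ := hrng
  have hwv : w ≠ v := by
    rintro rfl
    exact hnf l (hτ ▸ hr1 w hnv)
  have hFr : Γ.Fr v (φ ⟨w, l⟩) := by
    rw [hτ]
    exact hr1 v hnv
  by_cases hnw : Γ.n w = 0
  · -- the equation `w` has one slot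
    have hFw : Γ.Fr w r := by
      rcases h.2 ⟨w, l⟩ with h3 | h3
      · rw [hτ] at h3
        exact h3
      · exact absurd hnw h3.1
    have key : ∀ ρ : Fin (Γ.n v + 1), Γ.Fr w (φ ⟨v, ρ⟩) →
        ∃ φ', Valid Γ φ' ∧ GoodAt Γ φ' v ∧ ∀ u, GoodAt Γ φ u → GoodAt Γ φ' u := by
      intro ρ hρ
      obtain ⟨φ', g1, g2, g3, -, -⟩ := X2_swap Γ h hwv ρ l hFr (Or.inl hρ)
      refine ⟨φ', g1, g2, fun u hu => ?_⟩
      by_cases huw : u = w
      · rw [huw]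
        exact Or.inl hnw
      · exact g3 u huw hu
    rcases hr2 w hnw hFw with h3 | h3
    · exact key m h3
    · exact key m' h3
  · -- the equation `w` has other slots
    have key : ∀ (ρ : Fin (Γ.n v + 1)) (b : Bool) (z : X), Γ.pk (φ ⟨v, ρ⟩) = some (b, z) →
        ∀ (l' : Fin (Γ.n w + 1)) (z' : X), l' ≠ l → Γ.pk (φ ⟨w, l'⟩) = some (b, z') →
        ∃ φ', Valid Γ φ' ∧ GoodAt Γ φ' v ∧ ∀ u, GoodAt Γ φ u → GoodAt Γ φ' u := by
      intro ρ b z hρ l' z' hl hz'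
      obtain ⟨φ', g1, g2, g3, g4, g5⟩ := X2_swap Γ h hwv ρ l hFr (Or.inr ⟨hnw, by rw [hρ]; rfl⟩)
      by_cases hgw : GoodAt Γ φ' w
      · refine ⟨φ', g1, g2, fun u hu => ?_⟩
        by_cases huw : u = w
        · rw [huw]
          exact hgw
        · exact g3 u huw hu
      · obtain ⟨φ'', k1, k2, k3⟩ := step_same Γ g1 hgw (m := l) (m' := l') hl.symm (τ := b)
          (x := z) (y := z') (by rw [g4, hρ]) (by rw [g5 l' hl, hz'])
        refine ⟨φ'', k1, k3 v g2, fun u hu => ?_⟩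
        by_cases huw : u = w
        · rw [huw]
          exact k2
        · exact k3 u (g3 u huw hu)
    have keep : (∀ {φ' : (Σ v, Fin (Γ.n v + 1)) → R}, (∀ l', l' ≠ l → φ' ⟨w, l'⟩ = φ ⟨w, l'⟩) →
        GoodAt Γ φ' w) → ∃ φ', Valid Γ φ' ∧ GoodAt Γ φ' v ∧ ∀ u, GoodAt Γ φ u → GoodAt Γ φ' u := by
      intro hk
      obtain ⟨φ', g1, g2, g3, -, g5⟩ := X2_swap Γ h hwv m l hFr (Or.inr ⟨hnw, by rw [h1]; rfl⟩)
      refine ⟨φ', g1, g2, fun u hu => ?_⟩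
      by_cases huw : u = w
      · rw [huw]
        exact hk g5
      · exact g3 u huw hu
    -- another free slot
    by_cases hf : ∃ l', l' ≠ l ∧ Γ.Fr w (φ ⟨w, l'⟩)
    · obtain ⟨l', hl, hf'⟩ := hf
      exact keep fun hk => Or.inr (Or.inl ⟨l', by rw [hk l' hl]; exact hf'⟩)
    push Not at hf
    obtain ⟨l', hl⟩ : ∃ l' : Fin (Γ.n w + 1), l' ≠ l := by
      have : Nontrivial (Fin (Γ.n w + 1)) := Fin.nontrivial_iff_two_le.2 (by omega)
      exact exists_ne l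
    rcases h.2 ⟨w, l'⟩ with h3 | ⟨-, h3⟩
    · exact absurd h3 (hf l' hl)
    · obtain ⟨⟨b, z'⟩, hz'⟩ := Option.isSome_iff_exists.1 h3
      cases b with
      | true => exact key m true x h1 l' z' hl hz'
      | false => exact key m' false y h2 l' z' hl hz'

/-- `v` is not good: `n v ≠ 0`, so it has two different slots `σ₀ = ⟨v, 0⟩`, `σ₁ = ⟨v, 1⟩`; their roots are not free, so they are in pairs. If the pairs have the same type: `step_same`. Otherwise let `σ` be the slot in the row pair (type `true`), root `s`, and `σ'` the slot in the column pair, root `s'`; let `r` be as in `cross`.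
(1) `r` is not in the range of `φ`: `φ' = update φ σ r`: admissible (`Fr v r`), `v` is good, the others do not change.
(2) `r = φ τ`, `τ = ⟨w, _⟩`, `w ≠ v` (`Fr v r`, but `v` has no free slot). For a slot `ρ ∈ {σ, σ'}` let `φ_ρ = φ ∘ swap ρ τ` (`φ_ρ ρ = r`, `φ_ρ τ = φ ρ`): `v` is good in it, and all `u ≠ v, w` do not change.
(2a) `n w = 0`: `Fr w r`, so `Fr w s` or `Fr w s'`: take `ρ = σ` or `σ'`: admissible; `w` is good as `n w = 0`.
(2b) `n w ≠ 0`: both are admissible (`pk (φ ρ)` is some). If `w` has a free slot `≠ τ` or two slots in the same pair (not `τ`, as `pk r = none`), `w` is good in `φ_σ`. Otherwise `w` has another slot `τ' ≠ τ` (`n w ≠ 0`), its root is not free, so it is in a pair of some type; take the `ρ` of this type. In `φ_ρ` the slots `τ`, `τ'` of `w` are in pairs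
of the same type: if `w` is good in `φ_ρ` done; otherwise apply `step_same` to `φ_ρ` and `w`: in the result `w` is good, and all equations good in `φ_ρ` (also `v`, and all `u ≠ w` good in `φ`) remain good. -/
theorem step {V R X : Type} (Γ : Ctx V R X) {φ : (Σ v, Fin (Γ.n v + 1)) → R} (h : Valid Γ φ) {v : V}
    (hv : ¬ GoodAt Γ φ v) : ∃ φ', Valid Γ φ' ∧ GoodAt Γ φ' v ∧ ∀ u, GoodAt Γ φ u → GoodAt Γ φ' u := by
  have hnv : Γ.n v ≠ 0 := fun h0 => hv (Or.inl h0)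
  have hpk : ∀ m, ∃ b x, Γ.pk (φ ⟨v, m⟩) = some (b, x) := by
    intro m
    rcases h.2 ⟨v, m⟩ with h1 | ⟨-, h1⟩
    · exact absurd (Or.inr (Or.inl ⟨m, h1⟩)) hv
    · obtain ⟨⟨b, x⟩, hx⟩ := Option.isSome_iff_exists.1 h1
      exact ⟨b, x, hx⟩
  obtain ⟨m', hm⟩ : ∃ m' : Fin (Γ.n v + 1), m' ≠ 0 := by
    have : Nontrivial (Fin (Γ.n v + 1)) := Fin.nontrivial_iff_two_le.2 (by omega)
    exact exists_ne 0
  obtain ⟨b, x, h1⟩ := hpk 0
  obtain ⟨b', y, h2⟩ := hpk m'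
  cases b with
  | true =>
    cases b' with
    | true => exact step_same Γ h hv hm.symm h1 h2
    | false => exact X2_main Γ h hv h1 h2
  | false =>
    cases b' with
    | true => exact X2_main Γ h hv h2 h1
    | false => exact step_same Γ h hv hm.symm h1 h2

end Pool.Agent.MP_cfacaa_ag.Fl
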